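import Mathlib

set_option autoImplicit false
set_option linter.unusedSectionVars false

/-!
Trivariate cofactor chain complexes and coning.
-/

namespace Q138.Cofactor

/-- The polynomial ring `ℝ[x, y, z]`. -/
abbrev Poly : Type := MvPolynomial (Fin 3) ℝ

/-- The affine form `A 0 x + A 1 y + A 2 z + D`. -/
noncomputable def aff (A : Fin 3 → ℝ) (D : ℝ) : Poly :=
  ∑ i, MvPolynomial.C (A i) * MvPolynomial.X i + MvPolynomial.C D

variable {α : Type} [Fintype α] [LinearOrder α]

/-- The space of affine forms that vanish at the points `p v`, `v ∈ ψ`. -/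
def I1 (p : α → (Fin 3 → ℝ)) (ψ : Finset α) : Submodule ℝ Poly where
  carrier := {l | (∃ A D, l = aff A D) ∧ ∀ v ∈ ψ, MvPolynomial.eval (p v) l = 0}
  add_mem' := by
    rintro _ _ ⟨⟨A, D, rfl⟩, h⟩ ⟨⟨A', D', rfl⟩, h'⟩
    refine ⟨⟨A + A', D + D', ?_⟩, fun v hv => by rw [map_add, h v hv, h' v hv, add_zero]⟩
    unfold aff
    simp only [Pi.add_apply, map_add, add_mul, Finset.sum_add_distrib]
    ring
  zero_mem' := by
    refine ⟨⟨0, 0, ?_⟩, fun v _ => map_zero _⟩
    unfold aff
    simp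
  smul_mem' := by
    rintro t _ ⟨⟨A, D, rfl⟩, h⟩
    refine ⟨⟨t • A, t * D, ?_⟩, fun v hv => ?_⟩
    · unfold aff
      rw [MvPolynomial.smul_eq_C_mul, mul_add, Finset.mul_sum, map_mul]
      congr 1
      refine Finset.sum_congr rfl fun i _ => ?_
      rw [Pi.smul_apply, smul_eq_mul, map_mul, mul_assoc]
    · rw [MvPolynomial.smul_eq_C_mul, map_mul, h v hv, mul_zero]

/-- The space `I^s_ψ(p)`: all polynomials of degree at most `s` if `ψ = ∅`, and the span of the
powers `ℓ ^ s` of the affine forms `ℓ` vanishing at `p v`, `v ∈ ψ`, otherwise. -/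
noncomputable def I (p : α → (Fin 3 → ℝ)) (s : ℕ) (ψ : Finset α) : Submodule ℝ Poly :=
  if ψ = ∅ then MvPolynomial.restrictTotalDegree (Fin 3) ℝ s
  else Submodule.span ℝ {f | ∃ l ∈ I1 p ψ, f = l ^ s}

/-- The incidence number `Sign(ψ \ {v}, ψ)` for `v ∈ ψ`. Here `o ψ = 1` if `ψ` is oriented by the
increasing order of its vertices and `o ψ = -1` if `ψ` has the opposite orientation. -/
def sgn (o : Finset α → ℤˣ) (ψ : Finset α) (v : α) : ℝ :=
  ((o (ψ.erase v) * o ψ : ℤˣ) : ℤ) * (-1) ^ (ψ.filter (· < v)).card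

/-- The boundary map `∂ (c [ψ]) = ∑_{v ∈ ψ} Sign(ψ \ {v}, ψ) c [ψ \ {v}]`. A chain is a function
on simplices, so the value of `∂ c` at `θ` is the sum of `Sign(θ, θ ∪ {v}) c(θ ∪ {v})` over all
`v ∉ θ`. -/
noncomputable def bd (o : Finset α → ℤˣ) : (Finset α → Poly) →ₗ[ℝ] (Finset α → Poly) where
  toFun c := fun θ => ∑ v ∈ θᶜ, sgn o (insert v θ) v • c (insert v θ)
  map_add' c c' := by
    funext θ
    simp only [Pi.add_apply, smul_add, Finset.sum_add_distrib]
  map_smul' t c := by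
    funext θ
    simp only [Pi.smul_apply, RingHom.id_apply, Finset.smul_sum]
    exact Finset.sum_congr rfl fun v _ => smul_comm _ _ _

/-- `Δ` is a finite abstract simplicial complex of dimension at most 2 (a set of simplices
including `∅`). -/
def IsComplex (Δ : Finset (Finset α)) : Prop :=
  ∅ ∈ Δ ∧ (∀ ψ ∈ Δ, ∀ θ, θ ⊆ ψ → θ ∈ Δ) ∧ ∀ ψ ∈ Δ, ψ.card ≤ 3

/-- The chain group `⨁ I^s_ψ(p)`, the sum over all simplices `ψ ∈ Δ` with `k` vertices, as a
space of functions on simplices. -/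
noncomputable def chains (Δ : Finset (Finset α)) (p : α → (Fin 3 → ℝ)) (s k : ℕ) :
    Submodule ℝ (Finset α → Poly) where
  carrier := {c | ∀ ψ, c ψ ∈ if ψ ∈ Δ ∧ ψ.card = k then I p s ψ else ⊥}
  add_mem' := fun ha hb ψ => Submodule.add_mem _ (ha ψ) (hb ψ)
  zero_mem' := fun _ => Submodule.zero_mem _
  smul_mem' := fun t _ hc ψ => Submodule.smul_mem _ t (hc ψ)

/-- The cycles in degree `k - 1`. -/
noncomputable def cycles (Δ : Finset (Finset α)) (p : α → (Fin 3 → ℝ)) (o : Finset α → ℤˣ)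
    (s k : ℕ) : Submodule ℝ (Finset α → Poly) :=
  chains Δ p s k ⊓ LinearMap.ker (bd o)

/-- The boundaries in degree `k - 1`. -/
noncomputable def boundaries (Δ : Finset (Finset α)) (p : α → (Fin 3 → ℝ)) (o : Finset α → ℤˣ)
    (s k : ℕ) : Submodule ℝ (Finset α → Poly) :=
  (chains Δ p s (k + 1)).map (bd o)

/-- The Betti number in degree `k - 1` of the cofactor complex of `Δ` with parameter `s`. -/
noncomputable def betti (Δ : Finset (Finset α)) (p : α → (Fin 3 → ℝ)) (o : Finset α → ℤˣ)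
    (s k : ℕ) : ℕ :=
  Module.finrank ℝ
    (cycles Δ p o s k ⧸ (boundaries Δ p o s k).submoduleOf (cycles Δ p o s k))

/-- The truncated cone over `Δ` with apex `w`. -/
def cone (w : α) (Δ : Finset (Finset α)) : Finset (Finset α) :=
  Δ ∪ (Δ.filter fun ψ => ψ.card ≤ 2).image (insert w)

/-- The point `p w` lies in no proper affine subspace spanned by points `p v`, where the `v` are
vertices of `Δ`. -/
def GeneralPosition (w : α) (Δ : Finset (Finset α)) (p : α → (Fin 3 → ℝ)) : Prop :=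
  ∀ S : Set α, (∀ v ∈ S, {v} ∈ Δ) → affineSpan ℝ (p '' S) ≠ ⊤ → p w ∉ affineSpan ℝ (p '' S)

/-! ### interpolation and powers -/

theorem coeff_mem {M : Type} [AddCommGroup M] [Module ℝ M] (T : Submodule ℝ M) (n : ℕ) :
    ∀ v : ℕ → M, (∀ t : ℝ, t ≠ 0 → ∑ j ∈ Finset.range (n + 1), t ^ j • v j ∈ T) →
      ∀ j ≤ n, v j ∈ T := by
  induction n with
  | zero =>
    intro v h j hj
    obtain rfl : j = 0 := by omega
    have := h 1 one_ne_zero
    simpa using this
  | succ n ih =>
    intro v h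
    have key : ∀ j ≤ n, ((2 : ℝ) ^ j - 2 ^ (n + 1)) • v j ∈ T := by
      apply ih (fun j => ((2 : ℝ) ^ j - 2 ^ (n + 1)) • v j)
      intro t ht
      have h1 := h (2 * t) (by positivity)
      have h2 := T.smul_mem ((2 : ℝ) ^ (n + 1)) (h t ht)
      have h3 := T.sub_mem h1 h2
      convert h3 using 1
      rw [Finset.smul_sum, ← Finset.sum_sub_distrib, Finset.sum_range_succ _ (n + 1)]
      rw [smul_smul, ← sub_smul, mul_pow, sub_self, zero_smul, add_zero]
      refine Finset.sum_congr rfl fun j _ => ?_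
      rw [smul_smul, smul_smul, ← sub_smul]
      congr 1
      ring
    have key2 : ∀ j ≤ n, v j ∈ T := by
      intro j hj
      have h1 : ((2 : ℝ) ^ j - 2 ^ (n + 1)) ≠ 0 := by
        have : (2 : ℝ) ^ j < 2 ^ (n + 1) := pow_lt_pow_right₀ (by norm_num) (by omega)
        linarith
      have := T.smul_mem ((2 : ℝ) ^ j - 2 ^ (n + 1))⁻¹ (key j hj)
      rwa [smul_smul, inv_mul_cancel₀ h1, one_smul] at this
    intro j hj
    rcases Nat.lt_or_ge n j with h1 | h1
    · obtain rfl : j = n + 1 := by omega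
      have h2 := h 1 one_ne_zero
      rw [Finset.sum_range_succ] at h2
      have h3 : ∑ x ∈ Finset.range (n + 1), (1 : ℝ) ^ x • v x ∈ T := by
        refine T.sum_mem fun x hx => T.smul_mem _ (key2 x ?_)
        rw [Finset.mem_range] at hx
        omega
      have := T.sub_mem h2 h3
      simpa using this
    · exact key2 j h1

/-- powers of elements of a subspace -/
noncomputable def pw (W : Submodule ℝ Poly) (s : ℕ) : Submodule ℝ Poly :=
  Submodule.span ℝ {f | ∃ l ∈ W, f = l ^ s}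

theorem pow_mem_pw {W : Submodule ℝ Poly} {l : Poly} (hl : l ∈ W) (s : ℕ) : l ^ s ∈ pw W s :=
  Submodule.subset_span ⟨l, hl, rfl⟩

theorem add_pow_expand (l m : Poly) (t : ℝ) (s : ℕ) :
    (l + t • m) ^ s = ∑ j ∈ Finset.range (s + 1), t ^ j • ((s.choose j : ℝ) • (l ^ (s - j) * m ^ j)) := by
  rw [add_comm, add_pow]
  refine Finset.sum_congr rfl fun j _ => ?_
  rw [smul_pow, smul_smul]
  simp only [MvPolynomial.smul_eq_C_mul, map_mul, map_pow, map_natCast]
  ring

theorem mul_pow_mem {W : Submodule ℝ Poly} {l m : Poly} (hl : l ∈ W) (hm : m ∈ W) (s : ℕ) :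
    m * l ^ s ∈ pw W (s + 1) := by
  have h := coeff_mem (pw W (s + 1)) (s + 1)
    (fun j => ((s + 1).choose j : ℝ) • (l ^ (s + 1 - j) * m ^ j)) (fun t _ => by
      rw [← add_pow_expand]
      exact pow_mem_pw (W.add_mem hl (W.smul_mem t hm)) _) 1 (by omega)
  have h1 : (((s + 1).choose 1 : ℕ) : ℝ) ≠ 0 := by
    rw [Nat.choose_one_right]; positivity
  have h2 := (pw W (s + 1)).smul_mem (((s + 1).choose 1 : ℕ) : ℝ)⁻¹ h
  rw [smul_smul, inv_mul_cancel₀ h1, one_smul, Nat.add_sub_cancel, pow_one] at h2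
  rwa [mul_comm]

theorem mul_mem_pw {W : Submodule ℝ Poly} {f m : Poly} {s : ℕ} (hf : f ∈ pw W s) (hm : m ∈ W) :
    m * f ∈ pw W (s + 1) := by
  unfold pw at hf
  induction hf using Submodule.span_induction with
  | mem x hx =>
    obtain ⟨l, hl, rfl⟩ := hx
    exact mul_pow_mem hl hm s
  | zero => rw [mul_zero]; exact Submodule.zero_mem _
  | add x y _ _ hx hy => rw [mul_add]; exact Submodule.add_mem _ hx hy
  | smul t x _ hx => rw [mul_smul_comm]; exact Submodule.smul_mem _ t hx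

theorem pw_mono {W W' : Submodule ℝ Poly} (h : W ≤ W') (s : ℕ) : pw W s ≤ pw W' s :=
  Submodule.span_mono fun _ ⟨l, hl, e⟩ => ⟨l, h hl, e⟩

/-! ### the polar derivative -/

/-- the polar derivative of degree `n` with respect to the point `w` -/
noncomputable def D (w : Fin 3 → ℝ) (n : ℕ) : Poly →ₗ[ℝ] Poly :=
  (n : ℝ) • LinearMap.id +
    ∑ i, (LinearMap.mulLeft ℝ (MvPolynomial.C (w i) - MvPolynomial.X i)) ∘ₗ
      (MvPolynomial.pderiv i : Derivation ℝ Poly Poly).toLinearMap

theorem D_apply (w : Fin 3 → ℝ) (n : ℕ) (f : Poly) :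
    D w n f = (n : ℝ) • f +
      ∑ i, (MvPolynomial.C (w i) - MvPolynomial.X i) * MvPolynomial.pderiv i f := by
  unfold D
  simp

theorem pderiv_aff (A : Fin 3 → ℝ) (e : ℝ) (i : Fin 3) :
    MvPolynomial.pderiv i (aff A e) = MvPolynomial.C (A i) := by
  unfold aff
  rw [map_add, map_sum, MvPolynomial.pderiv_C, add_zero, Finset.sum_eq_single i]
  · rw [MvPolynomial.pderiv_C_mul, MvPolynomial.pderiv_X_self, mul_one]
  · intro j _ hj
    rw [MvPolynomial.pderiv_C_mul, MvPolynomial.pderiv_X_of_ne hj, mul_zero]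
  · intro h
    exact absurd (Finset.mem_univ _) h

theorem eval_aff (A : Fin 3 → ℝ) (e : ℝ) (x : Fin 3 → ℝ) :
    MvPolynomial.eval x (aff A e) = ∑ i, A i * x i + e := by
  unfold aff
  simp

theorem D_aff_pow (w : Fin 3 → ℝ) (n : ℕ) (A : Fin 3 → ℝ) (e : ℝ) :
    D w (n + 1) (aff A e ^ (n + 1)) =
      ((n + 1 : ℝ) * MvPolynomial.eval w (aff A e)) • aff A e ^ n := by
  rw [D_apply]
  have h1 : ∀ i : Fin 3, MvPolynomial.pderiv i (aff A e ^ (n + 1)) =
      MvPolynomial.C ((n + 1 : ℝ) * A i) * aff A e ^ n := by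
    intro i
    rw [Derivation.leibniz_pow, pderiv_aff, Nat.add_sub_cancel, nsmul_eq_mul, smul_eq_mul,
      map_mul]
    push_cast
    rw [map_add, map_natCast, map_one]
    ring
  simp only [h1]
  rw [eval_aff]
  have h2 : aff A e = ∑ i, MvPolynomial.C (A i) * MvPolynomial.X i + MvPolynomial.C e := rfl
  simp only [MvPolynomial.smul_eq_C_mul]
  rw [pow_succ]
  nth_rewrite 2 [h2]
  simp only [Fin.sum_univ_three, map_mul, map_add, map_natCast, map_one, Nat.cast_add,
    Nat.cast_one]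
  ring

theorem D_pow_of_mem {p : α → (Fin 3 → ℝ)} {ψ : Finset α} {l : Poly} (hl : l ∈ I1 p ψ)
    (w : Fin 3 → ℝ) (n : ℕ) :
    D w (n + 1) (l ^ (n + 1)) = ((n + 1 : ℝ) * MvPolynomial.eval w l) • l ^ n := by
  obtain ⟨⟨A, e, rfl⟩, -⟩ := hl
  exact D_aff_pow w n A e

theorem I1_mono (p : α → (Fin 3 → ℝ)) {ψ θ : Finset α} (h : θ ⊆ ψ) : I1 p ψ ≤ I1 p θ :=
  fun _ hl => ⟨hl.1, fun v hv => hl.2 v (h hv)⟩

theorem mem_I1_insert (p : α → (Fin 3 → ℝ)) (ψ : Finset α) (w : α) (l : Poly) :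
    l ∈ I1 p (insert w ψ) ↔ l ∈ I1 p ψ ∧ MvPolynomial.eval (p w) l = 0 := by
  constructor
  · intro h
    exact ⟨I1_mono p (Finset.subset_insert _ _) h, h.2 w (Finset.mem_insert_self _ _)⟩
  · rintro ⟨h1, h2⟩
    refine ⟨h1.1, fun v hv => ?_⟩
    rw [Finset.mem_insert] at hv
    rcases hv with rfl | hv
    · exact h2
    · exact h1.2 v hv

theorem aff_degree (A : Fin 3 → ℝ) (e : ℝ) : (aff A e).totalDegree ≤ 1 := by
  unfold aff
  refine (MvPolynomial.totalDegree_add _ _).trans (max_le ?_ ?_)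
  · refine MvPolynomial.totalDegree_finsetSum_le fun i _ => ?_
    refine (MvPolynomial.totalDegree_mul _ _).trans ?_
    rw [MvPolynomial.totalDegree_C, MvPolynomial.totalDegree_X]
  · rw [MvPolynomial.totalDegree_C]; omega

theorem X_mem (p : α → (Fin 3 → ℝ)) (i : Fin 3) : (MvPolynomial.X i : Poly) ∈ I1 p ∅ := by
  refine ⟨⟨Pi.single i 1, 0, ?_⟩, by simp⟩
  unfold aff
  rw [Finset.sum_eq_single i]
  · simp
  · intro j _ hj
    simp [hj]
  · intro h
    exact absurd (Finset.mem_univ _) h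

theorem one_mem (p : α → (Fin 3 → ℝ)) : (1 : Poly) ∈ I1 p ∅ := by
  refine ⟨⟨0, 1, ?_⟩, by simp⟩
  unfold aff
  simp

/-- every monomial of degree at most `s` is a combination of `s`-th powers of affine forms -/
theorem monomial_mem (p : α → (Fin 3 → ℝ)) (s : ℕ) : ∀ m : Fin 3 →₀ ℕ, (m.sum fun _ e => e) ≤ s →
    (MvPolynomial.monomial m (1 : ℝ)) ∈ pw (I1 p ∅) s := by
  induction s with
  | zero =>
    intro m hm
    have : m = 0 := by
      ext i
      by_contra h
      have h1 : m i ≤ m.sum fun _ e => e := by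
        by_cases hi : i ∈ m.support
        · exact Finset.single_le_sum (f := fun i => m i) (fun _ _ => Nat.zero_le _) hi
        · rw [Finsupp.notMem_support_iff] at hi
          omega
      have h2 : m i ≠ 0 := h
      omega
    subst this
    have := pow_mem_pw (one_mem p) 0
    simpa using this
  | succ s ih =>
    intro m hm
    by_cases h : (m.sum fun _ e => e) ≤ s
    · have := mul_mem_pw (ih m h) (one_mem p)
      rwa [one_mul] at this
    · have h0 : m ≠ 0 := by
        rintro rfl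
        simp at h
      obtain ⟨i, hi⟩ := Finsupp.ne_iff.1 h0
      have hi' : m i ≠ 0 := hi
      obtain ⟨m', rfl⟩ : ∃ m', m = m' + Finsupp.single i 1 := by
        refine ⟨m - Finsupp.single i 1, ?_⟩
        ext j
        by_cases hj : j = i
        · subst hj
          simp
          omega
        · simp [Ne.symm hj]
      have h3 : (MvPolynomial.monomial (m' + Finsupp.single i 1) (1 : ℝ)) =
          MvPolynomial.X i * MvPolynomial.monomial m' (1 : ℝ) := by
        rw [MvPolynomial.monomial_add_single, pow_one, mul_comm]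
      rw [h3]
      refine mul_mem_pw (ih m' ?_) (X_mem p i)
      rw [Finsupp.sum_add_index' (fun _ => rfl) (fun _ _ _ => rfl),
        Finsupp.sum_single_index rfl] at hm
      omega

theorem I_eq (p : α → (Fin 3 → ℝ)) (s : ℕ) (ψ : Finset α) : I p s ψ = pw (I1 p ψ) s := by
  unfold I
  split_ifs with h
  · subst h
    apply le_antisymm
    · intro f hf
      rw [MvPolynomial.mem_restrictTotalDegree] at hf
      rw [f.as_sum]
      refine Submodule.sum_mem _ fun m hm => ?_
      have h1 : (MvPolynomial.monomial m (MvPolynomial.coeff m f)) =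
          (MvPolynomial.coeff m f) • (MvPolynomial.monomial m (1 : ℝ)) := by
        rw [MvPolynomial.smul_monomial, smul_eq_mul, mul_one]
      rw [h1]
      exact Submodule.smul_mem _ _ (monomial_mem p s m ((MvPolynomial.le_totalDegree hm).trans hf))
    · unfold pw
      rw [Submodule.span_le]
      rintro _ ⟨l, ⟨⟨A, e, rfl⟩, -⟩, rfl⟩
      rw [SetLike.mem_coe, MvPolynomial.mem_restrictTotalDegree]
      refine (MvPolynomial.totalDegree_pow _ _).trans ?_
      have := aff_degree A e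
      nlinarith
  · rfl

theorem I_mono (p : α → (Fin 3 → ℝ)) (s : ℕ) {ψ θ : Finset α} (h : θ ⊆ ψ) :
    I p s ψ ≤ I p s θ := by
  rw [I_eq, I_eq]
  exact pw_mono (I1_mono p h) s

/-- (F2) -/
theorem D_mem (p : α → (Fin 3 → ℝ)) (s : ℕ) (ψ : Finset α) (w : Fin 3 → ℝ) {f : Poly}
    (hf : f ∈ I p (s + 1) ψ) : D w (s + 1) f ∈ I p s ψ := by
  rw [I_eq] at hf ⊢
  unfold pw at hf
  induction hf using Submodule.span_induction with
  | mem x hx =>
    obtain ⟨l, hl, rfl⟩ := hx
    rw [D_pow_of_mem hl]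
    exact Submodule.smul_mem _ _ (pow_mem_pw hl s)
  | zero => rw [map_zero]; exact Submodule.zero_mem _
  | add x y _ _ hx hy => rw [map_add]; exact Submodule.add_mem _ hx hy
  | smul t x _ hx => rw [map_smul]; exact Submodule.smul_mem _ t hx

/-- (F5) -/
theorem D_zero (p : α → (Fin 3 → ℝ)) (s : ℕ) (ψ : Finset α) (w : α) (hw : w ∈ ψ) {f : Poly}
    (hf : f ∈ I p (s + 1) ψ) : D (p w) (s + 1) f = 0 := by
  rw [I_eq] at hf
  unfold pw at hf
  induction hf using Submodule.span_induction with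
  | mem x hx =>
    obtain ⟨l, hl, rfl⟩ := hx
    rw [D_pow_of_mem hl, hl.2 w hw, mul_zero, zero_smul]
  | zero => rw [map_zero]
  | add x y _ _ hx hy => rw [map_add, hx, hy, add_zero]
  | smul t x _ hx => rw [map_smul, hx, smul_zero]

/-- (F4) -/
theorem D_surj (p : α → (Fin 3 → ℝ)) (s : ℕ) (ψ : Finset α) (w : Fin 3 → ℝ) {l0 : Poly}
    (hl0 : l0 ∈ I1 p ψ) (hl1 : MvPolynomial.eval w l0 ≠ 0) {f : Poly} (hf : f ∈ I p s ψ) :
    ∃ g ∈ I p (s + 1) ψ, D w (s + 1) g = f := by
  rw [I_eq] at hf ⊢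
  have key : pw (I1 p ψ) s ≤ (pw (I1 p ψ) (s + 1)).map (D w (s + 1)) := by
    have h1 : ∀ m ∈ I1 p ψ, MvPolynomial.eval w m ≠ 0 →
        m ^ s ∈ (pw (I1 p ψ) (s + 1)).map (D w (s + 1)) := by
      intro m hm hm0
      have h3 : ((s + 1 : ℝ) * MvPolynomial.eval w m) ≠ 0 := mul_ne_zero (by positivity) hm0
      refine ⟨((s + 1 : ℝ) * MvPolynomial.eval w m)⁻¹ • m ^ (s + 1),
        Submodule.smul_mem _ _ (pow_mem_pw hm _), ?_⟩
      rw [map_smul, D_pow_of_mem hm, smul_smul, inv_mul_cancel₀ h3, one_smul]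
    conv_lhs => unfold pw
    rw [Submodule.span_le]
    rintro _ ⟨m, hm, rfl⟩
    by_cases hm0 : MvPolynomial.eval w m = 0
    · have h2 := coeff_mem ((pw (I1 p ψ) (s + 1)).map (D w (s + 1))) s
        (fun j => ((s).choose j : ℝ) • (m ^ (s - j) * l0 ^ j)) (fun t ht => by
          rw [← add_pow_expand]
          refine h1 _ (Submodule.add_mem _ hm (Submodule.smul_mem _ t hl0)) ?_
          rw [map_add, hm0, zero_add, MvPolynomial.smul_eval]
          exact mul_ne_zero ht hl1) 0 (Nat.zero_le _)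
      simpa using h2
    · exact h1 m hm hm0
  obtain ⟨g, hg, h⟩ := key hf
  exact ⟨g, hg, h⟩

/-- the iterated derivative -/
noncomputable def Dit (w : Fin 3 → ℝ) (n : ℕ) : ℕ → (Poly →ₗ[ℝ] Poly)
  | 0 => LinearMap.id
  | j + 1 => D w (n - j) ∘ₗ Dit w n j

theorem Dit_zero_of (w : Fin 3 → ℝ) (n : ℕ) {f : Poly} (h : D w n f = 0) (j : ℕ) (hj : j ≠ 0) :
    Dit w n j f = 0 := by
  induction j with
  | zero => exact absurd rfl hj
  | succ j ih =>
    by_cases h0 : j = 0
    · subst h0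
      exact h
    · show D w (n - j) (Dit w n j f) = 0
      rw [ih h0, map_zero]

theorem Dit_pow {p : α → (Fin 3 → ℝ)} {ψ : Finset α} {l : Poly} (hl : l ∈ I1 p ψ)
    (w : Fin 3 → ℝ) (n j : ℕ) (hj : j ≤ n) :
    Dit w n j (l ^ n) = ((n.descFactorial j : ℝ) * MvPolynomial.eval w l ^ j) • l ^ (n - j) := by
  induction j with
  | zero => simp [Dit]
  | succ j ih =>
    show D w (n - j) (Dit w n j (l ^ n)) = _
    rw [ih (by omega), map_smul]
    obtain ⟨k, hk⟩ : ∃ k, n - j = k + 1 := ⟨n - j - 1, by omega⟩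
    rw [hk, D_pow_of_mem hl, smul_smul, show n - (j + 1) = k by omega, Nat.descFactorial_succ, hk]
    congr 1
    push_cast
    ring

/-- (F3) -/
theorem D_ker (p : α → (Fin 3 → ℝ)) (s : ℕ) (ψ : Finset α) (w : α) {l0 : Poly}
    (hl0 : l0 ∈ I1 p ψ) (hl1 : MvPolynomial.eval (p w) l0 ≠ 0) {f : Poly}
    (hf : f ∈ I p s ψ) (h : D (p w) s f = 0) : f ∈ I p s (insert w ψ) := by
  have key : ∀ f ∈ I p s ψ, ∑ j ∈ Finset.range (s + 1),
      ((-1 : ℝ) ^ j / (j.factorial : ℝ) * (MvPolynomial.eval (p w) l0)⁻¹ ^ j) •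
        (l0 ^ j * Dit (p w) s j f) ∈ I p s (insert w ψ) := by
    intro f hf
    rw [I_eq] at hf ⊢
    unfold pw at hf
    induction hf using Submodule.span_induction with
    | mem x hx =>
      obtain ⟨l, hl, rfl⟩ := hx
      have h1 : l + (-(MvPolynomial.eval (p w) l * (MvPolynomial.eval (p w) l0)⁻¹)) • l0 ∈
          I1 p (insert w ψ) := by
        rw [mem_I1_insert]
        refine ⟨Submodule.add_mem _ hl (Submodule.smul_mem _ _ hl0), ?_⟩
        rw [map_add, MvPolynomial.smul_eval]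
        field_simp
        ring
      have h2 := pow_mem_pw h1 s
      rw [add_pow_expand] at h2
      convert h2 using 1
      refine Finset.sum_congr rfl fun j hj => ?_
      rw [Finset.mem_range] at hj
      rw [Dit_pow hl _ _ _ (by omega), mul_smul_comm, smul_smul, smul_smul,
        Nat.descFactorial_eq_factorial_mul_choose, mul_comm (l0 ^ j)]
      congr 1
      have h3 : (j.factorial : ℝ) ≠ 0 := by exact_mod_cast j.factorial_ne_zero
      push_cast
      rw [neg_pow (MvPolynomial.eval (p w) l * _), mul_pow]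
      field_simp
    | zero => simp
    | add x y _ _ hx hy =>
      simp only [map_add, mul_add, smul_add, Finset.sum_add_distrib]
      exact Submodule.add_mem _ hx hy
    | smul t x _ hx =>
      have := Submodule.smul_mem (pw (I1 p (insert w ψ)) s) t hx
      convert this using 1
      rw [Finset.smul_sum]
      refine Finset.sum_congr rfl fun j _ => ?_
      rw [map_smul, mul_smul_comm, smul_comm]
  have h1 := key f hf
  rw [Finset.sum_eq_single 0] at h1
  · simpa [Dit] using h1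
  · intro j _ hj
    rw [Dit_zero_of _ _ h j hj, mul_zero, smul_zero]
  · intro h0
    exact absurd (Finset.mem_range.2 (by omega)) h0

/-! ### incidence numbers -/

theorem sgn_sq (o : Finset α → ℤˣ) (ψ : Finset α) (v : α) : sgn o ψ v * sgn o ψ v = 1 := by
  unfold sgn
  rw [mul_mul_mul_comm, ← mul_pow, neg_one_mul, neg_neg, one_pow, mul_one]
  rcases Int.units_eq_one_or (o (ψ.erase v) * o ψ) with h | h <;> rw [h] <;> simp

theorem sgn_anti_aux (ψ : Finset α) {v w : α} (hw : w ∈ ψ) (h : w < v) :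
    (ψ.filter (· < v)).card + ((ψ.erase v).filter (· < w)).card =
      (ψ.filter (· < w)).card + ((ψ.erase w).filter (· < v)).card + 1 := by
  have h1 : (ψ.erase v).filter (· < w) = ψ.filter (· < w) := by
    ext x
    simp only [Finset.mem_filter, Finset.mem_erase]
    constructor
    · rintro ⟨⟨-, h1⟩, h2⟩
      exact ⟨h1, h2⟩
    · rintro ⟨h1, h2⟩
      exact ⟨⟨(h2.trans h).ne, h1⟩, h2⟩
  have h2 : ψ.filter (· < v) = insert w ((ψ.erase w).filter (· < v)) := by
    ext x
    simp only [Finset.mem_filter, Finset.mem_erase, Finset.mem_insert]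
    constructor
    · rintro ⟨h1, h2⟩
      by_cases hx : x = w
      · exact Or.inl hx
      · exact Or.inr ⟨⟨hx, h1⟩, h2⟩
    · rintro (rfl | ⟨⟨-, h1⟩, h2⟩)
      · exact ⟨hw, h⟩
      · exact ⟨h1, h2⟩
  rw [h1, h2, Finset.card_insert_of_notMem (by simp)]
  omega

theorem sgn_anti (o : Finset α → ℤˣ) (ψ : Finset α) {v w : α} (hv : v ∈ ψ) (hw : w ∈ ψ)
    (h : v ≠ w) :
    sgn o ψ v * sgn o (ψ.erase v) w = - (sgn o ψ w * sgn o (ψ.erase w) v) := by
  have key : ∀ {v w : α}, v ∈ ψ → w ∈ ψ → w < v →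
      sgn o ψ v * sgn o (ψ.erase v) w = - (sgn o ψ w * sgn o (ψ.erase w) v) := by
    intro v w hv hw h
    have h1 := sgn_anti_aux ψ hw h
    have e1 : sgn o ψ v * sgn o (ψ.erase v) w =
        (((o (ψ.erase v) * o ψ) * (o ((ψ.erase v).erase w) * o (ψ.erase v)) : ℤˣ) : ℤ) *
          (-1 : ℝ) ^ ((ψ.filter (· < v)).card + ((ψ.erase v).filter (· < w)).card) := by
      unfold sgn
      rw [pow_add]
      push_cast
      ring
    have e2 : sgn o ψ w * sgn o (ψ.erase w) v =
        (((o (ψ.erase w) * o ψ) * (o ((ψ.erase w).erase v) * o (ψ.erase w)) : ℤˣ) : ℤ) *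
          (-1 : ℝ) ^ ((ψ.filter (· < w)).card + ((ψ.erase w).filter (· < v)).card) := by
      unfold sgn
      rw [pow_add]
      push_cast
      ring
    have e3 : (o (ψ.erase v) * o ψ) * (o ((ψ.erase v).erase w) * o (ψ.erase v)) =
        (o (ψ.erase w) * o ψ) * (o ((ψ.erase w).erase v) * o (ψ.erase w)) := by
      rw [Finset.erase_right_comm]
      have h3 := Int.units_mul_self (o (ψ.erase v))
      have h4 := Int.units_mul_self (o (ψ.erase w))
      calc (o (ψ.erase v) * o ψ) * (o ((ψ.erase w).erase v) * o (ψ.erase v))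
          = (o (ψ.erase v) * o (ψ.erase v)) * (o ψ * o ((ψ.erase w).erase v)) := by
            simp only [mul_comm, mul_left_comm]
        _ = (o (ψ.erase w) * o (ψ.erase w)) * (o ψ * o ((ψ.erase w).erase v)) := by rw [h3, h4]
        _ = _ := by simp only [mul_comm, mul_left_comm]
    rw [e1, e2, e3, h1, pow_succ]
    ring
  rcases lt_or_gt_of_ne h with h1 | h1
  · rw [key hw hv h1, neg_neg]
  · exact key hv hw h1

theorem bd_apply (o : Finset α → ℤˣ) (c : Finset α → Poly) (θ : Finset α) :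
    bd o c θ = ∑ v ∈ θᶜ, sgn o (insert v θ) v • c (insert v θ) := rfl

theorem bd_bd (o : Finset α → ℤˣ) (c : Finset α → Poly) : bd o (bd o c) = 0 := by
  funext θ
  rw [bd_apply]
  simp only [bd_apply, Finset.smul_sum, smul_smul]
  rw [Finset.sum_sigma', Pi.zero_apply]
  refine Finset.sum_involution (fun x _ => ⟨x.2, x.1⟩) ?_ ?_ ?_ ?_
  · rintro ⟨v, u⟩ h
    simp only [Finset.mem_sigma, Finset.mem_compl, Finset.mem_insert, not_or] at h
    obtain ⟨h1, h2, h3⟩ := h
    dsimp only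
    rw [Finset.insert_comm v u θ, ← add_smul]
    have h4 := sgn_anti o (insert u (insert v θ)) (v := v) (w := u)
      (Finset.mem_insert_of_mem (Finset.mem_insert_self _ _)) (Finset.mem_insert_self _ _)
      (Ne.symm h2)
    have h5 : (insert u (insert v θ)).erase v = insert u θ := by
      rw [Finset.insert_comm, Finset.erase_insert]
      rw [Finset.mem_insert, not_or]
      exact ⟨Ne.symm h2, h1⟩
    have h6 : (insert u (insert v θ)).erase u = insert v θ := by
      rw [Finset.erase_insert]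
      rw [Finset.mem_insert, not_or]
      exact ⟨h2, h3⟩
    rw [h5, h6] at h4
    rw [show sgn o (insert v θ) v * sgn o (insert u (insert v θ)) u +
      sgn o (insert u θ) u * sgn o (insert u (insert v θ)) v = 0 by linear_combination h4,
      zero_smul]
  · rintro ⟨v, u⟩ h _ h2
    simp only [Finset.mem_sigma, Finset.mem_compl, Finset.mem_insert, not_or] at h
    have := congrArg Sigma.fst h2
    exact h.2.1 this
  · rintro ⟨v, u⟩ h
    simp only [Finset.mem_sigma, Finset.mem_compl, Finset.mem_insert, not_or] at h ⊢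
    exact ⟨h.2.2, Ne.symm h.2.1, h.1⟩
  · rintro ⟨v, u⟩ _
    rfl

/-- the cone contraction -/
noncomputable def hh (o : Finset α → ℤˣ) (w : α) (x : Finset α → Poly) : Finset α → Poly :=
  fun ψ => if w ∈ ψ then sgn o ψ w • x (ψ.erase w) else 0

theorem homotopy (o : Finset α → ℤˣ) (w : α) (x : Finset α → Poly) :
    bd o (hh o w x) + hh o w (bd o x) = x := by
  funext θ
  rw [Pi.add_apply]
  by_cases hw : w ∈ θ
  · obtain ⟨φ, hφ, rfl⟩ : ∃ φ, w ∉ φ ∧ θ = insert w φ :=
      ⟨θ.erase w, Finset.notMem_erase _ _, (Finset.insert_erase hw).symm⟩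
    have e1 : bd o (hh o w x) (insert w φ) = ∑ v ∈ (insert w φ)ᶜ,
        (sgn o (insert v (insert w φ)) v * sgn o (insert v (insert w φ)) w) •
          x (insert v φ) := by
      rw [bd_apply]
      refine Finset.sum_congr rfl fun v hv => ?_
      rw [Finset.mem_compl, Finset.mem_insert, not_or] at hv
      unfold hh
      rw [if_pos (by simp), smul_smul]
      congr 2
      rw [Finset.insert_comm, Finset.erase_insert]
      rw [Finset.mem_insert, not_or]
      exact ⟨Ne.symm hv.1, hφ⟩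
    have e2 : hh o w (bd o x) (insert w φ) = x (insert w φ) + ∑ v ∈ (insert w φ)ᶜ,
        (sgn o (insert w φ) w * sgn o (insert v φ) v) • x (insert v φ) := by
      unfold hh
      rw [if_pos (by simp), Finset.erase_insert hφ, bd_apply]
      have h1 : φᶜ = insert w (insert w φ)ᶜ := by
        ext y
        simp only [Finset.mem_compl, Finset.mem_insert, not_or]
        constructor
        · intro h
          by_cases hy : y = w
          · exact Or.inl hy
          · exact Or.inr ⟨hy, h⟩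
        · rintro (rfl | ⟨_, h⟩)
          · exact hφ
          · exact h
      rw [h1, Finset.sum_insert (by simp), smul_add, smul_smul, sgn_sq, one_smul,
        Finset.smul_sum]
      simp only [smul_smul]
    rw [e1, e2, add_left_comm, ← Finset.sum_add_distrib, Finset.sum_eq_zero, add_zero]
    intro v hv
    rw [Finset.mem_compl, Finset.mem_insert, not_or] at hv
    obtain ⟨h1, h2⟩ := hv
    rw [← add_smul]
    have h4 := sgn_anti o (insert v (insert w φ)) (v := v) (w := w)
      (Finset.mem_insert_self _ _) (by simp) h1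
    have h5 : (insert v (insert w φ)).erase v = insert w φ := by
      rw [Finset.erase_insert]
      rw [Finset.mem_insert, not_or]
      exact ⟨h1, h2⟩
    have h6 : (insert v (insert w φ)).erase w = insert v φ := by
      rw [Finset.insert_comm, Finset.erase_insert]
      rw [Finset.mem_insert, not_or]
      exact ⟨Ne.symm h1, hφ⟩
    rw [h5, h6] at h4
    have s1 := sgn_sq o (insert v (insert w φ)) w
    have s2 := sgn_sq o (insert w φ) w
    have h7 : sgn o (insert v (insert w φ)) v * sgn o (insert v (insert w φ)) w +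
        sgn o (insert w φ) w * sgn o (insert v φ) v = 0 := by
      linear_combination (sgn o (insert v (insert w φ)) w * sgn o (insert w φ) w) * h4 -
        (sgn o (insert v (insert w φ)) v * sgn o (insert v (insert w φ)) w) * s2 -
        (sgn o (insert w φ) w * sgn o (insert v φ) v) * s1
    rw [h7, zero_smul]
  · have e2 : hh o w (bd o x) θ = 0 := by unfold hh; rw [if_neg hw]
    rw [e2, add_zero, bd_apply, Finset.sum_eq_single w]
    · unfold hh
      rw [if_pos (by simp), smul_smul, sgn_sq, one_smul, Finset.erase_insert hw]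
    · intro v _ hv
      unfold hh
      rw [if_neg, smul_zero]
      rw [Finset.mem_insert, not_or]
      exact ⟨Ne.symm hv, hw⟩
    · intro h
      exact absurd (Finset.mem_compl.2 hw) h

/-! ### chain groups -/

theorem mem_chains {Δ : Finset (Finset α)} {p : α → (Fin 3 → ℝ)} {s k : ℕ}
    {c : Finset α → Poly} :
    c ∈ chains Δ p s k ↔ (∀ ψ ∈ Δ, ψ.card = k → c ψ ∈ I p s ψ) ∧
      ∀ ψ, ¬ (ψ ∈ Δ ∧ ψ.card = k) → c ψ = 0 := by
  constructor
  · intro h
    refine ⟨fun ψ h1 h2 => ?_, fun ψ h1 => ?_⟩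
    · have := h ψ
      rwa [if_pos ⟨h1, h2⟩] at this
    · have := h ψ
      rwa [if_neg h1, Submodule.mem_bot] at this
  · rintro ⟨h1, h2⟩ ψ
    split_ifs with h
    · exact h1 ψ h.1 h.2
    · rw [h2 ψ h]
      exact Submodule.zero_mem _

theorem chains_mem {Δ : Finset (Finset α)} {p : α → (Fin 3 → ℝ)} {s k : ℕ}
    {c : Finset α → Poly} (hc : c ∈ chains Δ p s k) (ψ : Finset α) : c ψ ∈ I p s ψ := by
  rw [mem_chains] at hc
  by_cases h : ψ ∈ Δ ∧ ψ.card = k
  · exact hc.1 ψ h.1 h.2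
  · rw [hc.2 ψ h]
    exact Submodule.zero_mem _

/-- the boundary of a chain is a chain -/
theorem bd_mem {Δ : Finset (Finset α)} (hΔ : ∀ ψ ∈ Δ, ∀ θ, θ ⊆ ψ → θ ∈ Δ)
    {p : α → (Fin 3 → ℝ)} {s k : ℕ} (o : Finset α → ℤˣ)
    {c : Finset α → Poly} (hc : c ∈ chains Δ p s (k + 1)) : bd o c ∈ chains Δ p s k := by
  rw [mem_chains]
  refine ⟨fun θ _ _ => ?_, fun θ hθ => ?_⟩
  · rw [bd_apply]
    refine Submodule.sum_mem _ fun v _ => Submodule.smul_mem _ _ ?_
    exact I_mono p s (Finset.subset_insert v θ) (chains_mem hc _)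
  · rw [bd_apply]
    refine Finset.sum_eq_zero fun v hv => ?_
    rw [Finset.mem_compl] at hv
    rw [(mem_chains.1 hc).2 (insert v θ), smul_zero]
    rintro ⟨h1, h2⟩
    rw [Finset.card_insert_of_notMem hv] at h2
    exact hθ ⟨hΔ _ h1 θ (Finset.subset_insert v θ), by omega⟩

theorem boundaries_le {Δ : Finset (Finset α)} (hΔ : ∀ ψ ∈ Δ, ∀ θ, θ ⊆ ψ → θ ∈ Δ)
    (p : α → (Fin 3 → ℝ)) (s k : ℕ) (o : Finset α → ℤˣ) :
    boundaries Δ p o s k ≤ cycles Δ p o s k := by
  rintro _ ⟨c, hc, rfl⟩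
  exact ⟨bd_mem hΔ o hc, bd_bd o c⟩

theorem mem_cone {w : α} {Δ : Finset (Finset α)} (hw : ∀ ψ ∈ Δ, w ∉ ψ) {ψ : Finset α} :
    ψ ∈ cone w Δ ↔ (ψ ∈ Δ ∧ w ∉ ψ) ∨ (w ∈ ψ ∧ ψ.erase w ∈ Δ ∧ (ψ.erase w).card ≤ 2) := by
  unfold cone
  rw [Finset.mem_union, Finset.mem_image]
  constructor
  · rintro (h | ⟨φ, hφ, rfl⟩)
    · exact Or.inl ⟨h, hw ψ h⟩
    · rw [Finset.mem_filter] at hφ
      right
      rw [Finset.erase_insert (hw φ hφ.1)]
      exact ⟨Finset.mem_insert_self _ _, hφ.1, hφ.2⟩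
  · rintro (h | ⟨h1, h2, h3⟩)
    · exact Or.inl h.1
    · exact Or.inr ⟨ψ.erase w, Finset.mem_filter.2 ⟨h2, h3⟩, Finset.insert_erase h1⟩

theorem cone_closed {w : α} {Δ : Finset (Finset α)} (hΔ : ∀ ψ ∈ Δ, ∀ θ, θ ⊆ ψ → θ ∈ Δ)
    (hw : ∀ ψ ∈ Δ, w ∉ ψ) : ∀ ψ ∈ cone w Δ, ∀ θ, θ ⊆ ψ → θ ∈ cone w Δ := by
  intro ψ hψ θ hθ
  rw [mem_cone hw] at hψ ⊢
  rcases hψ with ⟨h1, h2⟩ | ⟨h1, h2, h3⟩
  · exact Or.inl ⟨hΔ ψ h1 θ hθ, fun h => h2 (hθ h)⟩
  · by_cases hwθ : w ∈ θ
    · right
      exact ⟨hwθ, hΔ _ h2 _ (Finset.erase_subset_erase w hθ),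
        (Finset.card_le_card (Finset.erase_subset_erase w hθ)).trans h3⟩
    · left
      refine ⟨hΔ _ h2 _ ?_, hwθ⟩
      intro x hx
      rw [Finset.mem_erase]
      exact ⟨fun h => hwθ (h ▸ hx), hθ hx⟩

/-- the chain map -/
noncomputable def ff (w : α) (p : α → (Fin 3 → ℝ)) (s : ℕ) :
    (Finset α → Poly) →ₗ[ℝ] (Finset α → Poly) where
  toFun c := fun ψ => if w ∈ ψ then 0 else D (p w) (s + 1) (c ψ)
  map_add' c c' := by
    funext ψ
    simp only [Pi.add_apply, map_add]
    split_ifs <;> simp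
  map_smul' t c := by
    funext ψ
    simp only [Pi.smul_apply, map_smul, RingHom.id_apply]
    split_ifs <;> simp

theorem ff_apply (w : α) (p : α → (Fin 3 → ℝ)) (s : ℕ) (c : Finset α → Poly) (ψ : Finset α) :
    ff w p s c ψ = if w ∈ ψ then 0 else D (p w) (s + 1) (c ψ) := rfl

/-- (S1) -/
theorem ff_mem {w : α} {Δ : Finset (Finset α)} (hw : ∀ ψ ∈ Δ, w ∉ ψ) {p : α → (Fin 3 → ℝ)}
    {s k : ℕ} {c : Finset α → Poly} (hc : c ∈ chains (cone w Δ) p (s + 1) k) :
    ff w p s c ∈ chains Δ p s k := by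
  rw [mem_chains]
  refine ⟨fun ψ h1 h2 => ?_, fun ψ hψ => ?_⟩
  · rw [ff_apply, if_neg (hw ψ h1)]
    exact D_mem p s ψ _ (chains_mem hc ψ)
  · rw [ff_apply]
    split_ifs with h
    · rfl
    · rw [(mem_chains.1 hc).2 ψ, map_zero]
      rintro ⟨h1, h2⟩
      rw [mem_cone hw] at h1
      rcases h1 with h1 | h1
      · exact hψ ⟨h1.1, h2⟩
      · exact h h1.1

/-- the condition that the derivative is onto -/
def Good (w : α) (Δ : Finset (Finset α)) (p : α → (Fin 3 → ℝ)) : Prop :=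
  ∀ ψ ∈ Δ, ∃ l ∈ I1 p ψ, MvPolynomial.eval (p w) l ≠ 0

/-- (S2) -/
theorem ff_surj {w : α} {Δ : Finset (Finset α)} (hw : ∀ ψ ∈ Δ, w ∉ ψ) {p : α → (Fin 3 → ℝ)}
    (hg : Good w Δ p) {s k : ℕ} {c : Finset α → Poly} (hc : c ∈ chains Δ p s k) :
    ∃ c' ∈ chains (cone w Δ) p (s + 1) k, ff w p s c' = c := by
  classical
  have h1 : ∀ ψ, ∃ g, (ψ ∈ Δ ∧ ψ.card = k → g ∈ I p (s + 1) ψ ∧ D (p w) (s + 1) g = c ψ) ∧
      (¬ (ψ ∈ Δ ∧ ψ.card = k) → g = 0) := by
    intro ψ
    by_cases h : ψ ∈ Δ ∧ ψ.card = k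
    · obtain ⟨l, hl, hl1⟩ := hg ψ h.1
      obtain ⟨g, hg1, hg2⟩ := D_surj p s ψ (p w) hl hl1 (chains_mem hc ψ)
      exact ⟨g, fun _ => ⟨hg1, hg2⟩, fun h' => absurd h h'⟩
    · exact ⟨0, fun h' => absurd h' h, fun _ => rfl⟩
  choose g hg1 hg2 using h1
  refine ⟨g, ?_, ?_⟩
  · rw [mem_chains]
    refine ⟨fun ψ _ _ => ?_, fun ψ hψ => ?_⟩
    · by_cases h : ψ ∈ Δ ∧ ψ.card = k
      · exact (hg1 ψ h).1
      · rw [hg2 ψ h]
        exact Submodule.zero_mem _
    · apply hg2
      rintro ⟨h1, h2⟩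
      exact hψ ⟨(mem_cone hw).2 (Or.inl ⟨h1, hw ψ h1⟩), h2⟩
  · funext ψ
    rw [ff_apply]
    by_cases h : ψ ∈ Δ ∧ ψ.card = k
    · rw [if_neg (hw ψ h.1)]
      exact (hg1 ψ h).2
    · rw [hg2 ψ h, map_zero, ite_self]
      exact ((mem_chains.1 hc).2 ψ h).symm

/-- (S3) -/
theorem ff_bd {w : α} {Δ : Finset (Finset α)} {p : α → (Fin 3 → ℝ)} (o : Finset α → ℤˣ)
    {s k : ℕ} {c : Finset α → Poly} (hc : c ∈ chains (cone w Δ) p (s + 1) k) :
    ff w p s (bd o c) = bd o (ff w p s c) := by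
  funext θ
  rw [ff_apply, bd_apply, bd_apply]
  split_ifs with h
  · symm
    refine Finset.sum_eq_zero fun v _ => ?_
    rw [ff_apply, if_pos (Finset.mem_insert_of_mem h), smul_zero]
  · rw [map_sum]
    refine Finset.sum_congr rfl fun v _ => ?_
    rw [map_smul, ff_apply]
    split_ifs with h1
    · rw [D_zero p s _ w h1 (chains_mem hc _)]
    · rfl

/-- (S4), first part -/
theorem hh_mem {w : α} {Δ : Finset (Finset α)} (hw : ∀ ψ ∈ Δ, w ∉ ψ) {p : α → (Fin 3 → ℝ)}
    (hg : Good w Δ p) (o : Finset α → ℤˣ) {s k : ℕ} (hk : k ≤ 2) {c : Finset α → Poly}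
    (hc : c ∈ chains (cone w Δ) p (s + 1) k) (hc0 : ff w p s c = 0) :
    hh o w c ∈ chains (cone w Δ) p (s + 1) (k + 1) := by
  rw [mem_chains]
  refine ⟨fun ψ h1 h2 => ?_, fun ψ hψ => ?_⟩
  · unfold hh
    split_ifs with h
    · refine Submodule.smul_mem _ _ ?_
      by_cases h3 : ψ.erase w ∈ Δ
      · obtain ⟨l, hl, hl1⟩ := hg _ h3
        have h4 := D_ker p (s + 1) (ψ.erase w) w hl hl1 (chains_mem hc _) (by
          have := congrFun hc0 (ψ.erase w)
          rw [ff_apply, if_neg (Finset.notMem_erase _ _)] at this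
          exact this)
        rwa [Finset.insert_erase h] at h4
      · rw [(mem_chains.1 hc).2 (ψ.erase w)]
        · exact Submodule.zero_mem _
        · rintro ⟨h4, _⟩
          rw [mem_cone hw] at h4
          rcases h4 with h4 | h4
          · exact h3 h4.1
          · exact Finset.notMem_erase _ _ h4.1
    · exact Submodule.zero_mem _
  · unfold hh
    split_ifs with h
    · rw [(mem_chains.1 hc).2 (ψ.erase w), smul_zero]
      rintro ⟨h1, h2⟩
      apply hψ
      rw [mem_cone hw] at h1 ⊢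
      rcases h1 with h1 | h1
      · refine ⟨Or.inr ⟨h, h1.1, by omega⟩, ?_⟩
        rw [← Finset.card_erase_add_one h, h2]
      · exact absurd h1.1 (Finset.notMem_erase _ _)
    · rfl

theorem ff_hh (w : α) (p : α → (Fin 3 → ℝ)) (s : ℕ) (o : Finset α → ℤˣ)
    (c : Finset α → Poly) : ff w p s (hh o w c) = 0 := by
  funext ψ
  rw [ff_apply]
  unfold hh
  split_ifs <;> simp

theorem hh_zero (o : Finset α → ℤˣ) (w : α) : hh o w 0 = 0 := by
  funext ψ
  unfold hh
  split_ifs <;> simp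

/-- (S4) the kernel complex is exact below the top degree -/
theorem exact {w : α} {Δ : Finset (Finset α)} (hw : ∀ ψ ∈ Δ, w ∉ ψ) {p : α → (Fin 3 → ℝ)}
    (hg : Good w Δ p) (o : Finset α → ℤˣ) {s k : ℕ} (hk : k ≤ 2) {c : Finset α → Poly}
    (hc : c ∈ chains (cone w Δ) p (s + 1) k) (hc0 : ff w p s c = 0) (hb : bd o c = 0) :
    ∃ y ∈ chains (cone w Δ) p (s + 1) (k + 1), ff w p s y = 0 ∧ bd o y = c := by
  refine ⟨hh o w c, hh_mem hw hg o hk hc hc0, ff_hh w p s o c, ?_⟩
  have := homotopy o w c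
  rwa [hb, hh_zero, add_zero] at this

/-- cycles lift to cycles (in degree `k ≤ 3`) -/
theorem lift_cycle {w : α} {Δ : Finset (Finset α)} (hΔ : ∀ ψ ∈ Δ, ∀ θ, θ ⊆ ψ → θ ∈ Δ)
    (hw : ∀ ψ ∈ Δ, w ∉ ψ) {p : α → (Fin 3 → ℝ)}
    (hg : Good w Δ p) (o : Finset α → ℤˣ) {s k : ℕ} (hk : k ≤ 3) {z : Finset α → Poly}
    (hz : z ∈ cycles Δ p o s k) :
    ∃ z' ∈ cycles (cone w Δ) p o (s + 1) k, ff w p s z' = z := by
  obtain ⟨c, hc, hcz⟩ := ff_surj hw hg hz.1
  have hcl := cone_closed hΔ hw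
  rcases k with _ | k
  · refine ⟨c, ⟨hc, ?_⟩, hcz⟩
    rw [SetLike.mem_coe, LinearMap.mem_ker]
    funext θ
    rw [bd_apply]
    refine Finset.sum_eq_zero fun v hv => ?_
    rw [(mem_chains.1 hc).2 (insert v θ), smul_zero]
    rintro ⟨_, h⟩
    rw [Finset.card_eq_zero] at h
    exact Finset.insert_ne_empty _ _ h
  · have h1 : ff w p s (bd o c) = 0 := by
      rw [ff_bd o hc, hcz]
      exact hz.2
    obtain ⟨y, hy1, hy2, hy3⟩ := exact hw hg o (by omega) (bd_mem hcl o hc) h1 (bd_bd o c)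
    refine ⟨c - y, ⟨Submodule.sub_mem _ hc hy1, ?_⟩, ?_⟩
    · rw [SetLike.mem_coe, LinearMap.mem_ker, map_sub, hy3, sub_self]
    · rw [map_sub, hcz, hy2, sub_zero]

theorem ff_cycle {w : α} {Δ : Finset (Finset α)} (hw : ∀ ψ ∈ Δ, w ∉ ψ)
    {p : α → (Fin 3 → ℝ)} (o : Finset α → ℤˣ) {s k : ℕ} {z : Finset α → Poly}
    (hz : z ∈ cycles (cone w Δ) p o (s + 1) k) : ff w p s z ∈ cycles Δ p o s k := by
  refine ⟨ff_mem hw hz.1, ?_⟩
  have := ff_bd o hz.1
  rw [SetLike.mem_coe, LinearMap.mem_ker, ← this, hz.2, map_zero]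

/-- the Betti numbers in degrees `-1, 0, 1` agree -/
theorem betti_eq {w : α} {Δ : Finset (Finset α)} (hΔ : ∀ ψ ∈ Δ, ∀ θ, θ ⊆ ψ → θ ∈ Δ)
    (hw : ∀ ψ ∈ Δ, w ∉ ψ) {p : α → (Fin 3 → ℝ)}
    (hg : Good w Δ p) (o : Finset α → ℤˣ) (s : ℕ) {k : ℕ} (hk : k ≤ 2) :
    betti Δ p o s k = betti (cone w Δ) p o (s + 1) k := by
  have hcl := cone_closed hΔ hw
  let g : cycles (cone w Δ) p o (s + 1) k →ₗ[ℝ] cycles Δ p o s k :=
    (ff w p s).restrict fun z hz => ff_cycle hw o hz
  have hgv : ∀ z, ((g z : cycles Δ p o s k) : Finset α → Poly) = ff w p s z := fun z => rfl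
  have hmap : (boundaries (cone w Δ) p o (s + 1) k).submoduleOf
      (cycles (cone w Δ) p o (s + 1) k) ≤
      ((boundaries Δ p o s k).submoduleOf (cycles Δ p o s k)).comap g := by
    rintro ⟨z, hz⟩ ⟨u, hu, huz⟩
    refine ⟨ff w p s u, ff_mem hw hu, ?_⟩
    rw [← ff_bd o hu, huz]
    rfl
  let q := Submodule.mapQ _ _ g hmap
  have hsurj : Function.Surjective q := by
    intro y
    obtain ⟨⟨z, hz⟩, rfl⟩ := Submodule.mkQ_surjective _ y
    obtain ⟨z', hz', h⟩ := lift_cycle hΔ hw hg o (by omega) hz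
    refine ⟨Submodule.Quotient.mk ⟨z', hz'⟩, ?_⟩
    show Submodule.mapQ _ _ g hmap (Submodule.Quotient.mk ⟨z', hz'⟩) = _
    rw [Submodule.mapQ_apply]
    congr 1
    exact Subtype.ext h
  have hinj : Function.Injective q := by
    rw [injective_iff_map_eq_zero]
    intro y hy
    obtain ⟨⟨z, hz⟩, rfl⟩ := Submodule.mkQ_surjective _ y
    change Submodule.mapQ _ _ g hmap (Submodule.Quotient.mk ⟨z, hz⟩) = 0 at hy
    rw [Submodule.mapQ_apply, Submodule.Quotient.mk_eq_zero] at hy
    obtain ⟨u, hu, huz⟩ := hy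
    change bd o u = ff w p s z at huz
    obtain ⟨u', hu', hu'z⟩ := ff_surj hw hg hu
    have h1 : ff w p s (z - bd o u') = 0 := by
      rw [map_sub, ff_bd o hu', hu'z, huz, sub_self]
    have h2 : bd o (z - bd o u') = 0 := by
      rw [map_sub, bd_bd, sub_zero]
      exact hz.2
    obtain ⟨y, hy1, hy2, hy3⟩ := exact hw hg o hk
      (Submodule.sub_mem _ hz.1 (bd_mem hcl o hu')) h1 h2
    show Submodule.Quotient.mk _ = 0
    rw [Submodule.Quotient.mk_eq_zero]
    refine ⟨y + u', Submodule.add_mem _ hy1 hu', ?_⟩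
    rw [map_add, hy3]
    show z - bd o u' + bd o u' = z
    rw [sub_add_cancel]
  unfold betti
  exact (LinearEquiv.finrank_eq (LinearEquiv.ofBijective q ⟨hinj, hsurj⟩)).symm

/-! ### geometry -/

/-- the evaluation of affine forms at the points of a simplex -/
noncomputable def ee (p : α → (Fin 3 → ℝ)) (ψ : Finset α) :
    ((Fin 3 → ℝ) × ℝ) →ₗ[ℝ] (ψ → ℝ) where
  toFun x := fun v => ∑ i, x.1 i * p v i + x.2
  map_add' x y := by
    funext v
    simp only [Prod.fst_add, Prod.snd_add, Pi.add_apply, add_mul, Finset.sum_add_distrib]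
    ring
  map_smul' t x := by
    funext v
    simp only [Prod.smul_fst, Prod.smul_snd, Pi.smul_apply, smul_eq_mul, RingHom.id_apply,
      mul_add, Finset.mul_sum, mul_assoc]

theorem aff_eq_zero {A : Fin 3 → ℝ} {e : ℝ} (h : aff A e = 0) : (A, e) = 0 := by
  have h0 : e = 0 := by
    have := congrArg (MvPolynomial.eval (0 : Fin 3 → ℝ)) h
    rw [eval_aff] at this
    simpa using this
  have h1 : A = 0 := by
    funext i
    have := congrArg (MvPolynomial.eval (Pi.single i 1 : Fin 3 → ℝ)) h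
    rw [eval_aff, h0] at this
    simpa [Pi.single_apply] using this
  rw [h0, h1]
  rfl

theorem ee_inj_iff (p : α → (Fin 3 → ℝ)) (ψ : Finset α) :
    Function.Injective (ee p ψ) ↔ ∀ l ∈ I1 p ψ, l = 0 := by
  rw [injective_iff_map_eq_zero]
  constructor
  · rintro h _ ⟨⟨A, e, rfl⟩, hl⟩
    have h1 : ee p ψ (A, e) = 0 := by
      funext v
      have := hl v v.2
      rw [eval_aff] at this
      exact this
    have h2 := h _ h1
    rw [Prod.mk_eq_zero] at h2
    rw [h2.1, h2.2]
    unfold aff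
    simp
  · rintro h ⟨A, e⟩ h1
    apply aff_eq_zero
    apply h
    refine ⟨⟨A, e, rfl⟩, fun v hv => ?_⟩
    rw [eval_aff]
    exact congrFun h1 ⟨v, hv⟩

/-- weights form of affine independence -/
theorem ai_iff (p : α → (Fin 3 → ℝ)) (ψ : Finset α) :
    AffineIndependent ℝ (fun v : ψ => p v) ↔ ∀ μ : ψ → ℝ, ∑ v, μ v = 0 →
      ∑ v, μ v • p v = 0 → μ = 0 := by
  rw [affineIndependent_iff]
  constructor
  · intro h μ h1 h2
    funext v
    exact h Finset.univ μ h1 h2 v (Finset.mem_univ _)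
  · intro h s μ h1 h2 v hv
    classical
    have h3 := h (fun v => if v ∈ s then μ v else 0) (by
      rw [Finset.sum_ite_mem, Finset.univ_inter]; exact h1) (by
      simp only [ite_smul, zero_smul]
      rw [Finset.sum_ite_mem, Finset.univ_inter]
      exact h2)
    have h4 := congrFun h3 v
    simpa [hv] using h4

theorem ee_inj_iff_ai (p : α → (Fin 3 → ℝ)) (ψ : Finset α) (hψ : ψ.card = 4) :
    Function.Injective (ee p ψ) ↔ AffineIndependent ℝ (fun v : ψ => p v) := by
  rw [LinearMap.injective_iff_surjective_of_finrank_eq_finrank (by simp [hψ]), ai_iff]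
  constructor
  · intro h μ h1 h2
    funext v
    obtain ⟨⟨A, e⟩, hA⟩ := h (Pi.single v 1)
    have h3 : ∑ u, μ u * (ee p ψ (A, e) u) = 0 := by
      have h4 : ∀ u : ψ, μ u * (ee p ψ (A, e) u) =
          ∑ i, A i * (μ u * p u i) + e * μ u := by
        intro u
        show μ u * (∑ i, A i * p u i + e) = _
        rw [mul_add, Finset.mul_sum, mul_comm e]
        congr 1
        exact Finset.sum_congr rfl fun i _ => by ring
      rw [Finset.sum_congr rfl fun u _ => h4 u, Finset.sum_add_distrib, ← Finset.mul_sum, h1,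
        mul_zero, add_zero, Finset.sum_comm]
      refine Finset.sum_eq_zero fun i _ => ?_
      rw [← Finset.mul_sum]
      have h5 := congrFun h2 i
      rw [Finset.sum_apply] at h5
      simp only [Pi.smul_apply, smul_eq_mul, Pi.zero_apply] at h5
      rw [h5, mul_zero]
    rw [hA] at h3
    simpa [Pi.single_apply] using h3
  · intro h
    rw [← LinearMap.range_eq_top]
    by_contra hne
    obtain ⟨f, hf0, hf⟩ := Submodule.exists_dual_map_eq_bot_of_lt_top
      (lt_top_iff_ne_top.2 hne) inferInstance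
    apply hf0
    have hf1 : ∀ x, f (ee p ψ x) = 0 := by
      intro x
      have : f (ee p ψ x) ∈ (LinearMap.range (ee p ψ)).map f := ⟨_, ⟨x, rfl⟩, rfl⟩
      rw [hf] at this
      exact this
    have hf2 : ∀ y : ψ → ℝ, f y = ∑ v, f (Pi.single v 1) * y v := by
      intro y
      rw [LinearMap.pi_apply_eq_sum_univ f y]
      refine Finset.sum_congr rfl fun v _ => ?_
      rw [smul_eq_mul, mul_comm]
      congr 2
      funext u
      simp [Pi.single_apply, eq_comm]
    have hμ := h (fun v => f (Pi.single v 1)) (by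
      have := hf1 (0, 1)
      rw [hf2] at this
      simpa [ee] using this) (by
      funext i
      have := hf1 (Pi.single i 1, 0)
      rw [hf2] at this
      rw [Finset.sum_apply]
      simpa [ee, Pi.single_apply] using this)
    refine LinearMap.ext fun y => ?_
    rw [hf2]
    simp only [LinearMap.zero_apply]
    refine Finset.sum_eq_zero fun v _ => ?_
    rw [congrFun hμ v]
    simp

theorem affineSpan_image (p : α → (Fin 3 → ℝ)) (σ : Finset α) (μ : σ → ℝ) (h : ∑ v, μ v = 1) :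
    ∑ v, μ v • p v ∈ affineSpan ℝ (p '' (σ : Set α)) := by
  have h1 := affineCombination_mem_affineSpan h (fun v : σ => p v)
  rw [Finset.affineCombination_eq_linear_combination _ _ _ h] at h1
  convert h1 using 2
  ext x
  simp

theorem ai_insert (p : α → (Fin 3 → ℝ)) (σ : Finset α) (w : α) (hw : w ∉ σ)
    (hsp : p w ∉ affineSpan ℝ (p '' (σ : Set α))) :
    AffineIndependent ℝ (fun v : (insert w σ : Finset α) => p v) ↔
      AffineIndependent ℝ (fun v : σ => p v) := by
  have hsum : ∀ (g : α → (Fin 3 → ℝ)), ∑ v : (insert w σ : Finset α), g v =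
      g w + ∑ v : σ, g v := by
    intro g
    rw [Finset.sum_coe_sort (insert w σ) g, Finset.sum_insert hw, Finset.sum_coe_sort σ g]
  have hsum' : ∀ (g : α → ℝ), ∑ v : (insert w σ : Finset α), g v =
      g w + ∑ v : σ, g v := by
    intro g
    rw [Finset.sum_coe_sort (insert w σ) g, Finset.sum_insert hw, Finset.sum_coe_sort σ g]
  rw [ai_iff, ai_iff]
  constructor
  · intro h μ h1 h2
    classical
    let μ' : α → ℝ := fun v => if hv : v ∈ σ then μ ⟨v, hv⟩ else 0
    have hμ' : ∀ v : σ, μ' v = μ v := by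
      rintro ⟨v, hv⟩
      simp [μ', hv]
    have hw' : μ' w = 0 := by simp [μ', hw]
    have h3 := h (fun v => μ' v) (by
      rw [hsum' μ', hw', zero_add, Finset.sum_congr rfl fun v _ => hμ' v]
      exact h1) (by
      rw [hsum (fun v => μ' v • p v), hw', zero_smul, zero_add]
      rw [Finset.sum_congr rfl fun (v : σ) _ => by rw [hμ' v]]
      exact h2)
    funext v
    have h4 := congrFun h3 ⟨v, Finset.mem_insert_of_mem v.2⟩
    rw [← hμ' v]
    exact h4
  · intro h μ h1 h2
    classical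
    let μ' : α → ℝ := fun v => if hv : v ∈ insert w σ then μ ⟨v, hv⟩ else 0
    have hμ' : ∀ v : (insert w σ : Finset α), μ v = μ' v := by
      rintro ⟨v, hv⟩
      show μ ⟨v, hv⟩ = if hv : v ∈ insert w σ then μ ⟨v, hv⟩ else 0
      rw [dif_pos hv]
    rw [Finset.sum_congr rfl fun v _ => hμ' v, hsum' μ'] at h1
    rw [Finset.sum_congr rfl fun v _ => by rw [hμ' v], hsum (fun v => μ' v • p v)] at h2
    have h0 : μ' w = 0 := by
      by_contra hne
      apply hsp
      have h3 : p w = ∑ v : σ, (-(μ' w)⁻¹ * μ' v) • p v := by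
        have h4 : μ' w • p w = - ∑ v : σ, μ' v • p v := eq_neg_of_add_eq_zero_left h2
        have h5 : p w = (μ' w)⁻¹ • (μ' w • p w) := by
          rw [smul_smul, inv_mul_cancel₀ hne, one_smul]
        rw [h5, h4, smul_neg, Finset.smul_sum, ← Finset.sum_neg_distrib]
        refine Finset.sum_congr rfl fun v _ => ?_
        rw [smul_smul, ← neg_smul, neg_mul]
      rw [h3]
      refine affineSpan_image p σ (fun v => -(μ' w)⁻¹ * μ' v) ?_
      rw [← Finset.mul_sum]
      have h6 : ∑ v : σ, μ' v = - μ' w := by linarith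
      rw [h6, neg_mul_neg, inv_mul_cancel₀ hne]
    rw [h0, zero_add] at h1
    rw [h0, zero_smul, zero_add] at h2
    have h3 := h (fun v => μ' v) h1 h2
    funext v
    rw [hμ' v]
    obtain ⟨v, hv⟩ := v
    rw [Finset.mem_insert] at hv
    rcases hv with rfl | hv
    · exact h0
    · exact congrFun h3 ⟨v, hv⟩

/-- existence of separating affine forms -/
theorem exists_form (p : α → (Fin 3 → ℝ)) (ψ : Finset α) (w : α)
    (hsp : p w ∉ affineSpan ℝ (p '' (ψ : Set α))) :
    ∃ l ∈ I1 p ψ, MvPolynomial.eval (p w) l ≠ 0 := by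
  rcases ψ.eq_empty_or_nonempty with rfl | ⟨v0, hv0⟩
  · exact ⟨1, one_mem p, by simp⟩
  · have hx0 : p v0 ∈ affineSpan ℝ (p '' (ψ : Set α)) :=
      mem_affineSpan ℝ ⟨v0, hv0, rfl⟩
    have h1 : p w - p v0 ∉ (affineSpan ℝ (p '' (ψ : Set α))).direction := by
      intro h
      apply hsp
      have := AffineSubspace.vadd_mem_of_mem_direction h hx0
      simpa using this
    obtain ⟨f, hf1, hf2⟩ := Submodule.exists_dual_map_eq_bot_of_notMem h1 inferInstance
    have hf3 : ∀ x : Fin 3 → ℝ, ∑ i, f (Pi.single i 1) * x i = f x := by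
      intro x
      rw [LinearMap.pi_apply_eq_sum_univ f x]
      refine Finset.sum_congr rfl fun v _ => ?_
      rw [smul_eq_mul, mul_comm]
      congr 2
      funext u
      simp [Pi.single_apply, eq_comm]
    refine ⟨aff (fun i => f (Pi.single i 1)) (-f (p v0)), ⟨⟨_, _, rfl⟩, fun v hv => ?_⟩, ?_⟩
    · rw [eval_aff, hf3, ← sub_eq_add_neg, ← map_sub]
      have h2 : p v - p v0 ∈ (affineSpan ℝ (p '' (ψ : Set α))).direction :=
        AffineSubspace.vsub_mem_direction (mem_affineSpan ℝ ⟨v, hv, rfl⟩) hx0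
      have h3 : f (p v - p v0) ∈
          ((affineSpan ℝ (p '' (ψ : Set α))).direction).map f := ⟨_, h2, rfl⟩
      rw [hf2] at h3
      exact h3
    · rw [eval_aff, hf3, ← sub_eq_add_neg, ← map_sub]
      exact hf1

theorem span_ne_top (p : α → (Fin 3 → ℝ)) (ψ : Finset α) (h : ψ.card ≤ 3) :
    affineSpan ℝ (p '' (ψ : Set α)) ≠ ⊤ := by
  classical
  intro htop
  rcases ψ.eq_empty_or_nonempty with rfl | hne
  · rw [Finset.coe_empty, Set.image_empty, AffineSubspace.span_empty] at htop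
    exact AffineSubspace.bot_ne_top ℝ _ _ htop
  · obtain ⟨n, hn⟩ : ∃ n, ψ.card = n + 1 := ⟨ψ.card - 1, by
      have := Finset.card_pos.2 hne; omega⟩
    have h1 := finrank_vectorSpan_image_finset_le ℝ p ψ hn
    rw [Finset.coe_image, ← direction_affineSpan, htop, AffineSubspace.direction_top] at h1
    simp at h1
    omega

theorem good_of_general {w : α} {Δ : Finset (Finset α)} (hΔ : IsComplex Δ)
    {p : α → (Fin 3 → ℝ)} (hg : GeneralPosition w Δ p) :
    ∀ ψ ∈ Δ, p w ∉ affineSpan ℝ (p '' (ψ : Set α)) := by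
  intro ψ hψ
  refine hg ψ (fun v hv => hΔ.2.1 ψ hψ _ ?_) (span_ne_top p ψ (hΔ.2.2 ψ hψ))
  rw [Finset.singleton_subset_iff]
  exact hv

/-! ### the top degree -/

theorem chains_four {Δ : Finset (Finset α)} (hΔ : ∀ ψ ∈ Δ, ψ.card ≤ 3) (p : α → (Fin 3 → ℝ))
    (s : ℕ) : chains Δ p s 4 = ⊥ := by
  rw [eq_bot_iff]
  intro c hc
  rw [Submodule.mem_bot]
  funext ψ
  apply (mem_chains.1 hc).2
  rintro ⟨h1, h2⟩
  have := hΔ ψ h1
  omega

theorem betti_three {Δ : Finset (Finset α)} (hΔ : ∀ ψ ∈ Δ, ψ.card ≤ 3) (p : α → (Fin 3 → ℝ))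
    (o : Finset α → ℤˣ) (s : ℕ) :
    betti Δ p o s 3 = Module.finrank ℝ (cycles Δ p o s 3) := by
  have h1 : (boundaries Δ p o s 3).submoduleOf (cycles Δ p o s 3) = ⊥ := by
    unfold boundaries
    rw [chains_four hΔ, Submodule.map_bot, Submodule.submoduleOf, Submodule.comap_bot,
      Submodule.ker_subtype]
  unfold betti
  rw [h1]
  exact LinearEquiv.finrank_eq (Submodule.quotEquivOfEqBot ⊥ rfl)

instance finite_pw (W : Submodule ℝ Poly) [Module.Finite ℝ W] (s : ℕ) :
    Module.Finite ℝ (pw W s) := by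
  have h2 : (W ^ s : Submodule ℝ Poly).FG := Submodule.FG.pow (Module.Finite.iff_fg.1 inferInstance) s
  have h3 : pw W s ≤ W ^ s := by
    unfold pw
    rw [Submodule.span_le]
    rintro _ ⟨l, hl, rfl⟩
    exact Submodule.pow_mem_pow W hl s
  have : Module.Finite ℝ (W ^ s : Submodule ℝ Poly) := Module.Finite.iff_fg.2 h2
  exact Submodule.finiteDimensional_of_le h3

theorem finite_I1 (p : α → (Fin 3 → ℝ)) (ψ : Finset α) : Module.Finite ℝ (I1 p ψ) := by
  let F : ((Fin 3 → ℝ) × ℝ) →ₗ[ℝ] Poly :=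
    { toFun := fun x => aff x.1 x.2
      map_add' := by
        intro x y
        unfold aff
        simp only [Prod.fst_add, Prod.snd_add, Pi.add_apply, map_add, add_mul,
          Finset.sum_add_distrib]
        ring
      map_smul' := by
        intro t x
        unfold aff
        rw [RingHom.id_apply, MvPolynomial.smul_eq_C_mul, mul_add, Finset.mul_sum, Prod.smul_snd,
          smul_eq_mul, map_mul]
        congr 1
        refine Finset.sum_congr rfl fun i _ => ?_
        rw [Prod.smul_fst, Pi.smul_apply, smul_eq_mul, map_mul, mul_assoc] }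
  have h : I1 p ψ ≤ LinearMap.range F := by
    rintro _ ⟨⟨A, e, rfl⟩, -⟩
    exact ⟨(A, e), rfl⟩
  exact Submodule.finiteDimensional_of_le h

theorem finite_I (p : α → (Fin 3 → ℝ)) (s : ℕ) (ψ : Finset α) : Module.Finite ℝ (I p s ψ) := by
  rw [I_eq]
  have := finite_I1 p ψ
  infer_instance

theorem finite_chains (Δ : Finset (Finset α)) (p : α → (Fin 3 → ℝ)) (s k : ℕ) :
    Module.Finite ℝ (chains Δ p s k) := by
  have := fun ψ => finite_I p s ψ
  let F : chains Δ p s k →ₗ[ℝ] ((ψ : Finset α) → I p s ψ) :=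
    { toFun := fun c ψ => ⟨(c : Finset α → Poly) ψ, chains_mem c.2 ψ⟩
      map_add' := fun _ _ => rfl
      map_smul' := fun _ _ => rfl }
  refine FiniteDimensional.of_injective F ?_
  intro c c' h
  apply Subtype.ext
  funext ψ
  exact congrArg Subtype.val (congrFun h ψ)

theorem finite_cycles (Δ : Finset (Finset α)) (p : α → (Fin 3 → ℝ)) (o : Finset α → ℤˣ)
    (s k : ℕ) : Module.Finite ℝ (cycles Δ p o s k) := by
  have := finite_chains Δ p s k
  exact Submodule.finiteDimensional_of_le (inf_le_left : cycles Δ p o s k ≤ chains Δ p s k)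

theorem cone_card {w : α} {Δ : Finset (Finset α)} (hΔ : ∀ ψ ∈ Δ, ψ.card ≤ 3)
    (hw : ∀ ψ ∈ Δ, w ∉ ψ) : ∀ ψ ∈ cone w Δ, ψ.card ≤ 3 := by
  intro ψ hψ
  rw [mem_cone hw] at hψ
  rcases hψ with h | ⟨h1, h2, h3⟩
  · exact hΔ ψ h.1
  · rw [← Finset.card_erase_add_one h1]
    omega

/-- the Betti numbers in degree 2 agree iff the kernel complex has no cycles in degree 2 -/
theorem top_iff {w : α} {Δ : Finset (Finset α)} (hΔ : IsComplex Δ)
    (hw : ∀ ψ ∈ Δ, w ∉ ψ) {p : α → (Fin 3 → ℝ)}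
    (hg : Good w Δ p) (o : Finset α → ℤˣ) (s : ℕ) :
    betti Δ p o s 3 = betti (cone w Δ) p o (s + 1) 3 ↔
      ∀ x ∈ cycles (cone w Δ) p o (s + 1) 3, ff w p s x = 0 → x = 0 := by
  rw [betti_three hΔ.2.2, betti_three (cone_card hΔ.2.2 hw)]
  let g : cycles (cone w Δ) p o (s + 1) 3 →ₗ[ℝ] cycles Δ p o s 3 :=
    (ff w p s).restrict fun z hz => ff_cycle hw o hz
  have h1 := finite_cycles (cone w Δ) p o (s + 1) 3
  have h2 := LinearMap.finrank_range_add_finrank_ker g
  have h3 : LinearMap.range g = ⊤ := by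
    rw [LinearMap.range_eq_top]
    rintro ⟨z, hz⟩
    obtain ⟨z', hz', h⟩ := lift_cycle hΔ.2.1 hw hg o le_rfl hz
    exact ⟨⟨z', hz'⟩, Subtype.ext h⟩
  rw [h3, finrank_top] at h2
  constructor
  · intro h x hx hx0
    have h4 : Module.finrank ℝ (LinearMap.ker g) = 0 := by omega
    rw [Submodule.finrank_eq_zero] at h4
    have h5 : (⟨x, hx⟩ : cycles (cone w Δ) p o (s + 1) 3) ∈ LinearMap.ker g := by
      rw [LinearMap.mem_ker]
      exact Subtype.ext hx0
    rw [h4, Submodule.mem_bot] at h5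
    exact congrArg Subtype.val h5
  · intro h
    have h4 : LinearMap.ker g = ⊥ := by
      rw [eq_bot_iff]
      rintro ⟨x, hx⟩ hx0
      rw [Submodule.mem_bot]
      apply Subtype.ext
      apply h x hx
      exact congrArg Subtype.val hx0
    rw [h4, finrank_bot] at h2
    omega

/-- the main theorem -/
theorem main {w : α} {Δ : Finset (Finset α)} (hΔ : IsComplex Δ) (hw : {w} ∉ Δ)
    {p : α → (Fin 3 → ℝ)} (hgp : GeneralPosition w Δ p) (o : Finset α → ℤˣ) (s : ℕ) :
    (∀ k ≤ 2, betti Δ p o s k = betti (cone w Δ) p o (s + 1) k) ∧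
    (betti Δ p o s 3 = betti (cone w Δ) p o (s + 1) 3 ↔
      ∀ σ ∈ Δ, σ.card = 3 → AffineIndependent ℝ (fun v : σ => p v)) := by
  have hw' : ∀ ψ ∈ Δ, w ∉ ψ := by
    intro ψ hψ h
    exact hw (hΔ.2.1 ψ hψ _ (Finset.singleton_subset_iff.2 h))
  have hsp := good_of_general hΔ hgp
  have hg : Good w Δ p := fun ψ hψ => exists_form p ψ w (hsp ψ hψ)
  refine ⟨fun k hk => betti_eq hΔ.2.1 hw' hg o s hk, ?_⟩
  rw [top_iff hΔ hw' hg]
  constructor
  · intro h σ hσ hσ3
    rw [← ai_insert p σ w (hw' σ hσ) (hsp σ hσ), ← ee_inj_iff_ai p _ (by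
      rw [Finset.card_insert_of_notMem (hw' σ hσ), hσ3]), ee_inj_iff]
    by_contra hcon
    push Not at hcon
    obtain ⟨l, hl, hl0⟩ := hcon
    have hu : l ^ (s + 1) ∈ I p (s + 1) (insert w σ) := by
      rw [I_eq]
      exact pow_mem_pw hl _
    have hu0 : l ^ (s + 1) ≠ 0 := pow_ne_zero _ hl0
    let y : Finset α → Poly := fun ψ => if ψ = insert w σ then l ^ (s + 1) else 0
    have hy : ∀ θ, bd o y θ = ∑ v ∈ θᶜ, sgn o (insert v θ) v •
        (if insert v θ = insert w σ then l ^ (s + 1) else 0) := fun θ => rfl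
    have hsub : ∀ θ, θ ⊆ insert w σ → l ^ (s + 1) ∈ I p (s + 1) θ := fun θ hθ =>
      I_mono p (s + 1) hθ hu
    have hval : bd o y σ = sgn o (insert w σ) w • l ^ (s + 1) := by
      rw [hy, Finset.sum_eq_single w]
      · rw [if_pos rfl]
      · intro v hv hvw
        rw [Finset.mem_compl] at hv
        rw [if_neg, smul_zero]
        intro h1
        have h2 : w ∈ insert v σ := h1 ▸ Finset.mem_insert_self w σ
        rw [Finset.mem_insert] at h2
        rcases h2 with h2 | h2
        · exact hvw h2.symm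
        · exact hw' σ hσ h2
      · intro h1
        exact absurd (Finset.mem_compl.2 (hw' σ hσ)) h1
    have hx := h (bd o y) ⟨?_, bd_bd o y⟩ ?_
    · have h1 := congrFun hx σ
      rw [hval] at h1
      have h2 : sgn o (insert w σ) w ≠ 0 := by
        intro h3
        have := sgn_sq o (insert w σ) w
        rw [h3] at this
        norm_num at this
      exact smul_ne_zero h2 hu0 h1
    · rw [SetLike.mem_coe, mem_chains]
      refine ⟨fun θ _ _ => ?_, fun θ hθ => ?_⟩
      · rw [hy]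
        refine Submodule.sum_mem _ fun v _ => Submodule.smul_mem _ _ ?_
        split_ifs with h1
        · exact hsub θ (h1 ▸ Finset.subset_insert v θ)
        · exact Submodule.zero_mem _
      · rw [hy]
        refine Finset.sum_eq_zero fun v hv => ?_
        rw [Finset.mem_compl] at hv
        rw [if_neg, smul_zero]
        intro h1
        apply hθ
        have hc : θ.card = 3 := by
          have h2 := congrArg Finset.card h1
          rw [Finset.card_insert_of_notMem hv, Finset.card_insert_of_notMem (hw' σ hσ)] at h2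
          omega
        refine ⟨?_, hc⟩
        rw [mem_cone hw']
        have hθs : θ ⊆ insert w σ := h1 ▸ Finset.subset_insert v θ
        by_cases hwθ : w ∈ θ
        · right
          refine ⟨hwθ, hΔ.2.1 σ hσ _ ?_, ?_⟩
          · intro z hz
            rw [Finset.mem_erase] at hz
            exact (Finset.mem_insert.1 (hθs hz.2)).resolve_left hz.1
          · rw [Finset.card_erase_of_mem hwθ, hc]
        · left
          refine ⟨hΔ.2.1 σ hσ _ ?_, hwθ⟩
          intro z hz
          exact (Finset.mem_insert.1 (hθs hz)).resolve_left (fun h2 => hwθ (h2 ▸ hz))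
    · funext θ
      rw [ff_apply]
      split_ifs with h1
      · rfl
      · rw [hy, map_sum, Pi.zero_apply]
        refine Finset.sum_eq_zero fun v hv => ?_
        rw [map_smul]
        split_ifs with h2
        · rw [D_zero p s (insert w σ) w (Finset.mem_insert_self _ _) hu, smul_zero]
        · rw [map_zero, smul_zero]
  · intro h x hx hx0
    have h1 : ∀ ψ, w ∉ ψ → x ψ = 0 := by
      intro ψ hψ
      by_cases hm : ψ ∈ cone w Δ ∧ ψ.card = 3
      · obtain ⟨hm1, hm2⟩ := hm
        rw [mem_cone hw'] at hm1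
        have hm3 : ψ ∈ Δ := by
          rcases hm1 with h2 | h2
          · exact h2.1
          · exact absurd h2.1 hψ
        have h3 := h ψ hm3 hm2
        rw [← ai_insert p ψ w hψ (hsp ψ hm3), ← ee_inj_iff_ai p _ (by
          rw [Finset.card_insert_of_notMem hψ, hm2]), ee_inj_iff] at h3
        obtain ⟨l, hl, hl1⟩ := hg ψ hm3
        have h4 := congrFun hx0 ψ
        rw [ff_apply, if_neg hψ] at h4
        have h5 := D_ker p (s + 1) ψ w hl hl1 (chains_mem hx.1 ψ) h4
        have h6 : I p (s + 1) (insert w ψ) = ⊥ := by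
          rw [I_eq, eq_bot_iff]
          unfold pw
          rw [Submodule.span_le]
          rintro _ ⟨m, hm, rfl⟩
          rw [h3 m hm, zero_pow (by omega)]
          exact Submodule.zero_mem _
        rw [h6] at h5
        exact h5
      · exact (mem_chains.1 hx.1).2 ψ hm
    have h2 : hh o w x = 0 := by
      funext ψ
      unfold hh
      split_ifs
      · rw [h1 _ (Finset.notMem_erase _ _), smul_zero]
        rfl
      · rfl
    have h3 := homotopy o w x
    have h4 : bd o x = 0 := hx.2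
    rw [h4, hh_zero, h2, map_zero, add_zero] at h3
    exact h3.symm

end Q138.Cofactor
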