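import Mathlib

set_option autoImplicit false

/-!
Linear versus general codes for the `t`-th covering radius.
-/

namespace Q138.CovRad

open Finset

/-! ### functions with prescribed fibre sizes -/

/-- the number of occurrences of `a` -/
noncomputable def cnt {n : ℕ} {A : Type} (e : Fin n → A) (a : A) : ℕ := by
  classical exact (univ.filter fun j => e j = a).card

theorem cnt_def {n : ℕ} {A : Type} [DecidableEq A] (e : Fin n → A) (a : A) :
    cnt e a = (univ.filter fun j => e j = a).card := by
  unfold cnt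
  congr

theorem cnt_eq_card {n : ℕ} {A : Type} [DecidableEq A] (e : Fin n → A) (a : A) :
    cnt e a = Fintype.card {j // e j = a} := by
  rw [cnt_def, Fintype.card_subtype]

theorem cnt_comp {n : ℕ} {A : Type} (e : Fin n → A) (σ : Equiv.Perm (Fin n)) (a : A) :
    cnt (e ∘ σ) a = cnt e a := by
  classical
  rw [cnt_eq_card, cnt_eq_card]
  exact Fintype.card_congr (σ.subtypeEquiv fun j => Iff.rfl)

theorem sum_cnt {n : ℕ} {A : Type} [Fintype A] (e : Fin n → A) : ∑ a, cnt e a = n := by
  classical
  simp only [cnt_def]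
  rw [← card_eq_sum_card_fiberwise (s := univ) (t := univ) (f := e) (fun _ _ => mem_univ _)]
  simp

/-- functions with the same fibre sizes differ by a permutation -/
theorem exists_perm {n : ℕ} {A : Type} (e e' : Fin n → A) (h : ∀ a, cnt e a = cnt e' a) :
    ∃ σ : Equiv.Perm (Fin n), e' ∘ σ = e := by
  classical
  have h1 : ∀ a, Nonempty ({j // e j = a} ≃ {j // e' j = a}) := by
    intro a
    have h2 := h a
    rw [cnt_eq_card, cnt_eq_card] at h2
    exact Fintype.card_eq.1 h2
  let φ := fun a => (h1 a).some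
  let σ : Equiv.Perm (Fin n) :=
    (Equiv.sigmaFiberEquiv e).symm.trans ((Equiv.sigmaCongrRight φ).trans (Equiv.sigmaFiberEquiv e'))
  refine ⟨σ, ?_⟩
  funext j
  exact (φ (e j) ⟨j, rfl⟩).2

/-- the number of functions with the same fibre sizes as `e` -/
theorem card_type {n : ℕ} {A : Type} [Fintype A] (e : Fin n → A) :
    Nat.card {e' : Fin n → A // ∀ a, cnt e' a = cnt e a} * ∏ a, (cnt e a).factorial =
      n.factorial := by
  classical
  -- orbit-stabilizer by double counting
  have h1 : ∀ e' : {e' : Fin n → A // ∀ a, cnt e' a = cnt e a},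
      Fintype.card {σ : Equiv.Perm (Fin n) // e ∘ σ = e'.1} = ∏ a, (cnt e a).factorial := by
    rintro ⟨e', he'⟩
    obtain ⟨τ, hτ⟩ := exists_perm e' e he'
    have h2 := DomMulAct.stabilizer_card e
    have h3 : Fintype.card {σ : Equiv.Perm (Fin n) // e ∘ σ = e'} =
        Fintype.card {σ : Equiv.Perm (Fin n) // e ∘ σ = e} := by
      refine Fintype.card_congr ((Equiv.mulRight τ⁻¹).subtypeEquiv fun σ => ?_)
      constructor
      · intro h
        funext j
        have := congrFun (h.trans hτ.symm) (τ⁻¹ j)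
        simpa using this
      · intro h
        rw [← hτ]
        funext j
        have := congrFun h (τ j)
        simpa using this
    rw [h3, h2]
    refine prod_congr rfl fun a _ => ?_
    rw [cnt_eq_card]
  have h4 : Fintype.card (Equiv.Perm (Fin n)) =
      ∑ e' : {e' : Fin n → A // ∀ a, cnt e' a = cnt e a},
        Fintype.card {σ : Equiv.Perm (Fin n) // e ∘ σ = e'.1} := by
    rw [← Fintype.card_sigma]
    refine Fintype.card_congr ⟨fun σ => ⟨⟨e ∘ σ, fun a => cnt_comp e σ a⟩, ⟨σ, rfl⟩⟩,
      fun x => x.2.1, fun σ => rfl, ?_⟩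
    rintro ⟨⟨e', he'⟩, ⟨σ, hσ⟩⟩
    dsimp only at hσ
    subst hσ
    rfl
  rw [sum_congr rfl fun e' _ => h1 e', sum_const, card_univ, smul_eq_mul, Fintype.card_perm,
    Fintype.card_fin] at h4
  rw [Nat.card_eq_fintype_card]
  exact h4.symm

/-! ### the symmetric type class -/

/-- functions to `A` that take every nonzero value exactly `s` times -/
noncomputable def TT (n s : ℕ) (A : Type) [Fintype A] [Zero A] : Finset (Fin n → A) := by
  classical exact univ.filter fun e => ∀ a, a ≠ 0 → cnt e a = s

theorem mem_TT {n s : ℕ} {A : Type} [Fintype A] [Zero A] {e : Fin n → A} :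
    e ∈ TT n s A ↔ ∀ a, a ≠ 0 → cnt e a = s := by
  unfold TT
  simp

theorem TT_cnt {n s : ℕ} {A : Type} [Fintype A] [Zero A] {e e' : Fin n → A} (he : e ∈ TT n s A)
    (he' : e' ∈ TT n s A) (a : A) : cnt e a = cnt e' a := by
  classical
  rw [mem_TT] at he he'
  by_cases h : a = 0
  · subst h
    have h1 := sum_cnt e
    have h2 := sum_cnt e'
    rw [← add_sum_erase univ _ (mem_univ (0 : A))] at h1 h2
    have h3 : ∑ a ∈ univ.erase (0 : A), cnt e a = ∑ a ∈ univ.erase (0 : A), cnt e' a := by
      refine sum_congr rfl fun a ha => ?_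
      rw [he a (ne_of_mem_erase ha), he' a (ne_of_mem_erase ha)]
    omega
  · rw [he a h, he' a h]

/-- the number of nonzero entries -/
noncomputable def wt {n : ℕ} {A : Type} [Zero A] (e : Fin n → A) : ℕ := by
  classical exact (univ.filter fun j => e j ≠ 0).card

theorem wt_def {n : ℕ} {A : Type} [Zero A] [DecidableEq A] (e : Fin n → A) :
    wt e = (univ.filter fun j => e j ≠ 0).card := by
  unfold wt
  congr

theorem wt_add_cnt {n : ℕ} {A : Type} [Zero A] (e : Fin n → A) : cnt e 0 + wt e = n := by
  classical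
  rw [cnt_def, wt_def]
  have := card_filter_add_card_filter_not (s := (univ : Finset (Fin n))) (fun j => e j = 0)
  rw [card_univ, Fintype.card_fin] at this
  exact this

theorem wt_eq_sum {n : ℕ} {A : Type} [Fintype A] [DecidableEq A] [Zero A] (e : Fin n → A) :
    wt e = ∑ a ∈ univ.erase (0 : A), cnt e a := by
  have h1 := sum_cnt e
  rw [← add_sum_erase univ _ (mem_univ (0 : A))] at h1
  have h2 := wt_add_cnt e
  omega

theorem TT_wt {n s : ℕ} {A : Type} [Fintype A] [Zero A] {e : Fin n → A} (he : e ∈ TT n s A) :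
    wt e = (Fintype.card A - 1) * s := by
  classical
  rw [wt_eq_sum, sum_congr rfl fun a ha => mem_TT.1 he a (ne_of_mem_erase ha), sum_const,
    card_erase_of_mem (mem_univ _), card_univ, smul_eq_mul]

theorem TT_nonempty {n s : ℕ} {A : Type} [Fintype A] [Zero A]
    (h : (Fintype.card A - 1) * s ≤ n) : (TT n s A).Nonempty := by
  classical
  -- `B` = nonzero elements times `Fin s`
  let B : Type := {a : A // a ≠ 0} × Fin s
  have hB : Fintype.card B = (Fintype.card A - 1) * s := by
    show Fintype.card ({a : A // a ≠ 0} × Fin s) = _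
    rw [Fintype.card_prod, Fintype.card_fin, Fintype.card_subtype_compl, Fintype.card_subtype_eq]
  obtain ⟨ι⟩ : Nonempty (B ↪ Fin n) := by
    rw [Function.Embedding.nonempty_iff_card_le]
    rw [hB, Fintype.card_fin]
    exact h
  let e : Fin n → A := fun j => if h : ∃ b, ι b = j then (h.choose.1 : A) else 0
  have he1 : ∀ b, e (ι b) = b.1 := by
    intro b
    have h : ∃ b', ι b' = ι b := ⟨b, rfl⟩
    show (if h : ∃ b', ι b' = ι b then (h.choose.1 : A) else 0) = _
    rw [dif_pos h]
    have := ι.injective h.choose_spec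
    rw [this]
  have he2 : ∀ j, (¬ ∃ b, ι b = j) → e j = 0 := fun j hj => dif_neg hj
  refine ⟨e, mem_TT.2 fun a ha => ?_⟩
  rw [cnt_def]
  have h3 : (univ.filter fun j => e j = a) =
      (univ : Finset (Fin s)).map ⟨fun i => ι (⟨a, ha⟩, i), fun i i' h => by
        have := ι.injective h
        exact (Prod.mk.inj this).2⟩ := by
    ext j
    rw [mem_filter, mem_map]
    constructor
    · rintro ⟨-, hj⟩
      by_cases hb : ∃ b, ι b = j
      · obtain ⟨b, rfl⟩ := hb
        rw [he1] at hj
        refine ⟨b.2, mem_univ _, ?_⟩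
        show ι (⟨a, ha⟩, b.2) = ι b
        congr 1
        exact Prod.ext (Subtype.ext hj.symm) rfl
      · rw [he2 j hb] at hj
        exact absurd hj.symm ha
    · rintro ⟨i, _, rfl⟩
      exact ⟨mem_univ _, he1 _⟩
  rw [h3, card_map, card_univ, Fintype.card_fin]

theorem factorial_bound (s τ : ℕ) : s.factorial * s ^ τ ≤ τ.factorial * s ^ s := by
  rcases le_total s τ with h | h
  · have h1 := Nat.factorial_mul_pow_sub_le_factorial h
    calc s.factorial * s ^ τ = (s.factorial * s ^ (τ - s)) * s ^ s := by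
          rw [mul_assoc, ← pow_add, Nat.sub_add_cancel h]
      _ ≤ τ.factorial * s ^ s := Nat.mul_le_mul_right _ h1
  · have h1 := Nat.factorial_mul_descFactorial (Nat.sub_le s τ)
    rw [Nat.sub_sub_self h] at h1
    have h2 := Nat.descFactorial_le_pow s (s - τ)
    calc s.factorial * s ^ τ = τ.factorial * s.descFactorial (s - τ) * s ^ τ := by rw [h1]
      _ ≤ τ.factorial * s ^ (s - τ) * s ^ τ :=
          Nat.mul_le_mul_right _ (Nat.mul_le_mul_left _ h2)
      _ = τ.factorial * s ^ s := by rw [mul_assoc, ← pow_add, Nat.sub_add_cancel h]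

theorem factorial_up (a b n : ℕ) (h : a + b ≤ n) : (a + b).factorial ≤ a.factorial * n ^ b := by
  induction b with
  | zero => simp
  | succ b ih =>
    rw [← add_assoc, Nat.factorial_succ, pow_succ]
    calc (a + b + 1) * (a + b).factorial ≤ n * (a.factorial * n ^ b) :=
          Nat.mul_le_mul (by omega) (ih (by omega))
      _ = a.factorial * (n ^ b * n) := by ring

/-- comparison of a type class with the symmetric type class of almost the same weight -/
theorem type_le {n : ℕ} {A : Type} [Fintype A] [Zero A] (hA : 2 ≤ Fintype.card A) (hn : 0 < n)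
    (e : Fin n → A) :
    Nat.card {e' : Fin n → A // ∀ a, cnt e' a = cnt e a} ≤
      n ^ Fintype.card A * (TT n (wt e / (Fintype.card A - 1)) A).card := by
  classical
  set s := wt e / (Fintype.card A - 1) with hs
  have hm : 0 < Fintype.card A - 1 := by omega
  have hsw : (Fintype.card A - 1) * s ≤ wt e := Nat.mul_div_le _ _
  have hsw' : wt e < (Fintype.card A - 1) * s + (Fintype.card A - 1) := by
    have := Nat.lt_mul_div_succ (wt e) hm
    rw [Nat.mul_add, Nat.mul_one] at this
    exact this
  have hwn : cnt e 0 + wt e = n := wt_add_cnt e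
  obtain ⟨e₁, he₁⟩ := TT_nonempty (n := n) (s := s) (A := A) (by omega)
  have hT : Nat.card {e' : Fin n → A // ∀ a, cnt e' a = cnt e₁ a} = (TT n s A).card := by
    rw [Nat.card_eq_fintype_card, Fintype.card_subtype]
    congr 1
    ext e'
    rw [mem_filter]
    constructor
    · rintro ⟨-, h⟩
      rw [mem_TT]
      intro a ha
      rw [h a, mem_TT.1 he₁ a ha]
    · intro h
      exact ⟨mem_univ _, fun a => TT_cnt h he₁ a⟩
  have c1 := card_type e
  have c2 := card_type e₁
  rw [hT] at c2
  -- products of factorials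
  have p1 : ∏ a, (cnt e₁ a).factorial ≤ n ^ Fintype.card A * ∏ a, (cnt e a).factorial := by
    rw [← mul_prod_erase univ _ (mem_univ (0 : A)), ← mul_prod_erase univ _ (mem_univ (0 : A))]
    have e1 : ∏ a ∈ univ.erase (0 : A), (cnt e₁ a).factorial =
        s.factorial ^ (Fintype.card A - 1) := by
      rw [prod_congr rfl fun a ha => by rw [mem_TT.1 he₁ a (ne_of_mem_erase ha)], prod_const,
        card_erase_of_mem (mem_univ _), card_univ]
    have e2 : s.factorial ^ (Fintype.card A - 1) ≤
        ∏ a ∈ univ.erase (0 : A), (cnt e a).factorial := by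
      rcases Nat.eq_zero_or_pos s with h0 | h0
      · rw [h0, Nat.factorial_zero, one_pow]
        exact Nat.one_le_iff_ne_zero.2 (prod_ne_zero_iff.2 fun a _ => Nat.factorial_ne_zero _)
      · have h3 : ∏ a ∈ univ.erase (0 : A), (s.factorial * s ^ cnt e a) ≤
            ∏ a ∈ univ.erase (0 : A), ((cnt e a).factorial * s ^ s) :=
          prod_le_prod' fun a _ => factorial_bound s (cnt e a)
        rw [prod_mul_distrib, prod_mul_distrib, prod_const, prod_const,
          card_erase_of_mem (mem_univ _), card_univ, prod_pow_eq_pow_sum, ← wt_eq_sum,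
          ← pow_mul] at h3
        have h4 : s ^ (s * (Fintype.card A - 1)) ≤ s ^ wt e :=
          Nat.pow_le_pow_right h0 (by rw [mul_comm]; exact hsw)
        have h5 : s.factorial ^ (Fintype.card A - 1) * s ^ (s * (Fintype.card A - 1)) ≤
            (∏ a ∈ univ.erase (0 : A), (cnt e a).factorial) *
              s ^ (s * (Fintype.card A - 1)) := (Nat.mul_le_mul_left _ h4).trans h3
        exact Nat.le_of_mul_le_mul_right h5 (by positivity)
    have e3 : (cnt e₁ 0).factorial ≤ (cnt e 0).factorial * n ^ Fintype.card A := by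
      have h6 : cnt e₁ 0 + wt e₁ = n := wt_add_cnt e₁
      rw [TT_wt he₁] at h6
      obtain ⟨b, hb⟩ : ∃ b, cnt e₁ 0 = cnt e 0 + b := ⟨cnt e₁ 0 - cnt e 0, by omega⟩
      have hb2 : b ≤ Fintype.card A := by omega
      rw [hb]
      refine (factorial_up _ _ n (by omega)).trans ?_
      exact Nat.mul_le_mul_left _ (Nat.pow_le_pow_right hn hb2)
    rw [e1]
    calc (cnt e₁ 0).factorial * s.factorial ^ (Fintype.card A - 1)
        ≤ ((cnt e 0).factorial * n ^ Fintype.card A) *
          ∏ a ∈ univ.erase (0 : A), (cnt e a).factorial := Nat.mul_le_mul e3 e2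
      _ = _ := by ring
  have hpos : 0 < ∏ a, (cnt e₁ a).factorial := prod_pos fun a _ => Nat.factorial_pos _
  apply Nat.le_of_mul_le_mul_right _ hpos
  calc Nat.card {e' : Fin n → A // ∀ a, cnt e' a = cnt e a} * ∏ a, (cnt e₁ a).factorial
      ≤ Nat.card {e' : Fin n → A // ∀ a, cnt e' a = cnt e a} *
        (n ^ Fintype.card A * ∏ a, (cnt e a).factorial) := Nat.mul_le_mul_left _ p1
    _ = n ^ Fintype.card A * n.factorial := by rw [← c1]; ring
    _ = n ^ Fintype.card A * (TT n s A).card * ∏ a, (cnt e₁ a).factorial := by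
      rw [mul_assoc, c2]

/-! ### fibres of the type class -/

section fibres

variable {F V : Type} [Field F] [AddCommGroup V] [Module F V] [Fintype V]

/-- elements of the type class congruent to `e` modulo `W` -/
noncomputable def EW (n s : ℕ) (W : Submodule F V) (e : Fin n → V) : Finset (Fin n → V) := by
  classical exact (TT n s V).filter fun e' => ∀ j, e' j - e j ∈ W

theorem mem_EW {n s : ℕ} {W : Submodule F V} {e e' : Fin n → V} :
    e' ∈ EW n s W e ↔ e' ∈ TT n s V ∧ ∀ j, e' j - e j ∈ W := by
  classical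
  unfold EW
  rw [mem_filter]

theorem TT_comp {n s : ℕ} {e : Fin n → V} (he : e ∈ TT n s V) (σ : Equiv.Perm (Fin n)) :
    e ∘ σ ∈ TT n s V := by
  rw [mem_TT] at *
  intro a ha
  rw [cnt_comp]
  exact he a ha

theorem TT_map {n s : ℕ} {e : Fin n → V} (he : e ∈ TT n s V) (g : V ≃ₗ[F] V) :
    (fun j => g (e j)) ∈ TT n s V := by
  classical
  rw [mem_TT] at *
  intro a ha
  rw [← he (g.symm a) (by
    intro h
    apply ha
    rw [← g.apply_symm_apply a, h, map_zero]), cnt_def, cnt_def]
  congr 1
  ext j
  rw [mem_filter, mem_filter]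
  refine and_congr Iff.rfl ?_
  constructor
  · intro h
    rw [← h, g.symm_apply_apply]
  · intro h
    rw [h, g.apply_symm_apply]

theorem EW_card_le {n s : ℕ} (W : Submodule F V) {e e₁ : Fin n → V} (he : e ∈ TT n s V)
    (he₁ : e₁ ∈ TT n s V) : (EW n s W e).card ≤ (EW n s W e₁).card := by
  obtain ⟨σ, hσ⟩ := exists_perm e₁ e fun a => TT_cnt he₁ he a
  refine card_le_card_of_injOn (fun x => x ∘ σ) ?_ ?_
  · intro x hx
    rw [mem_coe, mem_EW] at hx ⊢
    refine ⟨TT_comp hx.1 σ, fun j => ?_⟩
    rw [← hσ]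
    exact hx.2 (σ j)
  · intro x _ y _ h
    funext j
    have := congrFun h (σ.symm j)
    simpa using this

theorem EW_card {n s : ℕ} (W : Submodule F V) {e e₁ : Fin n → V} (he : e ∈ TT n s V)
    (he₁ : e₁ ∈ TT n s V) : (EW n s W e).card = (EW n s W e₁).card :=
  le_antisymm (EW_card_le W he he₁) (EW_card_le W he₁ he)

theorem EW_map_le {n s : ℕ} (W : Submodule F V) (g : V ≃ₗ[F] V) {e : Fin n → V}
    (he : e ∈ TT n s V) : (EW n s W e).card ≤ (EW n s (W.map (g : V →ₗ[F] V)) e).card := by
  rw [EW_card (W.map (g : V →ₗ[F] V)) he (TT_map he g)]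
  refine card_le_card_of_injOn (fun x j => g (x j)) ?_ ?_
  · intro x hx
    rw [mem_coe, mem_EW] at hx ⊢
    refine ⟨TT_map hx.1 g, fun j => ?_⟩
    rw [← map_sub]
    exact ⟨_, hx.2 j, rfl⟩
  · intro x _ y _ h
    funext j
    exact g.injective (congrFun h j)

/-- the general linear group is transitive on subspaces of the same dimension -/
theorem exists_map_eq (W W' : Submodule F V) (h : Module.finrank F W = Module.finrank F W') :
    ∃ g : V ≃ₗ[F] V, W.map (g : V →ₗ[F] V) = W' := by
  have : Module.Finite F V := Module.Finite.of_finite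
  obtain ⟨C, hC⟩ := W.exists_isCompl
  obtain ⟨C', hC'⟩ := W'.exists_isCompl
  have h1 := Submodule.finrank_add_eq_of_isCompl hC
  have h2 := Submodule.finrank_add_eq_of_isCompl hC'
  have h3 : Module.finrank F C = Module.finrank F C' := by omega
  let e1 : W ≃ₗ[F] W' := LinearEquiv.ofFinrankEq _ _ h
  let e2 : C ≃ₗ[F] C' := LinearEquiv.ofFinrankEq _ _ h3
  let g : V ≃ₗ[F] V := (Submodule.prodEquivOfIsCompl W C hC).symm.trans
    ((e1.prodCongr e2).trans (Submodule.prodEquivOfIsCompl W' C' hC'))
  refine ⟨g, ?_⟩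
  apply Submodule.eq_of_le_of_finrank_eq
  · rintro _ ⟨x, hx, rfl⟩
    have h4 : (Submodule.prodEquivOfIsCompl W C hC).symm x = (⟨x, hx⟩, 0) := by
      rw [LinearEquiv.symm_apply_eq]
      simp
    show g x ∈ W'
    have h5 : g x = Submodule.prodEquivOfIsCompl W' C' hC'
        ((e1.prodCongr e2) ((Submodule.prodEquivOfIsCompl W C hC).symm x)) := rfl
    rw [h5, h4]
    simp
  · rw [← h]
    exact LinearEquiv.finrank_map_eq g W

theorem EW_card_finrank {n s : ℕ} {W W' : Submodule F V}
    (h : Module.finrank F W = Module.finrank F W') {e : Fin n → V} (he : e ∈ TT n s V) :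
    (EW n s W e).card = (EW n s W' e).card := by
  apply le_antisymm
  · obtain ⟨g, hg⟩ := exists_map_eq W W' h
    rw [← hg]
    exact EW_map_le W g he
  · obtain ⟨g, hg⟩ := exists_map_eq W' W h.symm
    rw [← hg]
    exact EW_map_le W' g he

/-- submodularity by double counting -/
theorem EW_submodular {n s : ℕ} (W₁ W₂ : Submodule F V) {e : Fin n → V} (he : e ∈ TT n s V) :
    (EW n s W₁ e).card * (EW n s W₂ e).card ≤
      (EW n s (W₁ ⊔ W₂) e).card * (EW n s (W₁ ⊓ W₂) e).card := by
  classical
  have h1 : ((EW n s W₁ e).sigma fun x => EW n s W₂ x).card =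
      (EW n s W₁ e).card * (EW n s W₂ e).card := by
    rw [card_sigma, sum_congr rfl fun x hx => EW_card W₂ (mem_EW.1 hx).1 he, sum_const,
      smul_eq_mul]
  have h2 : ((EW n s (W₁ ⊔ W₂) e).sigma fun y => (EW n s W₁ e).filter
      fun x => y ∈ EW n s W₂ x).card ≤
      (EW n s (W₁ ⊔ W₂) e).card * (EW n s (W₁ ⊓ W₂) e).card := by
    rw [card_sigma, ← smul_eq_mul]
    refine sum_le_card_nsmul _ _ _ fun y hy => ?_
    rcases ((EW n s W₁ e).filter fun x => y ∈ EW n s W₂ x).eq_empty_or_nonempty with h0 | ⟨x₀, hx₀⟩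
    · rw [h0, card_empty]
      exact Nat.zero_le _
    · rw [mem_filter] at hx₀
      rw [EW_card (W₁ ⊓ W₂) he (mem_EW.1 hx₀.1).1]
      refine card_le_card fun x hx => ?_
      rw [mem_filter] at hx
      have a1 := mem_EW.1 hx.1
      have a2 := mem_EW.1 hx₀.1
      have a3 := mem_EW.1 hx.2
      have a4 := mem_EW.1 hx₀.2
      rw [mem_EW]
      refine ⟨a1.1, fun j => ⟨?_, ?_⟩⟩
      · have := W₁.sub_mem (a1.2 j) (a2.2 j)
        simpa using this
      · have := W₂.sub_mem (a4.2 j) (a3.2 j)
        simpa using this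
  rw [← h1]
  refine le_trans ?_ h2
  refine card_le_card_of_injOn (fun z => ⟨z.2, z.1⟩) ?_ ?_
  · rintro ⟨x, y⟩ hz
    rw [mem_coe, mem_sigma] at hz ⊢
    obtain ⟨hx, hy⟩ := hz
    dsimp only at hx hy
    refine ⟨?_, mem_filter.2 ⟨hx, hy⟩⟩
    rw [mem_EW] at hx hy ⊢
    refine ⟨hy.1, fun j => ?_⟩
    have := Submodule.add_mem_sup (hx.2 j) (hy.2 j)
    show y j - e j ∈ _
    rw [show y j - e j = (x j - e j) + (y j - x j) by abel]
    exact this
  · rintro ⟨x, y⟩ _ ⟨x', y'⟩ _ h
    simp only [Sigma.mk.injEq] at h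
    obtain ⟨h1, h2⟩ := h
    subst h1
    rw [heq_eq_eq] at h2
    subst h2
    rfl

omit [Fintype V] in
/-- spans of basis vectors -/
theorem finrank_span_basis {N : ℕ} (b : Module.Basis (Fin N) F V) (S : Finset (Fin N)) :
    Module.finrank F (Submodule.span F (b '' (S : Set (Fin N)))) = S.card := by
  classical
  have h1 : LinearIndependent F (fun i : (S : Set (Fin N)) => b i) :=
    b.linearIndependent.comp _ Subtype.val_injective
  have h2 := finrank_span_eq_card h1
  rw [Set.range_comp' b (fun i : (S : Set (Fin N)) => (i : Fin N)), Subtype.range_coe] at h2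
  rw [h2]
  simp

/-- chains of subspaces -/
theorem exists_square (d : ℕ) (hd : d + 2 ≤ Module.finrank F V) :
    ∃ W₁ W₂ : Submodule F V, Module.finrank F W₁ = d + 1 ∧ Module.finrank F W₂ = d + 1 ∧
      Module.finrank F (W₁ ⊔ W₂ : Submodule F V) = d + 2 ∧
      Module.finrank F (W₁ ⊓ W₂ : Submodule F V) = d := by
  classical
  have : Module.Finite F V := Module.Finite.of_finite
  let b := Module.finBasis F V
  let S : Finset (Fin (Module.finrank F V)) := univ.filter fun i => i.1 < d
  let x : Fin (Module.finrank F V) := ⟨d, by omega⟩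
  let y : Fin (Module.finrank F V) := ⟨d + 1, by omega⟩
  have hS : S.card = d := by
    have h1 : S = (univ : Finset (Fin d)).map (Fin.castLEEmb (by omega)) := by
      ext i
      simp only [S, mem_filter, mem_univ, true_and, mem_map, Fin.castLEEmb_apply]
      constructor
      · intro h
        exact ⟨⟨i.1, h⟩, rfl⟩
      · rintro ⟨j, rfl⟩
        exact j.2
    rw [h1, card_map, card_univ, Fintype.card_fin]
  have hx : x ∉ S := by simp [S, x]
  have hy : y ∉ S := by simp [S, y]
  have hxy : x ∉ insert y S := by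
    rw [mem_insert, not_or]
    refine ⟨?_, hx⟩
    intro h
    have := congrArg Fin.val h
    simp [x, y] at this
  have e1 : Module.finrank F (Submodule.span F (b '' ((insert x S : Finset _) : Set _))) = d + 1 := by
    rw [finrank_span_basis, card_insert_of_notMem hx, hS]
  have e2 : Module.finrank F (Submodule.span F (b '' ((insert y S : Finset _) : Set _))) = d + 1 := by
    rw [finrank_span_basis, card_insert_of_notMem hy, hS]
  have e3 : Module.finrank F (Submodule.span F (b '' ((insert x S : Finset _) : Set _)) ⊔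
      Submodule.span F (b '' ((insert y S : Finset _) : Set _)) : Submodule F V) = d + 2 := by
    rw [← Submodule.span_union, ← Set.image_union, ← coe_union]
    have : insert x S ∪ insert y S = insert x (insert y S) := by
      ext i
      simp only [mem_union, mem_insert]
      tauto
    rw [this, finrank_span_basis, card_insert_of_notMem hxy, card_insert_of_notMem hy, hS]
  refine ⟨_, _, e1, e2, e3, ?_⟩
  have h4 := Submodule.finrank_sup_add_finrank_inf_eq
    (Submodule.span F (b '' ((insert x S : Finset _) : Set _)))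
    (Submodule.span F (b '' ((insert y S : Finset _) : Set _)))
  rw [e1, e2, e3] at h4
  omega

/-- log-convex sequences starting from `1` -/
theorem logconvex (a : ℕ → ℕ) (N : ℕ) (h0 : a 0 = 1) (hpos : ∀ d ≤ N, 0 < a d)
    (h : ∀ d, d + 2 ≤ N → a (d + 1) * a (d + 1) ≤ a (d + 2) * a d) :
    ∀ d m, d ≤ m → m ≤ N → a d ^ m ≤ a m ^ d := by
  have h1 : ∀ d, d + 1 ≤ N → a d ^ (d + 1) ≤ a (d + 1) ^ d := by
    intro d
    induction d with
    | zero =>
      intro _
      rw [h0]
      simp
    | succ d ih =>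
      intro hd
      have ih' := ih (by omega)
      have h2 := h d (by omega)
      have hp : 0 < a (d + 1) ^ d := pow_pos (hpos _ (by omega)) _
      apply Nat.le_of_mul_le_mul_right _ hp
      calc a (d + 1) ^ (d + 1 + 1) * a (d + 1) ^ d = (a (d + 1) * a (d + 1)) ^ (d + 1) := by ring
        _ ≤ (a (d + 2) * a d) ^ (d + 1) := Nat.pow_le_pow_left h2 _
        _ = a (d + 1 + 1) ^ (d + 1) * a d ^ (d + 1) := by
            rw [mul_pow]
        _ ≤ a (d + 1 + 1) ^ (d + 1) * a (d + 1) ^ d := Nat.mul_le_mul_left _ ih'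
  intro d m hdm
  induction m, hdm using Nat.le_induction with
  | base => intro _; exact le_refl _
  | succ m hdm ih =>
    intro hm
    rcases Nat.eq_zero_or_pos m with h0' | h0'
    · have : d = 0 := by omega
      subst this
      rw [h0]
      simp
    · have h2 := ih (by omega)
      have h3 := h1 m hm
      rw [← Nat.pow_le_pow_iff_left (n := m) (by omega)]
      calc (a d ^ (m + 1)) ^ m = (a d ^ m) ^ (m + 1) := by ring
        _ ≤ (a m ^ d) ^ (m + 1) := Nat.pow_le_pow_left h2 _
        _ = (a m ^ (m + 1)) ^ d := by ring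
        _ ≤ (a (m + 1) ^ m) ^ d := Nat.pow_le_pow_left h3 _
        _ = (a (m + 1) ^ d) ^ m := by ring

theorem self_mem_EW {n s : ℕ} (W : Submodule F V) {e : Fin n → V} (he : e ∈ TT n s V) :
    e ∈ EW n s W e := by
  rw [mem_EW]
  exact ⟨he, fun j => by rw [sub_self]; exact W.zero_mem⟩

/-- the fibre bound -/
theorem EW_pow_le {n s : ℕ} (W : Submodule F V) {e : Fin n → V} (he : e ∈ TT n s V) :
    (EW n s W e).card ^ Module.finrank F V ≤ (TT n s V).card ^ Module.finrank F W := by
  classical
  have : Module.Finite F V := Module.Finite.of_finite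
  let a : ℕ → ℕ := fun d => if h : ∃ W : Submodule F V, Module.finrank F W = d then
    (EW n s h.choose e).card else 0
  have ha : ∀ W : Submodule F V, (EW n s W e).card = a (Module.finrank F W) := by
    intro W
    have h : ∃ W' : Submodule F V, Module.finrank F W' = Module.finrank F W := ⟨W, rfl⟩
    show _ = if h : ∃ W' : Submodule F V, Module.finrank F W' = Module.finrank F W then
      (EW n s h.choose e).card else 0
    rw [dif_pos h]
    exact EW_card_finrank h.choose_spec.symm he
  have hex : ∀ d, d ≤ Module.finrank F V → ∃ W : Submodule F V, Module.finrank F W = d := by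
    intro d hd
    obtain ⟨S, -, hS⟩ := exists_subset_card_eq (s := (univ : Finset (Fin (Module.finrank F V))))
      (n := d) (by rw [card_univ, Fintype.card_fin]; exact hd)
    exact ⟨_, (finrank_span_basis (Module.finBasis F V) S).trans hS⟩
  have htop : (EW n s (⊤ : Submodule F V) e).card = (TT n s V).card := by
    congr 1
    ext x
    rw [mem_EW]
    exact ⟨fun h => h.1, fun h => ⟨h, fun _ => Submodule.mem_top⟩⟩
  have hbot : (EW n s (⊥ : Submodule F V) e).card = 1 := by
    rw [card_eq_one]
    refine ⟨e, ?_⟩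
    ext x
    rw [mem_EW, mem_singleton]
    constructor
    · rintro ⟨-, h⟩
      funext j
      have := h j
      rw [Submodule.mem_bot] at this
      exact sub_eq_zero.1 this
    · rintro rfl
      exact ⟨he, fun j => by rw [sub_self]; exact Submodule.zero_mem _⟩
  have h := logconvex a (Module.finrank F V) (by
      rw [← finrank_bot F V, ← ha, hbot]) (by
      intro d hd
      obtain ⟨W', hW'⟩ := hex d hd
      rw [← hW', ← ha]
      exact card_pos.2 ⟨e, self_mem_EW W' he⟩) (by
      intro d hd
      obtain ⟨W₁, W₂, h1, h2, h3, h4⟩ := exists_square (F := F) (V := V) d hd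
      have h5 := EW_submodular W₁ W₂ he
      rw [ha, ha, ha, ha, h1, h2, h3, h4] at h5
      exact h5) (Module.finrank F W) (Module.finrank F V) (Submodule.finrank_le W) le_rfl
  rw [← ha, ← finrank_top F V, ← ha, htop, finrank_top] at h
  exact h

end fibres

/-! ### the second moment -/

section moment

variable {F V : Type} [Field F] [Fintype F] [AddCommGroup V] [Module F V] [Fintype V]

/-- the linear map `F^k → V` with values `M` on the standard basis -/
noncomputable def LC (F : Type) {V : Type} [Field F] [AddCommGroup V] [Module F V] {k : ℕ}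
    (M : Fin k → V) : (Fin k → F) →ₗ[F] V := Fintype.linearCombination F M

omit [Fintype F] [Fintype V] in
theorem LC_add {k : ℕ} (M D : Fin k → V) (x : Fin k → F) :
    LC F (M + D) x = LC F M x + LC F D x := by
  unfold LC
  rw [Fintype.linearCombination_apply, Fintype.linearCombination_apply,
    Fintype.linearCombination_apply, ← sum_add_distrib]
  refine sum_congr rfl fun l _ => ?_
  rw [Pi.add_apply, smul_add]

omit [Fintype F] [Fintype V] in
theorem LC_single {k : ℕ} (M : Fin k → V) (l : Fin k) : LC F M (Pi.single l 1) = M l := by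
  classical
  unfold LC
  rw [Fintype.linearCombination_apply_single, one_smul]

/-- the finite set of elements of a subspace -/
noncomputable def fs {E : Type} [AddCommGroup E] [Module F E] [Fintype E] (W : Submodule F E) :
    Finset E := by
  classical exact univ.filter fun x => x ∈ W

omit [Fintype F] in
theorem mem_fs {E : Type} [AddCommGroup E] [Module F E] [Fintype E] {W : Submodule F E} {x : E} :
    x ∈ fs W ↔ x ∈ W := by
  classical
  unfold fs
  rw [mem_filter]
  simp

theorem card_fs {E : Type} [AddCommGroup E] [Module F E] [Fintype E] (W : Submodule F E) :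
    (fs W).card = Fintype.card F ^ Module.finrank F W := by
  classical
  have : Module.Finite F E := Module.Finite.of_finite
  rw [← Module.card_eq_pow_finrank (K := F) (V := W), Fintype.card_subtype]
  congr 1

/-- the coefficient matrices that bring `u` into the type class -/
noncomputable def good {n k : ℕ} (s : ℕ) (G : Fin n → Fin k → F) (u : Fin n → V) :
    Finset (Fin k → V) := by
  classical exact univ.filter fun M => (fun j => LC F M (G j) - u j) ∈ TT n s V

omit [Fintype F] in
theorem good_card {n k : ℕ} (s : ℕ) (G : Fin n → Fin k → F) (u : Fin n → V)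
    [DecidablePred fun e => e ∈ TT n s V] :
    (good s G u).card = ∑ M : Fin k → V, if (fun j => LC F M (G j) - u j) ∈ TT n s V then 1 else 0 := by
  classical
  unfold good
  rw [card_filter]
  refine sum_congr rfl fun M _ => ?_
  by_cases h : (fun j => LC F M (G j) - u j) ∈ TT n s V
  · rw [if_pos h, if_pos h]
  · rw [if_neg h, if_neg h]

theorem first_moment {n k : ℕ} (s : ℕ) :
    ∑ G : Fin n → Fin k → F, ∑ u : Fin n → V, (good s G u).card =
      Fintype.card (Fin n → Fin k → F) * (Fintype.card (Fin k → V) * (TT n s V).card) := by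
  classical
  have h1 : ∀ G : Fin n → Fin k → F, ∑ u : Fin n → V, (good s G u).card =
      Fintype.card (Fin k → V) * (TT n s V).card := by
    intro G
    have h2 : ∀ M : Fin k → V, ∑ u : Fin n → V,
        (if (fun j => LC F M (G j) - u j) ∈ TT n s V then 1 else 0) = (TT n s V).card := by
      intro M
      have h3 := Fintype.sum_equiv (Equiv.subLeft (fun j => LC F M (G j)))
        (fun u : Fin n → V => if (fun j => LC F M (G j) - u j) ∈ TT n s V then 1 else 0)
        (fun e => if e ∈ TT n s V then 1 else 0) (fun u => rfl)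
      rw [h3]
      simp
    simp only [good_card]
    rw [sum_comm, sum_congr rfl fun M _ => h2 M, sum_const, card_univ, smul_eq_mul]
  rw [sum_congr rfl fun G _ => h1 G, sum_const, card_univ, smul_eq_mul]

theorem second_moment {n k : ℕ} (s : ℕ) :
    ∑ G : Fin n → Fin k → F, ∑ u : Fin n → V, (good s G u).card ^ 2 =
      Fintype.card (Fin k → V) * ∑ D : Fin k → V, ∑ e ∈ TT n s V,
        Nat.card {G : Fin n → Fin k → F // (fun j => e j + LC F D (G j)) ∈ TT n s V} := by
  classical
  have h1 : ∀ G : Fin n → Fin k → F, ∑ u : Fin n → V, (good s G u).card ^ 2 =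
      Fintype.card (Fin k → V) * ∑ D : Fin k → V, ∑ e : Fin n → V,
        (if e ∈ TT n s V then 1 else 0) *
          (if (fun j => e j + LC F D (G j)) ∈ TT n s V then 1 else 0) := by
    intro G
    have h2 : ∀ u : Fin n → V, (good s G u).card ^ 2 = ∑ M : Fin k → V, ∑ D : Fin k → V,
        (if (fun j => LC F M (G j) - u j) ∈ TT n s V then 1 else 0) *
          (if (fun j => LC F (M + D) (G j) - u j) ∈ TT n s V then 1 else 0) := by
      intro u
      rw [sq, good_card, sum_mul_sum]
      refine sum_congr rfl fun M _ => ?_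
      exact (Fintype.sum_equiv (Equiv.addLeft M)
        (fun D => (if (fun j => LC F M (G j) - u j) ∈ TT n s V then 1 else 0) *
          (if (fun j => LC F (M + D) (G j) - u j) ∈ TT n s V then 1 else 0))
        (fun M' => (if (fun j => LC F M (G j) - u j) ∈ TT n s V then 1 else 0) *
          (if (fun j => LC F M' (G j) - u j) ∈ TT n s V then 1 else 0)) (fun D => rfl)).symm
    rw [sum_congr rfl fun u _ => h2 u, sum_comm]
    have h3 : ∀ M : Fin k → V, ∑ u : Fin n → V, ∑ D : Fin k → V,
        (if (fun j => LC F M (G j) - u j) ∈ TT n s V then 1 else 0) *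
          (if (fun j => LC F (M + D) (G j) - u j) ∈ TT n s V then 1 else 0) =
        ∑ D : Fin k → V, ∑ e : Fin n → V,
        (if e ∈ TT n s V then 1 else 0) *
          (if (fun j => e j + LC F D (G j)) ∈ TT n s V then 1 else 0) := by
      intro M
      rw [sum_comm]
      refine sum_congr rfl fun D _ => ?_
      refine Fintype.sum_equiv (Equiv.subLeft (fun j => LC F M (G j))) _ _ (fun u => ?_)
      congr 2
      have h4 : (fun j => LC F (M + D) (G j) - u j) = fun j =>
          (Equiv.subLeft (fun j => LC F M (G j)) u) j + LC F D (G j) := by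
        funext j
        rw [LC_add]
        show _ = LC F M (G j) - u j + LC F D (G j)
        abel
      rw [h4]
    rw [sum_congr rfl fun M _ => h3 M, sum_const, card_univ, smul_eq_mul]
  rw [sum_congr rfl fun G _ => h1 G, ← mul_sum, sum_comm]
  congr 1
  refine sum_congr rfl fun D _ => ?_
  rw [sum_comm, ← sum_filter_add_sum_filter_not univ (fun e => e ∈ TT n s V)]
  have h5 : ∑ e ∈ univ.filter (fun e => ¬ e ∈ TT n s V), ∑ G : Fin n → Fin k → F,
      (if e ∈ TT n s V then 1 else 0) *
        (if (fun j => e j + LC F D (G j)) ∈ TT n s V then 1 else 0) = 0 := by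
    refine sum_eq_zero fun e he => sum_eq_zero fun G _ => ?_
    rw [if_neg (mem_filter.1 he).2, zero_mul]
  rw [h5, add_zero]
  have h6 : univ.filter (fun e => e ∈ TT n s V) = TT n s V := by
    ext e
    simp
  rw [h6]
  refine sum_congr rfl fun e he => ?_
  rw [Nat.card_eq_fintype_card, Fintype.card_subtype, card_filter]
  refine sum_congr rfl fun G _ => ?_
  rw [if_pos he, one_mul]

/-- counting the generator matrices for a given difference -/
theorem count_G {n k : ℕ} (s : ℕ) (D : Fin k → V) (e : Fin n → V) :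
    Nat.card {G : Fin n → Fin k → F // (fun j => e j + LC F D (G j)) ∈ TT n s V} ≤
      (Fintype.card F ^ (k - Module.finrank F (LinearMap.range (LC F D)))) ^ n *
        (EW n s (LinearMap.range (LC F D)) e).card := by
  classical
  have : Module.Finite F V := Module.Finite.of_finite
  rw [Nat.card_eq_fintype_card, Fintype.card_subtype]
  refine card_le_mul_card_image_of_maps_to (f := fun (G : Fin n → Fin k → F) j =>
    e j + LC F D (G j)) ?_ _ ?_
  · intro G hG
    rw [mem_filter] at hG
    rw [mem_EW]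
    refine ⟨hG.2, fun j => ?_⟩
    rw [add_sub_cancel_left]
    exact LinearMap.mem_range_self _ _
  · intro b _
    rcases (univ.filter fun G : Fin n → Fin k → F => (fun j => e j + LC F D (G j)) ∈
      TT n s V).filter (fun G => (fun j => e j + LC F D (G j)) = b) |>.eq_empty_or_nonempty with
      h0 | ⟨G₀, hG₀⟩
    · rw [h0, card_empty]
      exact Nat.zero_le _
    · rw [mem_filter] at hG₀
      have hk : (fs (LinearMap.ker (LC F D))).card =
          Fintype.card F ^ (k - Module.finrank F (LinearMap.range (LC F D))) := by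
        rw [card_fs]
        congr 1
        have h1 := LinearMap.finrank_range_add_finrank_ker (LC F D)
        rw [Module.finrank_fin_fun] at h1
        omega
      rw [← hk, ← Fintype.card_piFinset_const]
      refine card_le_card_of_injOn (fun G j => G j - G₀ j) ?_ ?_
      · intro G hG
        rw [mem_coe, mem_filter] at hG
        rw [mem_coe, Fintype.mem_piFinset]
        intro j
        rw [mem_fs, LinearMap.mem_ker, map_sub]
        have h1 := congrFun (hG.2.trans hG₀.2.symm) j
        rw [add_left_cancel h1, sub_self]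
      · intro G _ G' _ h
        funext j
        have h1 := congrFun h j
        dsimp only at h1
        exact sub_left_injective h1

/-- the main inequality for one subspace -/
theorem term_bound {n k : ℕ} (s Λ : ℕ) (W : Submodule F V) {e : Fin n → V}
    (he : e ∈ TT n s V) (hk : Module.finrank F V ≤ k) (hW : W ≠ ⊤)
    (H : Λ ^ Module.finrank F V * Fintype.card F ^ (Module.finrank F V * n) ≤
      Fintype.card F ^ (Module.finrank F V * k) * (TT n s V).card) :
    Λ * (Fintype.card F ^ ((Module.finrank F V + k) * n) *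
      ((fs W).card ^ k * ((Fintype.card F ^ (k - Module.finrank F W)) ^ n * (EW n s W e).card))) ≤
      Fintype.card F ^ (Module.finrank F V * k + 2 * k * n) * (TT n s V).card := by
  classical
  have : Module.Finite F V := Module.Finite.of_finite
  have hlt : Module.finrank F W < Module.finrank F V :=
    Submodule.finrank_lt hW
  have hEW := EW_pow_le W he
  rw [card_fs]
  set t := Module.finrank F V
  set d := Module.finrank F W
  set q := Fintype.card F
  set T := (TT n s V).card
  set E := (EW n s W e).card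
  obtain ⟨c, hc⟩ : ∃ c, t = d + c := ⟨t - d, by omega⟩
  obtain ⟨m, hm⟩ : ∃ m, k = d + m := ⟨k - d, by omega⟩
  have hc0 : 0 < c := by omega
  have h1 : Λ * q ^ (c * n) * E ≤ q ^ (c * k) * T := by
    rw [← Nat.pow_le_pow_iff_left (n := t) (by omega)]
    calc (Λ * q ^ (c * n) * E) ^ t = Λ ^ t * q ^ (t * n * c) * E ^ t := by
          rw [mul_pow, mul_pow, ← pow_mul]
          ring_nf
      _ ≤ (Λ ^ t) ^ c * q ^ (t * n * c) * T ^ d := by
          refine Nat.mul_le_mul (Nat.mul_le_mul_right _ ?_) hEW
          exact Nat.le_self_pow (by omega) _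
      _ = (Λ ^ t * q ^ (t * n)) ^ c * T ^ d := by
          rw [mul_pow, ← pow_mul q]
      _ ≤ (q ^ (t * k) * T) ^ c * T ^ d := Nat.mul_le_mul_right _ (Nat.pow_le_pow_left H _)
      _ = (q ^ (c * k) * T) ^ t := by
          rw [mul_pow, mul_pow, hc, ← pow_mul, ← pow_mul, pow_add]
          ring_nf
  have hkd : k - d = m := by omega
  rw [hkd]
  calc Λ * (q ^ ((t + k) * n) * ((q ^ d) ^ k * ((q ^ m) ^ n * E)))
      = (Λ * q ^ (c * n) * E) * (q ^ (d * k) * q ^ (k * n) * q ^ (d * n) * q ^ (m * n)) := by
        rw [hc]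
        ring
    _ ≤ (q ^ (c * k) * T) * (q ^ (d * k) * q ^ (k * n) * q ^ (d * n) * q ^ (m * n)) :=
        Nat.mul_le_mul_right _ h1
    _ = q ^ (t * k + 2 * k * n) * T := by
        rw [hc, hm]
        ring

omit [Fintype F] in
theorem sum_D {k : ℕ} (g : Submodule F V → ℕ) :
    ∑ D : Fin k → V, g (LinearMap.range (LC F D)) ≤
      ∑ W : Submodule F V, (fs W).card ^ k * g W := by
  classical
  rw [← sum_fiberwise_of_maps_to (s := (univ : Finset (Fin k → V)))
    (t := (univ : Finset (Submodule F V))) (g := fun D => LinearMap.range (LC F D))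
    (fun _ _ => mem_univ _)]
  refine sum_le_sum fun W _ => ?_
  rw [sum_congr rfl fun D hD => congrArg g (mem_filter.1 hD).2, sum_const, smul_eq_mul]
  refine Nat.mul_le_mul_right _ ?_
  rw [← Fintype.card_piFinset_const]
  refine card_le_card fun D hD => ?_
  rw [mem_filter] at hD
  rw [Fintype.mem_piFinset]
  intro l
  rw [mem_fs, ← hD.2, ← LC_single (F := F) D l]
  exact LinearMap.mem_range_self _ _

/-- the second moment is at most twice the square of the first moment -/
theorem second_le {n k : ℕ} (s : ℕ) (hk : Module.finrank F V ≤ k)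
    (H : Fintype.card (Submodule F V) ^ Module.finrank F V *
      Fintype.card F ^ (Module.finrank F V * n) ≤
      Fintype.card F ^ (Module.finrank F V * k) * (TT n s V).card) :
    Fintype.card F ^ ((Module.finrank F V + k) * n) *
      ∑ G : Fin n → Fin k → F, ∑ u : Fin n → V, (good s G u).card ^ 2 ≤
      2 * (Fintype.card F ^ (Module.finrank F V * k) *
        Fintype.card F ^ (Module.finrank F V * k + 2 * k * n) * (TT n s V).card ^ 2) := by
  classical
  have : Module.Finite F V := Module.Finite.of_finite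
  have hcV : Fintype.card (Fin k → V) = Fintype.card F ^ (Module.finrank F V * k) := by
    rw [Fintype.card_fun, Fintype.card_fin, Module.card_eq_pow_finrank (K := F) (V := V),
      ← pow_mul]
  set t := Module.finrank F V with ht
  set q := Fintype.card F with hq
  set Λ := Fintype.card (Submodule F V) with hΛ
  have hΛ0 : 0 < Λ := Fintype.card_pos
  rw [second_moment, hcV]
  -- bound on the inner sum
  have h1 : ∑ D : Fin k → V, ∑ e ∈ TT n s V,
      Nat.card {G : Fin n → Fin k → F // (fun j => e j + LC F D (G j)) ∈ TT n s V} ≤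
      ∑ W : Submodule F V, (fs W).card ^ k * ∑ e ∈ TT n s V,
        (q ^ (k - Module.finrank F W)) ^ n * (EW n s W e).card := by
    refine le_trans (sum_le_sum fun D _ => sum_le_sum fun e _ => count_G s D e) ?_
    exact sum_D (fun W => ∑ e ∈ TT n s V, (q ^ (k - Module.finrank F W)) ^ n *
      (EW n s W e).card)
  have h2 : ∀ W : Submodule F V, Λ * (q ^ ((t + k) * n) * ((fs W).card ^ k * ∑ e ∈ TT n s V,
        (q ^ (k - Module.finrank F W)) ^ n * (EW n s W e).card)) ≤
      (if W = ⊤ then Λ * (q ^ (t * k + 2 * k * n) * (TT n s V).card ^ 2)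
        else q ^ (t * k + 2 * k * n) * (TT n s V).card ^ 2) := by
    intro W
    rw [mul_sum, mul_sum, mul_sum]
    by_cases hW : W = ⊤
    · rw [if_pos hW]
      have h3 : ∀ e ∈ TT n s V, Λ * (q ^ ((t + k) * n) * ((fs W).card ^ k *
          ((q ^ (k - Module.finrank F W)) ^ n * (EW n s W e).card))) =
          Λ * (q ^ (t * k + 2 * k * n) * (TT n s V).card) := by
        intro e _
        have h4 : (EW n s W e).card = (TT n s V).card := by
          congr 1
          ext x
          rw [mem_EW, hW]
          exact ⟨fun h => h.1, fun h => ⟨h, fun _ => Submodule.mem_top⟩⟩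
        rw [h4, card_fs, hW, finrank_top, ← ht, ← hq]
        obtain ⟨m, hm⟩ : ∃ m, k = t + m := ⟨k - t, by omega⟩
        have hkt : k - t = m := by omega
        rw [hkt, hm]
        ring
      rw [sum_congr rfl h3, sum_const, smul_eq_mul]
      apply le_of_eq
      ring
    · rw [if_neg hW]
      have h3 : ∀ e ∈ TT n s V, Λ * (q ^ ((t + k) * n) * ((fs W).card ^ k *
          ((q ^ (k - Module.finrank F W)) ^ n * (EW n s W e).card))) ≤
          q ^ (t * k + 2 * k * n) * (TT n s V).card :=
        fun e he => term_bound s Λ W he hk hW H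
      refine (sum_le_sum h3).trans ?_
      rw [sum_const, smul_eq_mul]
      apply le_of_eq
      ring
  apply Nat.le_of_mul_le_mul_left _ hΛ0
  set S2 := ∑ W : Submodule F V, (fs W).card ^ k * ∑ e ∈ TT n s V,
        (q ^ (k - Module.finrank F W)) ^ n * (EW n s W e).card with hS2
  have h5 : Λ * (q ^ ((t + k) * n) * S2) ≤
      2 * (Λ * (q ^ (t * k + 2 * k * n) * (TT n s V).card ^ 2)) := by
    rw [hS2, mul_sum, mul_sum]
    refine (sum_le_sum fun W _ => h2 W).trans ?_
    rw [← add_sum_erase univ _ (mem_univ (⊤ : Submodule F V)), if_pos rfl,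
      two_mul (Λ * (q ^ (t * k + 2 * k * n) * (TT n s V).card ^ 2))]
    refine Nat.add_le_add_left ?_ _
    rw [sum_congr rfl fun W hW => if_neg (ne_of_mem_erase hW), sum_const, smul_eq_mul]
    refine Nat.mul_le_mul_right _ ?_
    rw [hΛ, ← card_univ]
    exact card_le_card (erase_subset _ _)
  calc Λ * (q ^ ((t + k) * n) * (q ^ (t * k) * ∑ D : Fin k → V, ∑ e ∈ TT n s V,
      Nat.card {G : Fin n → Fin k → F // (fun j => e j + LC F D (G j)) ∈ TT n s V}))
      ≤ Λ * (q ^ ((t + k) * n) * (q ^ (t * k) * S2)) :=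
        Nat.mul_le_mul_left _ (Nat.mul_le_mul_left _ (Nat.mul_le_mul_left _ h1))
    _ = q ^ (t * k) * (Λ * (q ^ ((t + k) * n) * S2)) := by ring
    _ ≤ q ^ (t * k) * (2 * (Λ * (q ^ (t * k + 2 * k * n) * (TT n s V).card ^ 2))) :=
        Nat.mul_le_mul_left _ h5
    _ = _ := by ring

/-- some generator matrix covers half of the space -/
theorem exists_G {n k : ℕ} (s : ℕ) (hk : Module.finrank F V ≤ k)
    (H : Fintype.card (Submodule F V) ^ Module.finrank F V *
      Fintype.card F ^ (Module.finrank F V * n) ≤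
      Fintype.card F ^ (Module.finrank F V * k) * (TT n s V).card) :
    ∃ G : Fin n → Fin k → F, Fintype.card (Fin n → V) ≤
      2 * Nat.card {u : Fin n → V // ∃ M : Fin k → V, (fun j => LC F M (G j) - u j) ∈
        TT n s V} := by
  classical
  have : Module.Finite F V := Module.Finite.of_finite
  have h2 := second_le (n := n) (k := k) s hk H
  have h1 := first_moment (F := F) (V := V) (n := n) (k := k) s
  have hcV : Fintype.card (Fin k → V) = Fintype.card F ^ (Module.finrank F V * k) := by
    rw [Fintype.card_fun, Fintype.card_fin, Module.card_eq_pow_finrank (K := F) (V := V),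
      ← pow_mul]
  have hcG : Fintype.card (Fin n → Fin k → F) = Fintype.card F ^ (k * n) := by
    rw [Fintype.card_fun, Fintype.card_fun, Fintype.card_fin, Fintype.card_fin, ← pow_mul]
  have hcu : Fintype.card (Fin n → V) = Fintype.card F ^ (Module.finrank F V * n) := by
    rw [Fintype.card_fun, Fintype.card_fin, Module.card_eq_pow_finrank (K := F) (V := V),
      ← pow_mul]
  have hq0 : 0 < Fintype.card F := Fintype.card_pos
  have hT0 : 0 < (TT n s V).card := by
    rcases Nat.eq_zero_or_pos (TT n s V).card with h0 | h0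
    · rw [h0, mul_zero] at H
      have : 0 < Fintype.card (Submodule F V) ^ Module.finrank F V *
        Fintype.card F ^ (Module.finrank F V * n) := by
        have : 0 < Fintype.card (Submodule F V) := Fintype.card_pos
        positivity
      omega
    · exact h0
  by_contra hcon
  push Not at hcon
  -- the set of good pairs
  let P : Finset ((Fin n → Fin k → F) × (Fin n → V)) := univ.filter fun p => (good s p.1 p.2).Nonempty
  have hP1 : P.card = ∑ G : Fin n → Fin k → F, Nat.card {u : Fin n → V // ∃ M : Fin k → V,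
      (fun j => LC F M (G j) - u j) ∈ TT n s V} := by
    rw [card_filter, Fintype.sum_prod_type]
    refine sum_congr rfl fun G _ => ?_
    rw [← card_filter, Nat.card_eq_fintype_card, Fintype.card_subtype]
    congr 1
    ext u
    rw [mem_filter, mem_filter]
    refine and_congr Iff.rfl ?_
    constructor
    · rintro ⟨M, hM⟩
      exact ⟨M, (mem_filter.1 hM).2⟩
    · rintro ⟨M, hM⟩
      exact ⟨M, mem_filter.2 ⟨mem_univ _, hM⟩⟩
  have hP2 : (∑ p ∈ P, (good s p.1 p.2).card) =
      ∑ G : Fin n → Fin k → F, ∑ u : Fin n → V, (good s G u).card := by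
    rw [← Fintype.sum_prod_type' (f := fun G u => (good s G u).card)]
    refine sum_subset (subset_univ _) fun p _ hp => ?_
    rw [card_eq_zero, ← not_nonempty_iff_eq_empty]
    intro h
    exact hp (mem_filter.2 ⟨mem_univ _, h⟩)
  have hP3 : (∑ p ∈ P, (good s p.1 p.2).card ^ 2) ≤
      ∑ G : Fin n → Fin k → F, ∑ u : Fin n → V, (good s G u).card ^ 2 := by
    rw [← Fintype.sum_prod_type' (f := fun G u => (good s G u).card ^ 2)]
    exact sum_le_sum_of_subset (subset_univ _)
  have hCS : (∑ p ∈ P, (good s p.1 p.2).card) ^ 2 ≤ P.card * ∑ p ∈ P, (good s p.1 p.2).card ^ 2 :=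
    sq_sum_le_card_mul_sum_sq
  rw [hP2, h1, hcV, hcG] at hCS
  set t := Module.finrank F V with ht
  set q := Fintype.card F with hq
  set T := (TT n s V).card with hT
  have hfin : 2 * P.card < q ^ (k * n) * q ^ (t * n) := by
    rw [hP1, mul_sum]
    calc ∑ G : Fin n → Fin k → F, 2 * Nat.card {u : Fin n → V // ∃ M : Fin k → V,
        (fun j => LC F M (G j) - u j) ∈ TT n s V} < ∑ G : Fin n → Fin k → F, q ^ (t * n) := by
          refine sum_lt_sum_of_nonempty univ_nonempty fun G _ => ?_
          rw [← hcu]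
          exact hcon G
      _ = q ^ (k * n) * q ^ (t * n) := by
          rw [sum_const, card_univ, hcG, smul_eq_mul]
  have h6 : q ^ ((t + k) * n) * (q ^ (k * n) * (q ^ (t * k) * T)) ^ 2 ≤
      2 * P.card * (q ^ (t * k) * q ^ (t * k + 2 * k * n) * T ^ 2) := by
    calc q ^ ((t + k) * n) * (q ^ (k * n) * (q ^ (t * k) * T)) ^ 2
        ≤ q ^ ((t + k) * n) * (P.card * ∑ p ∈ P, (good s p.1 p.2).card ^ 2) :=
          Nat.mul_le_mul_left _ hCS
      _ ≤ q ^ ((t + k) * n) * (P.card * ∑ G : Fin n → Fin k → F, ∑ u : Fin n → V,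
            (good s G u).card ^ 2) :=
          Nat.mul_le_mul_left _ (Nat.mul_le_mul_left _ hP3)
      _ = P.card * (q ^ ((t + k) * n) * ∑ G : Fin n → Fin k → F, ∑ u : Fin n → V,
            (good s G u).card ^ 2) := by ring
      _ ≤ P.card * (2 * (q ^ (t * k) * q ^ (t * k + 2 * k * n) * T ^ 2)) :=
          Nat.mul_le_mul_left _ h2
      _ = _ := by ring
  have h7 : q ^ ((t + k) * n) * (q ^ (k * n) * (q ^ (t * k) * T)) ^ 2 =
      (q ^ (k * n) * q ^ (t * n)) * (q ^ (t * k) * q ^ (t * k + 2 * k * n) * T ^ 2) := by ring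
  rw [h7] at h6
  have h8 := Nat.le_of_mul_le_mul_right h6 (by positivity)
  omega

end moment

/-! ### squaring the uncovered fraction -/

section squaring

variable {A : Type} [AddCommGroup A] [Fintype A]

/-- a translate with small intersection -/
theorem exists_translate (U : Finset A) :
    ∃ X : A, Nat.card {u : A // u ∈ U ∧ u - X ∈ U} * Fintype.card A ≤ U.card * U.card := by
  classical
  have h1 : ∑ X : A, Nat.card {u : A // u ∈ U ∧ u - X ∈ U} = U.card * U.card := by
    have h2 : ∀ X : A, Nat.card {u : A // u ∈ U ∧ u - X ∈ U} =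
        ∑ u ∈ U, if u - X ∈ U then 1 else 0 := by
      intro X
      rw [Nat.card_eq_fintype_card, Fintype.card_subtype, ← card_filter]
      congr 1
      ext u
      simp
    rw [sum_congr rfl fun X _ => h2 X, sum_comm]
    have h3 : ∀ u ∈ U, ∑ X : A, (if u - X ∈ U then 1 else 0) = U.card := by
      intro u _
      have h4 := Fintype.sum_equiv (Equiv.subLeft u) (fun X : A => if u - X ∈ U then 1 else 0)
        (fun e => if e ∈ U then 1 else 0) (fun X => rfl)
      rw [h4]
      simp
    rw [sum_congr rfl h3, sum_const, smul_eq_mul]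
  by_contra hcon
  push Not at hcon
  have h5 : ∑ X : A, U.card * U.card < ∑ X : A, Nat.card {u : A // u ∈ U ∧ u - X ∈ U} *
      Fintype.card A := sum_lt_sum_of_nonempty univ_nonempty fun X _ => hcon X
  have h6 : ∑ X : A, Nat.card {u : A // u ∈ U ∧ u - X ∈ U} * Fintype.card A =
      U.card * U.card * Fintype.card A := by
    rw [← sum_mul, h1]
  rw [h6, sum_const, card_univ, smul_eq_mul, mul_comm] at h5
  exact lt_irrefl _ h5

end squaring

/-! ### covering by linear codes -/

section cover

variable {F : Type} [Field F] [Fintype F]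

/-- `u` (given by its columns) is within distance `r` of the `t`-tuples of `C` -/
def Near {n t : ℕ} (C : Set (Fin n → F)) (r : ℕ) (u : Fin n → Fin t → F) : Prop :=
  ∃ c : Fin n → Fin t → F, (∀ i, (fun j => c j i) ∈ C) ∧ wt (fun j => c j - u j) ≤ r

omit [Fintype F] in
theorem Near.mono {n t : ℕ} {C C' : Set (Fin n → F)} (h : C ⊆ C') {r : ℕ}
    {u : Fin n → Fin t → F} (hu : Near C r u) : Near C' r u := by
  obtain ⟨c, h1, h2⟩ := hu
  exact ⟨c, fun i => h (h1 i), h2⟩

/-- one doubling step -/
theorem step {n t : ℕ} (C : Submodule F (Fin n → F)) (r : ℕ) :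
    ∃ C' : Submodule F (Fin n → F), Module.finrank F C' ≤ Module.finrank F C + t ∧
      Nat.card {u : Fin n → Fin t → F // ¬ Near (C' : Set (Fin n → F)) r u} *
        Fintype.card (Fin n → Fin t → F) ≤
        Nat.card {u : Fin n → Fin t → F // ¬ Near (C : Set (Fin n → F)) r u} ^ 2 := by
  classical
  obtain ⟨X, hX⟩ := exists_translate (A := Fin n → Fin t → F)
    (univ.filter fun u => ¬ Near (C : Set (Fin n → F)) r u)
  let C' : Submodule F (Fin n → F) := C ⊔ Submodule.span F (Set.range fun i j => X j i)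
  refine ⟨C', ?_, ?_⟩
  · refine (Submodule.finrank_add_le_finrank_add_finrank _ _).trans ?_
    refine Nat.add_le_add_left ?_ _
    refine (finrank_range_le_card _).trans ?_
    rw [Fintype.card_fin]
  · rw [sq]
    have h1 : Nat.card {u : Fin n → Fin t → F // ¬ Near (C : Set (Fin n → F)) r u} =
        (univ.filter fun u : Fin n → Fin t → F => ¬ Near (C : Set (Fin n → F)) r u).card := by
      rw [Nat.card_eq_fintype_card, Fintype.card_subtype]
    rw [h1]
    refine le_trans (Nat.mul_le_mul_right _ ?_) hX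
    refine Nat.card_le_card_of_injective (fun u => ⟨u.1, ?_, ?_⟩) ?_
    · rw [mem_filter]
      refine ⟨mem_univ _, fun h => u.2 (h.mono ?_)⟩
      exact fun x hx => (le_sup_left : C ≤ C') hx
    · rw [mem_filter]
      refine ⟨mem_univ _, fun h => u.2 ?_⟩
      obtain ⟨c, h2, h3⟩ := h
      refine ⟨c + X, fun i => ?_, ?_⟩
      · show (fun j => c j i + X j i) ∈ C'
        have h4 : (fun j => c j i) ∈ C' := (le_sup_left : C ≤ C') (h2 i)
        have h5 : (fun j => X j i) ∈ C' := (le_sup_right : _ ≤ C')
          (Submodule.subset_span ⟨i, rfl⟩)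
        exact C'.add_mem h4 h5
      · have h6 : (fun j => (c + X) j - u.1 j) = fun j => c j - (u.1 - X) j := by
          funext j
          rw [Pi.add_apply, Pi.sub_apply]
          abel
        rw [h6]
        exact h3
    · intro u v h
      exact Subtype.ext (congrArg (fun z => z.1) h)

/-- several doubling steps -/
theorem steps {n t : ℕ} (C : Submodule F (Fin n → F)) (r : ℕ)
    (h : Fintype.card (Fin n → Fin t → F) ≤
      2 * Nat.card {u : Fin n → Fin t → F // Near (C : Set (Fin n → F)) r u}) (m : ℕ) :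
    ∃ C' : Submodule F (Fin n → F), Module.finrank F C' ≤ Module.finrank F C + m * t ∧
      Nat.card {u : Fin n → Fin t → F // ¬ Near (C' : Set (Fin n → F)) r u} * 2 ^ 2 ^ m ≤
        Fintype.card (Fin n → Fin t → F) := by
  classical
  induction m with
  | zero =>
    refine ⟨C, by omega, ?_⟩
    have h1 : Nat.card {u : Fin n → Fin t → F // ¬ Near (C : Set (Fin n → F)) r u} +
        Nat.card {u : Fin n → Fin t → F // Near (C : Set (Fin n → F)) r u} =
        Fintype.card (Fin n → Fin t → F) := by
      rw [Nat.card_eq_fintype_card, Nat.card_eq_fintype_card, Fintype.card_subtype,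
        Fintype.card_subtype, add_comm, card_filter_add_card_filter_not, card_univ]
    rw [pow_zero, pow_one]
    omega
  | succ m ih =>
    obtain ⟨C', h1, h2⟩ := ih
    obtain ⟨C'', h3, h4⟩ := step (t := t) C' r
    refine ⟨C'', ?_, ?_⟩
    · rw [add_mul, one_mul]
      omega
    · set a := Nat.card {u : Fin n → Fin t → F // ¬ Near (C' : Set (Fin n → F)) r u}
      set b := Nat.card {u : Fin n → Fin t → F // ¬ Near (C'' : Set (Fin n → F)) r u}
      set N := Fintype.card (Fin n → Fin t → F) with hN
      have hN0 : 0 < N := Fintype.card_pos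
      apply Nat.le_of_mul_le_mul_right _ hN0
      calc b * 2 ^ 2 ^ (m + 1) * N = (b * N) * 2 ^ 2 ^ (m + 1) := by ring
        _ ≤ a ^ 2 * 2 ^ 2 ^ (m + 1) := Nat.mul_le_mul_right _ h4
        _ = (a * 2 ^ 2 ^ m) ^ 2 := by
            rw [mul_pow, ← pow_mul, ← pow_succ]
        _ ≤ N ^ 2 := Nat.pow_le_pow_left h2 2
        _ = N * N := sq N

/-- a linear code covering everything from one covering half -/
theorem full_cover {n t : ℕ} (C : Submodule F (Fin n → F)) (r : ℕ)
    (h : Fintype.card (Fin n → Fin t → F) ≤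
      2 * Nat.card {u : Fin n → Fin t → F // Near (C : Set (Fin n → F)) r u}) (m : ℕ)
    (hm : Fintype.card (Fin n → Fin t → F) < 2 ^ 2 ^ m) :
    ∃ C' : Submodule F (Fin n → F), Module.finrank F C' ≤ Module.finrank F C + m * t ∧
      ∀ u : Fin n → Fin t → F, Near (C' : Set (Fin n → F)) r u := by
  classical
  obtain ⟨C', h1, h2⟩ := steps (t := t) C r h m
  refine ⟨C', h1, fun u => ?_⟩
  by_contra hu
  have h3 : 0 < Nat.card {u : Fin n → Fin t → F // ¬ Near (C' : Set (Fin n → F)) r u} := by
    rw [Nat.card_eq_fintype_card]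
    exact Fintype.card_pos_iff.2 ⟨⟨u, hu⟩⟩
  have h4 : 2 ^ 2 ^ m ≤ Nat.card {u : Fin n → Fin t → F // ¬ Near (C' : Set (Fin n → F)) r u} *
      2 ^ 2 ^ m := Nat.le_mul_of_pos_left _ h3
  omega

/-- the ball is not much larger than a symmetric type class -/
theorem ball_le {n : ℕ} {A : Type} [Fintype A] [Zero A] (hA : 2 ≤ Fintype.card A) (hn : 0 < n)
    (r : ℕ) : ∃ s, (Fintype.card A - 1) * s ≤ r ∧ Nat.card {e : Fin n → A // wt e ≤ r} ≤
      n ^ Fintype.card A * (TT n s A).card * (n + 1) ^ Fintype.card A := by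
  classical
  let B : Finset (Fin n → A) := univ.filter fun e => wt e ≤ r
  have hB : B.Nonempty := by
    refine ⟨fun _ => 0, mem_filter.2 ⟨mem_univ _, ?_⟩⟩
    have h1 : wt (fun _ : Fin n => (0 : A)) = 0 := by
      rw [wt_def, card_eq_zero, filter_eq_empty_iff]
      intro j _ h
      exact h rfl
    rw [h1]
    exact Nat.zero_le _
  obtain ⟨e₁, he₁, hmax⟩ := exists_max_image B
    (fun e => (TT n (wt e / (Fintype.card A - 1)) A).card) hB
  refine ⟨wt e₁ / (Fintype.card A - 1), ?_, ?_⟩
  · exact (Nat.mul_div_le _ _).trans (mem_filter.1 he₁).2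
  · rw [Nat.card_eq_fintype_card, Fintype.card_subtype]
    have hle : ∀ (e : Fin n → A) (a : A), cnt e a < n + 1 := by
      intro e a
      rw [cnt_def]
      have := card_le_univ (univ.filter fun j => e j = a)
      rw [Fintype.card_fin] at this
      omega
    have h2 : (n + 1) ^ Fintype.card A = (univ : Finset (A → Fin (n + 1))).card := by
      rw [card_univ, Fintype.card_fun, Fintype.card_fin]
    rw [h2]
    refine card_le_mul_card_image_of_maps_to (f := fun (e : Fin n → A) a =>
      (⟨cnt e a, hle e a⟩ : Fin (n + 1))) (fun _ _ => mem_univ _) _ ?_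
    intro τ _
    rcases (univ.filter fun e : Fin n → A => wt e ≤ r).filter (fun e => (fun a =>
      (⟨cnt e a, hle e a⟩ : Fin (n + 1))) = τ) |>.eq_empty_or_nonempty with h0 | ⟨e₀, he₀⟩
    · rw [h0, card_empty]
      exact Nat.zero_le _
    · rw [mem_filter] at he₀
      have h3 := type_le hA hn e₀
      have h4 := hmax e₀ he₀.1
      refine le_trans ?_ (h3.trans (Nat.mul_le_mul_left _ h4))
      rw [Nat.card_eq_fintype_card, Fintype.card_subtype]
      refine card_le_card fun e he => ?_
      rw [mem_filter] at he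
      rw [mem_filter]
      refine ⟨mem_univ _, fun a => ?_⟩
      have h5 := congrFun (he.2.trans he₀.2.symm) a
      exact congrArg Fin.val h5

/-- the sphere covering bound -/
theorem sphere {n t : ℕ} (C : Set (Fin n → F)) (r : ℕ)
    (h : ∀ u : Fin n → Fin t → F, Near C r u) :
    Fintype.card (Fin n → Fin t → F) ≤
      Nat.card C ^ t * Nat.card {e : Fin n → Fin t → F // wt e ≤ r} := by
  classical
  choose c hc1 hc2 using h
  have h1 : Nat.card C ^ t = Nat.card (Fin t → C) := by
    rw [Nat.card_fun, Nat.card_fin]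
  rw [h1, ← Nat.card_prod, ← Nat.card_eq_fintype_card]
  refine Nat.card_le_card_of_injective (fun u => (fun i => ⟨fun j => c u j i, hc1 u i⟩,
    ⟨fun j => c u j - u j, hc2 u⟩)) ?_
  intro u v huv
  have h2 := congrArg Prod.fst huv
  have h3 := congrArg Prod.snd huv
  dsimp only at h2 h3
  have h4 : ∀ i j, c u j i = c v j i := by
    intro i j
    have := congrArg Subtype.val (congrFun h2 i)
    exact congrFun this j
  have h5 : ∀ j, c u j - u j = c v j - v j := by
    intro j
    have := congrArg Subtype.val h3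
    exact congrFun this j
  funext j i
  have h6 := congrFun (h5 j) i
  rw [Pi.sub_apply, Pi.sub_apply, h4] at h6
  exact sub_right_injective h6

/-- the linear code generated by `G` -/
noncomputable def gen {n k : ℕ} (G : Fin n → Fin k → F) : Submodule F (Fin n → F) :=
  LinearMap.range (LinearMap.pi fun j => LC F (V := F) (G j))

omit [Fintype F] in
theorem finrank_gen {n k : ℕ} (G : Fin n → Fin k → F) : Module.finrank F (gen G) ≤ k := by
  have := LinearMap.finrank_range_le (LinearMap.pi fun j => LC F (V := F) (G j))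
  rw [Module.finrank_fin_fun] at this
  exact this

omit [Fintype F] in
theorem near_gen {n k t : ℕ} (G : Fin n → Fin k → F) (u : Fin n → Fin t → F) (r : ℕ)
    (M : Fin k → Fin t → F) (h : wt (fun j => LC F M (G j) - u j) ≤ r) :
    Near (gen G : Set (Fin n → F)) r u := by
  refine ⟨fun j => LC F M (G j), fun i => ?_, h⟩
  show (fun j => LC F M (G j) i) ∈ gen G
  refine ⟨fun l => M l i, ?_⟩
  funext j
  rw [LinearMap.pi_apply]
  unfold LC
  rw [Fintype.linearCombination_apply, Fintype.linearCombination_apply, Finset.sum_apply]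
  refine sum_congr rfl fun l _ => ?_
  rw [Pi.smul_apply, smul_eq_mul, smul_eq_mul, mul_comm]

/-- from a general code to a linear code -/
theorem to_linear {n t : ℕ} (hn : 0 < n) (ht : 0 < t) (C : Set (Fin n → F)) (r : ℕ)
    (h : ∀ u : Fin n → Fin t → F, Near C r u) (k m : ℕ) (hk : t ≤ k)
    (hk2 : Fintype.card (Submodule F (Fin t → F)) * Nat.card C *
      (n + 1) ^ (2 * Fintype.card (Fin t → F)) ≤ Fintype.card F ^ k)
    (hm : Fintype.card (Fin n → Fin t → F) < 2 ^ 2 ^ m) :
    ∃ C' : Submodule F (Fin n → F), Module.finrank F C' ≤ k + m * t ∧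
      ∀ u : Fin n → Fin t → F, Near (C' : Set (Fin n → F)) r u := by
  classical
  have hfr : Module.finrank F (Fin t → F) = t := Module.finrank_fin_fun F
  have hcV : Fintype.card (Fin t → F) = Fintype.card F ^ t := by
    rw [Fintype.card_fun, Fintype.card_fin]
  have hq1 : 1 < Fintype.card F := Fintype.one_lt_card
  have hA : 2 ≤ Fintype.card (Fin t → F) := by
    rw [hcV]
    calc 2 ≤ Fintype.card F := hq1
      _ ≤ Fintype.card F ^ t := Nat.le_self_pow (by omega) _
  obtain ⟨s, hs1, hs2⟩ := ball_le (A := Fin t → F) hA hn r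
  have hs3 := sphere C r h
  set Λ := Fintype.card (Submodule F (Fin t → F))
  set T := (TT n s (Fin t → F)).card with hT
  set Q := Fintype.card (Fin t → F) with hQ
  set q := Fintype.card F with hq
  have hcu : Fintype.card (Fin n → Fin t → F) = q ^ (t * n) := by
    rw [Fintype.card_fun, Fintype.card_fin, ← hQ, hcV, ← pow_mul]
  have H : Λ ^ t * q ^ (t * n) ≤ q ^ (t * k) * T := by
    calc Λ ^ t * q ^ (t * n) ≤ Λ ^ t * (Nat.card C ^ t * (n ^ Q * T * (n + 1) ^ Q)) := by
          rw [← hcu]
          exact Nat.mul_le_mul_left _ (hs3.trans (Nat.mul_le_mul_left _ hs2))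
      _ = (Λ ^ t * Nat.card C ^ t * (n ^ Q * (n + 1) ^ Q)) * T := by ring
      _ ≤ (Λ ^ t * Nat.card C ^ t * ((n + 1) ^ (2 * Q)) ^ t) * T := by
          refine Nat.mul_le_mul_right _ (Nat.mul_le_mul_left _ ?_)
          calc n ^ Q * (n + 1) ^ Q ≤ (n + 1) ^ Q * (n + 1) ^ Q :=
                Nat.mul_le_mul_right _ (Nat.pow_le_pow_left (Nat.le_succ n) _)
            _ = (n + 1) ^ (2 * Q) := by ring
            _ ≤ ((n + 1) ^ (2 * Q)) ^ t := Nat.le_self_pow (by omega) _
      _ = (Λ * Nat.card C * (n + 1) ^ (2 * Q)) ^ t * T := by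
          rw [mul_pow, mul_pow]
      _ ≤ (q ^ k) ^ t * T := Nat.mul_le_mul_right _ (Nat.pow_le_pow_left hk2 _)
      _ = q ^ (t * k) * T := by
          rw [← pow_mul, mul_comm k t]
  obtain ⟨G, hG⟩ := exists_G (F := F) (V := Fin t → F) (n := n) (k := k) s (by
    rw [hfr]; exact hk) (by
    rw [hfr]; exact H)
  have h1 : Nat.card {u : Fin n → Fin t → F // ∃ M : Fin k → Fin t → F,
      (fun j => LC F M (G j) - u j) ∈ TT n s (Fin t → F)} ≤
      Nat.card {u : Fin n → Fin t → F // Near (gen G : Set (Fin n → F)) r u} := by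
    refine Nat.card_le_card_of_injective (fun u => ⟨u.1, ?_⟩) ?_
    · obtain ⟨M, hM⟩ := u.2
      refine near_gen G u.1 r M ?_
      rw [TT_wt hM]
      exact hs1
    · intro u v huv
      exact Subtype.ext (congrArg (fun z => z.1) huv)
  obtain ⟨C', h2, h3⟩ := full_cover (t := t) (gen G) r
    (hG.trans (Nat.mul_le_mul_left _ h1)) m hm
  exact ⟨C', h2.trans (Nat.add_le_add_right (finrank_gen G) _), h3⟩

end cover

/-! ### the quantities of the problem -/

/-- the `t`-weight of a `t × n` matrix: the number of nonzero columns -/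
noncomputable def tweight {F : Type} [Field F] {t n : ℕ} (v : Matrix (Fin t) (Fin n) F) : ℕ :=
  Nat.card {j : Fin n // ∃ i, v i j ≠ 0}

/-- `C^t`: the `t × n` matrices all of whose rows lie in `C` -/
def power {F : Type} {n : ℕ} (t : ℕ) (C : Set (Fin n → F)) : Set (Matrix (Fin t) (Fin n) F) :=
  {c | ∀ i, c i ∈ C}

/-- the `t`-th covering radius of `C` -/
noncomputable def covRadius {F : Type} [Field F] {n : ℕ} (t : ℕ) (C : Set (Fin n → F)) : ℕ :=
  sSup (Set.range fun u : Matrix (Fin t) (Fin n) F =>
    sInf ((fun c => tweight (c - u)) '' power t C))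

/-- `k_t(n, r, q)`, for `q` the order of `F` -/
noncomputable def kt (F : Type) [Field F] [Fintype F] (t n : ℕ) (r : ℝ) : ℝ :=
  sInf {x | ∃ C : Set (Fin n → F), C.Nonempty ∧ (covRadius t C : ℝ) ≤ r ∧
    x = Real.logb (Fintype.card F) (Nat.card C)}

/-- `k_t^Lin(n, r, q)`, for `q` the order of `F` -/
noncomputable def ktLin (F : Type) [Field F] [Fintype F] (t n : ℕ) (r : ℝ) : ℝ :=
  sInf {x | ∃ C : Submodule F (Fin n → F), (covRadius t (C : Set (Fin n → F)) : ℝ) ≤ r ∧
    x = Real.logb (Fintype.card F) (Nat.card C)}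

/-- `κ_t(ρ, q)`, for `q` the order of `F` -/
noncomputable def kappa (F : Type) [Field F] [Fintype F] (t : ℕ) (ρ : ℝ) : ℝ :=
  Filter.liminf (fun n : ℕ => kt F t n (ρ * n) / n) Filter.atTop

/-- `κ_t^Lin(ρ, q)`, for `q` the order of `F` -/
noncomputable def kappaLin (F : Type) [Field F] [Fintype F] (t : ℕ) (ρ : ℝ) : ℝ :=
  Filter.liminf (fun n : ℕ => ktLin F t n (ρ * n) / n) Filter.atTop

section final

variable {F : Type} [Field F] [Fintype F]

omit [Fintype F] in
theorem tweight_eq {t n : ℕ} (v : Matrix (Fin t) (Fin n) F) :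
    tweight v = wt (fun j => fun i => v i j) := by
  classical
  unfold tweight
  rw [wt_def, Nat.card_eq_fintype_card, Fintype.card_subtype]
  congr 1
  ext j
  rw [mem_filter, mem_filter]
  refine and_congr Iff.rfl ?_
  rw [Ne, funext_iff, not_forall]
  rfl

theorem covRadius_le_iff {n t : ℕ} (C : Set (Fin n → F)) (hC : C.Nonempty) (r : ℕ) :
    covRadius t C ≤ r ↔ ∀ u : Fin n → Fin t → F, Near C r u := by
  classical
  have hne : ∀ u : Matrix (Fin t) (Fin n) F,
      ((fun c => tweight (c - u)) '' power t C).Nonempty := by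
    intro u
    obtain ⟨c, hc⟩ := hC
    exact ⟨_, ⟨fun _ => c, fun _ => hc, rfl⟩⟩
  have hbdd : BddAbove (Set.range fun u : Matrix (Fin t) (Fin n) F =>
    sInf ((fun c => tweight (c - u)) '' power t C)) := by
    have : Finite (Matrix (Fin t) (Fin n) F) := inferInstanceAs (Finite (Fin t → Fin n → F))
    exact (Set.finite_range _).bddAbove
  constructor
  · intro h u
    let u' : Matrix (Fin t) (Fin n) F := fun i j => u j i
    have h1 : sInf ((fun c => tweight (c - u')) '' power t C) ≤ r :=
      (le_csSup hbdd ⟨u', rfl⟩).trans h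
    obtain ⟨c, hc, hc2⟩ := Nat.sInf_mem (hne u')
    refine ⟨fun j i => c i j, fun i => hc i, ?_⟩
    rw [← hc2] at h1
    dsimp only at h1
    rw [tweight_eq] at h1
    exact h1
  · intro h
    refine csSup_le (Set.range_nonempty _) ?_
    rintro _ ⟨u, rfl⟩
    obtain ⟨c, hc, hc2⟩ := h (fun j i => u i j)
    let c' : Matrix (Fin t) (Fin n) F := fun i j => c j i
    have h1 : tweight (c' - u) ∈ (fun c => tweight (c - u)) '' power t C :=
      ⟨c', fun i => hc i, rfl⟩
    refine (Nat.sInf_le h1).trans ?_
    rw [tweight_eq]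
    exact hc2

theorem logb_card_submodule {n : ℕ} (C : Submodule F (Fin n → F)) :
    Real.logb (Fintype.card F) (Nat.card C) = Module.finrank F C := by
  classical
  have hq1 : 1 < Fintype.card F := Fintype.one_lt_card
  have h1 : Nat.card C = Fintype.card F ^ Module.finrank F C := by
    rw [Nat.card_eq_fintype_card, Module.card_eq_pow_finrank (K := F)]
  rw [h1, Nat.cast_pow, Real.logb_pow, Real.logb_self_eq_one (by exact_mod_cast hq1), mul_one]

/-- a linear code not much larger than a given code -/
theorem linear_le (F : Type) [Field F] [Fintype F] (t : ℕ) (ht : 0 < t) : ∃ A : ℝ, 0 ≤ A ∧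
    ∀ (n : ℕ), 0 < n → ∀ (r : ℕ) (C : Set (Fin n → F)), C.Nonempty → covRadius t C ≤ r →
      ∃ C' : Submodule F (Fin n → F), covRadius t (C' : Set (Fin n → F)) ≤ r ∧
        Real.logb (Fintype.card F) (Nat.card C') ≤
          Real.logb (Fintype.card F) (Nat.card C) + A * Real.log (n + 1) := by
  classical
  have hq1 : 1 < Fintype.card F := Fintype.one_lt_card
  set q := Fintype.card F with hq
  set Λ := Fintype.card (Submodule F (Fin t → F)) with hΛ
  set Q := Fintype.card (Fin t → F) with hQ
  set L := Nat.clog 2 q with hL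
  have hΛ0 : 0 < Λ := Fintype.card_pos
  have hQ0 : 0 < Q := Fintype.card_pos
  have hqL : q ≤ 2 ^ L := Nat.le_pow_clog (by norm_num) q
  have hL0 : 0 < L := Nat.clog_pos (by norm_num) hq1
  have hqR : (1 : ℝ) < q := by exact_mod_cast hq1
  have hlq : 0 < Real.log q := Real.log_pos hqR
  have hl2 : 0 < Real.log 2 := Real.log_pos (by norm_num)
  have hΛR : (1 : ℝ) ≤ Λ := by exact_mod_cast hΛ0
  have hLtR : (1 : ℝ) ≤ (L * t : ℕ) := by
    exact_mod_cast Nat.mul_pos hL0 ht
  set B0 : ℝ := 2 * t + 1 + Real.logb q Λ + t * Real.logb 2 (L * t : ℕ) with hB0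
  have hB0' : 0 ≤ B0 := by
    have h1 : 0 ≤ Real.logb q Λ := Real.logb_nonneg hqR hΛR
    have h2 : 0 ≤ Real.logb 2 (L * t : ℕ) := Real.logb_nonneg (by norm_num) hLtR
    positivity
  refine ⟨B0 / Real.log 2 + t / Real.log 2 + 2 * Q / Real.log q, by positivity, ?_⟩
  intro n hn r C hC hr
  rw [covRadius_le_iff C hC] at hr
  set X := Λ * Nat.card C * (n + 1) ^ (2 * Q) with hX
  have hC0 : 0 < Nat.card C := by
    rw [Nat.card_eq_fintype_card]
    exact Fintype.card_pos_iff.2 hC.to_subtype
  have hX1 : 1 < X := by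
    have h1 : 1 < (n + 1) ^ (2 * Q) := Nat.one_lt_pow (by omega) (by omega)
    have h2 : 0 < Λ * Nat.card C := Nat.mul_pos hΛ0 hC0
    calc 1 < (n + 1) ^ (2 * Q) := h1
      _ ≤ Λ * Nat.card C * (n + 1) ^ (2 * Q) := Nat.le_mul_of_pos_left _ h2
  obtain ⟨C', h1, h2⟩ := to_linear hn ht C r hr (t + Nat.clog q X) (Nat.log 2 (L * (t * n)) + 1)
    (by omega) (by
      calc X ≤ q ^ Nat.clog q X := Nat.le_pow_clog hq1 X
        _ ≤ q ^ (t + Nat.clog q X) := Nat.pow_le_pow_right (by omega) (by omega)) (by
      calc Fintype.card (Fin n → Fin t → F) = q ^ (t * n) := by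
            rw [Fintype.card_fun, Fintype.card_fun, Fintype.card_fin, Fintype.card_fin,
              ← pow_mul]
        _ ≤ (2 ^ L) ^ (t * n) := Nat.pow_le_pow_left hqL _
        _ = 2 ^ (L * (t * n)) := by rw [← pow_mul]
        _ < 2 ^ 2 ^ (Nat.log 2 (L * (t * n)) + 1) :=
            Nat.pow_lt_pow_right (by norm_num) (Nat.lt_pow_succ_log_self (by norm_num) _))
  refine ⟨C', ?_, ?_⟩
  · rw [covRadius_le_iff _ C'.nonempty]
    exact h2
  · rw [logb_card_submodule]
    have h3 : (Module.finrank F C' : ℝ) ≤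
        t + Nat.clog q X + (Nat.log 2 (L * (t * n)) + 1) * t := by exact_mod_cast h1
    have h4 : (Nat.clog q X : ℝ) ≤ Real.logb q X + 1 := by
      have h5 := Nat.pow_pred_clog_lt_self hq1 hX1
      have h6 : ((Nat.clog q X - 1 : ℕ) : ℝ) ≤ Real.logb q X := by
        rw [Real.le_logb_iff_rpow_le hqR (by exact_mod_cast (by omega : 0 < X)),
          Real.rpow_natCast]
        exact_mod_cast h5.le
      have h7 : (Nat.clog q X : ℝ) ≤ ((Nat.clog q X - 1 : ℕ) : ℝ) + 1 := by
        exact_mod_cast (by omega : Nat.clog q X ≤ Nat.clog q X - 1 + 1)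
      linarith
    have h8 : Real.logb q X = Real.logb q Λ + Real.logb q (Nat.card C) +
        2 * Q / Real.log q * Real.log (n + 1) := by
      have a1 : (Λ : ℝ) ≠ 0 := by positivity
      have a2 : ((Nat.card C : ℕ) : ℝ) ≠ 0 := by exact_mod_cast hC0.ne'
      have a3 : ((n : ℝ) + 1) ^ (2 * Q) ≠ 0 := by positivity
      rw [hX]
      push_cast
      rw [Real.logb_mul (mul_ne_zero a1 a2) a3, Real.logb_mul a1 a2, Real.logb_pow]
      unfold Real.logb
      push_cast
      ring
    have h9 : (Nat.log 2 (L * (t * n)) : ℝ) ≤ Real.logb 2 (L * t : ℕ) +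
        Real.log (n + 1) / Real.log 2 := by
      have b1 := Real.natLog_le_logb (L * (t * n)) 2
      have b2 : Real.logb (2 : ℕ) ((L * (t * n) : ℕ) : ℝ) =
          Real.logb 2 (L * t : ℕ) + Real.logb 2 n := by
        have c1 : ((L * t : ℕ) : ℝ) ≠ 0 := by positivity
        have c2 : (n : ℝ) ≠ 0 := by positivity
        rw [← Real.logb_mul c1 c2]
        push_cast
        ring_nf
      have b3 : Real.logb 2 n ≤ Real.log (n + 1) / Real.log 2 := by
        unfold Real.logb
        apply div_le_div_of_nonneg_right _ hl2.le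
        exact Real.log_le_log (by positivity) (by linarith)
      linarith
    have h10 : B0 ≤ B0 / Real.log 2 * Real.log (n + 1) := by
      have d1 : Real.log 2 ≤ Real.log (n + 1) := by
        apply Real.log_le_log (by norm_num)
        have : (1 : ℝ) ≤ n := by exact_mod_cast hn
        linarith
      have d2 : B0 = B0 / Real.log 2 * Real.log 2 := by field_simp
      calc B0 = B0 / Real.log 2 * Real.log 2 := d2
        _ ≤ B0 / Real.log 2 * Real.log (n + 1) := mul_le_mul_of_nonneg_left d1 (by positivity)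
    have h11 : (Nat.log 2 (L * (t * n)) + 1 : ℝ) * t ≤ (Real.logb 2 (L * t : ℕ) +
        Real.log (n + 1) / Real.log 2 + 1) * t :=
      mul_le_mul_of_nonneg_right (by linarith) (Nat.cast_nonneg _)
    have h12 : (B0 / Real.log 2 + t / Real.log 2 + 2 * Q / Real.log q) * Real.log (n + 1) =
        B0 / Real.log 2 * Real.log (n + 1) + t * (Real.log (n + 1) / Real.log 2) +
          2 * Q / Real.log q * Real.log (n + 1) := by ring
    rw [h12]
    have h13 : B0 = 2 * t + 1 + Real.logb q Λ + t * Real.logb 2 (L * t : ℕ) := hB0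
    nlinarith [h3, h4, h8, h10, h11, h13]

theorem kt_set_nonempty (t n : ℕ) {r : ℝ} (hr : 0 ≤ r) :
    ∃ C : Submodule F (Fin n → F), (covRadius t (C : Set (Fin n → F)) : ℝ) ≤ r ∧
      Real.logb (Fintype.card F) (Nat.card C) = n := by
  refine ⟨⊤, ?_, ?_⟩
  · have h1 : covRadius t ((⊤ : Submodule F (Fin n → F)) : Set (Fin n → F)) ≤ 0 := by
      rw [covRadius_le_iff _ (Submodule.nonempty _)]
      intro u
      refine ⟨u, fun i => Submodule.mem_top, ?_⟩
      classical
      rw [wt_def, Nat.le_zero, card_eq_zero, filter_eq_empty_iff]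
      intro j _ h
      exact h (sub_self _)
    have h2 : covRadius t ((⊤ : Submodule F (Fin n → F)) : Set (Fin n → F)) = 0 := by omega
    rw [h2, Nat.cast_zero]
    exact hr
  · rw [logb_card_submodule, finrank_top, Module.finrank_fin_fun]

theorem logb_nonneg' {n : ℕ} (C : Set (Fin n → F)) :
    0 ≤ Real.logb (Fintype.card F) (Nat.card C) := by
  have hq1 : 1 < Fintype.card F := Fintype.one_lt_card
  rcases Nat.eq_zero_or_pos (Nat.card C) with h | h
  · rw [h, Nat.cast_zero, Real.logb_zero]
  · exact Real.logb_nonneg (by exact_mod_cast hq1) (by exact_mod_cast h)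

theorem kt_nonneg (t n : ℕ) (r : ℝ) : 0 ≤ kt F t n r := by
  refine Real.sInf_nonneg ?_
  rintro x ⟨C, -, -, rfl⟩
  exact logb_nonneg' C

theorem ktLin_nonneg (t n : ℕ) (r : ℝ) : 0 ≤ ktLin F t n r := by
  refine Real.sInf_nonneg ?_
  rintro x ⟨C, -, rfl⟩
  exact logb_nonneg' (C : Set (Fin n → F))

theorem ktLin_le_n (t n : ℕ) {r : ℝ} (hr : 0 ≤ r) : ktLin F t n r ≤ n := by
  obtain ⟨C, h1, h2⟩ := kt_set_nonempty (F := F) t n hr
  refine csInf_le ⟨0, ?_⟩ ⟨C, h1, h2.symm⟩
  rintro x ⟨C, -, rfl⟩
  exact logb_nonneg' (C : Set (Fin n → F))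

theorem kt_le_ktLin (t n : ℕ) {r : ℝ} (hr : 0 ≤ r) : kt F t n r ≤ ktLin F t n r := by
  obtain ⟨C, h1, h2⟩ := kt_set_nonempty (F := F) t n hr
  refine csInf_le_csInf ⟨0, ?_⟩ ⟨_, ⟨C, h1, rfl⟩⟩ ?_
  · rintro x ⟨C, -, -, rfl⟩
    exact logb_nonneg' C
  · rintro x ⟨C, h3, rfl⟩
    exact ⟨C, C.nonempty, h3, rfl⟩

/-- linear codes lose only a logarithmic term -/
theorem ktLin_le (F : Type) [Field F] [Fintype F] (t : ℕ) (ht : 0 < t) : ∃ A : ℝ, 0 ≤ A ∧
    ∀ (n : ℕ), 0 < n → ∀ r : ℝ, 0 ≤ r →
      ktLin F t n r ≤ kt F t n r + A * Real.log (n + 1) := by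
  obtain ⟨A, hA, h⟩ := linear_le F t ht
  refine ⟨A, hA, fun n hn r hr => ?_⟩
  rw [← sub_le_iff_le_add]
  obtain ⟨C₀, h1, h2⟩ := kt_set_nonempty (F := F) t n hr
  refine le_csInf ⟨_, ⟨C₀, C₀.nonempty, h1, rfl⟩⟩ ?_
  rintro x ⟨C, hC, h3, rfl⟩
  rw [sub_le_iff_le_add]
  obtain ⟨C', h4, h5⟩ := h n hn ⌊r⌋₊ C hC (by rwa [Nat.le_floor_iff hr])
  refine le_trans (csInf_le ⟨0, ?_⟩ ⟨C', ?_, rfl⟩) h5
  · rintro x ⟨C, -, rfl⟩
    exact logb_nonneg' (C : Set (Fin n → F))
  · rwa [Nat.le_floor_iff hr] at h4

/-- the asymptotic equality -/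
theorem kappa_eq (F : Type) [Field F] [Fintype F] (t : ℕ) (ht : 0 < t) (ρ : ℝ) (h0 : 0 ≤ ρ) :
    kappa F t ρ = kappaLin F t ρ := by
  obtain ⟨A, hA, h⟩ := ktLin_le F t ht
  have hr : ∀ n : ℕ, 0 ≤ ρ * n := fun n => mul_nonneg h0 (Nat.cast_nonneg n)
  have hfg : ∀ n : ℕ, kt F t n (ρ * n) / n ≤ ktLin F t n (ρ * n) / n := fun n =>
    div_le_div_of_nonneg_right (kt_le_ktLin t n (hr n)) (Nat.cast_nonneg n)
  have hg1 : ∀ n : ℕ, ktLin F t n (ρ * n) / n ≤ 1 := fun n =>
    div_le_one_of_le₀ (ktLin_le_n t n (hr n)) (Nat.cast_nonneg n)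
  have hf0 : ∀ n : ℕ, 0 ≤ kt F t n (ρ * n) / n := fun n =>
    div_nonneg (kt_nonneg t n _) (Nat.cast_nonneg n)
  have bf : Filter.IsBoundedUnder (· ≥ ·) Filter.atTop fun n : ℕ => kt F t n (ρ * n) / n :=
    Filter.isBoundedUnder_of ⟨0, hf0⟩
  have bg : Filter.IsBoundedUnder (· ≥ ·) Filter.atTop fun n : ℕ => ktLin F t n (ρ * n) / n :=
    Filter.isBoundedUnder_of ⟨0, fun n => (hf0 n).trans (hfg n)⟩
  have cf : Filter.IsCoboundedUnder (· ≥ ·) Filter.atTop fun n : ℕ => kt F t n (ρ * n) / n :=
    (Filter.isBoundedUnder_of ⟨1, fun n => (hfg n).trans (hg1 n)⟩ :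
      Filter.IsBoundedUnder (· ≤ ·) Filter.atTop _).isCoboundedUnder_ge
  have cg : Filter.IsCoboundedUnder (· ≥ ·) Filter.atTop fun n : ℕ => ktLin F t n (ρ * n) / n :=
    (Filter.isBoundedUnder_of ⟨1, hg1⟩ :
      Filter.IsBoundedUnder (· ≤ ·) Filter.atTop _).isCoboundedUnder_ge
  unfold kappa kappaLin
  apply le_antisymm
  · exact Filter.liminf_le_liminf (Filter.Eventually.of_forall hfg) bf cg
  · refine le_of_forall_pos_le_add fun ε hε => ?_
    have hlim : Filter.Tendsto (fun n : ℕ => A * (Real.log (n + 1) / n)) Filter.atTop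
        (nhds 0) := by
      have h1 : Filter.Tendsto (fun x : ℝ => Real.log (x + 1) / x) Filter.atTop (nhds 0) := by
        have h2 := Real.isLittleO_log_id_atTop
        have h3 : Filter.Tendsto (fun x : ℝ => x + 1) Filter.atTop Filter.atTop :=
          Filter.tendsto_atTop_add_const_right _ _ Filter.tendsto_id
        have h4 := (h2.comp_tendsto h3)
        have h5 : (id ∘ fun x : ℝ => x + 1) =O[Filter.atTop] (fun x : ℝ => x) := by
          refine Asymptotics.IsBigO.of_bound 2 ?_
          filter_upwards [Filter.eventually_ge_atTop (1 : ℝ)] with x hx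
          show ‖x + 1‖ ≤ 2 * ‖x‖
          rw [Real.norm_of_nonneg (by linarith), Real.norm_of_nonneg (by linarith)]
          linarith
        have h6 := h4.trans_isBigO h5
        exact h6.tendsto_div_nhds_zero
      have h7 := (h1.comp tendsto_natCast_atTop_atTop).const_mul A
      rw [mul_zero] at h7
      exact h7
    have hev : ∀ᶠ n : ℕ in Filter.atTop, ktLin F t n (ρ * n) / n ≤
        kt F t n (ρ * n) / n + ε := by
      filter_upwards [Filter.eventually_gt_atTop 0, hlim.eventually (gt_mem_nhds hε)]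
        with n hn hn2
      have h8 := h n hn (ρ * n) (hr n)
      have hnR : (0 : ℝ) < n := by exact_mod_cast hn
      calc ktLin F t n (ρ * n) / n ≤ (kt F t n (ρ * n) + A * Real.log (n + 1)) / n :=
            div_le_div_of_nonneg_right h8 hnR.le
        _ = kt F t n (ρ * n) / n + A * (Real.log (n + 1) / n) := by ring
        _ ≤ kt F t n (ρ * n) / n + ε := by linarith
    refine (Filter.liminf_le_liminf hev bg ?_).trans ?_
    · refine (Filter.isBoundedUnder_of ⟨1 + ε, fun n => ?_⟩ :
        Filter.IsBoundedUnder (· ≤ ·) Filter.atTop _).isCoboundedUnder_ge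
      have := (hfg n).trans (hg1 n)
      show kt F t n (ρ * n) / n + ε ≤ 1 + ε
      linarith
    · rw [liminf_add_const Filter.atTop _ ε cf bf]

end final

end Q138.CovRad
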