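import Pool.Agent.Q133.Wiener
import Pool.Agent.H279R3.TreeHelly

set_option autoImplicit false

/-!
Bayesian networks of treewidth two whose metrics contain the diamond graphs.
-/

namespace Q138.Diamond

/-- A Bayesian network on the binary variables `X_v`, `v ∈ V`: an acyclic parent structure `pa`
and, for each variable `v`, the conditional probabilities `cond v x y` of `X_v = y` given the
values `x u` of the parents `u ∈ pa v`. -/
structure BayesNet (V : Type) [Fintype V] [DecidableEq V] where
  pa : V → Finset V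
  acyclic : ∀ v, ¬ Relation.TransGen (fun u w => u ∈ pa w) v v
  cond : V → (V → Bool) → Bool → ℝ
  cond_local : ∀ v x x', (∀ u ∈ pa v, x u = x' u) → cond v x = cond v x'
  cond_nonneg : ∀ v x y, 0 ≤ cond v x y
  cond_sum : ∀ v x, cond v x false + cond v x true = 1

/-- The joint law: `Pr[X = x] = ∏_v Pr[X_v = x_v | X_pa(v) = x_pa(v)]`. -/
def BayesNet.law {V : Type} [Fintype V] [DecidableEq V] (D : BayesNet V) (x : V → Bool) : ℝ :=
  ∏ v, D.cond v x (x v)

/-- `d_D(i, j) = Pr[X_i ≠ X_j]` -/
def BayesNet.d {V : Type} [Fintype V] [DecidableEq V] (D : BayesNet V) (i j : V) : ℝ :=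
  ∑ x : V → Bool, if x i ≠ x j then D.law x else 0

/-- The underlying undirected graph. -/
def BayesNet.graph {V : Type} [Fintype V] [DecidableEq V] (D : BayesNet V) : SimpleGraph V :=
  SimpleGraph.fromRel fun u v => u ∈ D.pa v

/-- The `ℓ₁` norm on `ℝ^k`. -/
def l1 {k : ℕ} (v : Fin k → ℝ) : ℝ := ∑ j, |v j|

/-- `d` embeds into `ℓ₁^k` with distortion at most `C`. -/
def Embeds {V : Type} (d : V → V → ℝ) (k : ℕ) (C : ℝ) : Prop :=
  ∃ (f : V → Fin k → ℝ) (r : ℝ), 0 < r ∧ ∀ i j, r * d i j ≤ l1 (f i - f j) ∧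
    l1 (f i - f j) ≤ C * r * d i j

/-! ### the recursive construction -/

/-- conditional law of a new variable: copy the common value, or a fair coin -/
noncomputable def kap (s t y : Bool) : ℝ := if s = t then (if y = s then 1 else 0) else 1 / 2

theorem kap_nonneg (s t y : Bool) : 0 ≤ kap s t y := by
  unfold kap
  split_ifs <;> norm_num

theorem kap_sum (s t : Bool) : kap s t false + kap s t true = 1 := by
  cases s <;> cases t <;> norm_num [kap]

section step

variable {V E : Type} [Fintype V] [DecidableEq V] [Fintype E] [DecidableEq E]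

/-- one step of the construction: for every edge `(s e, t e)` two new variables -/
noncomputable def stepNet (D : BayesNet V) (s t : E → V) : BayesNet (V ⊕ (E × Bool)) where
  pa := Sum.elim (fun v => (D.pa v).map ⟨Sum.inl, Sum.inl_injective⟩)
    (fun w => {Sum.inl (s w.1), Sum.inl (t w.1)})
  acyclic := by
    have key : ∀ u w : V ⊕ (E × Bool), Relation.TransGen (fun u w => u ∈
        (Sum.elim (fun v => (D.pa v).map ⟨Sum.inl, Sum.inl_injective⟩)
        (fun w => {Sum.inl (s w.1), Sum.inl (t w.1)}) w : Finset (V ⊕ (E × Bool)))) u w →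
        ∃ u', u = Sum.inl u' ∧ ∀ w', w = Sum.inl w' →
          Relation.TransGen (fun u w => u ∈ D.pa w) u' w' := by
      intro u w h
      induction h with
      | @single w h =>
        rcases w with w | w
        · rw [Sum.elim_inl, Finset.mem_map] at h
          obtain ⟨u', hu', rfl⟩ := h
          refine ⟨u', rfl, fun w' hw' => ?_⟩
          rw [Sum.inl.injEq] at hw'
          subst hw'
          exact Relation.TransGen.single hu'
        · rw [Sum.elim_inr, Finset.mem_insert, Finset.mem_singleton] at h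
          rcases h with rfl | rfl
          · exact ⟨_, rfl, fun w' hw' => by simp at hw'⟩
          · exact ⟨_, rfl, fun w' hw' => by simp at hw'⟩
      | @tail b c _ h ih =>
        obtain ⟨u', hu', h2⟩ := ih
        refine ⟨u', hu', fun w' hw' => ?_⟩
        subst hw'
        rw [Sum.elim_inl, Finset.mem_map] at h
        obtain ⟨b', hb', rfl⟩ := h
        exact (h2 b' rfl).tail hb'
    intro v h
    obtain ⟨u', rfl, h2⟩ := key v v h
    exact D.acyclic u' (h2 u' rfl)
  cond := Sum.elim (fun v x y => D.cond v (fun u => x (Sum.inl u)) y)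
    (fun w x y => kap (x (Sum.inl (s w.1))) (x (Sum.inl (t w.1))) y)
  cond_local := by
    rintro (v | w) x x' h
    · have := D.cond_local v (fun u => x (Sum.inl u)) (fun u => x' (Sum.inl u)) (fun u hu =>
        h _ (by
          rw [Sum.elim_inl, Finset.mem_map]
          exact ⟨u, hu, rfl⟩))
      funext y
      exact congrFun this y
    · have h1 := h (Sum.inl (s w.1)) (by rw [Sum.elim_inr]; simp)
      have h2 := h (Sum.inl (t w.1)) (by rw [Sum.elim_inr]; simp)
      funext y
      rw [Sum.elim_inr]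
      simp only [h1, h2]
  cond_nonneg := by
    rintro (v | w) x y
    · exact D.cond_nonneg _ _ _
    · exact kap_nonneg _ _ _
  cond_sum := by
    rintro (v | w) x
    · exact D.cond_sum _ _
    · exact kap_sum _ _

/-- first ends of the new edges -/
def stepSrc (s : E → V) : E × Bool × Bool → V ⊕ (E × Bool) :=
  fun w => if w.2.2 then Sum.inr (w.1, w.2.1) else Sum.inl (s w.1)

/-- second ends of the new edges -/
def stepDst (t : E → V) : E × Bool × Bool → V ⊕ (E × Bool) :=
  fun w => if w.2.2 then Sum.inl (t w.1) else Sum.inr (w.1, w.2.1)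

/-! ### marginals -/

theorem sum_prod_bool {ι : Type} [Fintype ι] [DecidableEq ι] (f : ι → Bool → ℝ) :
    ∑ y : ι → Bool, ∏ i, f i (y i) = ∏ i, (f i false + f i true) := by
  have := Finset.prod_univ_sum (fun _ : ι => (Finset.univ : Finset Bool)) f
  rw [Fintype.piFinset_univ] at this
  rw [← this]
  refine Finset.prod_congr rfl fun i _ => ?_
  rw [Fintype.sum_bool, add_comm]

theorem law_succ (D : BayesNet V) (s t : E → V) (x : V → Bool) (y : E × Bool → Bool) :
    (stepNet D s t).law (Sum.elim x y) =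
      D.law x * ∏ w : E × Bool, kap (x (s w.1)) (x (t w.1)) (y w) := by
  unfold BayesNet.law
  exact Fintype.prod_sum_type _

theorem expect_succ (D : BayesNet V) (s t : E → V) (G : (V ⊕ (E × Bool) → Bool) → ℝ) :
    ∑ z, (stepNet D s t).law z * G z =
      ∑ x : V → Bool, D.law x * ∑ y : E × Bool → Bool,
        (∏ w : E × Bool, kap (x (s w.1)) (x (t w.1)) (y w)) * G (Sum.elim x y) := by
  have h := Equiv.sum_comp (Equiv.sumArrowEquivProdArrow V (E × Bool) Bool).symm
    (fun z : (V ⊕ (E × Bool)) → Bool => (stepNet D s t).law z * G z)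
  refine h.symm.trans ?_
  rw [Fintype.sum_prod_type]
  refine Finset.sum_congr rfl fun x _ => ?_
  rw [Finset.mul_sum]
  refine Finset.sum_congr rfl fun y _ => ?_
  have h2 : (Equiv.sumArrowEquivProdArrow V (E × Bool) Bool).symm (x, y) =
      Sum.elim x y := rfl
  rw [h2, law_succ]
  ring

theorem d_eq {V : Type} [Fintype V] [DecidableEq V] (D : BayesNet V) (i j : V) :
    D.d i j = ∑ x : V → Bool, D.law x * (if x i ≠ x j then 1 else 0) := by
  unfold BayesNet.d
  refine Finset.sum_congr rfl fun x _ => ?_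
  split_ifs <;> simp

/-- marginal of one coordinate -/
theorem marg_one {ι : Type} [Fintype ι] [DecidableEq ι] (f : ι → Bool → ℝ)
    (hf : ∀ i, f i false + f i true = 1) (i₀ : ι) (c : Bool) :
    ∑ y : ι → Bool, (∏ i, f i (y i)) * (if y i₀ ≠ c then 1 else 0) = f i₀ (!c) := by
  have h1 : ∀ y : ι → Bool, (∏ i, f i (y i)) * (if y i₀ ≠ c then 1 else 0) =
      ∏ i, (f i (y i) * (if i = i₀ then (if y i ≠ c then 1 else 0) else 1)) := by
    intro y
    rw [Finset.prod_mul_distrib]
    congr 1
    rw [Finset.prod_ite_eq' Finset.univ i₀ fun i => if y i ≠ c then (1 : ℝ) else 0,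
      if_pos (Finset.mem_univ _)]
  rw [Finset.sum_congr rfl fun y _ => h1 y,
    sum_prod_bool fun i b => f i b * (if i = i₀ then (if b ≠ c then 1 else 0) else 1),
    Finset.prod_eq_single i₀]
  · cases c <;> simp
  · intro i _ hi
    simp only [if_neg hi, mul_one, hf]
  · intro h
    exact absurd (Finset.mem_univ _) h

/-- marginal of two coordinates -/
theorem marg_two {ι : Type} [Fintype ι] [DecidableEq ι] (f : ι → Bool → ℝ)
    (hf : ∀ i, f i false + f i true = 1) (i₀ i₁ : ι) (h : i₀ ≠ i₁) :
    ∑ y : ι → Bool, (∏ i, f i (y i)) * (if y i₀ ≠ y i₁ then 1 else 0) =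
      f i₀ false * f i₁ true + f i₀ true * f i₁ false := by
  have key : ∀ c : Bool, ∑ y : ι → Bool, (∏ i, f i (y i)) *
      ((if y i₀ = c then 1 else 0) * (if y i₁ = !c then 1 else 0)) = f i₀ c * f i₁ (!c) := by
    intro c
    have h1 : ∀ y : ι → Bool, (∏ i, f i (y i)) *
        ((if y i₀ = c then 1 else 0) * (if y i₁ = !c then 1 else 0)) =
        ∏ i, (f i (y i) * ((if i = i₀ then (if y i = c then 1 else 0) else 1) *
          (if i = i₁ then (if y i = !c then 1 else 0) else 1))) := by
      intro y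
      rw [Finset.prod_mul_distrib, Finset.prod_mul_distrib]
      congr 2
      · rw [Finset.prod_ite_eq' Finset.univ i₀ fun i => if y i = c then (1 : ℝ) else 0,
          if_pos (Finset.mem_univ _)]
      · rw [Finset.prod_ite_eq' Finset.univ i₁ fun i => if y i = !c then (1 : ℝ) else 0,
          if_pos (Finset.mem_univ _)]
    rw [Finset.sum_congr rfl fun y _ => h1 y,
      sum_prod_bool fun i b => f i b * ((if i = i₀ then (if b = c then 1 else 0) else 1) *
          (if i = i₁ then (if b = !c then 1 else 0) else 1)),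
      ← Finset.mul_prod_erase _ _ (Finset.mem_univ i₀),
      ← Finset.mul_prod_erase _ _ (Finset.mem_erase.2 ⟨Ne.symm h, Finset.mem_univ i₁⟩),
      Finset.prod_eq_one]
    · simp only [if_true, if_neg h, if_neg (Ne.symm h)]
      cases c <;> simp
    · intro i hi
      rw [Finset.mem_erase, Finset.mem_erase] at hi
      simp only [if_neg hi.1, if_neg hi.2.1, mul_one, hf]
  have h2 : ∀ y : ι → Bool, (if y i₀ ≠ y i₁ then (1 : ℝ) else 0) =
      (if y i₀ = false then 1 else 0) * (if y i₁ = !false then 1 else 0) +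
      (if y i₀ = true then 1 else 0) * (if y i₁ = !true then 1 else 0) := by
    intro y
    cases y i₀ <;> cases y i₁ <;> simp
  simp only [h2, mul_add, Finset.sum_add_distrib]
  rw [key false, key true]
  rfl

theorem d_inl (D : BayesNet V) (s t : E → V) (u v : V) :
    (stepNet D s t).d (Sum.inl u) (Sum.inl v) = D.d u v := by
  rw [d_eq, d_eq, expect_succ]
  refine Finset.sum_congr rfl fun x _ => ?_
  congr 1
  change ∑ y : E × Bool → Bool, (∏ w : E × Bool, kap (x (s w.1)) (x (t w.1)) (y w)) *
    (if x u ≠ x v then 1 else 0) = _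
  rw [← Finset.sum_mul, sum_prod_bool fun (w : E × Bool) y => kap (x (s w.1)) (x (t w.1)) y]
  simp only [kap_sum, Finset.prod_const_one, one_mul]

theorem d_src (D : BayesNet V) (s t : E → V) (w : E × Bool) :
    (stepNet D s t).d (Sum.inl (s w.1)) (Sum.inr w) = D.d (s w.1) (t w.1) / 2 := by
  rw [d_eq, d_eq, expect_succ, Finset.sum_div]
  refine Finset.sum_congr rfl fun x _ => ?_
  rw [mul_div_assoc]
  congr 1
  change ∑ y : E × Bool → Bool, (∏ w : E × Bool, kap (x (s w.1)) (x (t w.1)) (y w)) *
    (if x (s w.1) ≠ y w then 1 else 0) = _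
  have h := marg_one (fun (w : E × Bool) y => kap (x (s w.1)) (x (t w.1)) y)
    (fun _ => kap_sum _ _) w (x (s w.1))
  refine (Finset.sum_congr rfl fun y _ => ?_).trans (h.trans ?_)
  · congr 1
    by_cases hc : x (s w.1) = y w
    · rw [if_neg (not_not.2 hc), if_neg (not_not.2 hc.symm)]
    · rw [if_pos hc, if_pos (Ne.symm hc)]
  · cases x (s w.1) <;> cases x (t w.1) <;> norm_num [kap]

theorem d_dst (D : BayesNet V) (s t : E → V) (w : E × Bool) :
    (stepNet D s t).d (Sum.inr w) (Sum.inl (t w.1)) = D.d (s w.1) (t w.1) / 2 := by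
  rw [d_eq, d_eq, expect_succ, Finset.sum_div]
  refine Finset.sum_congr rfl fun x _ => ?_
  rw [mul_div_assoc]
  congr 1
  change ∑ y : E × Bool → Bool, (∏ w : E × Bool, kap (x (s w.1)) (x (t w.1)) (y w)) *
    (if y w ≠ x (t w.1) then 1 else 0) = _
  rw [marg_one (fun (w : E × Bool) y => kap (x (s w.1)) (x (t w.1)) y)
    (fun _ => kap_sum _ _) w (x (t w.1))]
  cases x (s w.1) <;> cases x (t w.1) <;> norm_num [kap]

theorem d_mid (D : BayesNet V) (s t : E → V) (e : E) :
    (stepNet D s t).d (Sum.inr (e, false)) (Sum.inr (e, true)) = D.d (s e) (t e) / 2 := by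
  rw [d_eq, d_eq, expect_succ, Finset.sum_div]
  refine Finset.sum_congr rfl fun x _ => ?_
  rw [mul_div_assoc]
  congr 1
  change ∑ y : E × Bool → Bool, (∏ w : E × Bool, kap (x (s w.1)) (x (t w.1)) (y w)) *
    (if y (e, false) ≠ y (e, true) then 1 else 0) = _
  rw [marg_two (fun (w : E × Bool) y => kap (x (s w.1)) (x (t w.1)) y)
    (fun _ => kap_sum _ _) (e, false) (e, true) (by simp)]
  cases x (s e) <;> cases x (t e) <;> norm_num [kap]

end step

/-! ### the potential -/

/-- the one-dimensional potential -/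
noncomputable def gg (K : ℝ) (y : ℝ) : ℝ := y * Real.arsinh (K * y) - √(1 + (K * y) ^ 2) / K

theorem gg_deriv {K : ℝ} (hK : 0 < K) (y : ℝ) : HasDerivAt (gg K) (Real.arsinh (K * y)) y := by
  have h1 : HasDerivAt (fun y => K * y) K y := by
    simpa using (hasDerivAt_id y).const_mul K
  have h2 := (Real.hasDerivAt_arsinh (K * y)).comp y h1
  have h3 : 0 < 1 + (K * y) ^ 2 := by positivity
  have h4 : HasDerivAt (fun y => 1 + (K * y) ^ 2) (2 * (K * y) * K) y := by
    have := (h1.pow 2).const_add 1
    simpa using this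
  have h5 := h4.sqrt h3.ne'
  have h6 := ((hasDerivAt_id y).mul h2).sub (h5.div_const K)
  refine h6.congr_deriv ?_
  have h7 : √(1 + (K * y) ^ 2) ≠ 0 := (Real.sqrt_pos.2 h3).ne'
  simp only [id, Function.comp]
  field_simp
  ring

theorem gg_midpoint {K : ℝ} (hK : 0 < K) (p q : ℝ) :
    2 * gg K ((p + q) / 2) + (p - q) ^ 2 / (4 * (1 / K + (|p| + |q|))) ≤ gg K p + gg K q := by
  set M := |p| + |q| with hM
  have hM0 : 0 ≤ M := by positivity
  have hc : 0 < 1 / K + M := by positivity
  have hconv : ConvexOn ℝ (Set.Icc (-M) M) fun y => gg K y - y ^ 2 / (2 * (1 / K + M)) := by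
    refine convexOn_of_hasDerivWithinAt2_nonneg (convex_Icc _ _)
      (f' := fun y => Real.arsinh (K * y) - y / (1 / K + M))
      (f'' := fun y => K / √(1 + (K * y) ^ 2) - 1 / (1 / K + M)) ?_ ?_ ?_ ?_
    · intro y _
      refine ContinuousWithinAt.sub (gg_deriv hK y).continuousAt.continuousWithinAt ?_
      fun_prop
    · intro y _
      refine HasDerivAt.hasDerivWithinAt ?_
      have h1 : HasDerivAt (fun y : ℝ => y ^ 2 / (2 * (1 / K + M))) (y / (1 / K + M)) y := by
        have := (hasDerivAt_pow 2 y).div_const (2 * (1 / K + M))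
        refine this.congr_deriv ?_
        field_simp
        simp
      exact (gg_deriv hK y).sub h1
    · intro y _
      refine HasDerivAt.hasDerivWithinAt ?_
      have h1 : HasDerivAt (fun y => K * y) K y := by
        simpa using (hasDerivAt_id y).const_mul K
      have h2 := (Real.hasDerivAt_arsinh (K * y)).comp y h1
      have h3 := (hasDerivAt_id y).div_const (1 / K + M)
      refine (h2.sub h3).congr_deriv ?_
      rw [← div_eq_inv_mul]
    · intro y hy
      rw [interior_Icc] at hy
      have h3 : 0 < 1 + (K * y) ^ 2 := by positivity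
      have h4 : 0 < √(1 + (K * y) ^ 2) := Real.sqrt_pos.2 h3
      rw [sub_nonneg, div_le_div_iff₀ hc h4, one_mul]
      have h5 : √(1 + (K * y) ^ 2) ≤ 1 + K * M := by
        rw [Real.sqrt_le_left (by positivity)]
        have h6 : (K * y) ^ 2 ≤ (K * M) ^ 2 := by
          rw [sq_le_sq, abs_mul, abs_mul, abs_of_pos hK, abs_of_nonneg hM0]
          exact mul_le_mul_of_nonneg_left (abs_le.2 ⟨hy.1.le, hy.2.le⟩) hK.le
        nlinarith [mul_nonneg hK.le hM0]
      refine h5.trans ?_
      rw [mul_add K (1 / K) M, mul_one_div_cancel hK.ne']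
  have hp : p ∈ Set.Icc (-M) M := by
    have h1 := neg_abs_le p
    have h2 := le_abs_self p
    have h3 := abs_nonneg q
    constructor <;> linarith
  have hq : q ∈ Set.Icc (-M) M := by
    have h1 := neg_abs_le q
    have h2 := le_abs_self q
    have h3 := abs_nonneg p
    constructor <;> linarith
  have h := hconv.2 hp hq (by norm_num : (0 : ℝ) ≤ 1 / 2) (by norm_num : (0 : ℝ) ≤ 1 / 2)
    (by norm_num)
  simp only [smul_eq_mul] at h
  rw [show 1 / 2 * p + 1 / 2 * q = (p + q) / 2 by ring] at h
  have h8 : (p - q) ^ 2 / (4 * (1 / K + M)) =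
      p ^ 2 / (2 * (1 / K + M)) + q ^ 2 / (2 * (1 / K + M)) -
        2 * (((p + q) / 2) ^ 2 / (2 * (1 / K + M))) := by
    field_simp
    ring
  rw [h8]
  linarith

theorem gg_even (K y : ℝ) : gg K (-y) = gg K y := by
  unfold gg
  rw [mul_neg, Real.arsinh_neg, neg_sq]
  ring

theorem gg_zero_le {K : ℝ} (hK : 0 < K) (y : ℝ) : gg K 0 ≤ gg K y := by
  have h := gg_midpoint hK y (-y)
  rw [gg_even, add_neg_cancel, zero_div] at h
  have : 0 ≤ (y - -y) ^ 2 / (4 * (1 / K + (|y| + |(-y)|))) := by positivity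
  linarith

theorem gg_upper {K : ℝ} (hK : 0 < K) (y : ℝ) :
    gg K y - gg K 0 ≤ |y| * Real.log (1 + 2 * K * |y|) := by
  wlog hy : 0 ≤ y
  · have := this hK (-y) (by linarith)
    rwa [gg_even, abs_neg] at this
  rw [abs_of_nonneg hy]
  have h1 : gg K 0 = - (1 / K) := by
    unfold gg
    simp
  rw [h1]
  unfold gg
  have h2 : 1 / K ≤ √(1 + (K * y) ^ 2) / K := by
    rw [div_le_div_iff_of_pos_right hK]
    rw [Real.one_le_sqrt]
    nlinarith [sq_nonneg (K * y)]
  have h3 : Real.arsinh (K * y) ≤ Real.log (1 + 2 * K * y) := by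
    unfold Real.arsinh
    apply Real.log_le_log
    · positivity
    · have h4 : 0 ≤ K * y := mul_nonneg hK.le hy
      have h5 : √(1 + (K * y) ^ 2) ≤ 1 + K * y := by
        rw [Real.sqrt_le_left (by linarith)]
        nlinarith
      linarith
  have h4 := mul_le_mul_of_nonneg_left h3 hy
  linarith

theorem l1_nonneg {k : ℕ} (v : Fin k → ℝ) : 0 ≤ l1 v :=
  Finset.sum_nonneg fun _ _ => abs_nonneg _

theorem abs_le_l1 {k : ℕ} (v : Fin k → ℝ) (j : Fin k) : |v j| ≤ l1 v :=
  Finset.single_le_sum (f := fun j => |v j|) (fun _ _ => abs_nonneg _) (Finset.mem_univ j)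

/-- the potential of a map on the edges -/
noncomputable def pot {V E : Type} [Fintype E] {k : ℕ} (s t : E → V) (F : V → Fin k → ℝ)
    (δ : ℝ) : ℝ :=
  ∑ e, ∑ j, δ ^ 2 * (gg k ((F (s e) j - F (t e) j) / δ) - gg k 0)

/-- the gain at one pair of new edges -/
theorem gain {k : ℕ} (hk : 0 < k) (p q : Fin k → ℝ) (C δ : ℝ) (hδ : 0 < δ)
    (hp : l1 p ≤ C * δ) (hq : l1 q ≤ C * δ) :
    2 * ∑ j, δ ^ 2 * (gg k ((p j + q j) / (2 * δ)) - gg k 0) +
      l1 (p - q) ^ 2 / (4 * (1 + 2 * C)) ≤
    ∑ j, δ ^ 2 * (gg k (p j / δ) - gg k 0) + ∑ j, δ ^ 2 * (gg k (q j / δ) - gg k 0) := by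
  have hK : (0 : ℝ) < k := by exact_mod_cast hk
  have h1 : ∀ j, 2 * (δ ^ 2 * (gg k ((p j + q j) / (2 * δ)) - gg k 0)) +
      |(p - q) j| ^ 2 / (4 * (1 / k + (|p j| + |q j|) / δ)) ≤
      δ ^ 2 * (gg k (p j / δ) - gg k 0) + δ ^ 2 * (gg k (q j / δ) - gg k 0) := by
    intro j
    have h2 := mul_le_mul_of_nonneg_left (gg_midpoint hK (p j / δ) (q j / δ)) (sq_nonneg δ)
    have e1 : (p j / δ + q j / δ) / 2 = (p j + q j) / (2 * δ) := by
      field_simp
    have e2 : |p j / δ| + |q j / δ| = (|p j| + |q j|) / δ := by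
      rw [abs_div, abs_div, abs_of_pos hδ, add_div]
    have e3 : δ ^ 2 * ((p j / δ - q j / δ) ^ 2 / (4 * (1 / k + (|p j| + |q j|) / δ))) =
        |(p - q) j| ^ 2 / (4 * (1 / k + (|p j| + |q j|) / δ)) := by
      rw [sq_abs, Pi.sub_apply, ← sub_div, div_pow, ← mul_div_assoc,
        mul_div_cancel₀ _ (pow_ne_zero 2 hδ.ne')]
    rw [e1, e2, mul_add, e3] at h2
    linarith
  have h3 : l1 (p - q) ^ 2 / (4 * (1 + 2 * C)) ≤
      ∑ j, |(p - q) j| ^ 2 / (4 * (1 / k + (|p j| + |q j|) / δ)) := by
    refine le_trans ?_ (Finset.sq_sum_div_le_sum_sq_div Finset.univ (fun j => |(p - q) j|)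
      (g := fun j => 4 * (1 / (k : ℝ) + (|p j| + |q j|) / δ)) (fun j _ => by positivity))
    have h4 : ∑ j, 4 * (1 / (k : ℝ) + (|p j| + |q j|) / δ) = 4 * (1 + (l1 p + l1 q) / δ) := by
      have e4 : ∑ _j : Fin k, 1 / (k : ℝ) = 1 := by
        rw [Finset.sum_const, Finset.card_univ, Fintype.card_fin, nsmul_eq_mul,
          mul_one_div_cancel hK.ne']
      have e5 : ∑ j, (|p j| + |q j|) / δ = (l1 p + l1 q) / δ := by
        rw [← Finset.sum_div, Finset.sum_add_distrib]
        rfl
      rw [← Finset.mul_sum, Finset.sum_add_distrib, e4, e5]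
    rw [h4]
    have h5 : (l1 p + l1 q) / δ ≤ 2 * C := by
      rw [div_le_iff₀ hδ]
      linarith
    have h6 : 0 ≤ (l1 p + l1 q) / δ := div_nonneg (add_nonneg (l1_nonneg _) (l1_nonneg _)) hδ.le
    apply div_le_div_of_nonneg_left (sq_nonneg _) (by positivity)
    linarith
  have h7 := Finset.sum_le_sum fun j (_ : j ∈ Finset.univ) => h1 j
  rw [Finset.sum_add_distrib, Finset.sum_add_distrib, ← Finset.mul_sum] at h7
  linarith

theorem pot_step {V E : Type} [Fintype V] [DecidableEq V] [Fintype E] [DecidableEq E]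
    (D : BayesNet V) (s t : E → V) {k : ℕ} (hk : 0 < k) (F : V ⊕ (E × Bool) → Fin k → ℝ)
    (C δ : ℝ) (hC : 0 ≤ C) (hδ : 0 < δ) (hd : ∀ e, D.d (s e) (t e) = δ)
    (h1 : ∀ i j, (stepNet D s t).d i j ≤ l1 (F i - F j))
    (h2 : ∀ i j, l1 (F i - F j) ≤ C * (stepNet D s t).d i j) :
    pot s t (fun v => F (Sum.inl v)) δ + Fintype.card E * (δ ^ 2 / (8 * (1 + 2 * C))) ≤
      pot (stepSrc s) (stepDst t) F (δ / 2) := by
  have h3 : Fintype.card E * (δ ^ 2 / (8 * (1 + 2 * C))) =
      ∑ _e : E, (δ ^ 2 / (8 * (1 + 2 * C))) := by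
    rw [Finset.sum_const, nsmul_eq_mul, Finset.card_univ]
  unfold pot
  rw [h3, ← Finset.sum_add_distrib, Fintype.sum_prod_type]
  refine Finset.sum_le_sum fun e _ => ?_
  rw [Fintype.sum_prod_type]
  simp only [Fintype.sum_bool]
  have hg : ∀ b : Bool, 2 * ∑ j, (δ / 2) ^ 2 *
      (gg k ((F (Sum.inl (s e)) j - F (Sum.inl (t e)) j) / δ) - gg k 0) +
      l1 ((F (Sum.inl (s e)) - F (Sum.inr (e, b))) - (F (Sum.inr (e, b)) - F (Sum.inl (t e)))) ^ 2 /
        (4 * (1 + 2 * C)) ≤
      ∑ j, (δ / 2) ^ 2 * (gg k ((F (Sum.inl (s e)) j - F (Sum.inr (e, b)) j) / (δ / 2)) - gg k 0) +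
      ∑ j, (δ / 2) ^ 2 *
        (gg k ((F (Sum.inr (e, b)) j - F (Sum.inl (t e)) j) / (δ / 2)) - gg k 0) := by
    intro b
    have h4 := gain hk (F (Sum.inl (s e)) - F (Sum.inr (e, b)))
      (F (Sum.inr (e, b)) - F (Sum.inl (t e))) C (δ / 2) (by positivity) (by
        have := h2 (Sum.inl (s e)) (Sum.inr (e, b))
        rwa [d_src D s t (e, b), hd] at this) (by
        have := h2 (Sum.inr (e, b)) (Sum.inl (t e))
        rwa [d_dst D s t (e, b), hd] at this)
    simp only [Pi.sub_apply] at h4
    have h5 : ∀ j, (F (Sum.inl (s e)) j - F (Sum.inr (e, b)) j +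
        (F (Sum.inr (e, b)) j - F (Sum.inl (t e)) j)) / (2 * (δ / 2)) =
        (F (Sum.inl (s e)) j - F (Sum.inl (t e)) j) / δ := by
      intro j
      congr 1 <;> ring
    simp only [h5] at h4
    exact h4
  have hsq : δ ^ 2 / (8 * (1 + 2 * C)) ≤
      l1 ((F (Sum.inl (s e)) - F (Sum.inr (e, true))) -
        (F (Sum.inr (e, true)) - F (Sum.inl (t e)))) ^ 2 / (4 * (1 + 2 * C)) +
      l1 ((F (Sum.inl (s e)) - F (Sum.inr (e, false))) -
        (F (Sum.inr (e, false)) - F (Sum.inl (t e)))) ^ 2 / (4 * (1 + 2 * C)) := by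
    set A := l1 ((F (Sum.inl (s e)) - F (Sum.inr (e, true))) -
        (F (Sum.inr (e, true)) - F (Sum.inl (t e)))) with hA
    set B := l1 ((F (Sum.inl (s e)) - F (Sum.inr (e, false))) -
        (F (Sum.inr (e, false)) - F (Sum.inl (t e)))) with hB
    have h6 : δ ≤ A + B := by
      have h7 := h1 (Sum.inr (e, false)) (Sum.inr (e, true))
      rw [d_mid, hd] at h7
      have h8 : 2 * l1 (F (Sum.inr (e, false)) - F (Sum.inr (e, true))) ≤ A + B := by
        rw [hA, hB]
        unfold l1
        rw [Finset.mul_sum, ← Finset.sum_add_distrib]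
        refine Finset.sum_le_sum fun j _ => ?_
        simp only [Pi.sub_apply]
        have h9 : 2 * |F (Sum.inr (e, false)) j - F (Sum.inr (e, true)) j| =
            |(F (Sum.inl (s e)) j - F (Sum.inr (e, true)) j -
              (F (Sum.inr (e, true)) j - F (Sum.inl (t e)) j)) -
            (F (Sum.inl (s e)) j - F (Sum.inr (e, false)) j -
              (F (Sum.inr (e, false)) j - F (Sum.inl (t e)) j))| := by
          have h9' : ∀ x : ℝ, 2 * |x| = |2 * x| := fun x => by rw [abs_mul, abs_two]
          rw [h9']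
          congr 1
          ring
        rw [h9]
        exact abs_sub _ _
      linarith
    have hA0 : 0 ≤ A := l1_nonneg _
    have hB0 : 0 ≤ B := l1_nonneg _
    rw [← add_div, div_le_div_iff₀ (by positivity) (by positivity)]
    have h10 : δ ^ 2 ≤ 2 * (A ^ 2 + B ^ 2) := by nlinarith [sq_nonneg (A - B)]
    nlinarith
  have hT := hg true
  have hF := hg false
  have e1 : ∑ j, δ ^ 2 * (gg k ((F (Sum.inl (s e)) j - F (Sum.inl (t e)) j) / δ) - gg k 0) =
      4 * ∑ j, (δ / 2) ^ 2 *
        (gg k ((F (Sum.inl (s e)) j - F (Sum.inl (t e)) j) / δ) - gg k 0) := by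
    rw [Finset.mul_sum]
    refine Finset.sum_congr rfl fun j _ => ?_
    ring
  rw [e1]
  simp only [stepSrc, stepDst, if_true, Bool.false_eq_true, if_false]
  linarith

/-! ### the sequence of networks -/

/-- the data carried along the construction -/
structure Stage where
  V : Type
  E : Type
  [fV : Fintype V]
  [dV : DecidableEq V]
  [fE : Fintype E]
  [dE : DecidableEq E]
  D : BayesNet V
  s : E → V
  t : E → V

attribute [instance] Stage.fV Stage.dV Stage.fE Stage.dE

/-- the two-variable network `X_false = 0`, `X_true = 1` -/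
noncomputable def baseNet : BayesNet Bool where
  pa v := if v then {false} else ∅
  acyclic := by
    have key : ∀ u w : Bool, Relation.TransGen (fun u w : Bool => u ∈
        (if w then {false} else ∅ : Finset Bool)) u w → u = false ∧ w = true := by
      intro u w h
      induction h with
      | @single w h =>
        cases w
        · simp at h
        · simp at h
          exact ⟨h, rfl⟩
      | @tail b c _ h ih =>
        obtain ⟨h1, h2⟩ := ih
        subst h2
        cases c
        · simp at h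
        · simp at h
    intro v h
    obtain ⟨h1, h2⟩ := key v v h
    rw [h1] at h2
    exact Bool.false_ne_true h2
  cond v _ y := if y = v then 1 else 0
  cond_local _ _ _ _ := rfl
  cond_nonneg v x y := by split_ifs <;> norm_num
  cond_sum v x := by cases v <;> simp

theorem base_d : baseNet.d false true = 1 := by
  have h : baseNet.d false true = ∑ x : Bool → Bool, ∏ v, (if x v = v then (1 : ℝ) else 0) := by
    rw [d_eq]
    refine Finset.sum_congr rfl fun x _ => ?_
    unfold BayesNet.law
    rw [Fintype.prod_bool, Fintype.prod_bool]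
    show (if x true = true then (1 : ℝ) else 0) * (if x false = false then 1 else 0) *
      (if x false ≠ x true then 1 else 0) = _
    cases x false <;> cases x true <;> simp
  rw [h, sum_prod_bool fun (v : Bool) y => if y = v then (1 : ℝ) else 0, Fintype.prod_bool]
  simp

/-- the first stage -/
noncomputable def baseStage : Stage :=
  { V := Bool, E := Unit, D := baseNet, s := fun _ => false, t := fun _ => true }

/-- the next stage -/
noncomputable def Stage.step (S : Stage) : Stage :=
  { V := S.V ⊕ (S.E × Bool), E := S.E × Bool × Bool, D := stepNet S.D S.s S.t,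
    s := stepSrc S.s, t := stepDst S.t }

/-- the stages -/
noncomputable def st : ℕ → Stage
  | 0 => baseStage
  | n + 1 => (st n).step

theorem st_d : ∀ n (e : (st n).E), (st n).D.d ((st n).s e) ((st n).t e) = (1 / 2) ^ n
  | 0, _ => by
    rw [pow_zero]
    exact base_d
  | n + 1, (e, b, c) => by
    have h := st_d n e
    cases c
    · have := d_src (st n).D (st n).s (st n).t (e, b)
      rw [h] at this
      rw [pow_succ]
      refine Eq.trans ?_ (this.trans (by ring))
      rfl
    · have := d_dst (st n).D (st n).s (st n).t (e, b)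
      rw [h] at this
      rw [pow_succ]
      refine Eq.trans ?_ (this.trans (by ring))
      rfl

theorem card_E : ∀ n, Fintype.card (st n).E = 4 ^ n
  | 0 => rfl
  | n + 1 => by
    have h : Fintype.card (st (n + 1)).E = Fintype.card ((st n).E × Bool × Bool) := rfl
    rw [h, Fintype.card_prod, Fintype.card_prod, card_E n, Fintype.card_bool]
    ring

theorem card_V : ∀ n, Fintype.card (st n).V ≤ 4 ^ (n + 1)
  | 0 => by
    show Fintype.card Bool ≤ _
    simp
  | n + 1 => by
    have h : Fintype.card (st (n + 1)).V = Fintype.card ((st n).V ⊕ ((st n).E × Bool)) := rfl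
    rw [h, Fintype.card_sum, Fintype.card_prod, card_E n, Fintype.card_bool]
    have := card_V n
    rw [pow_succ] at this ⊢
    rw [pow_succ]
    omega

theorem le_card_V : ∀ n, n ≤ Fintype.card (st n).V
  | 0 => Nat.zero_le _
  | n + 1 => by
    have h : Fintype.card (st (n + 1)).V = Fintype.card ((st n).V ⊕ ((st n).E × Bool)) := rfl
    rw [h, Fintype.card_sum, Fintype.card_prod, card_E n, Fintype.card_bool]
    have := le_card_V n
    have h1 : 0 < 4 ^ n := by positivity
    omega

theorem pot_lower {k : ℕ} (hk : 0 < k) (C : ℝ) (hC : 0 ≤ C) :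
    ∀ n (F : (st n).V → Fin k → ℝ), (∀ i j, (st n).D.d i j ≤ l1 (F i - F j)) →
      (∀ i j, l1 (F i - F j) ≤ C * (st n).D.d i j) →
      n / (8 * (1 + 2 * C)) ≤ pot (st n).s (st n).t F ((1 / 2) ^ n)
  | 0, F, _, _ => by
    rw [Nat.cast_zero, zero_div]
    unfold pot
    refine Finset.sum_nonneg fun e _ => Finset.sum_nonneg fun j _ => ?_
    refine mul_nonneg (sq_nonneg _) ?_
    have := gg_zero_le (K := (k : ℝ)) (by exact_mod_cast hk)
      ((F ((st 0).s e) j - F ((st 0).t e) j) / (1 / 2) ^ 0)
    linarith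
  | n + 1, F, h1, h2 => by
    have ih := pot_lower hk C hC n (fun v => F (Sum.inl v)) (fun i j => by
      have := h1 (Sum.inl i) (Sum.inl j)
      have e := d_inl (st n).D (st n).s (st n).t i j
      rw [← e]
      exact this) (fun i j => by
      have := h2 (Sum.inl i) (Sum.inl j)
      have e := d_inl (st n).D (st n).s (st n).t i j
      rw [← e]
      exact this)
    have hs := pot_step (st n).D (st n).s (st n).t hk F C ((1 / 2) ^ n) hC (by positivity)
      (st_d n) h1 h2
    have e1 : Fintype.card (st n).E * (((1 / 2 : ℝ) ^ n) ^ 2 / (8 * (1 + 2 * C))) =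
        1 / (8 * (1 + 2 * C)) := by
      rw [card_E]
      push_cast
      rw [← mul_div_assoc, ← pow_mul, mul_comm n 2, pow_mul, ← mul_pow]
      norm_num
    rw [e1] at hs
    have e2 : ((1 : ℝ) / 2) ^ (n + 1) = (1 / 2) ^ n / 2 := by
      rw [pow_succ]; ring
    rw [e2]
    refine le_trans ?_ hs
    push_cast
    rw [add_div]
    linarith

theorem pot_upper {k : ℕ} (hk : 0 < k) (C : ℝ) (hC : 1 ≤ C) (n : ℕ)
    (F : (st n).V → Fin k → ℝ) (h2 : ∀ i j, l1 (F i - F j) ≤ C * (st n).D.d i j) :
    pot (st n).s (st n).t F ((1 / 2) ^ n) ≤ C * Real.log (1 + 2 * k * C) := by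
  have hK : (0 : ℝ) < k := by exact_mod_cast hk
  have hδ : (0 : ℝ) < (1 / 2) ^ n := by positivity
  set δ : ℝ := (1 / 2) ^ n with hδdef
  have hlog : 0 ≤ Real.log (1 + 2 * k * C) := by
    apply Real.log_nonneg
    have : 0 ≤ 2 * k * C := by positivity
    linarith
  have key : ∀ e, ∑ j, δ ^ 2 * (gg k ((F ((st n).s e) j - F ((st n).t e) j) / δ) - gg k 0) ≤
      δ ^ 2 * (C * Real.log (1 + 2 * k * C)) := by
    intro e
    have hl := h2 ((st n).s e) ((st n).t e)
    rw [st_d n e] at hl
    rw [← Finset.mul_sum]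
    apply mul_le_mul_of_nonneg_left _ (sq_nonneg _)
    have h3 : ∀ j, gg k ((F ((st n).s e) j - F ((st n).t e) j) / δ) - gg k 0 ≤
        |F ((st n).s e) j - F ((st n).t e) j| / δ * Real.log (1 + 2 * k * C) := by
      intro j
      refine (gg_upper hK _).trans ?_
      rw [abs_div, abs_of_pos hδ]
      apply mul_le_mul_of_nonneg_left _ (by positivity)
      apply Real.log_le_log (by positivity)
      have h4 : |F ((st n).s e) j - F ((st n).t e) j| / δ ≤ C := by
        rw [div_le_iff₀ hδ]
        exact (abs_le_l1 (F ((st n).s e) - F ((st n).t e)) j).trans hl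
      have := mul_le_mul_of_nonneg_left h4 (by positivity : 0 ≤ 2 * (k : ℝ))
      linarith
    refine (Finset.sum_le_sum fun j _ => h3 j).trans ?_
    rw [← Finset.sum_mul, ← Finset.sum_div]
    apply mul_le_mul_of_nonneg_right _ hlog
    rw [div_le_iff₀ hδ]
    exact hl
  refine (Finset.sum_le_sum fun e _ => key e).trans ?_
  rw [Finset.sum_const, Finset.card_univ, card_E, nsmul_eq_mul]
  push_cast
  rw [← mul_assoc, hδdef, ← pow_mul, mul_comm n 2, pow_mul, ← mul_pow]
  norm_num

/-- the lower bound for the dimension -/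
theorem dim_lower {k : ℕ} (C : ℝ) (hC : 1 ≤ C) (n : ℕ) (h : Embeds (st n).D.d k C) :
    (n : ℝ) / (8 * C * (1 + 2 * C)) ≤ Real.log (1 + 2 * k * C) := by
  obtain ⟨f, r, hr, hf⟩ := h
  have hsc : ∀ i j, l1 ((fun v => r⁻¹ • f v) i - (fun v => r⁻¹ • f v) j) =
      r⁻¹ * l1 (f i - f j) := by
    intro i j
    show l1 (r⁻¹ • f i - r⁻¹ • f j) = _
    rw [← smul_sub]
    unfold l1
    rw [Finset.mul_sum]
    refine Finset.sum_congr rfl fun x _ => ?_
    rw [Pi.smul_apply, smul_eq_mul, abs_mul, abs_of_pos (inv_pos.2 hr)]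
  have h1 : ∀ i j, (st n).D.d i j ≤ l1 ((fun v => r⁻¹ • f v) i - (fun v => r⁻¹ • f v) j) := by
    intro i j
    rw [hsc]
    have := mul_le_mul_of_nonneg_left (hf i j).1 (inv_pos.2 hr).le
    rwa [inv_mul_cancel_left₀ hr.ne'] at this
  have h2 : ∀ i j, l1 ((fun v => r⁻¹ • f v) i - (fun v => r⁻¹ • f v) j) ≤
      C * (st n).D.d i j := by
    intro i j
    rw [hsc]
    have := mul_le_mul_of_nonneg_left (hf i j).2 (inv_pos.2 hr).le
    refine this.trans (le_of_eq ?_)
    field_simp
  have hk : 0 < k := by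
    rcases Nat.eq_zero_or_pos k with h0 | h0
    · exfalso
      subst h0
      obtain ⟨e⟩ : Nonempty (st n).E := by
        rw [← Fintype.card_pos_iff, card_E]
        positivity
      have h3 := h1 ((st n).s e) ((st n).t e)
      rw [st_d n e] at h3
      have h4 : l1 ((fun v => r⁻¹ • f v) ((st n).s e) - (fun v => r⁻¹ • f v) ((st n).t e)) = 0 := by
        unfold l1
        simp
      rw [h4] at h3
      have : (0 : ℝ) < (1 / 2) ^ n := by positivity
      linarith
    · exact h0
  have h3 := pot_lower hk C (by linarith) n _ h1 h2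
  have h4 := pot_upper hk C hC n _ h2
  have h5 := h3.trans h4
  have h6 : (n : ℝ) / (8 * C * (1 + 2 * C)) = (n / (8 * (1 + 2 * C))) / C := by
    field_simp
  rw [h6, div_le_iff₀ (by linarith)]
  linarith

/-! ### treewidth -/

/-- Treewidth exactly two. -/
def TreewidthTwo {V : Type} (G : SimpleGraph V) : Prop :=
  H279R3.HasTreeDecomp G 2 ∧ ¬ H279R3.HasTreeDecomp G 1

/-- data for a tree decomposition with bags `{v} ∪ pa v` -/
def GoodD {V E : Type} (pa : V → Finset V) (s t : E → V) : Prop :=
  ∃ (r : V) (p : V → V) (d : V → ℕ), (∀ v, v ≠ r → d v = d (p v) + 1) ∧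
    (∀ v u, u ∈ pa v → v ≠ r ∧ (u = p v ∨ u ∈ pa (p v))) ∧
    (∀ v, (pa v).card ≤ 2) ∧
    ∀ e, ∃ i, (s e = i ∨ s e ∈ pa i) ∧ (t e = i ∨ t e ∈ pa i)

/-- the same for a stage -/
def Good (S : Stage) : Prop := GoodD S.D.pa S.s S.t

theorem good_base : GoodD baseNet.pa (fun _ : Unit => false) (fun _ => true) := by
  refine ⟨false, fun _ => false, fun v => if v then 1 else 0, ?_, ?_, ?_, ?_⟩
  · intro v hv
    cases v
    · exact absurd rfl hv
    · rfl
  · intro v u hu
    change u ∈ (if v then {false} else ∅ : Finset Bool) at hu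
    cases v
    · simp at hu
    · simp at hu
      exact ⟨by simp, Or.inl hu⟩
  · intro v
    change (if v then {false} else ∅ : Finset Bool).card ≤ 2
    split_ifs <;> simp
  · intro e
    refine ⟨true, Or.inr ?_, Or.inl rfl⟩
    change false ∈ (if true then {false} else ∅ : Finset Bool)
    simp

theorem good_step {V E : Type} [Fintype V] [DecidableEq V] [Fintype E] [DecidableEq E]
    (D : BayesNet V) (s t : E → V) (h : GoodD D.pa s t) :
    GoodD (stepNet D s t).pa (stepSrc s) (stepDst t) := by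
  obtain ⟨r, p, d, h1, h2, h3, h4⟩ := h
  choose i hi1 hi2 using h4
  refine ⟨Sum.inl r, Sum.elim (fun v => Sum.inl (p v)) (fun w => Sum.inl (i w.1)),
    Sum.elim d (fun w => d (i w.1) + 1), ?_, ?_, ?_, ?_⟩
  · rintro (v | w) hv
    · exact h1 v fun h => hv (by rw [h])
    · rfl
  · rintro (v | w) u hu
    · change u ∈ (D.pa v).map ⟨Sum.inl, Sum.inl_injective⟩ at hu
      rw [Finset.mem_map] at hu
      obtain ⟨u', hu', rfl⟩ := hu
      obtain ⟨h5, h6⟩ := h2 v u' hu'
      refine ⟨fun h => h5 (Sum.inl_injective h), ?_⟩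
      rcases h6 with h6 | h6
      · left
        exact congrArg Sum.inl h6
      · right
        change _ ∈ (D.pa (p v)).map ⟨Sum.inl, Sum.inl_injective⟩
        rw [Finset.mem_map]
        exact ⟨u', h6, rfl⟩
    · change u ∈ ({Sum.inl (s w.1), Sum.inl (t w.1)} : Finset (V ⊕ (E × Bool))) at hu
      rw [Finset.mem_insert, Finset.mem_singleton] at hu
      refine ⟨fun h => by simp at h, ?_⟩
      have key : ∀ x, x = i w.1 ∨ x ∈ D.pa (i w.1) → (Sum.inl x : V ⊕ (E × Bool)) =
          Sum.inl (i w.1) ∨ (Sum.inl x : V ⊕ (E × Bool)) ∈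
            (D.pa (i w.1)).map ⟨Sum.inl, Sum.inl_injective⟩ := by
        rintro x (h | h)
        · left
          rw [h]
        · right
          rw [Finset.mem_map]
          exact ⟨x, h, rfl⟩
      rcases hu with rfl | rfl
      · exact key _ (hi1 w.1)
      · exact key _ (hi2 w.1)
  · rintro (v | w)
    · change ((D.pa v).map ⟨Sum.inl, Sum.inl_injective⟩ : Finset (V ⊕ (E × Bool))).card ≤ 2
      rw [Finset.card_map]
      exact h3 v
    · change ({Sum.inl (s w.1), Sum.inl (t w.1)} : Finset (V ⊕ (E × Bool))).card ≤ 2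
      exact Finset.card_le_two
  · rintro ⟨e, b, c⟩
    refine ⟨Sum.inr (e, b), ?_⟩
    have hs : (Sum.inl (s e) : V ⊕ (E × Bool)) ∈ (stepNet D s t).pa (Sum.inr (e, b)) := by
      change _ ∈ ({Sum.inl (s e), Sum.inl (t e)} : Finset (V ⊕ (E × Bool)))
      simp
    have ht : (Sum.inl (t e) : V ⊕ (E × Bool)) ∈ (stepNet D s t).pa (Sum.inr (e, b)) := by
      change _ ∈ ({Sum.inl (s e), Sum.inl (t e)} : Finset (V ⊕ (E × Bool)))
      simp
    cases c
    · exact ⟨Or.inr hs, Or.inl rfl⟩
    · exact ⟨Or.inl rfl, Or.inr ht⟩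

theorem good_st : ∀ n, Good (st n)
  | 0 => good_base
  | n + 1 => good_step (st n).D (st n).s (st n).t (good_st n)

theorem decomp_of_good (S : Stage) (h : Good S) : H279R3.HasTreeDecomp S.D.graph 2 := by
  obtain ⟨r, p, d, h1, h2, h3, -⟩ := h
  refine ⟨S.V, Q133.Wiener.parentGraph r p d h1, fun v => insert v (S.D.pa v),
    Q133.Wiener.parent_isTree, ?_, ?_, ?_, ?_⟩
  · intro v
    exact (Finset.card_insert_le _ _).trans (by have := h3 v; omega)
  · intro v
    exact ⟨v, Finset.mem_insert_self _ _⟩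
  · intro u v huv
    unfold BayesNet.graph at huv
    rw [SimpleGraph.fromRel_adj] at huv
    obtain ⟨-, h | h⟩ := huv
    · exact ⟨v, Finset.mem_insert_of_mem h, Finset.mem_insert_self _ _⟩
    · exact ⟨u, Finset.mem_insert_self _ _, Finset.mem_insert_of_mem h⟩
  · -- every node containing `v` is joined to the node `v`
    have key : ∀ (N : ℕ) (v i : S.V), d i = N → v ∈ insert i (S.D.pa i) →
        ∃ q : (Q133.Wiener.parentGraph r p d h1).Walk i v, ∀ x ∈ q.support,
          v ∈ insert x (S.D.pa x) := by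
      intro N
      induction N with
      | zero =>
        intro v i hi hv
        rw [Finset.mem_insert] at hv
        rcases hv with rfl | hv
        · refine ⟨SimpleGraph.Walk.nil, fun x hx => ?_⟩
          rw [SimpleGraph.Walk.support_nil, List.mem_singleton] at hx
          subst hx
          exact Finset.mem_insert_self _ _
        · have := h1 i (h2 i v hv).1
          omega
      | succ N ih =>
        intro v i hi hv
        have hv0 := hv
        rw [Finset.mem_insert] at hv
        rcases hv with rfl | hv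
        · refine ⟨SimpleGraph.Walk.nil, fun x hx => ?_⟩
          rw [SimpleGraph.Walk.support_nil, List.mem_singleton] at hx
          subst hx
          exact Finset.mem_insert_self _ _
        · obtain ⟨h4, h5⟩ := h2 i v hv
          have h6 := h1 i h4
          obtain ⟨q, hq⟩ := ih v (p i) (by omega) (by
            rw [Finset.mem_insert]
            exact h5)
          refine ⟨SimpleGraph.Walk.cons (Q133.Wiener.adj_parent h4) q, fun x hx => ?_⟩
          rw [SimpleGraph.Walk.support_cons, List.mem_cons] at hx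
          rcases hx with rfl | hx
          · exact hv0
          · exact hq x hx
    intro v i j hi hj
    obtain ⟨q1, hq1⟩ := key _ v i rfl hi
    obtain ⟨q2, hq2⟩ := key _ v j rfl hj
    refine ⟨q1.append q2.reverse, fun x hx => ?_⟩
    rw [SimpleGraph.Walk.mem_support_append_iff, SimpleGraph.Walk.support_reverse,
      List.mem_reverse] at hx
    rcases hx with hx | hx
    · exact hq1 x hx
    · exact hq2 x hx

/-- a graph with a triangle has no tree decomposition of width one -/
theorem not_decomp_of_triangle {V : Type} {G : SimpleGraph V} {a b c : V} (hab : G.Adj a b)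
    (hbc : G.Adj b c) (hca : G.Adj c a) : ¬ H279R3.HasTreeDecomp G 1 := by
  classical
  rintro ⟨ι, T, B, hT, hB, hcov, hadj, hconn⟩
  let v : Fin 3 → V := ![a, b, c]
  obtain ⟨x, hx⟩ := H279R3.helly hT (fun j : Fin 3 => {i | v j ∈ B i}) (by
    intro j i hi i' hi'
    exact hconn (v j) i i' hi hi') (by
    intro j j'
    have hsub : ∀ u w, G.Adj u w → ({i | u ∈ B i} ∩ {i | w ∈ B i} : Set ι).Nonempty := by
      intro u w h
      obtain ⟨i, h1, h2⟩ := hadj u w h
      exact ⟨i, h1, h2⟩
    have hself : ∀ u, ({i | u ∈ B i} ∩ {i | u ∈ B i} : Set ι).Nonempty := by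
      intro u
      obtain ⟨i, h1⟩ := hcov u
      exact ⟨i, h1, h1⟩
    fin_cases j <;> fin_cases j'
    · exact hself a
    · exact hsub a b hab
    · exact hsub a c hca.symm
    · exact hsub b a hab.symm
    · exact hself b
    · exact hsub b c hbc
    · exact hsub c a hca
    · exact hsub c b hbc.symm
    · exact hself c)
  have ha : a ∈ B x := hx 0
  have hb : b ∈ B x := hx 1
  have hc : c ∈ B x := hx 2
  have h3 : ({a, b, c} : Finset V).card ≤ (B x).card := by
    apply Finset.card_le_card
    intro y hy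
    simp only [Finset.mem_insert, Finset.mem_singleton] at hy
    rcases hy with rfl | rfl | rfl
    · exact ha
    · exact hb
    · exact hc
  rw [Finset.card_eq_three.2 ⟨a, b, c, hab.ne, hca.ne.symm, hbc.ne, rfl⟩] at h3
  have := hB x
  omega

theorem inl_adj {V E : Type} [Fintype V] [DecidableEq V] [Fintype E] [DecidableEq E]
    (D : BayesNet V) (s t : E → V) {u v : V} (h : D.graph.Adj u v) :
    (stepNet D s t).graph.Adj (Sum.inl u) (Sum.inl v) := by
  unfold BayesNet.graph at *
  rw [SimpleGraph.fromRel_adj] at *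
  obtain ⟨h1, h2⟩ := h
  refine ⟨fun h => h1 (Sum.inl_injective h), ?_⟩
  rcases h2 with h2 | h2
  · left
    change _ ∈ (D.pa v).map ⟨Sum.inl, Sum.inl_injective⟩
    rw [Finset.mem_map]
    exact ⟨u, h2, rfl⟩
  · right
    change _ ∈ (D.pa u).map ⟨Sum.inl, Sum.inl_injective⟩
    rw [Finset.mem_map]
    exact ⟨v, h2, rfl⟩

theorem triangle_one : ∃ a b c, (stepNet baseNet (fun _ : Unit => false)
    (fun _ => true)).graph.Adj a b ∧
    (stepNet baseNet (fun _ : Unit => false) (fun _ => true)).graph.Adj b c ∧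
    (stepNet baseNet (fun _ : Unit => false) (fun _ => true)).graph.Adj c a := by
  have h : baseNet.graph.Adj false true := by
    unfold BayesNet.graph
    rw [SimpleGraph.fromRel_adj]
    refine ⟨Bool.false_ne_true, Or.inl ?_⟩
    change false ∈ (if true then {false} else ∅ : Finset Bool)
    simp
  refine ⟨Sum.inl false, Sum.inl true, Sum.inr ((), true), inl_adj _ _ _ h, ?_, ?_⟩
  · unfold BayesNet.graph
    rw [SimpleGraph.fromRel_adj]
    refine ⟨by simp, Or.inl ?_⟩
    change _ ∈ ({Sum.inl false, Sum.inl true} : Finset (Bool ⊕ (Unit × Bool)))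
    simp
  · unfold BayesNet.graph
    rw [SimpleGraph.fromRel_adj]
    refine ⟨by simp, Or.inr ?_⟩
    change _ ∈ ({Sum.inl false, Sum.inl true} : Finset (Bool ⊕ (Unit × Bool)))
    simp

/-- the triangle at each stage -/
theorem triangle : ∀ n, ∃ a b c : (st (n + 1)).V, (st (n + 1)).D.graph.Adj a b ∧
    (st (n + 1)).D.graph.Adj b c ∧ (st (n + 1)).D.graph.Adj c a
  | 0 => triangle_one
  | n + 1 => by
    obtain ⟨a, b, c, h1, h2, h3⟩ := triangle n
    exact ⟨_, _, _, inl_adj _ _ _ h1, inl_adj _ _ _ h2, inl_adj _ _ _ h3⟩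

theorem tw_two (n : ℕ) : TreewidthTwo (st (n + 1)).D.graph := by
  refine ⟨decomp_of_good _ (good_st _), ?_⟩
  obtain ⟨a, b, c, h1, h2, h3⟩ := triangle n
  exact not_decomp_of_triangle h1 h2 h3

end Q138.Diamond
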