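import Pool.Agent.Q138.PlaneRigid

set_option autoImplicit false

/-!
A flexible strictly convex 12-gon with a generically rigid bracing.
-/

namespace Q138.Dodecagon

open Q138.PlaneRigid

/-- the bars, for `i < j` -/
def edgeB (i j : Fin 12) : Bool :=
  ((i == 1 || i == 5 || i == 7 || i == 11) && (j == 2 || j == 4 || j == 8 || j == 10)) ||
  (i == 0 && (j == 1 || j == 11)) || (i == 6 && (j == 5 || j == 7)) ||
  (i == 3 && (j == 2 || j == 4)) || (i == 9 && (j == 8 || j == 10))

/-- the graph -/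
def G : SimpleGraph (Fin 12) where
  Adj i j := (edgeB i j || edgeB j i) = true
  symm := ⟨fun i j h => by rw [Bool.or_comm]; exact h⟩
  loopless := ⟨by decide⟩

instance : DecidableRel G.Adj := fun i j =>
  inferInstanceAs (Decidable ((edgeB i j || edgeB j i) = true))

theorem side (i : Fin 12) : G.Adj i (i + 1) := by
  revert i; decide

/-! ### generic rigidity -/

/-- 21 of the bars -/
def bars : Fin 21 → Fin 12 × Fin 12 :=
  ![(1, 2), (1, 4), (1, 8), (5, 2), (5, 4), (5, 8), (7, 2), (7, 4), (7, 8), (11, 2), (11, 4),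
    (10, 1), (10, 5), (0, 1), (0, 11), (6, 5), (6, 7), (3, 2), (3, 4), (9, 8), (9, 10)]

theorem bars_adj (i : Fin 21) : G.Adj (bars i).1 (bars i).2 := by
  revert i; decide

/-- coordinates of a special configuration -/
def sx : Fin 12 → ℝ := ![0, 0, 2, 1, 1, 1, -1, 1, 0, 1, 1, 2]
/-- coordinates of a special configuration -/
def sy : Fin 12 → ℝ := ![2, -1, -1, 2, -1, 1, 1, 2, 1, 1, -1, 2]

/-- a special configuration -/
noncomputable def ps (i : Fin 12) : E2 := !₂[sx i, sy i]

theorem ps_indep : LinearIndependent ℝ fun i => row ps (bars i) := by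
  rw [Fintype.linearIndependent_iff]
  intro g hg
  have key : ∀ v k, ∑ i, g i * (κ (bars i) v * (ps (bars i).1 k - ps (bars i).2 k)) = 0 := by
    intro v k
    have := congrArg (fun y : EuclideanSpace ℝ (Fin 12 × Fin 2) => y (v, k)) hg
    simpa [row] using this
  have hx : ∀ v, ∑ i, g i * (κ (bars i) v * (sx (bars i).1 - sx (bars i).2)) = 0 := fun v => key v 0
  have hy : ∀ v, ∑ i, g i * (κ (bars i) v * (sy (bars i).1 - sy (bars i).2)) = 0 := fun v => key v 1
  have x0 := hx 0; have y0 := hy 0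
  have x1 := hx 1; have y1 := hy 1
  have x2 := hx 2; have y2 := hy 2
  have x3 := hx 3; have y3 := hy 3
  have x4 := hx 4; have y4 := hy 4
  have x5 := hx 5; have y5 := hy 5
  have x6 := hx 6; have y6 := hy 6
  have x7 := hx 7; have y7 := hy 7
  have x8 := hx 8; have y8 := hy 8
  have x9 := hx 9; have y9 := hy 9
  have x10 := hx 10; have y10 := hy 10
  have x11 := hx 11; have y11 := hy 11
  simp [Fin.sum_univ_succ, κ, bars, sx, sy] at x0 y0 x1 y1 x2 y2 x3 y3 x4 y4 x5 y5 x6 y6 x7 y7 x8 y8 x9 y9 x10 y10 x11 y11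
  norm_num at y0 x3 y6
  have g14 : g 14 = 0 := by linarith
  have g13 : g 13 = 0 := by linarith
  have g17 : g 17 = 0 := by linarith
  have g16 : g 16 = 0 := by linarith
  have g19 : g 19 = 0 := by linarith
  have g20 : g 20 = 0 := by linarith
  have g11 : g 11 = 0 := by linarith
  have g18 : g 18 = 0 := by linarith
  have g15 : g 15 = 0 := by linarith
  have g10 : g 10 = 0 := by linarith
  have g12 : g 12 = 0 := by linarith
  have g9 : g 9 = 0 := by linarith
  have g2 : g 2 = 0 := by linarith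
  have g8 : g 8 = 0 := by linarith
  have g5 : g 5 = 0 := by linarith
  have g1 : g 1 = 0 := by linarith
  have g0 : g 0 = 0 := by linarith
  have g3 : g 3 = 0 := by linarith
  have g4 : g 4 = 0 := by linarith
  have g6 : g 6 = 0 := by linarith
  have g7 : g 7 = 0 := by linarith
  intro i
  fin_cases i
  · exact g0
  · exact g1
  · exact g2
  · exact g3
  · exact g4
  · exact g5
  · exact g6
  · exact g7
  · exact g8
  · exact g9
  · exact g10
  · exact g11
  · exact g12
  · exact g13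
  · exact g14
  · exact g15
  · exact g16
  · exact g17
  · exact g18
  · exact g19
  · exact g20

theorem G_rigid : GenericallyRigid G :=
  genericallyRigid_of_indep G bars bars_adj ps 0 (by simp) ps_indep

/-! ### the flexible convex configuration -/

/-- relations between the parameters -/
structure Rel (a b c d R R' : ℝ) : Prop where
  ac : a * c = 36
  bd : b * d = 36
  sum : a ^ 2 + b ^ 2 + c ^ 2 + d ^ 2 = 194
  hR : (R - a) ^ 2 + b ^ 2 = 17
  hR' : (R' - d) ^ 2 + c ^ 2 = 17

/-- first coordinates -/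
def cx (a c R : ℝ) : Fin 12 → ℝ := ![R, a, c, 0, -c, -a, -R, -a, -c, 0, c, a]
/-- second coordinates -/
def cy (b d R' : ℝ) : Fin 12 → ℝ := ![0, b, d, R', d, b, 0, -b, -d, -R', -d, -b]

/-- the configuration -/
noncomputable def conf (a b c d R R' : ℝ) (i : Fin 12) : E2 := !₂[cx a c R i, cy b d R' i]

theorem dist_sq (u v : E2) : dist u v ^ 2 = (u 0 - v 0) ^ 2 + (u 1 - v 1) ^ 2 := by
  rw [EuclideanSpace.dist_eq, Real.sq_sqrt (Finset.sum_nonneg fun i _ => sq_nonneg _)]
  simp [Fin.sum_univ_two, Real.dist_eq, sq_abs]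

theorem dist_conf (a b c d R R' : ℝ) (i j : Fin 12) :
    dist (conf a b c d R R' i) (conf a b c d R R' j) ^ 2 =
      (cx a c R i - cx a c R j) ^ 2 + (cy b d R' i - cy b d R' j) ^ 2 := by
  rw [dist_sq]; rfl

theorem Rel.len_aux {a b c d R R' : ℝ} (h : Rel a b c d R R') {a₂ b₂ c₂ d₂ R₂ R₂' : ℝ}
    (h₂ : Rel a₂ b₂ c₂ d₂ R₂ R₂') (i j : Fin 12) (hij : edgeB i j = true) :
    (cx a c R i - cx a c R j) ^ 2 + (cy b d R' i - cy b d R' j) ^ 2 =
      (cx a₂ c₂ R₂ i - cx a₂ c₂ R₂ j) ^ 2 + (cy b₂ d₂ R₂' i - cy b₂ d₂ R₂' j) ^ 2 := by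
  have e1 := h.ac
  have e2 := h.bd
  have e3 := h.sum
  have e4 := h.hR
  have e5 := h.hR'
  have f1 := h₂.ac
  have f2 := h₂.bd
  have f3 := h₂.sum
  have f4 := h₂.hR
  have f5 := h₂.hR'
  revert hij
  fin_cases i <;> fin_cases j <;> intro hij <;>
    first
    | exact absurd hij (by decide)
    | (simp [cx, cy]
       first
       | linear_combination e3 - f3 - 2 * e1 + 2 * f1 - 2 * e2 + 2 * f2
       | linear_combination e3 - f3 - 2 * e1 + 2 * f1 + 2 * e2 - 2 * f2
       | linear_combination e3 - f3 + 2 * e1 - 2 * f1 - 2 * e2 + 2 * f2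
       | linear_combination e3 - f3 + 2 * e1 - 2 * f1 + 2 * e2 - 2 * f2
       | linear_combination e4 - f4
       | linear_combination e5 - f5)

theorem Rel.len {a b c d R R' : ℝ} (h : Rel a b c d R R') {a₂ b₂ c₂ d₂ R₂ R₂' : ℝ}
    (h₂ : Rel a₂ b₂ c₂ d₂ R₂ R₂') (i j : Fin 12) (hij : G.Adj i j) :
    dist (conf a b c d R R' i) (conf a b c d R R' j) =
      dist (conf a₂ b₂ c₂ d₂ R₂ R₂' i) (conf a₂ b₂ c₂ d₂ R₂ R₂' j) := by
  have h' : (edgeB i j || edgeB j i) = true := hij
  apply (pow_left_inj₀ dist_nonneg dist_nonneg two_ne_zero).1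
  rcases Bool.or_eq_true_iff.1 h' with h1 | h1
  · rw [dist_conf, dist_conf]
    exact h.len_aux h₂ i j h1
  · rw [dist_comm, dist_comm (conf a₂ b₂ c₂ d₂ R₂ R₂' i), dist_conf, dist_conf]
    exact h.len_aux h₂ j i h1

/-- parameter functions -/
noncomputable def fa (t : ℝ) : ℝ := Real.sqrt (81 + t)
/-- parameter functions -/
noncomputable def fT (t : ℝ) : ℝ := 113 - t - 1296 / (81 + t)
/-- parameter functions -/
noncomputable def fD (t : ℝ) : ℝ := (fT t + Real.sqrt (fT t ^ 2 - 5184)) / 2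
/-- parameter functions -/
noncomputable def fd (t : ℝ) : ℝ := Real.sqrt (fD t)
/-- parameter functions -/
noncomputable def fR (t : ℝ) : ℝ := fa t + Real.sqrt (17 - (36 / fd t) ^ 2)
/-- parameter functions -/
noncomputable def fR' (t : ℝ) : ℝ := fd t + Real.sqrt (17 - (36 / fa t) ^ 2)

section

variable {t : ℝ} (h0 : 0 ≤ t) (h1 : t ≤ 1)

include h0 h1

theorem fa_sq : fa t ^ 2 = 81 + t := Real.sq_sqrt (by linarith)

theorem fa_pos : 0 < fa t := Real.sqrt_pos.2 (by linarith)

theorem fT_ge : 96 ≤ fT t := by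
  unfold fT
  have : 1296 / (81 + t) ≤ 16 := by
    rw [div_le_iff₀ (by linarith)]; linarith
  linarith

theorem fD_root : fD t ^ 2 - fT t * fD t + 1296 = 0 := by
  have hT := fT_ge h0 h1
  have hs : Real.sqrt (fT t ^ 2 - 5184) ^ 2 = fT t ^ 2 - 5184 := Real.sq_sqrt (by nlinarith)
  unfold fD
  linear_combination (1 / 4) * hs

theorem fD_ge : 77 ≤ fD t := by
  have hT := fT_ge h0 h1
  have hs : (60 : ℝ) ≤ Real.sqrt (fT t ^ 2 - 5184) := by
    apply Real.le_sqrt_of_sq_le
    nlinarith
  unfold fD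
  linarith

theorem fd_sq : fd t ^ 2 = fD t := Real.sq_sqrt (by have := fD_ge h0 h1; linarith)

theorem fd_pos : 0 < fd t := Real.sqrt_pos.2 (by have := fD_ge h0 h1; linarith)

theorem b_sq : (36 / fd t) ^ 2 = fT t - fD t := by
  have h2 := fd_sq h0 h1
  have h3 := fD_root h0 h1
  have h4 := fd_pos h0 h1
  rw [div_pow, h2, div_eq_iff (by have := fD_ge h0 h1; linarith)]
  linarith

theorem c_sq : (36 / fa t) ^ 2 = 1296 / (81 + t) := by
  rw [div_pow, fa_sq h0 h1]
  norm_num

theorem rel_fun : Rel (fa t) (36 / fd t) (36 / fa t) (fd t) (fR t) (fR' t) := by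
  have ha := fa_pos h0 h1
  have hd := fd_pos h0 h1
  have hT := fT_ge h0 h1
  have hb := b_sq h0 h1
  have hc := c_sq h0 h1
  refine ⟨mul_div_cancel₀ _ ha.ne', div_mul_cancel₀ _ hd.ne', ?_, ?_, ?_⟩
  · rw [hb, hc, fa_sq h0 h1, fd_sq h0 h1]
    unfold fT
    ring
  · have h17 : 0 ≤ 17 - (36 / fd t) ^ 2 := by
      have hD := fD_ge h0 h1
      rw [div_pow, fd_sq h0 h1, sub_nonneg, div_le_iff₀ (by linarith)]
      linarith
    unfold fR
    rw [add_sub_cancel_left, Real.sq_sqrt h17]
    ring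
  · have h17 : 0 ≤ 17 - (36 / fa t) ^ 2 := by
      rw [hc, sub_nonneg, div_le_iff₀ (by linarith)]
      linarith
    unfold fR'
    rw [add_sub_cancel_left, Real.sq_sqrt h17]
    ring

end

theorem rel0 : Rel 9 4 4 9 10 10 := by constructor <;> norm_num

/-- the motion -/
noncomputable def P (t : unitInterval) : Fin 12 → E2 :=
  conf (fa t) (36 / fd t) (36 / fa t) (fd t) (fR t) (fR' t)

/-- the configuration -/
noncomputable def p0 : Fin 12 → E2 := conf 9 4 4 9 10 10

theorem P_zero : P 0 = p0 := by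
  have e1 : fa 0 = 9 := by
    unfold fa
    rw [show (81 + 0 : ℝ) = 9 ^ 2 by norm_num, Real.sqrt_sq (by norm_num)]
  have e2 : fT 0 = 97 := by unfold fT; norm_num
  have e3 : fD 0 = 81 := by
    unfold fD
    rw [e2, show ((97 : ℝ) ^ 2 - 5184) = 65 ^ 2 by norm_num, Real.sqrt_sq (by norm_num)]
    norm_num
  have e4 : fd 0 = 9 := by
    unfold fd
    rw [e3, show (81 : ℝ) = 9 ^ 2 by norm_num, Real.sqrt_sq (by norm_num)]
  have e5 : fR 0 = 10 := by
    unfold fR
    rw [e1, e4, show ((17 : ℝ) - (36 / 9) ^ 2) = 1 by norm_num, Real.sqrt_one]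
    norm_num
  have e6 : fR' 0 = 10 := by
    unfold fR'
    rw [e1, e4, show ((17 : ℝ) - (36 / 9) ^ 2) = 1 by norm_num, Real.sqrt_one]
    norm_num
  unfold P p0
  have e0 : ((0 : unitInterval) : ℝ) = 0 := rfl
  rw [e0, e1, e4, e5, e6]
  norm_num

theorem P_cont : Continuous P := by
  have ca : Continuous fun t : unitInterval => fa t := by unfold fa; fun_prop
  have ca' : Continuous fun t : unitInterval => 36 / fa t :=
    continuous_const.div ca fun t => (fa_pos t.2.1 t.2.2).ne'
  have cT : Continuous fun t : unitInterval => fT t := by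
    unfold fT
    refine (by fun_prop : Continuous fun t : unitInterval => 113 - (t : ℝ)).sub ?_
    exact continuous_const.div (by fun_prop) fun t => by
      have := t.2.1
      show (81 + (t : ℝ)) ≠ 0
      linarith
  have cD : Continuous fun t : unitInterval => fD t := by
    unfold fD; fun_prop
  have cd : Continuous fun t : unitInterval => fd t := by
    unfold fd; fun_prop
  have cb : Continuous fun t : unitInterval => 36 / fd t :=
    continuous_const.div cd fun t => (fd_pos t.2.1 t.2.2).ne'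
  have cR : Continuous fun t : unitInterval => fR t := by
    unfold fR; fun_prop
  have cR' : Continuous fun t : unitInterval => fR' t := by
    unfold fR'; fun_prop
  refine continuous_pi fun i => ?_
  unfold P conf
  refine (PiLp.continuous_toLp 2 _).comp ?_
  refine continuous_pi fun k => ?_
  fin_cases k
  · fin_cases i <;> simp [cx] <;> fun_prop
  · fin_cases i <;> simp [cy] <;> fun_prop

theorem flexible : Flexible G p0 := by
  refine ⟨P, ⟨P_cont, P_zero, ?_⟩, 1, ?_⟩
  · intro t u w h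
    exact (rel_fun t.2.1 t.2.2).len rel0 u w h
  · intro hcong
    have h1 := hcong 1 5
    have h2 : dist (p0 1) (p0 5) ^ 2 = dist (P 1 1) (P 1 5) ^ 2 := by rw [h1]
    unfold p0 P at h2
    rw [dist_conf, dist_conf] at h2
    simp [cx, cy] at h2
    have h3 := fa_sq (t := 1) zero_le_one le_rfl
    nlinarith

/-! ### convexity -/

/-- integer coordinates -/
def ix : Fin 12 → ℤ := ![10, 9, 4, 0, -4, -9, -10, -9, -4, 0, 4, 9]
/-- integer coordinates -/
def iy : Fin 12 → ℤ := ![0, 4, 9, 10, 9, 4, 0, -4, -9, -10, -9, -4]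

theorem convex_int : ∀ i j : Fin 12, j ≠ i → j ≠ i + 1 →
    0 < (ix (i + 1) - ix i) * (iy j - iy i) - (iy (i + 1) - iy i) * (ix j - ix i) := by
  decide +kernel

theorem cx_int (i : Fin 12) : cx 9 4 10 i = (ix i : ℝ) := by
  fin_cases i <;> simp [cx, ix]

theorem cy_int (i : Fin 12) : cy 4 9 10 i = (iy i : ℝ) := by
  fin_cases i <;> simp [cy, iy]

theorem convex (i j : Fin 12) (h1 : j ≠ i) (h2 : j ≠ i + 1) :
    0 < (p0 (i + 1) 0 - p0 i 0) * (p0 j 1 - p0 i 1) - (p0 (i + 1) 1 - p0 i 1) * (p0 j 0 - p0 i 0) := by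
  have h := convex_int i j h1 h2
  show 0 < (cx 9 4 10 (i + 1) - cx 9 4 10 i) * (cy 4 9 10 j - cy 4 9 10 i) -
    (cy 4 9 10 (i + 1) - cy 4 9 10 i) * (cx 9 4 10 j - cx 9 4 10 i)
  rw [cx_int, cx_int, cx_int, cy_int, cy_int, cy_int]
  exact_mod_cast h

end Q138.Dodecagon
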