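import Pool.Agent.Q138.MagHomDefs

set_option autoImplicit false

/-!
A family of isometric and convex hexagons gives linearly independent classes in `MH_{5,7}`.
-/

namespace Q138.MagHom

/-- distance in the hexagon -/
def d6 (u v : Fin 6) : ℕ := min (u - v).val (v - u).val

/-- additivity for the hexagon -/
def AddL {k : ℕ} (x : Fin (k + 2) → Fin 6) (i : Fin k) : Prop :=
  d6 (x i.castSucc.castSucc) (x i.succ.succ) =
    d6 (x i.castSucc.castSucc) (x i.castSucc.succ) + d6 (x i.castSucc.succ) (x i.succ.succ)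

instance {k : ℕ} (x : Fin (k + 2) → Fin 6) (i : Fin k) : Decidable (AddL x i) := by
  unfold AddL; infer_instance

/-- the support of the local cocycle -/
def tst (y : Fin 6 → Fin 6) : Prop :=
  y 0 = 0 ∧ (y 1 = 1 ∨ y 1 = 2) ∧ y 2 = 3 ∧ (y 3 = 1 ∨ y 3 = 2) ∧ y 4 = 0 ∧ y 5 = 1

instance (y : Fin 6 → Fin 6) : Decidable (tst y) := by
  unfold tst; infer_instance

/-- the tuples in the support of the local cocycle -/
def TT (a c : Bool) : Fin 6 → Fin 6 := ![0, bif a then 1 else 2, 3, bif c then 1 else 2, 0, 1]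

theorem tst_iff (y : Fin 6 → Fin 6) : tst y ↔ ∃ a c, y = TT a c := by
  constructor
  · rintro ⟨h0, h1, h2, h3, h4, h5⟩
    refine ⟨decide (y 1 = 1), decide (y 3 = 1), ?_⟩
    funext i
    fin_cases i
    · exact h0
    · rcases h1 with h | h <;> simp [TT, h]
    · exact h2
    · rcases h3 with h | h <;> simp [TT, h]
    · exact h4
    · exact h5
  · rintro ⟨a, c, rfl⟩
    cases a <;> cases c <;> decide

/-- the local cocycle condition -/
theorem local_cocycle : ∀ (a c : Bool) (j : Fin 5) (w : Fin 6),
    let x : Fin 7 → Fin 6 := Fin.insertNth j.castSucc.succ w (TT a c)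
    x j.castSucc.castSucc ≠ x j.castSucc.succ → x j.castSucc.succ ≠ x j.succ.succ → AddL x j →
    ∑ j' : Fin 5, (if AddL x j' then (-1 : ℤ) ^ (j'.1 + 1) * (if tst (face x j') then 1 else 0)
      else 0) = 0 := by
  decide +kernel

/-- the terms of the local cycle -/
def zt : Fin 8 → Fin 6 → Fin 6 :=
  ![![0, 1, 3, 1, 0, 1], ![0, 5, 3, 1, 0, 1], ![0, 1, 3, 4, 0, 1], ![0, 5, 3, 4, 0, 1],
    ![0, 1, 0, 4, 0, 1], ![0, 1, 3, 4, 2, 1], ![0, 5, 3, 4, 2, 1], ![0, 1, 0, 4, 2, 1]]

/-- the coefficients of the local cycle -/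
def zc : Fin 8 → ℤ := ![1, -1, -1, 1, 1, 1, -1, -1]

/-- the coefficient of a face -/
def fc (p : Fin 8 × Fin 4) : ℤ :=
  if AddL (zt p.1) p.2 then zc p.1 * (-1 : ℤ) ^ (p.2.1 + 1) else 0

theorem local_cycle : ∀ p : Fin 8 × Fin 4,
    ∑ q : Fin 8 × Fin 4, (if face (zt q.1) q.2 = face (zt p.1) p.2 then fc q else 0) = 0 := by
  decide +kernel

theorem zt_len : ∀ n : Fin 8, (∀ i : Fin 5, zt n i.castSucc ≠ zt n i.succ) ∧
    ∑ i : Fin 5, d6 (zt n i.castSucc) (zt n i.succ) = 7 := by
  decide +kernel

theorem zt_ends : ∀ n : Fin 8, zt n 0 = 0 ∧ zt n 5 = 1 := by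
  decide +kernel

theorem zt_pair : ∑ n : Fin 8, zc n * (if tst (zt n) then 1 else 0) = 1 := by
  decide +kernel

theorem sum_fiber {α β M : Type} [Fintype α] [DecidableEq β] [AddCommGroup M] (c : α → ℤ)
    (f : α → β) (F : β → M)
    (h : ∀ a, ∑ b, (if f b = f a then c b else 0) = 0) : ∑ a, c a • F (f a) = 0 := by
  classical
  have h1 : ∑ a, c a • F (f a) =
      ∑ y ∈ Finset.univ.image f, ∑ a with f a = y, c a • F (f a) := by
    rw [Finset.sum_fiberwise_of_maps_to (fun a _ => Finset.mem_image_of_mem f (Finset.mem_univ a))]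
  rw [h1]
  apply Finset.sum_eq_zero
  intro y hy
  obtain ⟨a, -, rfl⟩ := Finset.mem_image.1 hy
  have h2 : ∑ b with f b = f a, c b • F (f b) = ∑ b with f b = f a, c b • F (f a) := by
    apply Finset.sum_congr rfl
    intro b hb
    rw [(Finset.mem_filter.1 hb).2]
  rw [h2, ← Finset.sum_smul, Finset.sum_filter, h a, zero_smul]

section

variable {V : Type} (G : SimpleGraph V)

open Classical in
theorem del_single {k : ℕ} (x : Fin (k + 2) → V) :
    del G k (Finsupp.single x 1) = ∑ i : Fin k,
      if Additive G x i then (-1 : ℤ) ^ (i.1 + 1) • Finsupp.single (face x i) (1 : ℤ) else 0 := by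
  unfold del
  rw [Finsupp.linearCombination_single, one_smul]

/-- an isometric and convex family of hexagons -/
structure Hexagons (ι : Type) where
  e : ι → Fin 6 → V
  iso : ∀ i u v, G.dist (e i u) (e i v) = d6 u v
  conv : ∀ i u v y, G.dist (e i u) (e i v) = G.dist (e i u) y + G.dist y (e i v) →
    ∃ w, y = e i w
  inj : ∀ i j, e i 0 = e j 0 → e i 1 = e j 1 → i = j

variable {G} {ι : Type} (H : Hexagons G ι)

include H in
theorem Hexagons.injective (i : ι) : Function.Injective (H.e i) := by
  intro u v h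
  have h1 : G.dist (H.e i u) (H.e i v) = 0 := by rw [h, SimpleGraph.dist_self]
  rw [H.iso] at h1
  revert h1
  revert u v
  have : ∀ u v : Fin 6, d6 u v = 0 → u = v := by decide
  intro u v _ h
  exact this u v h

theorem Hexagons.additive_iff (i : ι) {k : ℕ} (x : Fin (k + 2) → Fin 6) (j : Fin k) :
    Additive G (H.e i ∘ x) j ↔ AddL x j := by
  unfold Additive AddL
  simp only [Function.comp_apply, H.iso]

theorem Hexagons.del_single (i : ι) {k : ℕ} (x : Fin (k + 2) → Fin 6) :
    del G k (Finsupp.single (H.e i ∘ x) 1) = ∑ j : Fin k,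
      (if AddL x j then (-1 : ℤ) ^ (j.1 + 1) else 0) •
        Finsupp.single (H.e i ∘ face x j) (1 : ℤ) := by
  rw [MagHom.del_single]
  apply Finset.sum_congr rfl
  intro j _
  by_cases h : AddL x j
  · rw [if_pos ((H.additive_iff i x j).2 h), if_pos h]
    rfl
  · rw [if_neg (fun h' => h ((H.additive_iff i x j).1 h')), if_neg h, zero_smul]

/-- the cycle of a hexagon -/
noncomputable def Hexagons.z (i : ι) : (Fin 6 → V) →₀ ℤ :=
  ∑ n : Fin 8, zc n • Finsupp.single (H.e i ∘ zt n) (1 : ℤ)

theorem Hexagons.z_mem (i : ι) : H.z i ∈ cycles G 5 7 := by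
  constructor
  · apply Submodule.sum_mem
    intro n _
    apply Submodule.smul_mem
    apply Finsupp.single_mem_supported
    constructor
    · intro j h
      exact (zt_len n).1 j (H.injective i h)
    · simp only [Function.comp_apply, H.iso]
      exact (zt_len n).2
  · show H.z i ∈ LinearMap.ker (del G 4)
    rw [LinearMap.mem_ker]
    unfold Hexagons.z
    rw [map_sum]
    have h1 : ∀ n : Fin 8, del G 4 (zc n • Finsupp.single (H.e i ∘ zt n) (1 : ℤ)) =
        ∑ j : Fin 4, fc (n, j) • Finsupp.single (H.e i ∘ face (zt n) j) (1 : ℤ) := by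
      intro n
      rw [map_smul, H.del_single, Finset.smul_sum]
      apply Finset.sum_congr rfl
      intro j _
      rw [smul_smul]
      congr 1
      unfold fc
      by_cases h : AddL (zt n) j
      · simp [h]
      · simp [h]
    simp only [h1]
    rw [← Fintype.sum_prod_type' (f := fun n j => fc (n, j) •
      Finsupp.single (H.e i ∘ face (zt n) j) (1 : ℤ))]
    exact sum_fiber fc (fun p : Fin 8 × Fin 4 => face (zt p.1) p.2)
      (fun y => Finsupp.single (H.e i ∘ y) (1 : ℤ)) local_cycle

open Classical in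
/-- the cocycle of a hexagon -/
noncomputable def Hexagons.psi (i : ι) : ((Fin 6 → V) →₀ ℤ) →ₗ[ℤ] ℤ :=
  Finsupp.linearCombination ℤ fun x => if ∃ y, tst y ∧ x = H.e i ∘ y then (1 : ℤ) else 0

open Classical in
theorem Hexagons.psi_single (i : ι) (x : Fin 6 → V) :
    H.psi i (Finsupp.single x 1) = if ∃ y, tst y ∧ x = H.e i ∘ y then (1 : ℤ) else 0 := by
  unfold Hexagons.psi
  rw [Finsupp.linearCombination_single, one_smul]

theorem Hexagons.psi_comp (i : ι) (y : Fin 6 → Fin 6) :
    H.psi i (Finsupp.single (H.e i ∘ y) 1) = if tst y then 1 else 0 := by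
  rw [H.psi_single]
  have : (∃ y', tst y' ∧ H.e i ∘ y = H.e i ∘ y') ↔ tst y := by
    constructor
    · rintro ⟨y', h1, h2⟩
      have : y = y' := by
        funext j
        exact H.injective i (congrFun h2 j)
      rw [this]; exact h1
    · intro h
      exact ⟨y, h, rfl⟩
  by_cases h : tst y
  · rw [if_pos (this.2 h), if_pos h]
  · rw [if_neg (fun h' => h (this.1 h')), if_neg h]

theorem Hexagons.psi_z (i j : ι) : H.psi j (H.z i) = open Classical in if i = j then 1 else 0 := by
  classical
  unfold Hexagons.z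
  rw [map_sum]
  by_cases hij : i = j
  · subst hij
    rw [if_pos rfl]
    simp only [map_smul, H.psi_comp, smul_eq_mul]
    exact zt_pair
  · rw [if_neg hij]
    apply Finset.sum_eq_zero
    intro n _
    rw [map_smul, H.psi_single, if_neg, smul_zero]
    rintro ⟨y, hy, hxy⟩
    apply hij
    apply H.inj
    · have := congrFun hxy 0
      simp only [Function.comp_apply] at this
      rwa [(zt_ends n).1, hy.1] at this
    · have := congrFun hxy 5
      simp only [Function.comp_apply] at this
      rwa [(zt_ends n).2, hy.2.2.2.2.2] at this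

theorem Hexagons.psi_del (i : ι) {x : Fin 7 → V} (hx : IsGen G 6 7 x) :
    H.psi i (del G 5 (Finsupp.single x 1)) = 0 := by
  classical
  rw [MagHom.del_single, map_sum]
  by_contra hne
  obtain ⟨j, -, hj⟩ := Finset.exists_ne_zero_of_sum_ne_zero hne
  have hadd : Additive G x j := by
    by_contra h
    rw [if_neg h, map_zero] at hj
    exact hj rfl
  rw [if_pos hadd, map_smul, H.psi_single] at hj
  have hex : ∃ y, tst y ∧ face x j = H.e i ∘ y := by
    by_contra h
    rw [if_neg h, smul_zero] at hj
    exact hj rfl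
  obtain ⟨y, hy, hxy⟩ := hex
  obtain ⟨a, c, rfl⟩ := (tst_iff y).1 hy
  -- the inserted vertex lies in the hexagon
  have hw : ∃ w, x j.castSucc.succ = H.e i w := by
    have h0 : x j.castSucc.castSucc = H.e i (TT a c j.castSucc) := by
      have := congrFun hxy j.castSucc
      simp only [face, Function.comp_apply] at this
      rw [← this]
      congr 1
      rw [Fin.succAbove_of_castSucc_lt]
      simp [Fin.lt_def]
    have h1 : x j.succ.succ = H.e i (TT a c j.succ) := by
      have := congrFun hxy j.succ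
      simp only [face, Function.comp_apply] at this
      rw [← this]
      congr 1
      rw [Fin.succAbove_of_le_castSucc]
      simp
    have h2 := hadd
    unfold Additive at h2
    rw [h0, h1] at h2
    exact H.conv _ _ _ _ h2
  obtain ⟨w, hw⟩ := hw
  have hx' : x = H.e i ∘ Fin.insertNth j.castSucc.succ w (TT a c) := by
    have e1 : x = Fin.insertNth (α := fun _ => V) j.castSucc.succ (x j.castSucc.succ)
        (fun k => x (j.castSucc.succ.succAbove k)) := by
      rw [Fin.eq_insertNth_iff]
      exact ⟨rfl, rfl⟩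
    rw [e1, hw]
    have e2 : (fun k => x (j.castSucc.succ.succAbove k)) = H.e i ∘ TT a c := hxy
    rw [e2]
    symm
    rw [Fin.eq_insertNth_iff]
    constructor
    · simp only [Function.comp_apply, Fin.insertNth_apply_same]
    · funext k
      simp only [Function.comp_apply, Fin.removeNth_apply, Fin.insertNth_apply_succAbove]
  set x' : Fin 7 → Fin 6 := Fin.insertNth j.castSucc.succ w (TT a c) with hx'def
  apply hne
  have hloc := local_cocycle a c j w
  simp only at hloc
  rw [← hx'def] at hloc
  have hne1 : x' j.castSucc.castSucc ≠ x' j.castSucc.succ := by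
    intro h
    apply hx.1 j.castSucc
    rw [hx']
    simp only [Function.comp_apply]
    rw [show (j.castSucc.castSucc : Fin 7) = (j.castSucc : Fin 6).castSucc from rfl] at h
    rw [h]
  have hne2 : x' j.castSucc.succ ≠ x' j.succ.succ := by
    intro h
    apply hx.1 j.succ
    rw [hx']
    simp only [Function.comp_apply]
    have : (j.succ.castSucc : Fin 7) = j.castSucc.succ := rfl
    rw [this, h]
  have hadd' : AddL x' j := by
    rw [hx'] at hadd
    exact (H.additive_iff i x' j).1 hadd
  rw [← hloc hne1 hne2 hadd']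
  apply Finset.sum_congr rfl
  intro j' _
  rw [hx']
  by_cases h : AddL x' j'
  · rw [if_pos ((H.additive_iff i x' j').2 h), if_pos h, map_smul]
    have : face (H.e i ∘ x') j' = H.e i ∘ face x' j' := rfl
    rw [this, H.psi_comp, smul_eq_mul]
  · rw [if_neg (fun h' => h ((H.additive_iff i x' j').1 h')), if_neg h, map_zero]

theorem Hexagons.psi_boundary (i : ι) {b : (Fin 6 → V) →₀ ℤ} (hb : b ∈ boundaries G 5 7) :
    H.psi i b = 0 := by
  obtain ⟨c, hc, rfl⟩ := hb
  have h : MC G 6 7 ≤ LinearMap.ker ((H.psi i).comp (del G 5)) := by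
    unfold MC
    rw [Finsupp.supported_eq_span_single, Submodule.span_le]
    rintro _ ⟨y, hy, rfl⟩
    exact H.psi_del i hy
  exact h hc

theorem finite_MH [Finite V] (k l : ℕ) : Module.Finite ℤ (MH G k l) := by
  have : IsNoetherian ℤ ((Fin (k + 1) → V) →₀ ℤ) := isNoetherian_of_isNoetherianRing_of_finite ℤ _
  have : Module.Finite ℤ (cycles G k l) := Module.Finite.of_fg (IsNoetherian.noetherian _)
  exact Module.Finite.quotient _ _

include H in
theorem Hexagons.card_le [Finite V] [Fintype ι] : Fintype.card ι ≤ betti G 5 7 := by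
  classical
  have := finite_MH (G := G) 5 7
  let z : ι → MH G 5 7 := fun i => Submodule.Quotient.mk ⟨H.z i, H.z_mem i⟩
  have hz : LinearIndependent ℤ z := by
    rw [Fintype.linearIndependent_iff]
    intro g hg j
    have h1 : Submodule.Quotient.mk (p := (boundaries G 5 7).submoduleOf (cycles G 5 7))
        (∑ i, g i • (⟨H.z i, H.z_mem i⟩ : cycles G 5 7)) = 0 := by
      rw [← hg, ← Submodule.mkQ_apply, map_sum]
      rfl
    rw [Submodule.Quotient.mk_eq_zero] at h1
    have h2 : ((∑ i, g i • (⟨H.z i, H.z_mem i⟩ : cycles G 5 7) : cycles G 5 7) :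
        (Fin 6 → V) →₀ ℤ) ∈ boundaries G 5 7 := h1
    have h3 := H.psi_boundary j h2
    rw [Submodule.coe_sum, map_sum] at h3
    simp only [Submodule.coe_smul, map_smul, H.psi_z, smul_eq_mul, mul_ite, mul_one, mul_zero,
      Finset.sum_ite_eq', Finset.mem_univ, if_true] at h3
    exact h3
  exact hz.fintype_card_le_finrank

theorem betti_zero_le [Fintype V] : betti G 0 0 ≤ Fintype.card V := by
  have h1 : Module.Finite ℤ (cycles G 0 0) := by
    have : IsNoetherian ℤ ((Fin 1 → V) →₀ ℤ) := isNoetherian_of_isNoetherianRing_of_finite ℤ _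
    exact Module.Finite.of_fg (IsNoetherian.noetherian _)
  unfold betti
  calc Module.finrank ℤ (MH G 0 0) ≤ Module.finrank ℤ (cycles G 0 0) :=
        Submodule.finrank_quotient_le _
    _ ≤ Module.finrank ℤ ((Fin 1 → V) →₀ ℤ) := Submodule.finrank_le _
    _ = Fintype.card (Fin 1 → V) := Module.finrank_finsupp_self ℤ
    _ = Fintype.card V := by simp

end

end Q138.MagHom
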