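import Pool.Agent.Q138.TopeMag

set_option autoImplicit false

/-!
# Magnitude homology of graphs, indecomposable arrangements
-/

namespace Q138.MagHom

variable {V : Type} (G : SimpleGraph V)

/-- The generators of `MC_{k,ℓ}(G)`: tuples `(x_0, …, x_k)` of vertices with `x_i ≠ x_{i+1}` for
all `i` and `∑ d(x_i, x_{i+1}) = ℓ`, for the shortest-path metric `d = G.dist`. -/
def IsGen (k l : ℕ) (x : Fin (k + 1) → V) : Prop :=
  (∀ i : Fin k, x i.castSucc ≠ x i.succ) ∧ ∑ i : Fin k, G.dist (x i.castSucc) (x i.succ) = l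

/-- The magnitude chain group `MC_{k,ℓ}(G)`, free on the generators; it is realised inside the
free abelian group on all `(k+1)`-tuples. -/
def MC (k l : ℕ) : Submodule ℤ ((Fin (k + 1) → V) →₀ ℤ) :=
  Finsupp.supported ℤ ℤ {x | IsGen G k l x}

/-- Deleting the interior point number `i + 1` does not change the length of the tuple `x`:
`d(x_i, x_{i+2}) = d(x_i, x_{i+1}) + d(x_{i+1}, x_{i+2})`. -/
def Additive {k : ℕ} (x : Fin (k + 2) → V) (i : Fin k) : Prop :=
  G.dist (x i.castSucc.castSucc) (x i.succ.succ) =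
    G.dist (x i.castSucc.castSucc) (x i.castSucc.succ) +
      G.dist (x i.castSucc.succ) (x i.succ.succ)

/-- The tuple `x` without its interior point number `i + 1`. -/
def face {W : Type} {k : ℕ} (x : Fin (k + 2) → W) (i : Fin k) : Fin (k + 1) → W :=
  fun j => x (i.castSucc.succ.succAbove j)

open Classical in
/-- The differential `∂ : MC_{k+1,ℓ}(G) → MC_{k,ℓ}(G)`: the alternating sum, with signs
`(-1)^{i+1}`, over the interior points whose deletion does not change the length. -/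
noncomputable def del (k : ℕ) : ((Fin (k + 2) → V) →₀ ℤ) →ₗ[ℤ] ((Fin (k + 1) → V) →₀ ℤ) :=
  Finsupp.linearCombination ℤ fun x => ∑ i : Fin k,
    if Additive G x i then (-1 : ℤ) ^ (i.1 + 1) • Finsupp.single (face x i) (1 : ℤ) else 0

/-- The cycles in `MC_{k,ℓ}(G)`. -/
noncomputable def cycles : (k l : ℕ) → Submodule ℤ ((Fin (k + 1) → V) →₀ ℤ)
  | 0, l => MC G 0 l
  | k + 1, l => MC G (k + 1) l ⊓ LinearMap.ker (del G k)

/-- The boundaries in `MC_{k,ℓ}(G)`. -/
noncomputable def boundaries (k l : ℕ) : Submodule ℤ ((Fin (k + 1) → V) →₀ ℤ) :=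
  (MC G (k + 1) l).map (del G k)

/-- The magnitude homology group `MH_{k,ℓ}(G)`: cycles modulo boundaries. -/
abbrev MH (k l : ℕ) : Type := cycles G k l ⧸ (boundaries G k l).submoduleOf (cycles G k l)

/-- The magnitude Betti number `β_{k,ℓ}(G)`, the rank of `MH_{k,ℓ}(G)`. -/
noncomputable def betti (k l : ℕ) : ℕ := Module.finrank ℤ (MH G k l)

open Q138.TopeMag in
/-- The arrangement `A` in `ℝ^d` is a direct sum of two nonempty arrangements: for some
decomposition `ℝ^d = V₁ ⊕ V₂` every hyperplane is either of the form `H₁ ⊕ V₂`, i.e. contains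
`V₂`, or of the form `V₁ ⊕ H₂`, i.e. contains `V₁`, and both kinds occur. -/
def Decomposable {d : ℕ} (A : Arrangement d) : Prop :=
  ∃ V₁ V₂ : Submodule ℝ (Fin d → ℝ), IsCompl V₁ V₂ ∧
    (∀ i, V₂ ≤ LinearMap.ker (A.form i) ∨ V₁ ≤ LinearMap.ker (A.form i)) ∧
    (∃ i, V₂ ≤ LinearMap.ker (A.form i)) ∧ (∃ i, V₁ ≤ LinearMap.ker (A.form i))

end Q138.MagHom
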