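import Pool.Agent.Q138.TopeMag

set_option autoImplicit false

/-!
The shortest-path distance in the tope graph of an arrangement is the number of separating
hyperplanes.
-/

namespace Q138.TopeMag.Arrangement

variable {d : ℕ} (A : Arrangement d)

open Filter Topology

/-- moving a point of a chamber slightly makes all crossing parameters different -/
theorem exists_generic {z y : Fin d → ℝ} (hz : z ∈ A.complement) (hy : y ∈ A.complement) :
    ∃ z' : Fin d → ℝ, (∀ i, 0 < A.form i z * A.form i z') ∧
      ∀ i j, i ≠ j → A.form j y * A.form i z' - A.form i y * A.form j z' ≠ 0 := by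
  classical
  have h : ∀ p : {p : A.ι × A.ι // p.1 ≠ p.2}, ∃ x,
      ((A.form p.1.2 y) • A.form p.1.1 - (A.form p.1.1 y) • A.form p.1.2) x ≠ 0 := by
    rintro ⟨⟨i, j⟩, hij⟩
    by_contra hcon
    push Not at hcon
    apply hij
    apply A.ker_injective
    show LinearMap.ker (A.form i) = LinearMap.ker (A.form j)
    ext x
    have hx := hcon x
    simp only [LinearMap.sub_apply, LinearMap.smul_apply, smul_eq_mul] at hx
    simp only [LinearMap.mem_ker]
    constructor
    · intro h0
      rw [h0, mul_zero, zero_sub, neg_eq_zero] at hx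
      exact (mul_eq_zero.1 hx).resolve_left (hy i)
    · intro h0
      rw [h0, mul_zero, sub_zero] at hx
      exact (mul_eq_zero.1 hx).resolve_left (hy j)
  obtain ⟨v, hv⟩ := Module.Dual.exists_forall_ne_zero_of_forall_exists _ h
  have h1 : ∀ᶠ ε : ℝ in 𝓝[≠] 0, ∀ i, 0 < A.form i z * A.form i (z + ε • v) := by
    rw [eventually_all]
    intro i
    apply eventually_nhdsWithin_of_eventually_nhds
    have hc : Continuous fun ε : ℝ => A.form i z * A.form i (z + ε • v) := by
      simp only [map_add, map_smul, smul_eq_mul]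
      fun_prop
    have h0 : 0 < A.form i z * A.form i (z + (0 : ℝ) • v) := by
      rw [zero_smul, add_zero]; exact mul_self_pos.2 (hz i)
    exact hc.continuousAt.eventually (lt_mem_nhds h0)
  have h2 : ∀ᶠ ε : ℝ in 𝓝[≠] 0, ∀ p : {p : A.ι × A.ι // p.1 ≠ p.2},
      ((A.form p.1.2 y) • A.form p.1.1 - (A.form p.1.1 y) • A.form p.1.2) (z + ε • v) ≠ 0 := by
    rw [eventually_all]
    intro p
    have hvp := hv p
    set g := ((A.form p.1.2 y) • A.form p.1.1 - (A.form p.1.1 y) • A.form p.1.2)
    by_cases hg : g z = 0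
    · filter_upwards [self_mem_nhdsWithin] with ε hε
      rw [map_add, hg, zero_add, map_smul, smul_eq_mul]
      exact mul_ne_zero hε hvp
    · apply eventually_nhdsWithin_of_eventually_nhds
      have hc : Continuous fun ε : ℝ => g (z + ε • v) := by
        simp only [map_add, map_smul, smul_eq_mul]
        fun_prop
      have h0 : g (z + (0 : ℝ) • v) ≠ 0 := by
        rw [zero_smul, add_zero]; exact hg
      exact hc.continuousAt.eventually_ne h0
  obtain ⟨ε, hε1, hε2⟩ := (h1.and h2).exists
  refine ⟨z + ε • v, hε1, fun i j hij => ?_⟩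
  have := hε2 ⟨(i, j), hij⟩
  simpa only [LinearMap.sub_apply, LinearMap.smul_apply, smul_eq_mul] using this

theorem mem_of_sign {C : A.Chamber} {z z' : Fin d → ℝ} (hz : z ∈ C.1)
    (h : ∀ i, 0 < A.form i z * A.form i z') : z' ∈ C.1 := by
  obtain ⟨x, hx, hC⟩ := C.2
  rw [hC, A.component_eq hx] at hz ⊢
  intro i
  have h1 := hz i
  have h2 := h i
  have h3 : A.form i z ≠ 0 := fun h0 => by rw [h0, mul_zero] at h1; exact lt_irrefl _ h1
  have h4 : 0 < A.form i z * A.form i z := mul_self_pos.2 h3
  have h5 : 0 < (A.form i x * A.form i z') * (A.form i z * A.form i z) := by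
    have := mul_pos h1 h2
    calc (0 : ℝ) < (A.form i x * A.form i z) * (A.form i z * A.form i z') := this
      _ = (A.form i x * A.form i z') * (A.form i z * A.form i z) := by ring
  exact (pos_iff_pos_of_mul_pos h5).2 h4

/-- from `C` one can step towards `D` -/
theorem exists_step {C D : A.Chamber} (hCD : C ≠ D) :
    ∃ C' : A.Chamber, A.sep C C' = 1 ∧ A.sep C' D + 1 = A.sep C D := by
  classical
  obtain ⟨z₀, hz₀, hz₀C⟩ := A.chamber_nonempty C
  obtain ⟨y, hy, hyD⟩ := A.chamber_nonempty D
  obtain ⟨z, hz, hgen⟩ := A.exists_generic hz₀ hy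
  have hzC : z ∈ C.1 := A.mem_of_sign hz₀C hz
  have sC := A.toSign_spec C hzC
  have sD := A.toSign_spec D hyD
  set S : Finset A.ι := Finset.univ.filter fun i => A.toSign C i ≠ A.toSign D i with hS
  have hSne : S.Nonempty := by
    rw [Finset.nonempty_iff_ne_empty]
    intro h
    apply hCD
    apply A.toSign_injective
    funext i
    by_contra hi
    have : i ∈ S := by simp [hS, hi]
    rw [h] at this
    simp at this
  set r : A.ι → ℝ := fun i => -(A.form i z) / A.form i y with hr
  obtain ⟨i₀, hi₀, hmin⟩ := S.exists_min_image r hSne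
  have hyne : ∀ i, A.form i y ≠ 0 := hy
  have hlt : ∀ j ∈ S.erase i₀, r i₀ < r j := by
    intro j hj
    obtain ⟨hj1, hj2⟩ := Finset.mem_erase.1 hj
    refine lt_of_le_of_ne (hmin j hj2) fun heq => ?_
    have := hgen i₀ j (Ne.symm hj1)
    apply this
    simp only [hr] at heq
    rw [div_eq_div_iff (hyne i₀) (hyne j)] at heq
    linarith
  have hs : ∃ s : ℝ, r i₀ < s ∧ ∀ j ∈ S.erase i₀, s < r j := by
    by_cases he : (S.erase i₀).Nonempty
    · obtain ⟨j₁, hj₁, hmin₁⟩ := (S.erase i₀).exists_min_image r he
      have := hlt j₁ hj₁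
      refine ⟨(r i₀ + r j₁) / 2, by linarith, fun j hj => ?_⟩
      have := hmin₁ j hj
      linarith
    · rw [Finset.not_nonempty_iff_eq_empty] at he
      refine ⟨r i₀ + 1, by linarith, fun j hj => ?_⟩
      rw [he] at hj
      simp at hj
  obtain ⟨s, hs0, hs1⟩ := hs
  have hSsign : ∀ i ∈ S, (A.toSign C i = true ∧ 0 < A.form i z ∧ A.toSign D i = false ∧
      A.form i y < 0) ∨ (A.toSign C i = false ∧ A.form i z < 0 ∧ A.toSign D i = true ∧
      0 < A.form i y) := by
    intro i hi
    have hi' : A.toSign C i ≠ A.toSign D i := by simpa [hS] using hi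
    rcases sC i with ⟨a, b⟩ | ⟨a, b⟩ <;> rcases sD i with ⟨a', b'⟩ | ⟨a', b'⟩
    · rw [a, a'] at hi'; exact absurd rfl hi'
    · exact Or.inl ⟨a, b, a', b'⟩
    · exact Or.inr ⟨a, b, a', b'⟩
    · rw [a, a'] at hi'; exact absurd rfl hi'
  have hrpos : 0 < r i₀ := by
    simp only [hr]
    rcases hSsign i₀ hi₀ with ⟨_, b, _, b'⟩ | ⟨_, b, _, b'⟩
    · exact div_pos_of_neg_of_neg (by linarith) b'
    · exact div_pos (by linarith) b'
  have hspos : 0 < s := lt_trans hrpos hs0
  let σ : A.ι → Bool := fun i => if i = i₀ then A.toSign D i else A.toSign C i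
  have hreal : A.Realizable σ := by
    refine ⟨z + s • y, fun i => ?_⟩
    rw [map_add, map_smul, smul_eq_mul]
    by_cases hi : i = i₀
    · subst hi
      have e : σ i = A.toSign D i := if_pos rfl
      rw [e]
      rcases hSsign i hi₀ with ⟨a, b, a', b'⟩ | ⟨a, b, a', b'⟩
      · right
        refine ⟨a', ?_⟩
        simp only [hr] at hs0
        rw [div_lt_iff_of_neg b'] at hs0
        linarith
      · left
        refine ⟨a', ?_⟩
        simp only [hr] at hs0
        rw [div_lt_iff₀ b'] at hs0
        linarith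
    · have e : σ i = A.toSign C i := if_neg hi
      rw [e]
      by_cases hiS : i ∈ S
      · have hlt' := hs1 i (Finset.mem_erase.2 ⟨hi, hiS⟩)
        rcases hSsign i hiS with ⟨a, b, a', b'⟩ | ⟨a, b, a', b'⟩
        · left
          refine ⟨a, ?_⟩
          simp only [hr] at hlt'
          rw [lt_div_iff_of_neg b'] at hlt'
          linarith
        · right
          refine ⟨a, ?_⟩
          simp only [hr] at hlt'
          rw [lt_div_iff₀ b'] at hlt'
          linarith
      · have hi' : A.toSign C i = A.toSign D i := by simpa [hS] using hiS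
        rcases sC i with ⟨a, b⟩ | ⟨a, b⟩ <;> rcases sD i with ⟨a', b'⟩ | ⟨a', b'⟩
        · exact Or.inl ⟨a, by positivity⟩
        · rw [a, a'] at hi'; exact absurd hi' (by decide)
        · rw [a, a'] at hi'; exact absurd hi' (by decide)
        · exact Or.inr ⟨a, by nlinarith⟩
  obtain ⟨C', hC'⟩ := A.exists_chamber hreal
  refine ⟨C', ?_, ?_⟩
  · rw [A.sep_eq, Finset.card_eq_one]
    refine ⟨i₀, ?_⟩
    ext i
    simp only [Finset.mem_filter, Finset.mem_univ, true_and, Finset.mem_singleton, hC']
    by_cases hi : i = i₀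
    · subst hi
      have hiS : A.toSign C i ≠ A.toSign D i := by simpa [hS] using hi₀
      simp [σ, hiS]
    · simp [σ, hi]
  · rw [A.sep_eq, A.sep_eq]
    have : (Finset.univ.filter fun i => A.toSign C' i ≠ A.toSign D i) = S.erase i₀ := by
      ext i
      rw [Finset.mem_erase, hC']
      simp only [Finset.mem_filter, Finset.mem_univ, true_and, hS]
      by_cases hi : i = i₀
      · subst hi; simp [σ]
      · simp [σ, hi]
    rw [this, Finset.card_erase_of_mem hi₀]
    have : 0 < S.card := Finset.card_pos.2 hSne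
    show S.card - 1 + 1 = S.card
    omega

theorem sep_triangle (C D E : A.Chamber) : A.sep C E ≤ A.sep C D + A.sep D E := by
  classical
  rw [A.sep_eq, A.sep_eq, A.sep_eq]
  refine le_trans (Finset.card_le_card ?_) (Finset.card_union_le _ _)
  intro i hi
  rw [Finset.mem_union]
  simp only [Finset.mem_filter, Finset.mem_univ, true_and] at hi ⊢
  by_contra hcon
  push Not at hcon
  exact hi (hcon.1.trans hcon.2)

theorem exists_walk : ∀ (n : ℕ) (C D : A.Chamber), A.sep C D = n →
    ∃ w : A.topeGraph.Walk C D, w.length = n := by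
  intro n
  induction n with
  | zero =>
    intro C D h
    have := A.eq_of_sep h
    subst this
    exact ⟨SimpleGraph.Walk.nil, rfl⟩
  | succ n ih =>
    intro C D h
    have hne : C ≠ D := by
      rintro rfl
      rw [A.sep_self] at h
      omega
    obtain ⟨C', h1, h2⟩ := A.exists_step hne
    obtain ⟨w, hw⟩ := ih C' D (by omega)
    have hadj : A.topeGraph.Adj C C' := h1
    exact ⟨SimpleGraph.Walk.cons hadj w, by rw [SimpleGraph.Walk.length_cons, hw]⟩

theorem sep_le_length {C D : A.Chamber} (w : A.topeGraph.Walk C D) : A.sep C D ≤ w.length := by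
  induction w with
  | nil => rw [A.sep_self]; exact Nat.zero_le _
  | cons h w ih =>
    rw [SimpleGraph.Walk.length_cons]
    rename_i u v w'
    have h1 : A.sep u v = 1 := h
    have := A.sep_triangle u v w'
    omega

theorem dist_eq_sep (C D : A.Chamber) : A.topeGraph.dist C D = A.sep C D := by
  obtain ⟨w, hw⟩ := A.exists_walk _ C D rfl
  apply le_antisymm
  · rw [← hw]; exact SimpleGraph.dist_le w
  · obtain ⟨w', hw'⟩ := SimpleGraph.Reachable.exists_walk_length_eq_dist ⟨w⟩
    rw [← hw']
    exact A.sep_le_length w'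

end Q138.TopeMag.Arrangement
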