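import Pool.Agent.Q138.MagHomCore
import Pool.Agent.Q138.MagHomDist

set_option autoImplicit false

/-!
The arrangement of the seven hyperplanes `x₀, x₁, x₂, x₃, x₄, x₀ + x₁, x₀ + x₂ + x₃ + x₄` in `ℝ⁵`.
-/

namespace Q138.MagHom

open Q138.TopeMag

/-- coefficients of the seven forms -/
def NN : Fin 7 → Fin 5 → ℤ :=
  ![![1, 0, 0, 0, 0], ![0, 1, 0, 0, 0], ![0, 0, 1, 0, 0], ![0, 0, 0, 1, 0], ![0, 0, 0, 0, 1],
    ![1, 1, 0, 0, 0], ![1, 0, 1, 1, 1]]

/-- the linear forms -/
noncomputable def frm (i : Fin 7) : Module.Dual ℝ (Fin 5 → ℝ) :=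
  ∑ l : Fin 5, (NN i l : ℝ) • LinearMap.proj l

theorem frm_apply (i : Fin 7) (x : Fin 5 → ℝ) : frm i x = ∑ l, (NN i l : ℝ) * x l := by
  simp [frm]

theorem NN_test : ∀ i j : Fin 7, i ≠ j → ∃ w : Fin 5 → Fin 3,
    (∑ k, NN i k * (((w k : ℕ) : ℤ) - 1) = 0 ∧ ∑ k, NN j k * (((w k : ℕ) : ℤ) - 1) ≠ 0) := by
  decide +kernel

theorem NN_pos : ∀ i : Fin 7, ∑ k, NN i k * (1 : ℤ) ≠ 0 := by decide +kernel

/-- the arrangement -/
noncomputable def arr : Arrangement 5 where
  ι := Fin 7
  form := frm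
  form_ne_zero := by
    intro i h
    have h1 := congrArg (fun f => f (fun _ => 1)) h
    simp only [frm_apply, LinearMap.zero_apply] at h1
    apply NN_pos i
    exact_mod_cast h1
  ker_injective := by
    intro i j h
    by_contra hne
    obtain ⟨w, h1, h2⟩ := NN_test i j hne
    have h' : LinearMap.ker (frm i) = LinearMap.ker (frm j) := h
    have e : ∀ i : Fin 7, frm i (fun k => (((w k : ℕ) : ℝ) - 1)) =
        ((∑ k, NN i k * (((w k : ℕ) : ℤ) - 1) : ℤ) : ℝ) := by
      intro i
      rw [frm_apply]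
      push_cast
      rfl
    have h3 : (fun k => (((w k : ℕ) : ℝ) - 1)) ∈ LinearMap.ker (frm i) := by
      rw [LinearMap.mem_ker, e, h1, Int.cast_zero]
    rw [h', LinearMap.mem_ker, e] at h3
    exact h2 (by exact_mod_cast h3)

theorem f0 (x : Fin 5 → ℝ) : frm 0 x = x 0 := by rw [frm_apply]; simp [NN, Fin.sum_univ_five]
theorem f1 (x : Fin 5 → ℝ) : frm 1 x = x 1 := by rw [frm_apply]; simp [NN, Fin.sum_univ_five]
theorem f2 (x : Fin 5 → ℝ) : frm 2 x = x 2 := by rw [frm_apply]; simp [NN, Fin.sum_univ_five]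
theorem f3 (x : Fin 5 → ℝ) : frm 3 x = x 3 := by rw [frm_apply]; simp [NN, Fin.sum_univ_five]
theorem f4 (x : Fin 5 → ℝ) : frm 4 x = x 4 := by rw [frm_apply]; simp [NN, Fin.sum_univ_five]
theorem f5 (x : Fin 5 → ℝ) : frm 5 x = x 0 + x 1 := by
  rw [frm_apply]; simp [NN, Fin.sum_univ_five]
theorem f6 (x : Fin 5 → ℝ) : frm 6 x = x 0 + x 2 + x 3 + x 4 := by
  rw [frm_apply]; simp [NN, Fin.sum_univ_five]

theorem arr_rank : arr.rank = 5 := by
  unfold Arrangement.rank
  have : (⨅ i, LinearMap.ker (arr.form i) : Submodule ℝ (Fin 5 → ℝ)) = ⊥ := by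
    rw [Submodule.eq_bot_iff]
    intro x hx
    rw [Submodule.mem_iInf] at hx
    have h : ∀ i : Fin 7, frm i x = 0 := fun i => LinearMap.mem_ker.1 (hx i)
    funext i
    fin_cases i
    · exact (f0 x).symm.trans (h 0)
    · exact (f1 x).symm.trans (h 1)
    · exact (f2 x).symm.trans (h 2)
    · exact (f3 x).symm.trans (h 3)
    · exact (f4 x).symm.trans (h 4)
  rw [this, finrank_bot]

theorem arr_size : arr.size = 7 := by
  unfold Arrangement.size
  show Fintype.card (Fin 7) = 7
  simp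

theorem arr_indecomposable : ¬ Decomposable arr := by
  rintro ⟨V₁, V₂, hc, hcov, ⟨i, hi⟩, ⟨j, hj⟩⟩
  have hdec : ∀ k : Fin 5, ∃ a ∈ V₁, ∃ b ∈ V₂, a + b = Pi.single (M := fun _ => ℝ) k 1 := by
    intro k
    have : (Pi.single (M := fun _ => ℝ) k 1) ∈ V₁ ⊔ V₂ := by
      rw [hc.sup_eq_top]; exact Submodule.mem_top
    exact Submodule.mem_sup.1 this
  choose a ha b hb hab using hdec
  have key : ∀ i : Fin 7, ∃ c : ℝ, ∀ k, frm i (a k) = c * frm i (Pi.single k 1) := by
    intro i
    rcases hcov i with h | h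
    · refine ⟨1, fun k => ?_⟩
      have h0 : frm i (b k) = 0 := LinearMap.mem_ker.1 (h (hb k))
      rw [← hab k, map_add, h0, add_zero, one_mul]
    · refine ⟨0, fun k => ?_⟩
      rw [zero_mul]
      exact LinearMap.mem_ker.1 (h (ha k))
  choose c hc using key
  have e : ∀ k l : Fin 5, (Pi.single (M := fun _ => ℝ) k 1) l = if l = k then (1 : ℝ) else 0 := by
    intro k l
    rw [Pi.single_apply]
  -- entries of the vectors `a k`
  have a0 : ∀ k, a k 0 = c 0 * (if (0 : Fin 5) = k then 1 else 0) := by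
    intro k; have := hc 0 k; rwa [f0, f0, e] at this
  have a1 : ∀ k, a k 1 = c 1 * (if (1 : Fin 5) = k then 1 else 0) := by
    intro k; have := hc 1 k; rwa [f1, f1, e] at this
  have a2 : ∀ k, a k 2 = c 2 * (if (2 : Fin 5) = k then 1 else 0) := by
    intro k; have := hc 2 k; rwa [f2, f2, e] at this
  have a3 : ∀ k, a k 3 = c 3 * (if (3 : Fin 5) = k then 1 else 0) := by
    intro k; have := hc 3 k; rwa [f3, f3, e] at this
  have a4 : ∀ k, a k 4 = c 4 * (if (4 : Fin 5) = k then 1 else 0) := by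
    intro k; have := hc 4 k; rwa [f4, f4, e] at this
  have a5 : ∀ k, a k 0 + a k 1 = c 5 * ((if (0 : Fin 5) = k then 1 else 0) +
      (if (1 : Fin 5) = k then 1 else 0)) := by
    intro k; have := hc 5 k; rwa [f5, f5, e, e] at this
  have a6 : ∀ k, a k 0 + a k 2 + a k 3 + a k 4 = c 6 * ((if (0 : Fin 5) = k then 1 else 0) +
      (if (2 : Fin 5) = k then 1 else 0) + (if (3 : Fin 5) = k then 1 else 0) +
      (if (4 : Fin 5) = k then 1 else 0)) := by
    intro k; have := hc 6 k; rwa [f6, f6, e, e, e, e] at this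
  have c50 : c 5 = c 0 := by
    have := a5 0; rw [a0, a1] at this; simp at this; linarith
  have c51 : c 5 = c 1 := by
    have := a5 1; rw [a0, a1] at this; simp at this; linarith
  have c60 : c 6 = c 0 := by
    have := a6 0; rw [a0, a2, a3, a4] at this; simp at this; linarith
  have c62 : c 6 = c 2 := by
    have := a6 2; rw [a0, a2, a3, a4] at this; simp at this; linarith
  have c63 : c 6 = c 3 := by
    have := a6 3; rw [a0, a2, a3, a4] at this; simp at this; linarith
  have c64 : c 6 = c 4 := by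
    have := a6 4; rw [a0, a2, a3, a4] at this; simp at this; linarith
  have call : ∀ i : Fin 7, c i = c 0 := by
    intro i
    fin_cases i
    · rfl
    · exact c51.symm.trans c50
    · exact c62.symm.trans c60
    · exact c63.symm.trans c60
    · exact c64.symm.trans c60
    · exact c50
    · exact c60
  -- a basis vector on which the form does not vanish
  have hne : ∀ i : Fin 7, ∃ k, frm i (Pi.single k 1) ≠ 0 := by
    intro i
    fin_cases i
    · exact ⟨0, by show frm 0 _ ≠ 0; rw [f0, e]; simp⟩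
    · exact ⟨1, by show frm 1 _ ≠ 0; rw [f1, e]; simp⟩
    · exact ⟨2, by show frm 2 _ ≠ 0; rw [f2, e]; simp⟩
    · exact ⟨3, by show frm 3 _ ≠ 0; rw [f3, e]; simp⟩
    · exact ⟨4, by show frm 4 _ ≠ 0; rw [f4, e]; simp⟩
    · exact ⟨0, by show frm 5 _ ≠ 0; rw [f5, e, e]; simp⟩
    · exact ⟨0, by show frm 6 _ ≠ 0; rw [f6, e, e, e, e]; simp⟩
  have ci : c i = 1 := by
    obtain ⟨k, hk⟩ := hne i
    have h1 := hc i k
    have h2 : frm i (a k) = frm i (Pi.single k 1) := by
      rw [← hab k, map_add]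
      have : frm i (b k) = 0 := LinearMap.mem_ker.1 (hi (hb k))
      rw [this, add_zero]
    rw [h2] at h1
    have h3 : (c i - 1) * frm i (Pi.single k 1) = 0 := by linarith
    have := (mul_eq_zero.1 h3).resolve_right hk
    linarith
  have cj : c j = 0 := by
    obtain ⟨k, hk⟩ := hne j
    have h1 := hc j k
    have h2 : frm j (a k) = 0 := LinearMap.mem_ker.1 (hj (ha k))
    rw [h2] at h1
    exact (mul_eq_zero.1 h1.symm).resolve_right hk
  have := call i
  have := call j
  linarith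

/-- the signs of the first, second and sixth form on the six chambers around the flat -/
def sg : Fin 6 → Bool × Bool × Bool :=
  ![(true, true, true), (true, false, true), (true, false, false), (false, false, false),
    (false, true, false), (false, true, true)]

/-- realizable patterns for the other four forms near the flat -/
def Good (t : Fin 4 → Bool) : Prop := ¬ (t 0 = t 1 ∧ t 1 = t 2 ∧ t 2 ≠ t 3)

instance : DecidablePred Good := fun t => by unfold Good; infer_instance

/-- the sign vectors -/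
def sv (t : Fin 4 → Bool) (v : Fin 6) : Fin 7 → Bool :=
  ![(sg v).1, (sg v).2.1, t 0, t 1, t 2, (sg v).2.2, t 3]

theorem sv0 (t : Fin 4 → Bool) (v : Fin 6) : sv t v 0 = (sg v).1 := rfl
theorem sv1 (t : Fin 4 → Bool) (v : Fin 6) : sv t v 1 = (sg v).2.1 := rfl
theorem sv2 (t : Fin 4 → Bool) (v : Fin 6) : sv t v 2 = t 0 := rfl
theorem sv3 (t : Fin 4 → Bool) (v : Fin 6) : sv t v 3 = t 1 := rfl
theorem sv4 (t : Fin 4 → Bool) (v : Fin 6) : sv t v 4 = t 2 := rfl
theorem sv5 (t : Fin 4 → Bool) (v : Fin 6) : sv t v 5 = (sg v).2.2 := rfl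
theorem sv6 (t : Fin 4 → Bool) (v : Fin 6) : sv t v 6 = t 3 := rfl

theorem forall7 {P : Fin 7 → Prop} (h0 : P 0) (h1 : P 1) (h2 : P 2) (h3 : P 3) (h4 : P 4)
    (h5 : P 5) (h6 : P 6) : ∀ i, P i := by
  intro i
  fin_cases i
  · exact h0
  · exact h1
  · exact h2
  · exact h3
  · exact h4
  · exact h5
  · exact h6

/-- realizing points -/
def pt (t : Fin 4 → Bool) (v : Fin 6) : Fin 5 → ℤ :=
  ![(![1, 2, 1, -1, -2, -1] : Fin 6 → ℤ) v, (![1, -1, -2, -1, 1, 2] : Fin 6 → ℤ) v,
    (if t 0 then 1 else -1) * (if t 0 = t 3 then 16 else 4),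
    (if t 1 then 1 else -1) * (if t 1 = t 3 then 16 else 4),
    (if t 2 then 1 else -1) * (if t 2 = t 3 then 16 else 4)]

theorem pt_sv_aux : ∀ (a b c d : Bool), Good ![a, b, c, d] → ∀ (v : Fin 6) (i : Fin 7),
    (sv ![a, b, c, d] v i = true ∧ 0 < ∑ l, NN i l * pt ![a, b, c, d] v l) ∨
      (sv ![a, b, c, d] v i = false ∧ ∑ l, NN i l * pt ![a, b, c, d] v l < 0) := by
  decide +kernel

theorem eta4 (t : Fin 4 → Bool) : t = ![t 0, t 1, t 2, t 3] := by
  funext i
  fin_cases i <;> rfl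

theorem pt_sv (t : Fin 4 → Bool) (ht : Good t) (v : Fin 6) (i : Fin 7) :
    (sv t v i = true ∧ 0 < ∑ l, NN i l * pt t v l) ∨
      (sv t v i = false ∧ ∑ l, NN i l * pt t v l < 0) := by
  rw [eta4 t] at ht ⊢
  exact pt_sv_aux _ _ _ _ ht v i

/-- the index type of the faces of the flat -/
abbrev Tau : Type := {t : Fin 4 → Bool // Good t}

theorem realizable_sv (t : Tau) (v : Fin 6) : arr.Realizable (sv t.1 v) := by
  have key : ∀ i : Fin 7, (sv t.1 v i = true ∧ 0 < frm i (fun l => (pt t.1 v l : ℝ))) ∨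
      (sv t.1 v i = false ∧ frm i (fun l => (pt t.1 v l : ℝ)) < 0) := by
    intro i
    have e : frm i (fun l => (pt t.1 v l : ℝ)) = ((∑ l, NN i l * pt t.1 v l : ℤ) : ℝ) := by
      rw [frm_apply]
      push_cast
      rfl
    rw [e]
    rcases pt_sv t.1 t.2 v i with ⟨h1, h2⟩ | ⟨h1, h2⟩
    · exact Or.inl ⟨h1, by exact_mod_cast h2⟩
    · exact Or.inr ⟨h1, by exact_mod_cast h2⟩
  exact ⟨fun l => (pt t.1 v l : ℝ), key⟩

/-- the six chambers around a face of the flat -/
noncomputable def KK (t : Tau) (v : Fin 6) : arr.Chamber :=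
  (arr.exists_chamber (realizable_sv t v)).choose

theorem toSign_KK (t : Tau) (v : Fin 6) : arr.toSign (KK t v) = sv t.1 v :=
  (arr.exists_chamber (realizable_sv t v)).choose_spec

theorem sv_dist_aux : ∀ (u v : Fin 6),
    (Finset.univ.filter fun i => sv (fun _ => true) u i ≠ sv (fun _ => true) v i).card =
      d6 u v := by
  decide +kernel

theorem sv_dist (t : Fin 4 → Bool) (u v : Fin 6) :
    (Finset.univ.filter fun i => sv t u i ≠ sv t v i).card = d6 u v := by
  rw [← sv_dist_aux u v]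
  congr 1
  apply Finset.filter_congr
  intro i _
  revert i
  apply forall7
  · rw [sv0, sv0, sv0, sv0]; exact fun _ => Iff.rfl
  · rw [sv1, sv1, sv1, sv1]; exact fun _ => Iff.rfl
  · rw [sv2, sv2, sv2, sv2]; simp
  · rw [sv3, sv3, sv3, sv3]; simp
  · rw [sv4, sv4, sv4, sv4]; simp
  · rw [sv5, sv5, sv5, sv5]; exact fun _ => Iff.rfl
  · rw [sv6, sv6, sv6, sv6]; simp

theorem arr_sep (C D : arr.Chamber) {a b : Fin 7 → Bool} (ha : arr.toSign C = a)
    (hb : arr.toSign D = b) :
    arr.sep C D = (Finset.univ.filter fun i : Fin 7 => a i ≠ b i).card := by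
  have hm : ∀ i : Fin 7, i ∈ ((Finset.univ.filter fun i : Fin 7 => a i ≠ b i : Finset (Fin 7)) :
      Set (Fin 7)) ↔ a i ≠ b i := by
    intro i
    simp
  have h : {i : arr.ι | arr.Separates i C D} =
      ((Finset.univ.filter fun i : Fin 7 => a i ≠ b i : Finset (Fin 7)) : Set (Fin 7)) := by
    apply Set.ext
    intro i
    have h1 := arr.separates_iff i C D
    rw [ha, hb] at h1
    exact h1.trans (hm i).symm
  unfold Arrangement.sep
  exact (congrArg Set.ncard h).trans (Set.ncard_coe_finset _)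

theorem sep_KK (t : Tau) (u v : Fin 6) : arr.sep (KK t u) (KK t v) = d6 u v := by
  rw [arr_sep _ _ (toSign_KK t u) (toSign_KK t v), sv_dist]

/-- a point between two others in the Hamming distance agrees with them where they agree -/
theorem hamming_between (a b c : Fin 7 → Bool)
    (h : (Finset.univ.filter fun i : Fin 7 => a i ≠ b i).card =
      (Finset.univ.filter fun i : Fin 7 => a i ≠ c i).card +
        (Finset.univ.filter fun i : Fin 7 => c i ≠ b i).card) :
    ∀ i, a i = b i → c i = a i := by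
  intro i hi
  by_contra hne
  have h1 : (Finset.univ.filter fun i : Fin 7 => a i ≠ b i) ⊆
      ((Finset.univ.filter fun i : Fin 7 => a i ≠ c i) ∪
        (Finset.univ.filter fun i : Fin 7 => c i ≠ b i)).erase i := by
    intro k hk
    rw [Finset.mem_erase, Finset.mem_union]
    simp only [Finset.mem_filter, Finset.mem_univ, true_and] at hk ⊢
    refine ⟨?_, ?_⟩
    · rintro rfl
      exact hk hi
    · by_contra hcon
      push Not at hcon
      exact hk (hcon.1.trans hcon.2)
  have h2 := Finset.card_le_card h1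
  have hmem : i ∈ (Finset.univ.filter fun i : Fin 7 => a i ≠ c i) ∪
      (Finset.univ.filter fun i : Fin 7 => c i ≠ b i) := by
    rw [Finset.mem_union]
    left
    simp only [Finset.mem_filter, Finset.mem_univ, true_and]
    exact fun h => hne h.symm
  rw [Finset.card_erase_of_mem hmem] at h2
  have h3 := Finset.card_union_le (Finset.univ.filter fun i : Fin 7 => a i ≠ c i)
    (Finset.univ.filter fun i : Fin 7 => c i ≠ b i)
  have h4 : 0 < ((Finset.univ.filter fun i : Fin 7 => a i ≠ c i) ∪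
      (Finset.univ.filter fun i : Fin 7 => c i ≠ b i)).card := Finset.card_pos.2 ⟨i, hmem⟩
  omega

theorem sg_cover (C : arr.Chamber) : ∃ w : Fin 6, arr.toSign C (0 : Fin 7) = (sg w).1 ∧
    arr.toSign C (1 : Fin 7) = (sg w).2.1 ∧ arr.toSign C (5 : Fin 7) = (sg w).2.2 := by
  obtain ⟨x, hx, hxC⟩ := arr.chamber_nonempty C
  have h : ∀ i : Fin 7, (arr.toSign C i = true ∧ 0 < frm i x) ∨
      (arr.toSign C i = false ∧ frm i x < 0) := fun i => arr.toSign_spec C hxC i
  have h0 := h 0
  have h1 := h 1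
  have h5 := h 5
  rw [f0] at h0
  rw [f1] at h1
  rw [f5] at h5
  rcases h0 with ⟨a0, b0⟩ | ⟨a0, b0⟩ <;> rcases h1 with ⟨a1, b1⟩ | ⟨a1, b1⟩ <;>
    rcases h5 with ⟨a5, b5⟩ | ⟨a5, b5⟩
  · exact ⟨0, a0, a1, a5⟩
  · exact absurd b5 (by linarith)
  · exact ⟨1, a0, a1, a5⟩
  · exact ⟨2, a0, a1, a5⟩
  · exact ⟨5, a0, a1, a5⟩
  · exact ⟨4, a0, a1, a5⟩
  · exact absurd b5 (by linarith)
  · exact ⟨3, a0, a1, a5⟩

theorem KK_conv (t : Tau) (u v : Fin 6) (y : arr.Chamber)
    (h : arr.topeGraph.dist (KK t u) (KK t v) =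
      arr.topeGraph.dist (KK t u) y + arr.topeGraph.dist y (KK t v)) : ∃ w, y = KK t w := by
  rw [arr.dist_eq_sep, arr.dist_eq_sep, arr.dist_eq_sep,
    arr_sep _ _ (toSign_KK t u) (toSign_KK t v), arr_sep _ _ (toSign_KK t u) rfl,
    arr_sep _ _ rfl (toSign_KK t v)] at h
  have hb := hamming_between _ _ _ h
  obtain ⟨w, hw0, hw1, hw5⟩ := sg_cover y
  refine ⟨w, ?_⟩
  apply arr.toSign_injective
  rw [toSign_KK]
  have key : ∀ i : Fin 7, arr.toSign y i = sv t.1 w i := by
    apply forall7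
    · rw [sv0]; exact hw0
    · rw [sv1]; exact hw1
    · have := hb 2 (by rw [sv2, sv2])
      rw [sv2] at this ⊢; exact this
    · have := hb 3 (by rw [sv3, sv3])
      rw [sv3] at this ⊢; exact this
    · have := hb 4 (by rw [sv4, sv4])
      rw [sv4] at this ⊢; exact this
    · rw [sv5]; exact hw5
    · have := hb 6 (by rw [sv6, sv6])
      rw [sv6] at this ⊢; exact this
  exact funext key

theorem sg_injective : ∀ v v' : Fin 6, sg v = sg v' → v = v' := by
  decide +kernel

theorem sv_injective (t t' : Fin 4 → Bool) (v v' : Fin 6) (h : sv t v = sv t' v') :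
    t = t' ∧ v = v' := by
  have h0 := congrFun h 0
  have h1 := congrFun h 1
  have h2 := congrFun h 2
  have h3 := congrFun h 3
  have h4 := congrFun h 4
  have h5 := congrFun h 5
  have h6 := congrFun h 6
  rw [sv0, sv0] at h0
  rw [sv1, sv1] at h1
  rw [sv2, sv2] at h2
  rw [sv3, sv3] at h3
  rw [sv4, sv4] at h4
  rw [sv5, sv5] at h5
  rw [sv6, sv6] at h6
  constructor
  · funext i
    fin_cases i
    · exact h2
    · exact h3
    · exact h4
    · exact h6
  · apply sg_injective
    exact Prod.ext h0 (Prod.ext h1 h5)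

theorem KK_injective {t t' : Tau} {v v' : Fin 6} (h : KK t v = KK t' v') : t = t' ∧ v = v' := by
  have h1 := congrArg arr.toSign h
  rw [toSign_KK, toSign_KK] at h1
  obtain ⟨h2, h3⟩ := sv_injective _ _ _ _ h1
  exact ⟨Subtype.ext h2, h3⟩

/-- the relabelling of the hexagon -/
def rot (v : Fin 6) (s : Bool) (u : Fin 6) : Fin 6 := if s then v + u else v - u

theorem rot_iso : ∀ (v : Fin 6) (s : Bool) (u w : Fin 6), d6 (rot v s u) (rot v s w) = d6 u w := by
  decide +kernel

theorem rot_surj : ∀ (v : Fin 6) (s : Bool) (w : Fin 6), ∃ u, w = rot v s u := by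
  decide +kernel

theorem rot_inj : ∀ (v v' : Fin 6) (s s' : Bool), rot v s 0 = rot v' s' 0 →
    rot v s 1 = rot v' s' 1 → v = v' ∧ s = s' := by
  decide +kernel

/-- all hexagons around the faces of the flat -/
noncomputable def hex : Hexagons arr.topeGraph (Tau × Fin 6 × Bool) where
  e p u := KK p.1 (rot p.2.1 p.2.2 u)
  iso p u v := by rw [arr.dist_eq_sep, sep_KK, rot_iso]
  conv p u v y h := by
    obtain ⟨w, hw⟩ := KK_conv _ _ _ _ h
    obtain ⟨u', hu'⟩ := rot_surj p.2.1 p.2.2 w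
    exact ⟨u', by rw [hw, hu']⟩
  inj p q h0 h1 := by
    obtain ⟨h2, h3⟩ := KK_injective h0
    obtain ⟨-, h4⟩ := KK_injective h1
    obtain ⟨h5, h6⟩ := rot_inj _ _ _ _ h3 h4
    exact Prod.ext h2 (Prod.ext h5 h6)

theorem card_index : Fintype.card (Tau × Fin 6 × Bool) = 168 := by
  decide +kernel

theorem betti_ge : 168 ≤ betti arr.topeGraph 5 7 := by
  rw [← card_index]
  exact hex.card_le

theorem betti_le : betti arr.topeGraph 0 0 ≤ 128 := by
  classical
  have : Fintype arr.Chamber := Fintype.ofFinite _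
  refine le_trans betti_zero_le ?_
  have h := Fintype.card_le_of_injective (β := Fin 7 → Bool) arr.toSign arr.toSign_injective
  refine le_trans h ?_
  simp

end Q138.MagHom
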