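import Mathlib

set_option autoImplicit false

/-!
Bar frameworks in the plane: a graph containing `2 |V| - 3` edges with linearly independent rows
of the rigidity matrix has no nontrivial continuous motion.
-/

namespace Q138.PlaneRigid

open scoped Topology RealInnerProductSpace

/-- The Euclidean plane. -/
abbrev E2 : Type := EuclideanSpace ℝ (Fin 2)

/-- Two configurations are congruent: all pairs of vertices have equal distances. -/
def Congruent {V : Type} (p q : V → E2) : Prop :=
  ∀ u w, dist (p u) (p w) = dist (q u) (q w)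

/-- A continuous motion of the bar framework `(G, p)`: a continuous path of configurations,
parametrized by `[0, 1]`, starting at `p` and preserving the lengths of all bars. -/
def IsMotion {V : Type} (G : SimpleGraph V) (p : V → E2) (P : unitInterval → V → E2) : Prop :=
  Continuous P ∧ P 0 = p ∧ ∀ t u w, G.Adj u w → dist (P t u) (P t w) = dist (p u) (p w)

/-- The framework is flexible: some continuous motion reaches a configuration that is not
congruent to `p`. -/
def Flexible {V : Type} (G : SimpleGraph V) (p : V → E2) : Prop :=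
  ∃ P, IsMotion G p P ∧ ∃ t, ¬ Congruent p (P t)

/-- The framework is rigid: it is not flexible. -/
def Rigid {V : Type} (G : SimpleGraph V) (p : V → E2) : Prop := ¬ Flexible G p

section Rows

variable {V : Type} [Fintype V] [DecidableEq V]

/-- the incidence coefficient -/
def κ (e : V × V) (v : V) : ℝ := (if v = e.1 then 1 else 0) - (if v = e.2 then 1 else 0)

/-- the row of the rigidity matrix -/
noncomputable def row (p : V → E2) (e : V × V) : EuclideanSpace ℝ (V × Fin 2) :=
  WithLp.toLp 2 fun x => κ e x.1 * (p e.1 x.2 - p e.2 x.2)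

omit [Fintype V] in
theorem row_apply (p : V → E2) (e : V × V) (x : V × Fin 2) :
    row p e x = κ e x.1 * (p e.1 x.2 - p e.2 x.2) := rfl

/-- a configuration as a vector -/
noncomputable def vec (m : V → E2) : EuclideanSpace ℝ (V × Fin 2) :=
  WithLp.toLp 2 fun x => m x.1 x.2

theorem sum_κ (e : V × V) (f : V → ℝ) : ∑ v, κ e v * f v = f e.1 - f e.2 := by
  unfold κ
  simp only [sub_mul, ite_mul, one_mul, zero_mul, Finset.sum_sub_distrib, Finset.sum_ite_eq',
    Finset.mem_univ, if_true]

theorem inner_row_vec (p m : V → E2) (e : V × V) :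
    ⟪row p e, vec m⟫ = ⟪p e.1 - p e.2, m e.1 - m e.2⟫ := by
  rw [PiLp.inner_apply, PiLp.inner_apply, Fintype.sum_prod_type_right]
  refine Finset.sum_congr rfl fun k _ => ?_
  simp only [row, vec, RCLike.inner_apply, conj_trivial, PiLp.sub_apply]
  have h := sum_κ e fun v => m v k * (p e.1 k - p e.2 k)
  rw [show (m e.1 k - m e.2 k) * (p e.1 k - p e.2 k) =
    m e.1 k * (p e.1 k - p e.2 k) - m e.2 k * (p e.1 k - p e.2 k) by ring, ← h]
  exact Finset.sum_congr rfl fun v _ => by ring

theorem inner_row_row (p : V → E2) (e f : V × V) :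
    ⟪row p e, row p f⟫ = (∑ v, κ e v * κ f v) * ⟪p e.1 - p e.2, p f.1 - p f.2⟫ := by
  rw [PiLp.inner_apply, PiLp.inner_apply, Fintype.sum_prod_type_right, Finset.mul_sum]
  refine Finset.sum_congr rfl fun k _ => ?_
  simp only [row, RCLike.inner_apply, conj_trivial, PiLp.sub_apply]
  rw [Finset.sum_mul]
  exact Finset.sum_congr rfl fun v _ => by ring

theorem inner_of_dist (a b c d : E2) :
    ⟪a - b, c - d⟫ = (dist a d ^ 2 + dist b c ^ 2 - dist a c ^ 2 - dist b d ^ 2) / 2 := by
  rw [dist_eq_norm, dist_eq_norm, dist_eq_norm, dist_eq_norm]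
  rw [@norm_sub_sq_real _ _ _ a d, @norm_sub_sq_real _ _ _ b c, @norm_sub_sq_real _ _ _ a c,
    @norm_sub_sq_real _ _ _ b d]
  rw [inner_sub_left, inner_sub_right, inner_sub_right]
  ring

/-- independence of rows is invariant under congruence -/
theorem indep_congr {ι : Type} [Fintype ι] [DecidableEq ι] (e : ι → V × V) {p q : V → E2}
    (h : Congruent p q) (hp : LinearIndependent ℝ fun i => row p (e i)) :
    LinearIndependent ℝ fun i => row q (e i) := by
  rw [← Matrix.det_gram_ne_zero_iff_linearIndependent] at hp ⊢
  have : Matrix.gram ℝ (fun i => row q (e i)) = Matrix.gram ℝ (fun i => row p (e i)) := by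
    ext i j
    rw [Matrix.gram_apply, Matrix.gram_apply, inner_row_row, inner_row_row, inner_of_dist,
      inner_of_dist, h, h, h, h]
  rwa [this]

/-- rotation by a right angle -/
noncomputable def J (a : E2) : E2 := !₂[-(a 1), a 0]

theorem inner_J (a : E2) : ⟪J a, a⟫ = 0 := by
  rw [PiLp.inner_apply]
  simp [J, Fin.sum_univ_two]
  ring

theorem J_sub (a b : E2) : J a - J b = J (a - b) := by
  ext i
  fin_cases i
  · simp [J]; ring
  · simp [J]

omit [Fintype V] in
theorem card_ge {ι : Type} [Fintype ι] {p : V → E2} (e : ι → V × V) (i : ι)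
    (hp : LinearIndependent ℝ fun i => row p (e i)) : p (e i).1 ≠ p (e i).2 := by
  intro h
  apply hp.ne_zero i
  ext x
  rw [row_apply, h, sub_self, mul_zero]
  rfl

/-- the kernel of the rigidity matrix consists of trivial motions -/
theorem kernel {ι : Type} [Fintype ι] (e : ι → V × V) (p : V → E2) (i₀ : ι)
    (hcard : Fintype.card ι + 3 = 2 * Fintype.card V)
    (hp : LinearIndependent ℝ fun i => row p (e i)) (m : V → E2)
    (hm : ∀ i, ⟪p (e i).1 - p (e i).2, m (e i).1 - m (e i).2⟫ = 0) :
    ∃ (ω : ℝ) (c : E2), ∀ v, m v = ω • J (p v) + c := by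
  classical
  set R : Submodule ℝ (EuclideanSpace ℝ (V × Fin 2)) :=
    Submodule.span ℝ (Set.range fun i => row p (e i)) with hR
  have hmem : ∀ m' : V → E2, (∀ i, ⟪p (e i).1 - p (e i).2, m' (e i).1 - m' (e i).2⟫ = 0) →
      vec m' ∈ Rᗮ := by
    intro m' hm'
    rw [hR, Submodule.mem_orthogonal]
    intro u hu
    induction hu using Submodule.span_induction with
    | mem x hx =>
      obtain ⟨i, rfl⟩ := hx
      rw [inner_row_vec]
      exact hm' i
    | zero => exact inner_zero_left _
    | add x y _ _ hx hy => rw [inner_add_left, hx, hy, add_zero]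
    | smul a x _ hx => rw [inner_smul_left, hx, mul_zero]
  have hdim : Module.finrank ℝ (Rᗮ : Submodule ℝ _) = 3 := by
    have h1 := Submodule.finrank_add_finrank_orthogonal R
    have h2 : Module.finrank ℝ R = Fintype.card ι := by
      rw [hR]; exact finrank_span_eq_card hp
    have h3 : Module.finrank ℝ (EuclideanSpace ℝ (V × Fin 2)) = 2 * Fintype.card V := by
      rw [finrank_euclideanSpace, Fintype.card_prod, Fintype.card_fin, mul_comm]
    omega
  -- the three trivial motions
  let t : Fin 3 → V → E2 := ![fun _ => !₂[1, 0], fun _ => !₂[0, 1], fun v => J (p v)]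
  have ht : ∀ j i, ⟪p (e i).1 - p (e i).2, t j (e i).1 - t j (e i).2⟫ = 0 := by
    intro j i
    fin_cases j
    · simp [t]
    · simp [t]
    · show ⟪p (e i).1 - p (e i).2, J (p (e i).1) - J (p (e i).2)⟫ = 0
      rw [J_sub, real_inner_comm]
      exact inner_J _
  have hind : LinearIndependent ℝ fun j => vec (t j) := by
    rw [Fintype.linearIndependent_iff]
    intro g hg
    have h1 : ∀ v k, g 0 * (t 0 v k) + g 1 * (t 1 v k) + g 2 * (t 2 v k) = 0 := by
      intro v k
      have := congrArg (fun y : EuclideanSpace ℝ (V × Fin 2) => y (v, k)) hg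
      simpa [Fin.sum_univ_three, vec] using this
    have hne := card_ge e i₀ hp
    have a0 := h1 (e i₀).1 0
    have a1 := h1 (e i₀).1 1
    have b0 := h1 (e i₀).2 0
    have b1 := h1 (e i₀).2 1
    simp [t, J] at a0 a1 b0 b1
    have g2 : g 2 = 0 := by
      by_contra hg2
      apply hne
      ext k
      fin_cases k
      · have : g 2 * (p (e i₀).1 0 - p (e i₀).2 0) = 0 := by linarith
        have := (mul_eq_zero.1 this).resolve_left hg2
        show p (e i₀).1 0 = p (e i₀).2 0
        linarith
      · have : g 2 * (p (e i₀).1 1 - p (e i₀).2 1) = 0 := by linarith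
        have := (mul_eq_zero.1 this).resolve_left hg2
        show p (e i₀).1 1 = p (e i₀).2 1
        linarith
    rw [g2] at a0 a1
    intro i
    fin_cases i
    · show g 0 = 0
      linarith
    · show g 1 = 0
      linarith
    · exact g2
  have hspan : Submodule.span ℝ (Set.range fun j => vec (t j)) = Rᗮ := by
    apply Submodule.eq_of_le_of_finrank_eq
    · rw [Submodule.span_le]
      rintro _ ⟨j, rfl⟩
      exact hmem _ (ht j)
    · rw [finrank_span_eq_card hind, hdim]
      rfl
  have hvec := hmem m hm
  rw [← hspan, Submodule.mem_span_range_iff_exists_fun] at hvec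
  obtain ⟨c, hc⟩ := hvec
  refine ⟨c 2, !₂[c 0, c 1], fun v => ?_⟩
  ext k
  have := congrArg (fun y : EuclideanSpace ℝ (V × Fin 2) => y (v, k)) hc
  simp only [Fin.sum_univ_three] at this
  fin_cases k
  · simp [vec, t, J] at this ⊢
    linarith
  · simp [vec, t, J] at this ⊢
    linarith

/-- local rigidity by averaging -/
theorem local_rigid {ι : Type} [Fintype ι] (e : ι → V × V) (p : V → E2) (i₀ : ι)
    (hcard : Fintype.card ι + 3 = 2 * Fintype.card V)
    (hp : LinearIndependent ℝ fun i => row p (e i)) :
    ∃ U ∈ 𝓝 p, ∀ q ∈ U, (∀ i, dist (p (e i).1) (p (e i).2) = dist (q (e i).1) (q (e i).2)) →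
      Congruent p q := by
  classical
  let f : (V → E2) → ι → EuclideanSpace ℝ (V × Fin 2) := fun q i => row (p + q) (e i)
  have hf : Continuous f := by
    refine continuous_pi fun i => ?_
    refine (PiLp.continuous_toLp 2 _).comp ?_
    refine continuous_pi fun x => ?_
    have h : ∀ v : V, Continuous fun q : V → E2 => (p + q) v x.2 := by
      intro v
      have : Continuous fun q : V → E2 => q v x.2 :=
        (PiLp.continuous_apply 2 _ x.2).comp (continuous_apply v)
      exact continuous_const.add this
    exact continuous_const.mul ((h _).sub (h _))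
  have h0 : LinearIndependent ℝ (f p) := by
    have : f p = fun i => (Units.mk0 (2 : ℝ) two_ne_zero) • row p (e i) := by
      funext i
      ext x
      show row (p + p) (e i) x = (2 : ℝ) * row p (e i) x
      rw [row_apply, row_apply]
      simp only [Pi.add_apply, PiLp.add_apply]
      ring
    rw [this]
    exact hp.units_smul fun _ => Units.mk0 (2 : ℝ) two_ne_zero
  refine ⟨f ⁻¹' {g | LinearIndependent ℝ g}, ?_, ?_⟩
  · exact (isOpen_setOfPred_linearIndependent.preimage hf).mem_nhds h0
  · intro q hq hd
    have hq' : LinearIndependent ℝ fun i => row (p + q) (e i) := hq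
    obtain ⟨ω, c, hc⟩ := kernel e (p + q) i₀ hcard hq' (p - q) (by
      intro i
      have h1 := hd i
      rw [dist_eq_norm, dist_eq_norm] at h1
      have e1 : (p + q) (e i).1 - (p + q) (e i).2 =
          (p (e i).1 - p (e i).2) + (q (e i).1 - q (e i).2) := by
        simp only [Pi.add_apply]; abel
      have e2 : (p - q) (e i).1 - (p - q) (e i).2 =
          (p (e i).1 - p (e i).2) - (q (e i).1 - q (e i).2) := by
        simp only [Pi.sub_apply]; abel
      rw [e1, e2]
      exact (real_inner_add_sub_eq_zero_iff _ _).2 h1)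
    intro u w
    have h1 := hc u
    have h2 := hc w
    simp only [Pi.sub_apply, Pi.add_apply] at h1 h2
    have h3 : (p u - p w) - (q u - q w) = ω • J ((p u - p w) + (q u - q w)) := by
      have e1 : (p u - p w) - (q u - q w) = (p u - q u) - (p w - q w) := by abel
      rw [e1, h1, h2]
      have e2 : (p u - p w) + (q u - q w) = (p u + q u) - (p w + q w) := by abel
      rw [e2, ← J_sub, smul_sub]
      abel
    have h4 : ⟪(p u - p w) - (q u - q w), (p u - p w) + (q u - q w)⟫ = 0 := by
      rw [h3, inner_smul_left, inner_J, mul_zero]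
    rw [real_inner_comm] at h4
    rw [dist_eq_norm, dist_eq_norm]
    exact (real_inner_add_sub_eq_zero_iff _ _).1 h4

/-- independent rows imply rigidity -/
theorem rigid_of_indep {ι : Type} [Fintype ι] [DecidableEq ι] (G : SimpleGraph V)
    (e : ι → V × V) (he : ∀ i, G.Adj (e i).1 (e i).2) (p : V → E2) (i₀ : ι)
    (hcard : Fintype.card ι + 3 = 2 * Fintype.card V)
    (hp : LinearIndependent ℝ fun i => row p (e i)) : Rigid G p := by
  rintro ⟨P, ⟨hP, hP0, hlen⟩, t₀, ht₀⟩
  let T : Set unitInterval := {t | Congruent p (P t)}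
  have hclosed : IsClosed T := by
    have : T = ⋂ u, ⋂ w, {t | dist (p u) (p w) = dist (P t u) (P t w)} := by
      ext t
      simp [T, Congruent]
    rw [this]
    refine isClosed_iInter fun u => isClosed_iInter fun w => isClosed_eq continuous_const ?_
    exact ((continuous_apply u).comp hP).dist ((continuous_apply w).comp hP)
  have hopen : IsOpen T := by
    rw [isOpen_iff_mem_nhds]
    intro t ht
    have ht' : Congruent p (P t) := ht
    obtain ⟨U, hU, hUq⟩ := local_rigid e (P t) i₀ hcard (indep_congr e ht' hp)
    filter_upwards [hP.continuousAt hU] with s hs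
    have h1 := hUq (P s) hs fun i => by
      rw [hlen t _ _ (he i), hlen s _ _ (he i)]
    intro u w
    rw [ht' u w, h1 u w]
  have huniv : T = Set.univ := by
    refine IsClopen.eq_univ ⟨hclosed, hopen⟩ ⟨0, ?_⟩
    show Congruent p (P 0)
    rw [hP0]
    exact fun _ _ => rfl
  exact ht₀ (by have : t₀ ∈ T := by rw [huniv]; trivial
                exact this)

/-- the Gram determinant as a polynomial -/
noncomputable def gramPoly {ι : Type} [Fintype ι] [DecidableEq ι] (e : ι → V × V) :
    MvPolynomial (V × Fin 2) ℚ :=
  Matrix.det (Matrix.of fun i j =>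
    MvPolynomial.C (∑ v, ((if v = (e i).1 then 1 else 0) - (if v = (e i).2 then 1 else 0)) *
      ((if v = (e j).1 then 1 else 0) - (if v = (e j).2 then 1 else 0))) *
    ∑ k : Fin 2, (MvPolynomial.X ((e i).1, k) - MvPolynomial.X ((e i).2, k)) *
      (MvPolynomial.X ((e j).1, k) - MvPolynomial.X ((e j).2, k)))

theorem aeval_gramPoly {ι : Type} [Fintype ι] [DecidableEq ι] (e : ι → V × V) (p : V → E2) :
    MvPolynomial.aeval (fun x : V × Fin 2 => p x.1 x.2) (gramPoly e) =
      (Matrix.gram ℝ fun i => row p (e i)).det := by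
  unfold gramPoly
  rw [AlgHom.map_det]
  congr 1
  ext i j
  rw [AlgHom.mapMatrix_apply, Matrix.map_apply, Matrix.of_apply, Matrix.gram_apply, inner_row_row,
    PiLp.inner_apply]
  simp only [map_mul, map_sum, map_sub, MvPolynomial.aeval_X, MvPolynomial.aeval_C,
    RCLike.inner_apply, conj_trivial, PiLp.sub_apply]
  congr 1
  · refine Finset.sum_congr rfl fun v _ => ?_
    unfold κ
    split_ifs <;> simp
  · exact Finset.sum_congr rfl fun k _ => by ring

theorem indep_of_gramPoly {ι : Type} [Fintype ι] [DecidableEq ι] (e : ι → V × V) (p : V → E2)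
    (h : MvPolynomial.aeval (fun x : V × Fin 2 => p x.1 x.2) (gramPoly e) ≠ 0) :
    LinearIndependent ℝ fun i => row p (e i) := by
  rw [← Matrix.det_gram_ne_zero_iff_linearIndependent, ← aeval_gramPoly]
  exact h

theorem gramPoly_ne_zero {ι : Type} [Fintype ι] [DecidableEq ι] (e : ι → V × V) (p : V → E2)
    (h : LinearIndependent ℝ fun i => row p (e i)) : gramPoly e ≠ 0 := by
  intro h0
  rw [← Matrix.det_gram_ne_zero_iff_linearIndependent, ← aeval_gramPoly, h0, map_zero] at h
  exact h rfl

end Rows

/-- `G` is generically rigid in the plane: there is a nonzero polynomial with rational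
coefficients in the coordinates of the vertices such that `(G, p)` is rigid for all configurations
`p` at which it does not vanish (in particular for all `p` with algebraically independent
coordinates). -/
def GenericallyRigid {V : Type} (G : SimpleGraph V) : Prop :=
  ∃ f : MvPolynomial (V × Fin 2) ℚ, f ≠ 0 ∧
    ∀ p : V → E2, MvPolynomial.aeval (fun x : V × Fin 2 => p x.1 x.2) f ≠ 0 → Rigid G p

theorem genericallyRigid_of_indep {V : Type} [Fintype V] [DecidableEq V] {ι : Type} [Fintype ι]
    [DecidableEq ι] (G : SimpleGraph V) (e : ι → V × V) (he : ∀ i, G.Adj (e i).1 (e i).2)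
    (p : V → E2) (i₀ : ι) (hcard : Fintype.card ι + 3 = 2 * Fintype.card V)
    (hp : LinearIndependent ℝ fun i => row p (e i)) : GenericallyRigid G :=
  ⟨gramPoly e, gramPoly_ne_zero e p hp, fun q hq =>
    rigid_of_indep G e he q i₀ hcard (indep_of_gramPoly e q hq)⟩

end Q138.PlaneRigid
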