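import Mathlib

set_option autoImplicit false

/-!
Basic hypergeometric series over the field `ℚ(a, b, c, q)`, realized as the field of fractions of
`ℤ[a, b, c, q]`, and denominators of ratios of such series.
-/

namespace Q138.QHyp

open MvPolynomial

/-- The ring `ℤ[a, b, c, q]`; the variables are `X 0 = a`, `X 1 = b`, `X 2 = c`, `X 3 = q`. -/
abbrev R : Type := MvPolynomial (Fin 4) ℤ

/-- The field `ℚ(a, b, c, q)`. -/
abbrev K : Type := FractionRing R

/-- The indeterminate `a`. -/
noncomputable def a : K := algebraMap R K (X 0)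
/-- The indeterminate `b`. -/
noncomputable def b : K := algebraMap R K (X 1)
/-- The indeterminate `c`. -/
noncomputable def c : K := algebraMap R K (X 2)
/-- The indeterminate `q`. -/
noncomputable def q : K := algebraMap R K (X 3)

/-- `(x; q)_n = ∏_{j < n} (1 - x q ^ j)` -/
noncomputable def poch (x : K) (n : ℕ) : K := ∏ j ∈ Finset.range n, (1 - x * q ^ j)

/-- The basic hypergeometric series `₂φ₁(x, y; w; q, z)` as a formal power series in `z`. -/
noncomputable def phi (x y w : K) : PowerSeries K :=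
  PowerSeries.mk fun n => poch x n * poch y n / (poch q n * poch w n)

theorem inj : Function.Injective (algebraMap R K) := IsFractionRing.injective R K

/-! ### the primes `1 - c q ^ k` -/

/-- `1 - c q ^ k` in `ℤ[a, b, c, q]` -/
noncomputable def pr (k : ℕ) : R := 1 - X 2 * X 3 ^ k

/-- the substitution `c = q ^ (-k)` -/
noncomputable def ev (k : ℕ) : R →+* K :=
  (aeval ![a, b, (q ^ k)⁻¹, q] : R →ₐ[ℤ] K).toRingHom

theorem ev_X0 (k : ℕ) : ev k (X 0) = a := by simp [ev]
theorem ev_X1 (k : ℕ) : ev k (X 1) = b := by simp [ev]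
theorem ev_X2 (k : ℕ) : ev k (X 2) = (q ^ k)⁻¹ := by simp [ev]
theorem ev_X3 (k : ℕ) : ev k (X 3) = q := by simp [ev]

theorem q_ne : q ≠ 0 := by
  unfold q
  rw [Ne, map_eq_zero_iff _ inj]
  exact X_ne_zero 3

theorem q_pow_ne {i j : ℕ} (h : i ≠ j) : q ^ i ≠ q ^ j := by
  intro h1
  apply h
  have h2 : (X 3 : R) ^ i = X 3 ^ j := by
    apply inj
    rw [map_pow, map_pow]
    exact h1
  have h3 := congrArg (fun p : R => p.totalDegree) h2
  simpa [totalDegree_X_pow] using h3

theorem one_sub_q_ne {j : ℕ} (h : j ≠ 0) : 1 - q ^ j ≠ 0 := by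
  intro h1
  have := q_pow_ne h
  rw [pow_zero] at this
  exact this (by linear_combination -h1)

theorem ev_pr (k : ℕ) : ev k (pr k) = 0 := by
  unfold pr
  rw [map_sub, map_mul, map_pow, map_one, ev_X2, ev_X3, inv_mul_cancel₀ (pow_ne_zero _ q_ne),
    sub_self]

theorem ev_pr_ne {k j : ℕ} (h : j ≠ k) : ev k (pr j) ≠ 0 := by
  unfold pr
  rw [map_sub, map_mul, map_pow, map_one, ev_X2, ev_X3]
  intro h1
  have h2 : q ^ k ≠ 0 := pow_ne_zero _ q_ne
  apply q_pow_ne h
  field_simp at h1
  linear_combination -h1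

theorem pr_ne (k : ℕ) : pr k ≠ 0 := by
  intro h
  have := ev_pr_ne (k := k + 1) (j := k) (by omega)
  rw [h, map_zero] at this
  exact this rfl

theorem alg_pr (k : ℕ) : algebraMap R K (pr k) = 1 - c * q ^ k := by
  unfold pr c q
  rw [map_sub, map_mul, map_pow, map_one]

theorem alg_pr_ne (k : ℕ) : (1 - c * q ^ k) ≠ 0 := by
  rw [← alg_pr, Ne, map_eq_zero_iff _ inj]
  exact pr_ne k

/-- reduction modulo `pr k` to polynomials without `c` -/
theorem reduce (k : ℕ) (f : R) : ∃ (N : ℕ) (g : R), pr k ∣ X 3 ^ N * f - g ∧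
    ev k g = algebraMap R K g := by
  induction f using MvPolynomial.induction_on with
  | C x =>
    refine ⟨0, C x, by simp, ?_⟩
    simp [ev]
  | add f g hf hg =>
    obtain ⟨N, g1, h1, h2⟩ := hf
    obtain ⟨M, g2, h3, h4⟩ := hg
    refine ⟨N + M, X 3 ^ M * g1 + X 3 ^ N * g2, ?_, ?_⟩
    · have : X 3 ^ (N + M) * (f + g) - (X 3 ^ M * g1 + X 3 ^ N * g2) =
        X 3 ^ M * (X 3 ^ N * f - g1) + X 3 ^ N * (X 3 ^ M * g - g2) := by ring
      rw [this]
      exact dvd_add (h1.mul_left _) (h3.mul_left _)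
    · simp only [map_add, map_mul, map_pow, ev_X3, h2, h4]
      rfl
  | mul_X f i hf =>
    obtain ⟨N, g1, h1, h2⟩ := hf
    by_cases hi : i = 2
    · subst hi
      refine ⟨N + k, g1, ?_, h2⟩
      have : X 3 ^ (N + k) * (f * X 2) - g1 =
        (1 - pr k) * (X 3 ^ N * f - g1) - pr k * g1 := by unfold pr; ring
      rw [this]
      exact dvd_sub (h1.mul_left _) (dvd_mul_right _ _)
    · refine ⟨N, g1 * X i, ?_, ?_⟩
      · have : X 3 ^ N * (f * X i) - g1 * X i = (X 3 ^ N * f - g1) * X i := by ring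
        rw [this]
        exact h1.mul_right _
      · rw [map_mul, map_mul, h2]
        congr 1
        fin_cases i
        · exact ev_X0 k
        · exact ev_X1 k
        · exact absurd rfl hi
        · exact ev_X3 k

theorem dvd_of_ev {k : ℕ} {f : R} (h : ev k f = 0) : pr k ∣ f := by
  obtain ⟨N, g, ⟨r, hr⟩, h2⟩ := reduce k f
  have h3 : ev k g = 0 := by
    have := congrArg (ev k) hr
    rw [map_sub, map_mul, h, mul_zero, zero_sub, map_mul, ev_pr, zero_mul, neg_eq_zero] at this
    exact this
  have h4 : g = 0 := by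
    rw [h2] at h3
    exact (map_eq_zero_iff _ inj).1 h3
  rw [h4, sub_zero] at hr
  rcases Nat.eq_zero_or_pos k with rfl | hk
  · -- `k = 0`: use the substitution directly
    have h5 : ∀ f : R, ∃ g : R, pr 0 ∣ f - g ∧ ev 0 g = algebraMap R K g := by
      intro f
      induction f using MvPolynomial.induction_on with
      | C x =>
        refine ⟨C x, by simp, ?_⟩
        simp [ev]
      | add f g hf hg =>
        obtain ⟨g1, h1, h2⟩ := hf
        obtain ⟨g2, h3, h4⟩ := hg
        refine ⟨g1 + g2, ?_, by rw [map_add, map_add, h2, h4]⟩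
        have : f + g - (g1 + g2) = (f - g1) + (g - g2) := by ring
        rw [this]
        exact dvd_add h1 h3
      | mul_X f i hf =>
        obtain ⟨g1, h1, h2⟩ := hf
        by_cases hi : i = 2
        · subst hi
          refine ⟨g1, ?_, h2⟩
          have : f * X 2 - g1 = (1 - pr 0) * (f - g1) - pr 0 * g1 := by unfold pr; ring
          rw [this]
          exact dvd_sub (h1.mul_left _) (dvd_mul_right _ _)
        · refine ⟨g1 * X i, ?_, ?_⟩
          · have : f * X i - g1 * X i = (f - g1) * X i := by ring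
            rw [this]
            exact h1.mul_right _
          · rw [map_mul, map_mul, h2]
            congr 1
            fin_cases i
            · exact ev_X0 0
            · exact ev_X1 0
            · exact absurd rfl hi
            · exact ev_X3 0
    obtain ⟨g', ⟨r', hr'⟩, h6⟩ := h5 f
    have h7 : ev 0 g' = 0 := by
      have := congrArg (ev 0) hr'
      rw [map_sub, h, zero_sub, map_mul, ev_pr, zero_mul, neg_eq_zero] at this
      exact this
    have h8 : g' = 0 := by
      rw [h6] at h7
      exact (map_eq_zero_iff _ inj).1 h7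
    rw [h8, sub_zero] at hr'
    exact ⟨r', hr'⟩
  · -- `q` is invertible modulo `pr k`
    have h5 : ∀ M : ℕ, pr k ∣ X 3 ^ M * f → pr k ∣ f := by
      intro M
      induction M with
      | zero => intro h; simpa using h
      | succ M ih =>
        intro h
        apply ih
        have h6 : X 3 ^ M * f = (X 2 * X 3 ^ (k - 1)) * (X 3 ^ (M + 1) * f) +
            pr k * (X 3 ^ M * f) := by
          obtain ⟨l, rfl⟩ : ∃ l, k = l + 1 := ⟨k - 1, by omega⟩
          rw [Nat.add_sub_cancel]
          unfold pr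
          ring
        rw [h6]
        exact dvd_add (h.mul_left _) (dvd_mul_right _ _)
    exact h5 N ⟨r, hr⟩

theorem dvd_iff {k : ℕ} {f : R} : pr k ∣ f ↔ ev k f = 0 := by
  constructor
  · rintro ⟨r, rfl⟩
    rw [map_mul, ev_pr, zero_mul]
  · exact dvd_of_ev

/-! ### local integrality -/

/-- `x` lies in the local ring of `R` at the prime `pr k` -/
def InO (k : ℕ) (x : K) : Prop := ∃ s r : R, ev k s ≠ 0 ∧ algebraMap R K s * x = algebraMap R K r

theorem InO.alg (k : ℕ) (r : R) : InO k (algebraMap R K r) := ⟨1, r, by simp, by simp⟩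

theorem InO.add {k : ℕ} {x y : K} (hx : InO k x) (hy : InO k y) : InO k (x + y) := by
  obtain ⟨s, r, hs, h⟩ := hx
  obtain ⟨s', r', hs', h'⟩ := hy
  refine ⟨s * s', s' * r + s * r', by rw [map_mul]; exact mul_ne_zero hs hs', ?_⟩
  rw [map_mul, map_add, map_mul, map_mul, ← h, ← h']
  ring

theorem InO.mul {k : ℕ} {x y : K} (hx : InO k x) (hy : InO k y) : InO k (x * y) := by
  obtain ⟨s, r, hs, h⟩ := hx
  obtain ⟨s', r', hs', h'⟩ := hy
  refine ⟨s * s', r * r', by rw [map_mul]; exact mul_ne_zero hs hs', ?_⟩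
  rw [map_mul, map_mul, ← h, ← h']
  ring

theorem InO.neg {k : ℕ} {x : K} (hx : InO k x) : InO k (-x) := by
  obtain ⟨s, r, hs, h⟩ := hx
  exact ⟨s, -r, hs, by rw [map_neg, ← h]; ring⟩

theorem InO.sub {k : ℕ} {x y : K} (hx : InO k x) (hy : InO k y) : InO k (x - y) := by
  rw [sub_eq_add_neg]; exact hx.add hy.neg

theorem InO.zero (k : ℕ) : InO k 0 := by simpa using InO.alg k 0
theorem InO.one (k : ℕ) : InO k 1 := by simpa using InO.alg k 1

theorem InO.sum {k : ℕ} {ι : Type} (s : Finset ι) (f : ι → K) (h : ∀ i ∈ s, InO k (f i)) :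
    InO k (∑ i ∈ s, f i) := by
  classical
  induction s using Finset.induction_on with
  | empty => simpa using InO.zero k
  | insert i s hi ih =>
    rw [Finset.sum_insert hi]
    exact (h i (Finset.mem_insert_self _ _)).add (ih fun j hj => h j (Finset.mem_insert_of_mem hj))

theorem InO.prod {k : ℕ} {ι : Type} (s : Finset ι) (f : ι → K) (h : ∀ i ∈ s, InO k (f i)) :
    InO k (∏ i ∈ s, f i) := by
  classical
  induction s using Finset.induction_on with
  | empty => simpa using InO.one k
  | insert i s hi ih =>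
    rw [Finset.prod_insert hi]
    exact (h i (Finset.mem_insert_self _ _)).mul (ih fun j hj => h j (Finset.mem_insert_of_mem hj))

theorem InO.inv {k : ℕ} {s : R} (hs : ev k s ≠ 0) : InO k (algebraMap R K s)⁻¹ := by
  refine ⟨s, 1, hs, ?_⟩
  have : algebraMap R K s ≠ 0 := by
    rw [Ne, map_eq_zero_iff _ inj]
    rintro rfl
    rw [map_zero] at hs
    exact hs rfl
  rw [mul_inv_cancel₀ this, map_one]

theorem InO.inv_pr {k j : ℕ} (h : j ≠ k) : InO k (1 - c * q ^ j)⁻¹ := by
  rw [← alg_pr]; exact InO.inv (ev_pr_ne h)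

theorem InO.pr (k j : ℕ) : InO k (1 - c * q ^ j) := by
  rw [← alg_pr]; exact InO.alg k _

theorem InO.inv_q (k : ℕ) {j : ℕ} (h : j ≠ 0) : InO k (1 - q ^ j)⁻¹ := by
  have : (1 - q ^ j : K) = algebraMap R K (1 - X 3 ^ j) := by
    rw [map_sub, map_pow, map_one]; rfl
  rw [this]
  refine InO.inv ?_
  rw [map_sub, map_pow, map_one, ev_X3]
  exact one_sub_q_ne h

theorem InO.poch {k : ℕ} {x : K} (hx : InO k x) (n : ℕ) : InO k (poch x n) := by
  refine InO.prod _ _ fun j _ => ?_
  refine (InO.one k).sub (hx.mul ?_)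
  have : (q ^ j : K) = algebraMap R K (X 3 ^ j) := by rw [map_pow]; rfl
  rw [this]
  exact InO.alg k _

theorem InO.inv_poch_q (k n : ℕ) : InO k (QHyp.poch q n)⁻¹ := by
  unfold QHyp.poch
  rw [← Finset.prod_inv_distrib]
  refine InO.prod _ _ fun j _ => ?_
  rw [← pow_succ']
  exact InO.inv_q k (by omega)

/-- the factor `(c q ^ i; q)_n` has an inverse with at most a simple pole at `pr k`, and no pole
when `n ≤ k - i` or `k < i` -/
theorem InO.inv_poch_c (k i n : ℕ) (h : n + i ≤ k ∨ k < i) :
    InO k (QHyp.poch (c * q ^ i) n)⁻¹ := by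
  unfold QHyp.poch
  rw [← Finset.prod_inv_distrib]
  refine InO.prod _ _ fun j hj => ?_
  rw [Finset.mem_range] at hj
  rw [mul_assoc, ← pow_add]
  exact InO.inv_pr (by omega)

theorem InO.pr_inv_poch_c (k i n : ℕ) :
    InO k ((1 - c * q ^ k) * (QHyp.poch (c * q ^ i) n)⁻¹) := by
  by_cases h : n + i ≤ k ∨ k < i
  · exact (InO.pr k k).mul (InO.inv_poch_c k i n h)
  · push Not at h
    obtain ⟨h1, h2⟩ := h
    unfold QHyp.poch
    have hmem : k - i ∈ Finset.range n := by rw [Finset.mem_range]; omega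
    rw [← Finset.mul_prod_erase _ _ hmem, mul_inv, ← mul_assoc, mul_assoc c, ← pow_add,
      show i + (k - i) = k by omega, mul_inv_cancel₀ (alg_pr_ne k), one_mul,
      ← Finset.prod_inv_distrib]
    refine InO.prod _ _ fun j hj => ?_
    rw [Finset.mem_erase, Finset.mem_range] at hj
    rw [mul_assoc, ← pow_add]
    exact InO.inv_pr (by omega)

theorem pow_mono {k m n : ℕ} {x : K} (hmn : m ≤ n) (h : InO k ((1 - c * q ^ k) ^ m * x)) :
    InO k ((1 - c * q ^ k) ^ n * x) := by
  obtain ⟨l, rfl⟩ := Nat.exists_eq_add_of_le hmn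
  rw [show (1 - c * q ^ k) ^ (m + l) * x = (1 - c * q ^ k) ^ l * ((1 - c * q ^ k) ^ m * x) by ring]
  refine InO.mul ?_ h
  rw [← alg_pr, ← map_pow]
  exact InO.alg k _

/-- bound for the pole order of the coefficients of a quotient of two power series -/
theorem pole_bound {U V γ : ℕ → K} (hU0 : U 0 = 1)
    (hrec : ∀ n, ∑ p ∈ Finset.HasAntidiagonal.antidiagonal n, γ p.1 * U p.2 = V n)
    (k : ℕ) (hU : ∀ m, m ≤ k → InO k (U m)) (hU' : ∀ m, InO k ((1 - c * q ^ k) * U m))
    (hV : ∀ m, m < k ∨ k = 0 → InO k (V m)) (hV' : ∀ m, InO k ((1 - c * q ^ k) * V m)) (n : ℕ) :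
    InO k ((1 - c * q ^ k) ^ ((n + 1) / (k + 1)) * (γ n / (1 - c))) := by
  rcases Nat.eq_zero_or_pos k with rfl | hk
  · -- the case `k = 0`
    have key : ∀ n, InO 0 ((1 - c * q ^ 0) ^ n * γ n) := by
      intro n
      induction n using Nat.strong_induction_on with
      | _ n ih =>
        have h1 := hrec n
        rw [Finset.Nat.sum_antidiagonal_eq_sum_range_succ_mk, Finset.sum_range_succ] at h1
        simp only [Nat.sub_self, hU0, mul_one] at h1
        have h2 : γ n = V n - ∑ i ∈ Finset.range n, γ i * U (n - i) := by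
          rw [← h1]; ring
        rw [h2, mul_sub, Finset.mul_sum]
        refine InO.sub (pow_mono (Nat.zero_le _) (by simpa using hV n (Or.inr rfl))) ?_
        refine InO.sum _ _ fun i hi => ?_
        rw [Finset.mem_range] at hi
        have h3 : InO 0 ((1 - c * q ^ 0) ^ (i + 1) * (γ i * U (n - i))) := by
          rw [show (1 - c * q ^ 0) ^ (i + 1) * (γ i * U (n - i)) =
            ((1 - c * q ^ 0) ^ i * γ i) * ((1 - c * q ^ 0) * U (n - i)) by ring]
          exact (ih i hi).mul (hU' _)
        exact pow_mono (by omega) h3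
    have h0 : (1 - c : K) ≠ 0 := by simpa using alg_pr_ne 0
    have : (1 - c * q ^ 0) ^ ((n + 1) / (0 + 1)) * (γ n / (1 - c)) =
        (1 - c * q ^ 0) ^ n * γ n := by
      rw [pow_zero, mul_one, zero_add, Nat.div_one, pow_succ]
      field_simp
    rw [this]
    exact key n
  · have key : ∀ n, InO k ((1 - c * q ^ k) ^ ((n + 1) / (k + 1)) * γ n) := by
      intro n
      induction n using Nat.strong_induction_on with
      | _ n ih =>
        have h1 := hrec n
        rw [Finset.Nat.sum_antidiagonal_eq_sum_range_succ_mk, Finset.sum_range_succ] at h1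
        simp only [Nat.sub_self, hU0, mul_one] at h1
        have h2 : γ n = V n - ∑ i ∈ Finset.range n, γ i * U (n - i) := by
          rw [← h1]; ring
        rw [h2, mul_sub, Finset.mul_sum]
        refine InO.sub ?_ ?_
        · rcases Nat.lt_or_ge n k with h | h
          · exact pow_mono (Nat.zero_le _) (by simpa using hV n (Or.inl h))
          · have : 1 ≤ (n + 1) / (k + 1) := by
              rw [Nat.one_le_div_iff (by omega)]; omega
            exact pow_mono this (by simpa using hV' n)
        · refine InO.sum _ _ fun i hi => ?_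
          rw [Finset.mem_range] at hi
          rcases Nat.lt_or_ge k (n - i) with h | h
          · have h3 : InO k ((1 - c * q ^ k) ^ ((i + 1) / (k + 1) + 1) * (γ i * U (n - i))) := by
              rw [show (1 - c * q ^ k) ^ ((i + 1) / (k + 1) + 1) * (γ i * U (n - i)) =
                ((1 - c * q ^ k) ^ ((i + 1) / (k + 1)) * γ i) * ((1 - c * q ^ k) * U (n - i)) by
                ring]
              exact (ih i hi).mul (hU' _)
            refine pow_mono ?_ h3
            rw [← Nat.add_div_right _ (by omega : 0 < k + 1)]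
            exact Nat.div_le_div_right (by omega)
          · have h3 : InO k ((1 - c * q ^ k) ^ ((i + 1) / (k + 1)) * (γ i * U (n - i))) := by
              rw [← mul_assoc]
              exact (ih i hi).mul (hU _ h)
            refine pow_mono ?_ h3
            exact Nat.div_le_div_right (by omega)
    rw [← mul_div_assoc, div_eq_mul_inv]
    refine (key n).mul ?_
    have := InO.inv_pr (k := k) (j := 0) (by omega)
    simpa using this

/-! ### elements with denominators a product of the primes -/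

/-- the product of primes given by an exponent vector -/
noncomputable def pp (E : ℕ →₀ ℕ) : R := E.prod fun j e => pr j ^ e

theorem pp_add (E E' : ℕ →₀ ℕ) : pp (E + E') = pp E * pp E' :=
  Finsupp.prod_add_index' (fun _ => pow_zero _) fun _ _ _ => pow_add _ _ _

theorem pp_single (k : ℕ) : pp (Finsupp.single k 1) = pr k := by
  unfold pp
  rw [Finsupp.prod_single_index (by simp), pow_one]

/-- `x` has a denominator that is a product of the primes `pr j` -/
def InS (x : K) : Prop := ∃ (E : ℕ →₀ ℕ) (r : R), algebraMap R K (pp E) * x = algebraMap R K r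

theorem pp_zero : pp 0 = 1 := by unfold pp; exact Finsupp.prod_zero_index

theorem InS.alg (r : R) : InS (algebraMap R K r) := ⟨0, r, by rw [pp_zero, map_one, one_mul]⟩

theorem InS.add {x y : K} (hx : InS x) (hy : InS y) : InS (x + y) := by
  obtain ⟨E, r, h⟩ := hx
  obtain ⟨E', r', h'⟩ := hy
  refine ⟨E + E', pp E' * r + pp E * r', ?_⟩
  rw [pp_add, map_mul, map_add, map_mul, map_mul, ← h, ← h']
  ring

theorem InS.mul {x y : K} (hx : InS x) (hy : InS y) : InS (x * y) := by
  obtain ⟨E, r, h⟩ := hx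
  obtain ⟨E', r', h'⟩ := hy
  refine ⟨E + E', r * r', ?_⟩
  rw [pp_add, map_mul, map_mul, ← h, ← h']
  ring

theorem InS.neg {x : K} (hx : InS x) : InS (-x) := by
  obtain ⟨E, r, h⟩ := hx
  exact ⟨E, -r, by rw [map_neg, ← h]; ring⟩

theorem InS.sub {x y : K} (hx : InS x) (hy : InS y) : InS (x - y) := by
  rw [sub_eq_add_neg]; exact hx.add hy.neg

theorem InS.sum {ι : Type} (s : Finset ι) (f : ι → K) (h : ∀ i ∈ s, InS (f i)) :
    InS (∑ i ∈ s, f i) := by
  classical
  induction s using Finset.induction_on with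
  | empty => simpa using InS.alg 0
  | insert i s hi ih =>
    rw [Finset.sum_insert hi]
    exact (h i (Finset.mem_insert_self _ _)).add (ih fun j hj => h j (Finset.mem_insert_of_mem hj))

theorem InS.of_pr_mul {x : K} (k : ℕ) (h : InS ((1 - c * q ^ k) * x)) : InS x := by
  obtain ⟨E, r, h⟩ := h
  refine ⟨E + Finsupp.single k 1, r, ?_⟩
  rw [pp_add, pp_single, map_mul, alg_pr, ← h]
  ring

/-- combining the local and the global information -/
theorem combine (x : K) (e : ℕ → ℕ) (hO : ∀ k, InO k ((1 - c * q ^ k) ^ e k * x)) (hS : InS x)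
    (n : ℕ) (hn : ∀ k, n ≤ k → e k = 0) :
    ∃ P : R, (∏ k ∈ Finset.range n, (1 - c * q ^ k) ^ e k) * x = algebraMap R K P := by
  -- reduce the exponents
  have key : ∀ (N : ℕ) (E : ℕ →₀ ℕ) (r : R), (E.sum fun _ m => m) = N →
      algebraMap R K (pp E) * x = algebraMap R K r →
      ∃ (E' : ℕ →₀ ℕ) (r' : R), (∀ k, E' k ≤ e k) ∧
        algebraMap R K (pp E') * x = algebraMap R K r' := by
    intro N
    induction N with
    | zero =>
      intro E r hE h
      have : E = 0 := by
        ext k
        by_contra hk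
        have h1 : k ∈ E.support := Finsupp.mem_support_iff.2 hk
        have h2 : E k ≤ E.sum fun _ m => m :=
          Finset.single_le_sum (f := fun k => E k) (fun _ _ => Nat.zero_le _) h1
        have h3 : E k ≠ 0 := hk
        omega
      exact ⟨E, r, fun k => by rw [this]; exact Nat.zero_le _, h⟩
    | succ N ih =>
      intro E r hE h
      by_cases hle : ∀ k, E k ≤ e k
      · exact ⟨E, r, hle, h⟩
      · push Not at hle
        obtain ⟨k, hk⟩ := hle
        obtain ⟨E', rfl⟩ : ∃ E', E = E' + Finsupp.single k 1 := by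
          refine ⟨E - Finsupp.single k 1, ?_⟩
          ext j
          by_cases hj : j = k
          · subst hj
            simp
            omega
          · simp [Ne.symm hj]
        have hk' : e k ≤ E' k := by
          simp at hk; omega
        -- `pr k` divides `r`
        obtain ⟨s, t, hs, hst⟩ := hO k
        obtain ⟨E'', hE''⟩ : ∃ E'' : ℕ →₀ ℕ, E' = E'' + Finsupp.single k (e k) := by
          refine ⟨E' - Finsupp.single k (e k), ?_⟩
          ext j
          by_cases hj : j = k
          · subst hj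
            simp
            omega
          · simp [Ne.symm hj]
        have hpp : pp (Finsupp.single k (e k)) = pr k ^ e k := by
          unfold pp
          rw [Finsupp.prod_single_index (by simp)]
        have h1 : s * r = pr k * (pp E'' * t) := by
          apply inj
          rw [map_mul, ← h, map_mul, map_mul, ← hst, pp_add, pp_single, hE'', pp_add, hpp, map_mul,
            map_mul, map_pow, alg_pr]
          ring
        have h2 : pr k ∣ s * r := ⟨_, h1⟩
        rw [dvd_iff, map_mul] at h2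
        have h3 : pr k ∣ r := dvd_iff.2 ((mul_eq_zero.1 h2).resolve_left hs)
        obtain ⟨r', rfl⟩ := h3
        refine ih E' r' ?_ ?_
        · rw [Finsupp.sum_add_index' (fun _ => rfl) (fun _ _ _ => rfl),
            Finsupp.sum_single_index rfl] at hE
          omega
        · apply mul_left_cancel₀ (alg_pr_ne k)
          rw [pp_add, pp_single, map_mul, alg_pr, map_mul, alg_pr] at h
          rw [← h]
          ring
  obtain ⟨E, r, h⟩ := hS
  obtain ⟨E', r', h1, h2⟩ := key _ E r rfl h
  have hsupp : E'.support ⊆ Finset.range n := by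
    intro k hk
    rw [Finset.mem_range]
    by_contra hcon
    have := hn k (not_lt.1 hcon)
    have h3 := h1 k
    exact (Finsupp.mem_support_iff.1 hk) (by omega)
  have h3 : pp E' = ∏ k ∈ Finset.range n, pr k ^ E' k := by
    unfold pp
    exact Finsupp.prod_of_support_subset _ hsupp _ fun _ _ => pow_zero _
  refine ⟨(∏ k ∈ Finset.range n, pr k ^ (e k - E' k)) * r', ?_⟩
  rw [map_mul, ← h2, h3, map_prod, map_prod, ← mul_assoc, ← Finset.prod_mul_distrib]
  congr 1
  refine Finset.prod_congr rfl fun k _ => ?_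
  rw [map_pow, map_pow, alg_pr, ← pow_add]
  congr 1
  have := h1 k
  omega

/-! ### contiguous relations -/

/-- the coefficients of `phi` -/
noncomputable def tt (x y w : K) (n : ℕ) : K := poch x n * poch y n / (poch q n * poch w n)

theorem coeff_phi (x y w : K) (n : ℕ) : PowerSeries.coeff n (phi x y w) = tt x y w n := by
  unfold phi tt
  rw [PowerSeries.coeff_mk]

theorem poch_zero (x : K) : poch x 0 = 1 := by unfold poch; simp

theorem poch_succ (x : K) (n : ℕ) : poch x (n + 1) = poch x n * (1 - x * q ^ n) := by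
  unfold poch; rw [Finset.prod_range_succ]

theorem poch_succ' (x : K) (n : ℕ) : poch x (n + 1) = (1 - x) * poch (x * q) n := by
  unfold poch
  rw [Finset.prod_range_succ', pow_zero, mul_one, mul_comm]
  congr 1
  refine Finset.prod_congr rfl fun j _ => ?_
  rw [pow_succ]; ring

theorem poch_q_ne (n : ℕ) : poch q n ≠ 0 := by
  unfold poch
  rw [Finset.prod_ne_zero_iff]
  intro j _
  rw [← pow_succ']
  exact one_sub_q_ne (by omega)

theorem poch_c_ne (i n : ℕ) : poch (c * q ^ i) n ≠ 0 := by
  unfold poch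
  rw [Finset.prod_ne_zero_iff]
  intro j _
  rw [mul_assoc, ← pow_add]
  exact alg_pr_ne _

theorem tt_zero (x y w : K) : tt x y w 0 = 1 := by
  unfold tt; simp [poch_zero]

theorem tt_comm (x y w : K) (n : ℕ) : tt x y w n = tt y x w n := by
  unfold tt; rw [mul_comm (poch x n)]

theorem phi_comm (x y w : K) : phi x y w = phi y x w := by
  ext n
  rw [coeff_phi, coeff_phi, tt_comm]

/-- the coefficient form of the contiguous relation with one shifted upper parameter -/
theorem tt_rel2 (x y : K) (i m : ℕ) :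
    (1 - c * q ^ i) * (1 - c * q ^ (i + 1)) *
      (tt x y (c * q ^ i) (m + 1) - tt (x * q) y (c * q ^ (i + 1)) (m + 1)) =
    (1 - y) * (c * q ^ i - x) * tt (x * q) (y * q) (c * q ^ (i + 2)) m := by
  have h1 := poch_q_ne m
  have h2 := poch_c_ne (i + 2) m
  have h3 := one_sub_q_ne (j := m + 1) (by omega)
  have h4 := alg_pr_ne i
  have h5 := alg_pr_ne (i + 1)
  have h6 := alg_pr_ne (i + 1 + m)
  have e1 : poch (c * q ^ (i + 1)) (m + 1) =
      (1 - c * q ^ (i + 1)) * poch (c * q ^ (i + 2)) m := by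
    rw [poch_succ', mul_assoc c, ← pow_succ]
  have e2 : poch (c * q ^ (i + 1)) m * (1 - c * q ^ (i + 1 + m)) =
      (1 - c * q ^ (i + 1)) * poch (c * q ^ (i + 2)) m := by
    rw [← e1, poch_succ, mul_assoc c, ← pow_add]
  have e3 : poch (c * q ^ i) (m + 1) = (1 - c * q ^ i) * poch (c * q ^ (i + 1)) m := by
    rw [poch_succ', mul_assoc c, ← pow_succ]
  have e4 : poch (c * q ^ (i + 1)) m =
      (1 - c * q ^ (i + 1)) * poch (c * q ^ (i + 2)) m / (1 - c * q ^ (i + 1 + m)) := by
    rw [← e2]; field_simp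
  unfold tt
  rw [e1, e3, e4, poch_succ' x, poch_succ' y, poch_succ (x * q), poch_succ q, ← pow_succ' q m]
  have e5 : q ^ (m + 1) = q ^ m * q := pow_succ _ _
  have e6 : q ^ (i + 1 + m) = q ^ i * q ^ m * q := by ring
  field_simp
  ring

/-- the coefficient form of the contiguous relation with two shifted upper parameters -/
theorem tt_rel1 (x y : K) (i m : ℕ) :
    (1 - c * q ^ i) * (1 - c * q ^ (i + 1)) * tt x y (c * q ^ i) (m + 2) =
      (1 - c * q ^ i) * (1 - c * q ^ (i + 1)) *
        tt (x * q) (y * q) (c * q ^ (i + 1)) (m + 2) +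
      (1 - c * q ^ (i + 1)) * ((1 - x) * (1 - y) - (1 - x * y * q)) *
        tt (x * q) (y * q) (c * q ^ (i + 1)) (m + 1) +
      (1 - x * q) * (1 - y * q) *
        (c * q ^ i * tt (x * q * q) (y * q * q) (c * q ^ (i + 2)) (m + 1) -
          x * y * q * tt (x * q * q) (y * q * q) (c * q ^ (i + 2)) m) := by
  have h1 := poch_q_ne m
  have h2 := poch_c_ne (i + 2) m
  have h3 := one_sub_q_ne (j := m + 1) (by omega)
  have h3' := one_sub_q_ne (j := m + 2) (by omega)
  have h4 := alg_pr_ne i
  have h5 := alg_pr_ne (i + 1)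
  have h6 := alg_pr_ne (i + 2 + m)
  have e1 : ∀ j, poch (c * q ^ (i + 1)) (j + 1) =
      (1 - c * q ^ (i + 1)) * poch (c * q ^ (i + 2)) j := by
    intro j
    rw [poch_succ', mul_assoc c, ← pow_succ]
  have e3 : poch (c * q ^ i) (m + 2) =
      (1 - c * q ^ i) * ((1 - c * q ^ (i + 1)) * poch (c * q ^ (i + 2)) m) := by
    rw [poch_succ', mul_assoc c, ← pow_succ, e1]
  have e4 : poch (c * q ^ (i + 2)) (m + 1) =
      poch (c * q ^ (i + 2)) m * (1 - c * q ^ (i + 2 + m)) := by
    rw [poch_succ, mul_assoc c, ← pow_add]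
  have e7 : poch q (m + 2) = poch q m * (1 - q ^ (m + 1)) * (1 - q ^ (m + 2)) := by
    rw [poch_succ, poch_succ, ← pow_succ', ← pow_succ']
  have e8 : poch q (m + 1) = poch q m * (1 - q ^ (m + 1)) := by
    rw [poch_succ, ← pow_succ']
  have e9 : ∀ u : K, poch u (m + 2) = (1 - u) * (1 - u * q) * poch (u * q * q) m := by
    intro u
    rw [poch_succ', poch_succ', ← mul_assoc]
  have e10 : ∀ u : K, poch (u * q) (m + 2) =
      (1 - u * q) * (poch (u * q * q) m * (1 - u * q * q * q ^ m)) := by
    intro u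
    rw [poch_succ', poch_succ]
  have e11 : ∀ u : K, poch (u * q) (m + 1) = (1 - u * q) * poch (u * q * q) m := by
    intro u
    rw [poch_succ']
  have e12 : ∀ u : K, poch (u * q * q) (m + 1) =
      poch (u * q * q) m * (1 - u * q * q * q ^ m) := by
    intro u
    rw [poch_succ]
  unfold tt
  rw [e3, e7, e8, e1, e1, e4, e9 x, e9 y, e10 x, e10 y, e11 x, e11 y, e12 x, e12 y]
  have e5 : q ^ (m + 1) = q ^ m * q := pow_succ _ _
  have e5' : q ^ (m + 2) = q ^ m * q * q := by ring
  have e6 : q ^ (i + 2 + m) = q ^ i * q ^ m * q * q := by ring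
  field_simp
  ring

theorem tt_rel1_one (x y : K) (i : ℕ) :
    (1 - c * q ^ i) * (1 - c * q ^ (i + 1)) * tt x y (c * q ^ i) 1 =
      (1 - c * q ^ i) * (1 - c * q ^ (i + 1)) *
        tt (x * q) (y * q) (c * q ^ (i + 1)) 1 +
      (1 - c * q ^ (i + 1)) * ((1 - x) * (1 - y) - (1 - x * y * q)) +
      (1 - x * q) * (1 - y * q) * (c * q ^ i) := by
  have h3 := one_sub_q_ne (j := 1) (by omega)
  have h4 := alg_pr_ne i
  have h5 := alg_pr_ne (i + 1)
  have e : ∀ u : K, poch u 1 = 1 - u := by
    intro u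
    unfold poch
    simp
  unfold tt
  rw [e, e, e, e, e, e, e]
  rw [pow_one] at h3
  field_simp
  ring

open PowerSeries in
theorem rel2 (x y : K) (i : ℕ) :
    PowerSeries.C (1 - c * q ^ i) * PowerSeries.C (1 - c * q ^ (i + 1)) * phi x y (c * q ^ i) =
      PowerSeries.C (1 - c * q ^ i) * PowerSeries.C (1 - c * q ^ (i + 1)) *
        phi (x * q) y (c * q ^ (i + 1)) +
      PowerSeries.X * (PowerSeries.C ((1 - y) * (c * q ^ i - x)) *
        phi (x * q) (y * q) (c * q ^ (i + 2))) := by
  ext n
  rcases n with _ | m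
  · rw [map_add, PowerSeries.coeff_zero_X_mul, add_zero, ← map_mul, PowerSeries.coeff_C_mul,
      PowerSeries.coeff_C_mul, coeff_phi, coeff_phi, tt_zero, tt_zero]
  · rw [map_add, PowerSeries.coeff_succ_X_mul, ← map_mul, PowerSeries.coeff_C_mul,
      PowerSeries.coeff_C_mul, PowerSeries.coeff_C_mul, coeff_phi, coeff_phi, coeff_phi]
    linear_combination tt_rel2 x y i m

open PowerSeries in
theorem rel1 (x y : K) (i : ℕ) :
    PowerSeries.C (1 - c * q ^ i) * PowerSeries.C (1 - c * q ^ (i + 1)) * phi x y (c * q ^ i) =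
      PowerSeries.C (1 - c * q ^ i) * PowerSeries.C (1 - c * q ^ (i + 1)) *
        phi (x * q) (y * q) (c * q ^ (i + 1)) +
      PowerSeries.X * (PowerSeries.C ((1 - c * q ^ (i + 1)) *
          ((1 - x) * (1 - y) - (1 - x * y * q))) *
        phi (x * q) (y * q) (c * q ^ (i + 1))) +
      PowerSeries.X * (PowerSeries.C ((1 - x * q) * (1 - y * q) * (c * q ^ i)) *
        phi (x * q * q) (y * q * q) (c * q ^ (i + 2))) -
      PowerSeries.X * (PowerSeries.X *
        (PowerSeries.C ((1 - x * q) * (1 - y * q) * (x * y * q)) *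
        phi (x * q * q) (y * q * q) (c * q ^ (i + 2)))) := by
  ext n
  rcases n with _ | _ | m
  · rw [map_sub (PowerSeries.coeff _), map_add (PowerSeries.coeff _), map_add (PowerSeries.coeff _),
      PowerSeries.coeff_zero_X_mul, PowerSeries.coeff_zero_X_mul,
      PowerSeries.coeff_zero_X_mul, add_zero, add_zero, sub_zero, ← map_mul,
      PowerSeries.coeff_C_mul, PowerSeries.coeff_C_mul, coeff_phi, coeff_phi, tt_zero, tt_zero]
  · rw [map_sub (PowerSeries.coeff _), map_add (PowerSeries.coeff _), map_add (PowerSeries.coeff _),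
      PowerSeries.coeff_succ_X_mul, PowerSeries.coeff_succ_X_mul,
      PowerSeries.coeff_succ_X_mul, PowerSeries.coeff_zero_X_mul, ← map_mul,
      PowerSeries.coeff_C_mul, PowerSeries.coeff_C_mul, PowerSeries.coeff_C_mul,
      PowerSeries.coeff_C_mul, coeff_phi, coeff_phi, coeff_phi, coeff_phi, tt_zero, tt_zero]
    linear_combination tt_rel1_one x y i
  · rw [map_sub (PowerSeries.coeff _), map_add (PowerSeries.coeff _), map_add (PowerSeries.coeff _),
      PowerSeries.coeff_succ_X_mul, PowerSeries.coeff_succ_X_mul,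
      PowerSeries.coeff_succ_X_mul, PowerSeries.coeff_succ_X_mul, ← map_mul,
      PowerSeries.coeff_C_mul, PowerSeries.coeff_C_mul, PowerSeries.coeff_C_mul,
      PowerSeries.coeff_C_mul, PowerSeries.coeff_C_mul]
    simp only [coeff_phi]
    linear_combination tt_rel1 x y i m

theorem constantCoeff_phi (x y w : K) : PowerSeries.constantCoeff (phi x y w) = 1 := by
  rw [← PowerSeries.coeff_zero_eq_constantCoeff_apply, coeff_phi, tt_zero]

theorem phi_inv_mul (x y w : K) : (phi x y w)⁻¹ * phi x y w = 1 :=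
  PowerSeries.inv_mul_cancel _ (by rw [constantCoeff_phi]; exact one_ne_zero)

theorem phi_ne (x y w : K) : phi x y w ≠ 0 := by
  intro h
  have := constantCoeff_phi x y w
  rw [h, map_zero] at this
  exact zero_ne_one this

theorem C_ne {u : K} (hu : u ≠ 0) : (PowerSeries.C u : PowerSeries K) ≠ 0 := by
  intro h
  apply hu
  have := congrArg PowerSeries.constantCoeff h
  simpa using this

/-- the normalized quotient for the first problem -/
noncomputable def G1 (x y : K) (i : ℕ) : PowerSeries K :=
  PowerSeries.C (1 - c * q ^ i)⁻¹ * (phi (x * q) (y * q) (c * q ^ (i + 1)) *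
    (phi x y (c * q ^ i))⁻¹)

/-- the normalized quotient for the second problem -/
noncomputable def G2 (x y : K) (i : ℕ) : PowerSeries K :=
  PowerSeries.C (1 - c * q ^ i)⁻¹ * (phi (x * q) y (c * q ^ (i + 1)) *
    (phi x y (c * q ^ i))⁻¹)

theorem C_inv_mul {u : K} (hu : u ≠ 0) :
    (PowerSeries.C u⁻¹ : PowerSeries K) * PowerSeries.C u = 1 := by
  rw [← map_mul, inv_mul_cancel₀ hu, map_one]

theorem G1_mul (x y : K) (i : ℕ) :
    G1 x y i * (PowerSeries.C (1 - c * q ^ i) * phi x y (c * q ^ i)) =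
      phi (x * q) (y * q) (c * q ^ (i + 1)) := by
  unfold G1
  have e1 := C_inv_mul (alg_pr_ne i)
  have e2 := phi_inv_mul x y (c * q ^ i)
  linear_combination (phi (x * q) (y * q) (c * q ^ (i + 1)) * (phi x y (c * q ^ i))⁻¹ *
    phi x y (c * q ^ i)) * e1 + phi (x * q) (y * q) (c * q ^ (i + 1)) * e2

theorem G2_mul (x y : K) (i : ℕ) :
    G2 x y i * (PowerSeries.C (1 - c * q ^ i) * phi x y (c * q ^ i)) =
      phi (x * q) y (c * q ^ (i + 1)) := by
  unfold G2
  have e1 := C_inv_mul (alg_pr_ne i)
  have e2 := phi_inv_mul x y (c * q ^ i)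
  linear_combination (phi (x * q) y (c * q ^ (i + 1)) * (phi x y (c * q ^ i))⁻¹ *
    phi x y (c * q ^ i)) * e1 + phi (x * q) y (c * q ^ (i + 1)) * e2

theorem G1_eq (x y : K) (i : ℕ) :
    G1 x y i * (PowerSeries.C (1 - c * q ^ i) + PowerSeries.X *
      (PowerSeries.C ((1 - x) * (1 - y) - (1 - x * y * q)) +
        (PowerSeries.C ((1 - x * q) * (1 - y * q) * (c * q ^ i)) -
          PowerSeries.X * PowerSeries.C ((1 - x * q) * (1 - y * q) * (x * y * q))) *
        G1 (x * q) (y * q) (i + 1))) = 1 := by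
  have h1 := G1_mul x y i
  have h2 := G1_mul (x * q) (y * q) (i + 1)
  have h3 := rel1 x y i
  rw [map_mul (PowerSeries.C) (1 - c * q ^ (i + 1))] at h3
  have hu' : (PowerSeries.C (1 - c * q ^ (i + 1)) : PowerSeries K) ≠ 0 := C_ne (alg_pr_ne _)
  have hu : (PowerSeries.C (1 - c * q ^ i) : PowerSeries K) ≠ 0 := C_ne (alg_pr_ne _)
  have hF := phi_ne x y (c * q ^ i)
  apply mul_left_cancel₀ (mul_ne_zero (mul_ne_zero hu hu') hF)
  rw [show i + 1 + 1 = i + 2 from rfl] at h2
  generalize (PowerSeries.C (1 - c * q ^ (i + 1)) : PowerSeries K) = u' at *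
  generalize (PowerSeries.C (1 - c * q ^ i) : PowerSeries K) = u at *
  generalize phi x y (c * q ^ i) = F0 at *
  generalize phi (x * q) (y * q) (c * q ^ (i + 1)) = F1 at *
  generalize phi (x * q * q) (y * q * q) (c * q ^ (i + 2)) = F2 at *
  generalize G1 x y i = g at *
  generalize G1 (x * q) (y * q) (i + 1) = g' at *
  generalize (PowerSeries.C ((1 - x * q) * (1 - y * q) * (c * q ^ i)) : PowerSeries K) = r at *
  generalize (PowerSeries.C ((1 - x * q) * (1 - y * q) * (x * y * q)) : PowerSeries K) = s at *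
  generalize (PowerSeries.C ((1 - x) * (1 - y) - (1 - x * y * q)) : PowerSeries K) = t at *
  generalize (PowerSeries.X : PowerSeries K) = z at *
  linear_combination (u' * (u + z * (t + (r - z * s) * g'))) * h1 + z * (r - z * s) * h2 - h3

theorem G2_eq (x y : K) (i : ℕ) :
    G2 x y i * (PowerSeries.C (1 - c * q ^ i) + PowerSeries.X *
      (PowerSeries.C ((1 - y) * (c * q ^ i - x)) * G2 y (x * q) (i + 1))) = 1 := by
  have h1 := G2_mul x y i
  have h2 := G2_mul y (x * q) (i + 1)
  rw [phi_comm y (x * q), phi_comm (y * q) (x * q)] at h2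
  have h3 := rel2 x y i
  have hu' : (PowerSeries.C (1 - c * q ^ (i + 1)) : PowerSeries K) ≠ 0 := C_ne (alg_pr_ne _)
  have hu : (PowerSeries.C (1 - c * q ^ i) : PowerSeries K) ≠ 0 := C_ne (alg_pr_ne _)
  have hF := phi_ne x y (c * q ^ i)
  apply mul_left_cancel₀ (mul_ne_zero (mul_ne_zero hu hu') hF)
  rw [show i + 1 + 1 = i + 2 from rfl] at h2
  generalize (PowerSeries.C (1 - c * q ^ (i + 1)) : PowerSeries K) = u' at *
  generalize (PowerSeries.C (1 - c * q ^ i) : PowerSeries K) = u at *
  generalize phi x y (c * q ^ i) = F0 at *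
  generalize phi (x * q) y (c * q ^ (i + 1)) = F1 at *
  generalize phi (x * q) (y * q) (c * q ^ (i + 2)) = F2 at *
  generalize G2 x y i = g at *
  generalize G2 y (x * q) (i + 1) = g' at *
  generalize (PowerSeries.C ((1 - y) * (c * q ^ i - x)) : PowerSeries K) = r at *
  generalize (PowerSeries.X : PowerSeries K) = z at *
  linear_combination (u' * (u + z * (r * g'))) * h1 + z * r * h2 - h3

/-- one step of the induction -/
theorem InS.step {G H : PowerSeries K} {i : ℕ} (n : ℕ)
    (h : G * (PowerSeries.C (1 - c * q ^ i) + PowerSeries.X * H) = 1)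
    (hH : ∀ m, m < n → InS (PowerSeries.coeff m H)) :
    ∀ m, m ≤ n → InS (PowerSeries.coeff m G) := by
  intro m
  induction m using Nat.strong_induction_on with
  | _ m ih =>
    intro hm
    apply InS.of_pr_mul i
    have h1 := congrArg (PowerSeries.coeff m) h
    rw [mul_add, map_add, mul_comm G (PowerSeries.C _), PowerSeries.coeff_C_mul] at h1
    rcases m with _ | m
    · rw [mul_left_comm, PowerSeries.coeff_zero_X_mul, add_zero] at h1
      rw [h1]
      simpa using InS.alg 1
    · rw [mul_left_comm, PowerSeries.coeff_succ_X_mul, PowerSeries.coeff_mul,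
        PowerSeries.coeff_one, if_neg (by omega)] at h1
      rw [eq_neg_of_add_eq_zero_left h1]
      refine InS.neg (InS.sum _ _ fun p hp => ?_)
      rw [Finset.HasAntidiagonal.mem_antidiagonal] at hp
      exact (ih p.1 (by omega) (by omega)).mul (hH p.2 (by omega))

theorem InS.q_mul {x : K} (h : ∃ r : R, x = algebraMap R K r) :
    ∃ r : R, x * q = algebraMap R K r := by
  obtain ⟨r, rfl⟩ := h
  exact ⟨r * X 3, by rw [map_mul]; rfl⟩

theorem InS.G1 (n : ℕ) : ∀ (x y : K), (∃ r : R, x = algebraMap R K r) →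
    (∃ r : R, y = algebraMap R K r) → ∀ i m : ℕ, m ≤ n →
      InS (PowerSeries.coeff m (QHyp.G1 x y i)) := by
  induction n with
  | zero =>
    intro x y hx hy i
    refine InS.step 0 (G1_eq x y i) ?_
    intro m hm
    omega
  | succ n ih =>
    intro x y hx hy i
    refine InS.step (n + 1) (G1_eq x y i) ?_
    intro m hm
    have h1 := ih (x * q) (y * q) (InS.q_mul hx) (InS.q_mul hy) (i + 1)
    obtain ⟨r, rfl⟩ := hx
    obtain ⟨s, rfl⟩ := hy
    have hc : ∀ f : R, InS (algebraMap R K f) := InS.alg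
    rw [map_add (PowerSeries.coeff m), sub_mul (PowerSeries.C _) (PowerSeries.X * _),
      map_sub (PowerSeries.coeff m), PowerSeries.coeff_C_mul, mul_assoc PowerSeries.X]
    refine InS.add ?_ (InS.sub (InS.mul ?_ (h1 m (by omega))) ?_)
    · rw [PowerSeries.coeff_C]
      split_ifs
      · convert hc ((1 - r) * (1 - s) - (1 - r * s * X 3)) using 1
        simp only [map_sub, map_mul, map_one]
        rfl
      · simpa using hc 0
    · convert hc ((1 - r * X 3) * (1 - s * X 3) * (X 2 * X 3 ^ i)) using 1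
      simp only [map_sub, map_mul, map_one, map_pow]
      rfl
    · rcases m with _ | m
      · rw [PowerSeries.coeff_zero_X_mul]
        simpa using hc 0
      · rw [PowerSeries.coeff_succ_X_mul, PowerSeries.coeff_C_mul]
        refine InS.mul ?_ (h1 m (by omega))
        convert hc ((1 - r * X 3) * (1 - s * X 3) * (r * s * X 3)) using 1
        simp only [map_sub, map_mul, map_one]
        rfl

theorem InS.G2 (n : ℕ) : ∀ (x y : K), (∃ r : R, x = algebraMap R K r) →
    (∃ r : R, y = algebraMap R K r) → ∀ i m : ℕ, m ≤ n →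
      InS (PowerSeries.coeff m (QHyp.G2 x y i)) := by
  induction n with
  | zero =>
    intro x y hx hy i
    refine InS.step 0 (G2_eq x y i) ?_
    intro m hm
    omega
  | succ n ih =>
    intro x y hx hy i
    refine InS.step (n + 1) (G2_eq x y i) ?_
    intro m hm
    have h1 := ih y (x * q) hy (InS.q_mul hx) (i + 1)
    obtain ⟨r, rfl⟩ := hx
    obtain ⟨s, rfl⟩ := hy
    rw [PowerSeries.coeff_C_mul]
    refine InS.mul ?_ (h1 m (by omega))
    convert InS.alg ((1 - s) * (X 2 * X 3 ^ i - r)) using 1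
    simp only [map_sub, map_mul, map_one, map_pow]
    rfl

theorem InO.tt {k i m : ℕ} {x y : K} (hx : InO k x) (hy : InO k y)
    (h : m + i ≤ k ∨ k < i) : InO k (QHyp.tt x y (c * q ^ i) m) := by
  unfold QHyp.tt
  rw [div_eq_mul_inv, mul_inv]
  exact ((InO.poch hx m).mul (InO.poch hy m)).mul ((InO.inv_poch_q k m).mul
    (InO.inv_poch_c k i m h))

theorem InO.pr_tt {k i m : ℕ} {x y : K} (hx : InO k x) (hy : InO k y) :
    InO k ((1 - c * q ^ k) * QHyp.tt x y (c * q ^ i) m) := by
  unfold QHyp.tt
  rw [div_eq_mul_inv, mul_inv, show (1 - c * q ^ k) * (QHyp.poch x m * QHyp.poch y m *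
    ((QHyp.poch q m)⁻¹ * (QHyp.poch (c * q ^ i) m)⁻¹)) = (QHyp.poch x m * QHyp.poch y m) *
    ((QHyp.poch q m)⁻¹ * ((1 - c * q ^ k) * (QHyp.poch (c * q ^ i) m)⁻¹)) by ring]
  exact ((InO.poch hx m).mul (InO.poch hy m)).mul ((InO.inv_poch_q k m).mul
    (InO.pr_inv_poch_c k i m))

/-- the main result in a form that covers both problems -/
theorem main (x' y' : K) (hx' : ∀ k, InO k x') (hy' : ∀ k, InO k y')
    (hS : ∀ n, InS (PowerSeries.coeff n (phi x' y' (c * q) * (phi a b c)⁻¹) / (1 - c)))
    (n : ℕ) :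
    ∃ P : R, (∏ k ∈ Finset.range (n + 1), (1 - c * q ^ k) ^ ((n + 1) / (k + 1))) *
      (PowerSeries.coeff n (phi x' y' (c * q) * (phi a b c)⁻¹) / (1 - c)) =
        algebraMap R K P := by
  have ha : ∀ k, InO k a := fun k => InO.alg k (X 0)
  have hb : ∀ k, InO k b := fun k => InO.alg k (X 1)
  refine combine _ (fun k => (n + 1) / (k + 1)) (fun k => ?_) (hS n) (n + 1) ?_
  · refine pole_bound (U := tt a b c) (V := tt x' y' (c * q))
      (γ := fun m => PowerSeries.coeff m (phi x' y' (c * q) * (phi a b c)⁻¹)) (tt_zero _ _ _)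
      ?_ k ?_ ?_ ?_ ?_ n
    · intro m
      have h := congrArg (PowerSeries.coeff m) (show (phi x' y' (c * q) * (phi a b c)⁻¹) *
        phi a b c = phi x' y' (c * q) by rw [mul_assoc, phi_inv_mul, mul_one])
      rw [PowerSeries.coeff_mul] at h
      simp only [coeff_phi] at h
      exact h
    · intro m hm
      have := InO.tt (m := m) (i := 0) (ha k) (hb k) (Or.inl (by omega))
      simpa using this
    · intro m
      have := InO.pr_tt (m := m) (i := 0) (ha k) (hb k)
      simpa using this
    · intro m hm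
      have := InO.tt (m := m) (i := 1) (hx' k) (hy' k) (by omega)
      simpa using this
    · intro m
      have := InO.pr_tt (m := m) (i := 1) (hx' k) (hy' k)
      simpa using this
  · intro k hk
    exact Nat.div_eq_of_lt (by omega)

theorem main1 (n : ℕ) :
    ∃ P : R, (∏ k ∈ Finset.range (n + 1), (1 - c * q ^ k) ^ ((n + 1) / (k + 1))) *
      (PowerSeries.coeff n (phi (a * q) (b * q) (c * q) * (phi a b c)⁻¹) / (1 - c)) =
        algebraMap R K P := by
  refine main _ _ (fun k => InO.mul (InO.alg k (X 0)) (InO.alg k (X 3)))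
    (fun k => InO.mul (InO.alg k (X 1)) (InO.alg k (X 3))) (fun m => ?_) n
  have := InS.G1 m a b ⟨X 0, rfl⟩ ⟨X 1, rfl⟩ 0 m le_rfl
  unfold QHyp.G1 at this
  rw [PowerSeries.coeff_C_mul, pow_zero, zero_add, pow_one, mul_one] at this
  rw [div_eq_inv_mul]
  exact this

theorem main2 (n : ℕ) :
    ∃ P : R, (∏ k ∈ Finset.range (n + 1), (1 - c * q ^ k) ^ ((n + 1) / (k + 1))) *
      (PowerSeries.coeff n (phi (a * q) b (c * q) * (phi a b c)⁻¹) / (1 - c)) =
        algebraMap R K P := by
  refine main _ _ (fun k => InO.mul (InO.alg k (X 0)) (InO.alg k (X 3)))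
    (fun k => InO.alg k (X 1)) (fun m => ?_) n
  have := InS.G2 m a b ⟨X 0, rfl⟩ ⟨X 1, rfl⟩ 0 m le_rfl
  unfold QHyp.G2 at this
  rw [PowerSeries.coeff_C_mul, pow_zero, zero_add, pow_one, mul_one] at this
  rw [div_eq_inv_mul]
  exact this

end Q138.QHyp
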