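import Mathlib

set_option autoImplicit false

/-!
Real central hyperplane arrangements, their chambers, tope graphs and magnitudes.
-/

namespace Q138.TopeMag

/-- An arrangement in `ℝ^d`: finitely many linear hyperplanes, given by nonzero linear forms with
pairwise distinct kernels. -/
structure Arrangement (d : ℕ) where
  ι : Type
  [fin : Fintype ι]
  form : ι → Module.Dual ℝ (Fin d → ℝ)
  form_ne_zero : ∀ i, form i ≠ 0
  ker_injective : Function.Injective fun i => LinearMap.ker (form i)

attribute [instance] Arrangement.fin

namespace Arrangement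

variable {d : ℕ} (A : Arrangement d)

/-- The number of hyperplanes. -/
def size : ℕ := Fintype.card A.ι

/-- The rank: the codimension of the intersection of all hyperplanes. -/
noncomputable def rank : ℕ := d - Module.finrank ℝ (⨅ i, LinearMap.ker (A.form i) : Submodule ℝ _)

/-- The complement of the union of the hyperplanes. -/
def complement : Set (Fin d → ℝ) := {x | ∀ i, A.form i x ≠ 0}

/-- The chambers: the connected components of the complement. -/
def Chamber : Type :=
  {C : Set (Fin d → ℝ) // ∃ x ∈ A.complement, C = connectedComponentIn A.complement x}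

/-- The hyperplane with index `i` separates the chambers `C` and `D`: they lie on different
sides of it. -/
def Separates (i : A.ι) (C D : A.Chamber) : Prop :=
  ∀ x ∈ C.1, ∀ y ∈ D.1, A.form i x * A.form i y < 0

/-- The number of hyperplanes that separate two chambers. -/
noncomputable def sep (C D : A.Chamber) : ℕ := {i | A.Separates i C D}.ncard

/-! #### chambers and sign vectors -/

theorem continuous_form (i : A.ι) : Continuous (A.form i) :=
  LinearMap.continuous_of_finiteDimensional _

theorem component_eq {x : Fin d → ℝ} (hx : x ∈ A.complement) :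
    connectedComponentIn A.complement x = {y | ∀ i, 0 < A.form i x * A.form i y} := by
  apply Set.Subset.antisymm
  · intro y hy i
    by_contra hcon
    have hyM : y ∈ A.complement := connectedComponentIn_subset _ _ hy
    have hpre : IsPreconnected (A.form i '' connectedComponentIn A.complement x) :=
      isPreconnected_connectedComponentIn.image _ (A.continuous_form i).continuousOn
    have h1 : A.form i x ∈ A.form i '' connectedComponentIn A.complement x :=
      ⟨x, mem_connectedComponentIn hx, rfl⟩
    have h2 : A.form i y ∈ A.form i '' connectedComponentIn A.complement x := ⟨y, hy, rfl⟩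
    have h0 : (0 : ℝ) ∈ A.form i '' connectedComponentIn A.complement x := by
      have hx0 := hx i
      have hy0 := hyM i
      rcases lt_or_gt_of_ne hx0 with hx1 | hx1
      · have hy1 : 0 < A.form i y := by
          rcases lt_or_gt_of_ne hy0 with h | h
          · exact absurd (mul_pos_of_neg_of_neg hx1 h) hcon
          · exact h
        exact hpre.ordConnected.out h1 h2 ⟨hx1.le, hy1.le⟩
      · have hy1 : A.form i y < 0 := by
          rcases lt_or_gt_of_ne hy0 with h | h
          · exact h
          · exact absurd (mul_pos hx1 h) hcon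
        exact hpre.ordConnected.out h2 h1 ⟨hy1.le, hx1.le⟩
    obtain ⟨z, hz, hz0⟩ := h0
    exact connectedComponentIn_subset _ _ hz i hz0
  · apply IsPreconnected.subset_connectedComponentIn
    · apply Convex.isPreconnected
      have : {y : Fin d → ℝ | ∀ i, 0 < A.form i x * A.form i y} =
          ⋂ i, {y | 0 < A.form i x * A.form i y} := by
        ext y; simp
      rw [this]
      refine convex_iInter fun i => ?_
      have h := (convex_Ioi (0 : ℝ)).is_linear_preimage
        ((A.form i x) • A.form i).isLinear
      exact h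
    · intro i
      exact mul_self_pos.2 (hx i)
    · intro y hy i h0
      have := hy i
      rw [h0, mul_zero] at this
      exact lt_irrefl _ this

open Classical in
/-- the sign vector of a chamber -/
noncomputable def toSign (C : A.Chamber) : A.ι → Bool := fun i => decide (0 < A.form i C.2.choose)

theorem toSign_spec (C : A.Chamber) {x : Fin d → ℝ} (hx : x ∈ C.1) (i : A.ι) :
    (A.toSign C i = true ∧ 0 < A.form i x) ∨ (A.toSign C i = false ∧ A.form i x < 0) := by
  obtain ⟨h1, h2⟩ := C.2.choose_spec
  rw [h2, A.component_eq h1] at hx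
  have h3 := hx i
  unfold toSign
  set z := C.2.choose with hz
  rcases lt_or_gt_of_ne (h1 i) with h | h
  · right
    refine ⟨by simp [h.le], ?_⟩
    exact neg_of_mul_pos_right h3 h.le
  · left
    refine ⟨by simp [h], ?_⟩
    exact (pos_iff_pos_of_mul_pos h3).1 h

theorem chamber_nonempty (C : A.Chamber) : ∃ x ∈ A.complement, x ∈ C.1 := by
  obtain ⟨x, hx, h⟩ := C.2
  refine ⟨x, hx, ?_⟩
  rw [h]
  exact mem_connectedComponentIn hx

theorem toSign_injective : Function.Injective A.toSign := by
  intro C D h
  obtain ⟨x, hx, hxC⟩ := A.chamber_nonempty C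
  obtain ⟨y, hy, hyD⟩ := A.chamber_nonempty D
  have hxy : y ∈ connectedComponentIn A.complement x := by
    rw [A.component_eq hx]
    intro i
    have h1 := A.toSign_spec C hxC i
    have h2 := A.toSign_spec D hyD i
    rw [← h] at h2
    rcases h1 with ⟨a, b⟩ | ⟨a, b⟩ <;> rcases h2 with ⟨a', b'⟩ | ⟨a', b'⟩
    · exact mul_pos b b'
    · rw [a] at a'; exact absurd a' (by decide)
    · rw [a] at a'; exact absurd a' (by decide)
    · exact mul_pos_of_neg_of_neg b b'
  have e1 : C.1 = connectedComponentIn A.complement x := by
    obtain ⟨x', hx', h'⟩ := C.2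
    rw [h'] at hxC ⊢
    exact connectedComponentIn_eq hxC
  have e2 : D.1 = connectedComponentIn A.complement y := by
    obtain ⟨x', hx', h'⟩ := D.2
    rw [h'] at hyD ⊢
    exact connectedComponentIn_eq hyD
  apply Subtype.ext
  rw [e1, e2]
  exact connectedComponentIn_eq hxy

instance : Finite A.Chamber := Finite.of_injective _ A.toSign_injective

theorem separates_iff (i : A.ι) (C D : A.Chamber) :
    A.Separates i C D ↔ A.toSign C i ≠ A.toSign D i := by
  obtain ⟨x, hx, hxC⟩ := A.chamber_nonempty C
  obtain ⟨y, hy, hyD⟩ := A.chamber_nonempty D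
  constructor
  · intro h heq
    have h0 := h x hxC y hyD
    rcases A.toSign_spec C hxC i with ⟨a, b⟩ | ⟨a, b⟩ <;>
      rcases A.toSign_spec D hyD i with ⟨a', b'⟩ | ⟨a', b'⟩
    · exact absurd (mul_pos b b') (by linarith)
    · rw [a, a'] at heq; exact absurd heq (by decide)
    · rw [a, a'] at heq; exact absurd heq (by decide)
    · exact absurd (mul_pos_of_neg_of_neg b b') (by linarith)
  · intro h x' hx' y' hy'
    rcases A.toSign_spec C hx' i with ⟨a, b⟩ | ⟨a, b⟩ <;>
      rcases A.toSign_spec D hy' i with ⟨a', b'⟩ | ⟨a', b'⟩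
    · rw [a, a'] at h; exact absurd rfl h
    · exact mul_neg_of_pos_of_neg b b'
    · exact mul_neg_of_neg_of_pos b b'
    · rw [a, a'] at h; exact absurd rfl h

open Classical in
theorem sep_eq (C D : A.Chamber) :
    A.sep C D = (Finset.univ.filter fun i => A.toSign C i ≠ A.toSign D i).card := by
  unfold sep
  rw [← Set.ncard_coe_finset]
  congr 1
  ext i
  simp [A.separates_iff]

theorem sep_self (C : A.Chamber) : A.sep C C = 0 := by
  classical
  rw [A.sep_eq]
  simp

theorem sep_comm (C D : A.Chamber) : A.sep C D = A.sep D C := by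
  classical
  rw [A.sep_eq, A.sep_eq]
  congr 1
  ext i
  simp [eq_comm]

theorem eq_of_sep {C D : A.Chamber} (h : A.sep C D = 0) : C = D := by
  classical
  rw [A.sep_eq, Finset.card_eq_zero, Finset.filter_eq_empty_iff] at h
  apply A.toSign_injective
  funext i
  have := h (Finset.mem_univ i)
  simpa using this

/-- The tope graph: two chambers are adjacent when exactly one hyperplane separates them. -/
def topeGraph : SimpleGraph A.Chamber where
  Adj C D := A.sep C D = 1
  symm := ⟨fun C D h => by rwa [A.sep_comm]⟩
  loopless := ⟨fun C h => by rw [A.sep_self] at h; exact absurd h (by decide)⟩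

/-- The Varchenko matrix with entries `q ^ (number of separating hyperplanes)`, over `ℚ(q)`. -/
noncomputable def varchenko : Matrix A.Chamber A.Chamber (RatFunc ℚ) :=
  fun C D => RatFunc.X ^ A.sep C D

open Classical in
/-- The magnitude: the sum of all entries of the inverse of the Varchenko matrix. -/
noncomputable def magnitude : RatFunc ℚ :=
  haveI : Fintype A.Chamber := Fintype.ofFinite _
  ∑ C : A.Chamber, ∑ D : A.Chamber, (A.varchenko)⁻¹ C D

/-- the realizable sign vectors -/
def Realizable (σ : A.ι → Bool) : Prop :=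
  ∃ x : Fin d → ℝ, ∀ i, (σ i = true ∧ 0 < A.form i x) ∨ (σ i = false ∧ A.form i x < 0)

theorem realizable_toSign (C : A.Chamber) : A.Realizable (A.toSign C) := by
  obtain ⟨x, hx, hxC⟩ := A.chamber_nonempty C
  exact ⟨x, fun i => A.toSign_spec C hxC i⟩

theorem exists_chamber {σ : A.ι → Bool} (h : A.Realizable σ) : ∃ C : A.Chamber, A.toSign C = σ := by
  obtain ⟨x, hx⟩ := h
  have hxM : x ∈ A.complement := by
    intro i h0
    rcases hx i with ⟨_, h⟩ | ⟨_, h⟩ <;> rw [h0] at h <;> exact lt_irrefl _ h
  let C : A.Chamber := ⟨_, x, hxM, rfl⟩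
  refine ⟨C, funext fun i => ?_⟩
  have h1 := A.toSign_spec C (mem_connectedComponentIn hxM) i
  rcases hx i with ⟨a, b⟩ | ⟨a, b⟩ <;> rcases h1 with ⟨a', b'⟩ | ⟨a', b'⟩
  · rw [a, a']
  · exact absurd b (by linarith)
  · exact absurd b (by linarith)
  · rw [a, a']

/-- invertibility of the Varchenko matrix -/
theorem det_ne_zero [Fintype A.Chamber] [DecidableEq A.Chamber] : (A.varchenko).det ≠ 0 := by
  let Z : Matrix A.Chamber A.Chamber (Polynomial ℚ) := fun C D => Polynomial.X ^ A.sep C D
  have h1 : A.varchenko = Z.map (algebraMap (Polynomial ℚ) (RatFunc ℚ)) := by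
    ext C D
    simp [varchenko, Z, Matrix.map_apply]
  have h2 : (A.varchenko).det = algebraMap (Polynomial ℚ) (RatFunc ℚ) Z.det := by
    rw [h1, RingHom.map_det]
    rfl
  rw [h2]
  intro h0
  have h3 : Z.det = 0 := by
    apply RatFunc.algebraMap_injective ℚ
    rw [h0, map_zero]
  have h4 : (Polynomial.evalRingHom (0 : ℚ)) Z.det = 1 := by
    rw [RingHom.map_det]
    have : (Polynomial.evalRingHom (0 : ℚ)).mapMatrix Z = 1 := by
      ext C D
      rw [RingHom.mapMatrix_apply, Matrix.map_apply, Matrix.one_apply]
      simp only [Z, Polynomial.coe_evalRingHom, Polynomial.eval_pow, Polynomial.eval_X]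
      split_ifs with h
      · subst h; rw [A.sep_self, pow_zero]
      · exact zero_pow fun h' => h (A.eq_of_sep h')
    rw [this, Matrix.det_one]
  rw [h3, map_zero] at h4
  exact zero_ne_one h4

/-- the factor attached to two signs -/
noncomputable def fac (s t : Bool) : RatFunc ℚ := if s = t then 1 else RatFunc.X

theorem entry_eq (C D : A.Chamber) :
    A.varchenko C D = ∏ i, fac (A.toSign C i) (A.toSign D i) := by
  classical
  unfold varchenko fac
  rw [A.sep_eq, Finset.prod_ite, Finset.prod_const_one, one_mul, Finset.prod_const]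

/-- computing the magnitude from a weighting on all sign vectors -/
theorem magnitude_eq (w : (A.ι → Bool) → RatFunc ℚ) [DecidableEq A.ι]
    (h0 : ∀ σ, ¬ A.Realizable σ → w σ = 0)
    (h1 : ∀ σ, A.Realizable σ → ∑ τ : A.ι → Bool, (∏ i, fac (σ i) (τ i)) * w τ = 1) :
    A.magnitude = ∑ τ : A.ι → Bool, w τ := by
  classical
  unfold magnitude
  letI : Fintype A.Chamber := Fintype.ofFinite _
  have hsum : ∀ f : (A.ι → Bool) → RatFunc ℚ, (∀ σ, ¬ A.Realizable σ → f σ = 0) →
      ∑ τ : A.ι → Bool, f τ = ∑ C : A.Chamber, f (A.toSign C) := by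
    intro f hf
    rw [← Finset.sum_image (s := Finset.univ) (g := A.toSign) (f := f)
      (fun C _ D _ h => A.toSign_injective h)]
    symm
    refine Finset.sum_subset (Finset.subset_univ _) fun τ _ hτ => hf τ fun hr => hτ ?_
    obtain ⟨C, hC⟩ := A.exists_chamber hr
    exact Finset.mem_image.2 ⟨C, Finset.mem_univ _, hC⟩
  have hw : A.varchenko.mulVec (fun D => w (A.toSign D)) = fun _ => 1 := by
    funext C
    rw [Matrix.mulVec, dotProduct]
    rw [← h1 _ (A.realizable_toSign C)]
    rw [hsum _ (fun σ hσ => by rw [h0 σ hσ, mul_zero])]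
    exact Finset.sum_congr rfl fun D _ => by rw [A.entry_eq]
  have hdet : IsUnit (A.varchenko).det := isUnit_iff_ne_zero.2 A.det_ne_zero
  have hinv : (A.varchenko)⁻¹.mulVec (fun _ => 1) = fun D => w (A.toSign D) := by
    rw [← hw, Matrix.mulVec_mulVec, Matrix.nonsing_inv_mul _ hdet, Matrix.one_mulVec]
  rw [hsum w h0]
  refine Finset.sum_congr (by rfl) fun C _ => ?_
  have := congrFun hinv C
  simp only [Matrix.mulVec, dotProduct, mul_one] at this
  exact this

end Arrangement

end Q138.TopeMag
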