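import Pool.Agent.Q138.TopeMag

set_option autoImplicit false

/-!
The product of four generic planes in `ℝ³` and a Boolean arrangement.
-/

namespace Q138.TopeMag

/-- A graph is vertex-transitive if its automorphism group acts transitively on its vertices. -/
def VertexTransitive {V : Type} (G : SimpleGraph V) : Prop := ∀ u v, ∃ f : G ≃g G, f u = v

section Weights

variable {K : Type} [Field K]

/-- factor -/
def ff (x : K) (s t : Bool) : K := if s = t then 1 else x

/-- weights on the sign vectors of four generic planes -/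
noncomputable def w4 (x : K) (s0 s1 s2 s3 : Bool) : K :=
  match s0, s1, s2, s3 with
  | true, true, true, false => 0
  | false, false, false, true => 0
  | true, true, true, true => (1 - x + x ^ 2) / ((1 + x) ^ 2 * (1 + x ^ 4))
  | true, true, false, false => (1 - x + x ^ 2) / ((1 + x) ^ 2 * (1 + x ^ 4))
  | true, false, true, false => (1 - x + x ^ 2) / ((1 + x) ^ 2 * (1 + x ^ 4))
  | false, true, true, false => (1 - x + x ^ 2) / ((1 + x) ^ 2 * (1 + x ^ 4))
  | false, false, false, false => (1 - x + x ^ 2) / ((1 + x) ^ 2 * (1 + x ^ 4))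
  | false, false, true, true => (1 - x + x ^ 2) / ((1 + x) ^ 2 * (1 + x ^ 4))
  | false, true, false, true => (1 - x + x ^ 2) / ((1 + x) ^ 2 * (1 + x ^ 4))
  | true, false, false, true => (1 - x + x ^ 2) / ((1 + x) ^ 2 * (1 + x ^ 4))
  | true, true, false, true => (1 - x) ^ 2 / ((1 + x) ^ 2 * (1 + x ^ 4))
  | true, false, true, true => (1 - x) ^ 2 / ((1 + x) ^ 2 * (1 + x ^ 4))
  | false, true, true, true => (1 - x) ^ 2 / ((1 + x) ^ 2 * (1 + x ^ 4))
  | true, false, false, false => (1 - x) ^ 2 / ((1 + x) ^ 2 * (1 + x ^ 4))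
  | false, true, false, false => (1 - x) ^ 2 / ((1 + x) ^ 2 * (1 + x ^ 4))
  | false, false, true, false => (1 - x) ^ 2 / ((1 + x) ^ 2 * (1 + x ^ 4))

/-- the two sign vectors that are not realizable -/
def Bad (s0 s1 s2 s3 : Bool) : Prop :=
  (s0 = true ∧ s1 = true ∧ s2 = true ∧ s3 = false) ∨
    (s0 = false ∧ s1 = false ∧ s2 = false ∧ s3 = true)

theorem w4_bad (x : K) {s0 s1 s2 s3 : Bool} (h : Bad s0 s1 s2 s3) : w4 x s0 s1 s2 s3 = 0 := by
  rcases h with ⟨rfl, rfl, rfl, rfl⟩ | ⟨rfl, rfl, rfl, rfl⟩ <;> rfl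

theorem sum_w4 (x : K) (h1 : 1 + x ≠ 0) (h2 : 1 + x ^ 4 ≠ 0) (s0 s1 s2 s3 : Bool)
    (h : ¬ Bad s0 s1 s2 s3) :
    ∑ t0 : Bool, ∑ t1 : Bool, ∑ t2 : Bool, ∑ t3 : Bool,
      ff x s0 t0 * ff x s1 t1 * ff x s2 t2 * ff x s3 t3 * w4 x t0 t1 t2 t3 = 1 := by
  revert h
  cases s0 <;> cases s1 <;> cases s2 <;> cases s3 <;> intro h <;>
    first
    | exact absurd (Or.inl ⟨rfl, rfl, rfl, rfl⟩) h
    | exact absurd (Or.inr ⟨rfl, rfl, rfl, rfl⟩) h
    | (simp [ff, w4]
       field_simp
       ring)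

theorem total_w4 (x : K) (h1 : 1 + x ≠ 0) (h2 : 1 + x ^ 4 ≠ 0) :
    ∑ t0 : Bool, ∑ t1 : Bool, ∑ t2 : Bool, ∑ t3 : Bool, w4 x t0 t1 t2 t3 =
      2 * (7 - 10 * x + 7 * x ^ 2) / ((1 + x) ^ 2 * (1 + x ^ 4)) := by
  simp [w4]
  field_simp
  ring

/-- `Fin 4 → Bool` as a product -/
def e4 : (Fin 4 → Bool) ≃ Bool × Bool × Bool × Bool where
  toFun τ := (τ 0, τ 1, τ 2, τ 3)
  invFun p := ![p.1, p.2.1, p.2.2.1, p.2.2.2]
  left_inv τ := by funext i; fin_cases i <;> rfl
  right_inv p := rfl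

theorem sum4 {M : Type} [AddCommMonoid M] (F : (Fin 4 → Bool) → M) :
    ∑ τ : Fin 4 → Bool, F τ =
      ∑ t0 : Bool, ∑ t1 : Bool, ∑ t2 : Bool, ∑ t3 : Bool, F ![t0, t1, t2, t3] := by
  rw [← e4.symm.sum_comp]
  simp only [Fintype.sum_prod_type]
  rfl

end Weights

/-- coefficients of the four generic planes -/
def N4 : Fin 4 → Fin 3 → ℤ := ![![1, 0, 0], ![0, 1, 0], ![0, 0, 1], ![1, 1, 1]]

/-- the linear forms -/
noncomputable def frm (k : ℕ) : Fin 4 ⊕ Fin k → Module.Dual ℝ (Fin (3 + k) → ℝ)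
  | Sum.inl i => ∑ l : Fin 3, (N4 i l : ℝ) • LinearMap.proj (Fin.castAdd k l)
  | Sum.inr j => LinearMap.proj (Fin.natAdd 3 j)

theorem frm_inl (k : ℕ) (i : Fin 4) (u : Fin 3 → ℝ) (v : Fin k → ℝ) :
    frm k (Sum.inl i) (Fin.append u v) = ∑ l, (N4 i l : ℝ) * u l := by
  simp [frm, Fin.append_left]

theorem frm_inr (k : ℕ) (j : Fin k) (u : Fin 3 → ℝ) (v : Fin k → ℝ) :
    frm k (Sum.inr j) (Fin.append u v) = v j := by
  simp [frm, Fin.append_right]

theorem N4_test : ∀ i j : Fin 4, i ≠ j → ∃ w : Fin 3 → Fin 3,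
    (∑ k, N4 i k * (((w k : ℕ) : ℤ) - 1) = 0 ∧ ∑ k, N4 j k * (((w k : ℕ) : ℤ) - 1) ≠ 0) := by
  decide +kernel

/-- The arrangement of the planes `x`, `y`, `z`, `x + y + z` in `ℝ³`, times the Boolean
arrangement in `ℝ^k`. -/
noncomputable def ex (k : ℕ) : Arrangement (3 + k) where
  ι := Fin 4 ⊕ Fin k
  form := frm k
  form_ne_zero := by
    rintro (i | j) h
    · have h1 := congrArg (fun f => f (Fin.append (fun _ => 1) (fun _ => 1))) h
      simp only [frm_inl, LinearMap.zero_apply] at h1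
      fin_cases i <;> simp [N4, Fin.sum_univ_three] at h1
      norm_num at h1
    · have h1 := congrArg (fun f => f (Fin.append (fun _ => 1) (fun _ => 1))) h
      simp only [frm_inr, LinearMap.zero_apply] at h1
      norm_num at h1
  ker_injective := by
    have key : ∀ a b : Fin 4 ⊕ Fin k, a ≠ b → ∃ (u : Fin 3 → ℝ) (v : Fin k → ℝ),
        frm k a (Fin.append u v) = 0 ∧ frm k b (Fin.append u v) ≠ 0 := by
      rintro (i | i) (j | j) hne
      · obtain ⟨w, hw1, hw2⟩ := N4_test i j (fun h => hne (by rw [h]))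
        refine ⟨fun k => (((w k : ℕ) : ℝ) - 1), fun _ => 0, ?_, ?_⟩
        · rw [frm_inl]; exact_mod_cast congrArg (fun z : ℤ => (z : ℝ)) hw1
        · rw [frm_inl]; exact_mod_cast hw2
      · refine ⟨fun _ => 0, fun _ => 1, ?_, ?_⟩
        · rw [frm_inl]; simp
        · rw [frm_inr]; norm_num
      · refine ⟨fun _ => 1, fun _ => 0, ?_, ?_⟩
        · rw [frm_inr]
        · rw [frm_inl]
          fin_cases j <;> simp [N4, Fin.sum_univ_three]
          norm_num
      · refine ⟨fun _ => 0, fun l => if l = j then 1 else 0, ?_, ?_⟩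
        · rw [frm_inr, if_neg (fun h => hne (by rw [h]))]
        · rw [frm_inr, if_pos rfl]; norm_num
    intro a b h
    by_contra hne
    obtain ⟨u, v, h1, h2⟩ := key a b hne
    have h' : LinearMap.ker (frm k a) = LinearMap.ker (frm k b) := h
    exact h2 (LinearMap.mem_ker.1 (h' ▸ LinearMap.mem_ker.2 h1))

theorem append_surj {k : ℕ} (x : Fin (3 + k) → ℝ) :
    ∃ (u : Fin 3 → ℝ) (v : Fin k → ℝ), x = Fin.append u v :=
  ⟨fun i => x (Fin.castAdd k i), fun j => x (Fin.natAdd 3 j), by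
    funext i
    refine Fin.addCases (fun i => ?_) (fun j => ?_) i
    · rw [Fin.append_left]
    · rw [Fin.append_right]⟩

theorem ex_rank (k : ℕ) : (ex k).rank = 3 + k := by
  unfold Arrangement.rank
  have : (⨅ i, LinearMap.ker ((ex k).form i) : Submodule ℝ (Fin (3 + k) → ℝ)) = ⊥ := by
    rw [Submodule.eq_bot_iff]
    intro x hx
    rw [Submodule.mem_iInf] at hx
    obtain ⟨u, v, rfl⟩ := append_surj x
    have h1 : ∀ i : Fin 4, ∑ l, (N4 i l : ℝ) * u l = 0 := by
      intro i
      have := LinearMap.mem_ker.1 (hx (Sum.inl i))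
      rwa [← frm_inl k i u v]
    have h2 : ∀ j : Fin k, v j = 0 := by
      intro j
      have := LinearMap.mem_ker.1 (hx (Sum.inr j))
      rwa [← frm_inr k j u v]
    have h3 := h1 0
    have h4 := h1 1
    have h5 := h1 2
    simp [N4, Fin.sum_univ_three] at h3 h4 h5
    funext i
    refine Fin.addCases (fun i => ?_) (fun j => ?_) i
    · rw [Fin.append_left]
      fin_cases i
      · exact h3
      · exact h4
      · exact h5
    · rw [Fin.append_right]; exact h2 j
  rw [this, finrank_bot]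
  rfl

theorem ex_size (k : ℕ) : (ex k).size = 4 + k := by
  unfold Arrangement.size
  show Fintype.card (Fin 4 ⊕ Fin k) = 4 + k
  simp

theorem ex_realizable (k : ℕ) (σ : Fin 4 ⊕ Fin k → Bool) :
    (ex k).Realizable σ ↔
      ¬ Bad (σ (Sum.inl 0)) (σ (Sum.inl 1)) (σ (Sum.inl 2)) (σ (Sum.inl 3)) := by
  constructor
  · rintro ⟨x, hx⟩
    obtain ⟨u, v, rfl⟩ := append_surj x
    have h : ∀ i : Fin 4, (σ (Sum.inl i) = true ∧ 0 < ∑ l, (N4 i l : ℝ) * u l) ∨
        (σ (Sum.inl i) = false ∧ ∑ l, (N4 i l : ℝ) * u l < 0) := by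
      intro i
      rw [← frm_inl k i u v]
      exact hx (Sum.inl i)
    have h0 := h 0
    have h1 := h 1
    have h2 := h 2
    have h3 := h 3
    simp [N4, Fin.sum_univ_three] at h0 h1 h2 h3
    rintro (⟨a, b, c, d⟩ | ⟨a, b, c, d⟩)
    · rw [a] at h0; rw [b] at h1; rw [c] at h2; rw [d] at h3
      simp at h0 h1 h2 h3
      linarith
    · rw [a] at h0; rw [b] at h1; rw [c] at h2; rw [d] at h3
      simp at h0 h1 h2 h3
      linarith
  · intro hbad
    let u : Fin 3 → ℝ := fun l => if σ (Sum.inl (Fin.castSucc l)) = true then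
      (if σ (Sum.inl 3) = true then 3 else 1) else (if σ (Sum.inl 3) = true then -1 else -3)
    let v : Fin k → ℝ := fun j => if σ (Sum.inr j) = true then 1 else -1
    refine ⟨Fin.append u v, ?_⟩
    rintro (i | j)
    · show (σ (Sum.inl i) = true ∧ 0 < frm k (Sum.inl i) (Fin.append u v)) ∨
        (σ (Sum.inl i) = false ∧ frm k (Sum.inl i) (Fin.append u v) < 0)
      rw [frm_inl]
      have e0 : (Fin.castSucc (0 : Fin 3)) = (0 : Fin 4) := rfl
      have e1 : (Fin.castSucc (1 : Fin 3)) = (1 : Fin 4) := rfl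
      have e2 : (Fin.castSucc (2 : Fin 3)) = (2 : Fin 4) := rfl
      unfold Bad at hbad
      cases h0 : σ (Sum.inl 0) <;> cases h1 : σ (Sum.inl 1) <;> cases h2 : σ (Sum.inl 2) <;>
        cases h3 : σ (Sum.inl 3) <;> rw [h0, h1, h2, h3] at hbad <;>
        first
        | (exfalso; simp at hbad; done)
        | (fin_cases i <;>
            simp [u, N4, Fin.sum_univ_three, e0, e1, e2, h0, h1, h2, h3] <;> norm_num)
    · show (σ (Sum.inr j) = true ∧ 0 < frm k (Sum.inr j) (Fin.append u v)) ∨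
        (σ (Sum.inr j) = false ∧ frm k (Sum.inr j) (Fin.append u v) < 0)
      rw [frm_inr]
      cases h : σ (Sum.inr j) <;> simp [v, h]

/-! ### The magnitude -/

theorem one_add_X_pow_ne (m : ℕ) (hm : m ≠ 0) : (1 + RatFunc.X ^ m : RatFunc ℚ) ≠ 0 := by
  intro h
  have h1 : (1 + RatFunc.X ^ m : RatFunc ℚ) =
      algebraMap (Polynomial ℚ) (RatFunc ℚ) (1 + Polynomial.X ^ m) := by
    simp
  rw [h1] at h
  have h2 : (1 + Polynomial.X ^ m : Polynomial ℚ) = 0 := by
    apply RatFunc.algebraMap_injective ℚ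
    rw [h, map_zero]
  have h3 := congrArg (Polynomial.eval 1) h2
  simp at h3

instance (k : ℕ) : DecidableEq (ex k).ι := inferInstanceAs (DecidableEq (Fin 4 ⊕ Fin k))

theorem ex_magnitude (k : ℕ) :
    (ex k).magnitude = 2 * (7 - 10 * RatFunc.X + 7 * RatFunc.X ^ 2) /
      ((1 + RatFunc.X) ^ 2 * (1 + RatFunc.X ^ 4)) * (2 / (1 + RatFunc.X)) ^ k := by
  have hx1 : (1 + RatFunc.X : RatFunc ℚ) ≠ 0 := by
    simpa using one_add_X_pow_ne 1 one_ne_zero
  have hx4 : (1 + RatFunc.X ^ 4 : RatFunc ℚ) ≠ 0 := one_add_X_pow_ne 4 (by norm_num)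
  let w : (Fin 4 ⊕ Fin k → Bool) → RatFunc ℚ := fun σ =>
    w4 RatFunc.X (σ (Sum.inl 0)) (σ (Sum.inl 1)) (σ (Sum.inl 2)) (σ (Sum.inl 3)) *
      ∏ _j : Fin k, 1 / (1 + RatFunc.X)
  have hsplit : ∀ g : (Fin 4 ⊕ Fin k → Bool) → RatFunc ℚ,
      ∑ τ, g τ = ∑ a : Fin 4 → Bool, ∑ b : Fin k → Bool, g (Sum.elim a b) := by
    intro g
    rw [← (Equiv.sumArrowEquivProdArrow (Fin 4) (Fin k) Bool).symm.sum_comp,
      Fintype.sum_prod_type]
    rfl
  have hbool : ∀ (h : Fin k → Bool → RatFunc ℚ),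
      ∑ b : Fin k → Bool, ∏ j, h j (b j) = ∏ j, ∑ t : Bool, h j t := by
    intro h
    rw [Finset.prod_univ_sum, Fintype.piFinset_univ]
  have hmag := (ex k).magnitude_eq (w := w) (fun σ hσ => by
      have hbad : Bad (σ (Sum.inl 0)) (σ (Sum.inl 1)) (σ (Sum.inl 2)) (σ (Sum.inl 3)) := by
        by_contra hcon
        exact hσ ((ex_realizable k σ).2 hcon)
      simp only [w]
      rw [w4_bad _ hbad, zero_mul])
    (fun σ hσ => by
      have hgood := (ex_realizable k σ).1 hσ
      change ∑ τ : Fin 4 ⊕ Fin k → Bool,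
        (∏ i : Fin 4 ⊕ Fin k, Arrangement.fac (σ i) (τ i)) * w τ = 1
      rw [hsplit]
      have e1 : ∀ a : Fin 4 → Bool, ∑ b : Fin k → Bool,
          (∏ i : Fin 4 ⊕ Fin k, Arrangement.fac (σ i) (Sum.elim a b i)) * w (Sum.elim a b) =
          (∏ i : Fin 4, Arrangement.fac (σ (Sum.inl i)) (a i)) *
            w4 RatFunc.X (a 0) (a 1) (a 2) (a 3) := by
        intro a
        have e2 : ∀ b : Fin k → Bool,
            (∏ i : Fin 4 ⊕ Fin k, Arrangement.fac (σ i) (Sum.elim a b i)) * w (Sum.elim a b) =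
            ((∏ i : Fin 4, Arrangement.fac (σ (Sum.inl i)) (a i)) *
              w4 RatFunc.X (a 0) (a 1) (a 2) (a 3)) *
            ∏ j : Fin k, (Arrangement.fac (σ (Sum.inr j)) (b j) * (1 / (1 + RatFunc.X))) := by
          intro b
          simp only [w]
          rw [Fintype.prod_sum_type, Finset.prod_mul_distrib]
          simp only [Sum.elim_inl, Sum.elim_inr]
          ring
        rw [Finset.sum_congr rfl fun b _ => e2 b, ← Finset.mul_sum,
          hbool fun j t => Arrangement.fac (σ (Sum.inr j)) t * (1 / (1 + RatFunc.X))]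
        have e3 : ∀ j : Fin k, ∑ t : Bool,
            Arrangement.fac (σ (Sum.inr j)) t * (1 / (1 + RatFunc.X)) = 1 := by
          intro j
          rw [Fintype.sum_bool]
          cases σ (Sum.inr j) <;> simp [Arrangement.fac] <;> field_simp
          ring
        rw [Finset.prod_congr rfl fun j _ => e3 j, Finset.prod_const_one, mul_one]
      refine (Finset.sum_congr rfl fun a _ => e1 a).trans ?_
      rw [sum4]
      have := sum_w4 (RatFunc.X : RatFunc ℚ) hx1 hx4 _ _ _ _ hgood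
      rw [← this]
      refine Finset.sum_congr rfl fun t0 _ => Finset.sum_congr rfl fun t1 _ =>
        Finset.sum_congr rfl fun t2 _ => Finset.sum_congr rfl fun t3 _ => ?_
      rw [Fin.prod_univ_four]
      rfl)
  rw [hmag]
  change ∑ τ : Fin 4 ⊕ Fin k → Bool, w τ = _
  rw [hsplit, ← total_w4 (RatFunc.X : RatFunc ℚ) hx1 hx4]
  have e4 : ∀ a : Fin 4 → Bool, ∑ b : Fin k → Bool, w (Sum.elim a b) =
      w4 RatFunc.X (a 0) (a 1) (a 2) (a 3) * (2 / (1 + RatFunc.X)) ^ k := by
    intro a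
    simp only [w, Sum.elim_inl]
    rw [Finset.sum_const, Finset.prod_const, Finset.card_univ, Finset.card_univ, nsmul_eq_mul]
    simp only [Fintype.card_fun, Fintype.card_bool, Fintype.card_fin]
    push_cast
    rw [div_pow, div_pow, one_pow]
    ring
  refine (Finset.sum_congr rfl fun a _ => e4 a).trans ?_
  rw [← Finset.sum_mul, sum4]
  rfl

/-- the denominator divides a product of powers of `1 + X` and `1 + X ^ 4` -/
theorem ex_denom (k : ℕ) : (ex k).magnitude.denom ∣
    ((1 + Polynomial.X) ^ (2 + k) * (1 + Polynomial.X ^ 4) : Polynomial ℚ) := by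
  have hx1 : (1 + RatFunc.X : RatFunc ℚ) ≠ 0 := by
    simpa using one_add_X_pow_ne 1 one_ne_zero
  have hx4 : (1 + RatFunc.X ^ 4 : RatFunc ℚ) ≠ 0 := one_add_X_pow_ne 4 (by norm_num)
  have hq : ((1 + Polynomial.X) ^ (2 + k) * (1 + Polynomial.X ^ 4) : Polynomial ℚ) ≠ 0 := by
    intro h
    have := congrArg (Polynomial.eval 0) h
    simp at this
  refine (RatFunc.denom_dvd hq).2 ⟨2 * (7 - 10 * Polynomial.X + 7 * Polynomial.X ^ 2) * 2 ^ k, ?_⟩
  rw [ex_magnitude]
  simp only [map_mul, map_pow, map_add, map_sub, map_one, map_ofNat, RatFunc.algebraMap_X]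
  rw [div_pow]
  field_simp
  ring

theorem ex_cyclotomic (k m : ℕ) (hmpos : 0 < m) (hm : ¬ m ∣ 8) :
    ¬ (Polynomial.cyclotomic m ℚ ∣ (ex k).magnitude.denom) := by
  intro h
  apply hm
  have h1 := h.trans (ex_denom k)
  obtain ⟨ζ, hζ⟩ : ∃ ζ : ℂ, IsPrimitiveRoot ζ m :=
    ⟨_, Complex.isPrimitiveRoot_exp m hmpos.ne'⟩
  obtain ⟨g, hg⟩ := h1
  have h2 := congrArg (Polynomial.aeval ζ) hg
  have h3 : Polynomial.aeval ζ (Polynomial.cyclotomic m ℚ) = 0 := by
    rw [Polynomial.aeval_def, Polynomial.eval₂_eq_eval_map, Polynomial.map_cyclotomic]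
    exact hζ.isRoot_cyclotomic hmpos
  rw [map_mul, map_mul, h3, zero_mul] at h2
  simp only [map_pow, map_add, map_one, Polynomial.aeval_X] at h2
  have h8 : ζ ^ 8 = 1 := by
    rcases mul_eq_zero.1 h2 with h4 | h4
    · have h5 := pow_eq_zero_iff (by omega : 2 + k ≠ 0) |>.1 h4
      have h6 : ζ = -1 := by linear_combination h5
      rw [h6]; norm_num
    · have h6 : ζ ^ 4 = -1 := by linear_combination h4
      calc ζ ^ 8 = (ζ ^ 4) ^ 2 := by ring
        _ = 1 := by rw [h6]; norm_num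
  exact hζ.dvd_of_pow_eq_one 8 h8

/-! ### The tope graph is not vertex-transitive -/

/-- flipping one sign -/
def flip {ι : Type} [DecidableEq ι] (σ : ι → Bool) (i : ι) : ι → Bool :=
  Function.update σ i (!σ i)

theorem adj_iff {d : ℕ} (A : Arrangement d) [DecidableEq A.ι] (C D : A.Chamber) :
    A.topeGraph.Adj C D ↔ ∃ i, A.toSign D = flip (A.toSign C) i := by
  classical
  show A.sep C D = 1 ↔ _
  rw [A.sep_eq, Finset.card_eq_one]
  constructor
  · rintro ⟨i, hi⟩
    refine ⟨i, funext fun j => ?_⟩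
    unfold flip
    by_cases hj : j = i
    · subst hj
      rw [Function.update_self]
      have : j ∈ (Finset.univ.filter fun i => A.toSign C i ≠ A.toSign D i) := by rw [hi]; simp
      have h1 := (Finset.mem_filter.1 this).2
      cases h2 : A.toSign C j <;> cases h3 : A.toSign D j <;> simp_all
    · rw [Function.update_of_ne hj]
      have : j ∉ (Finset.univ.filter fun i => A.toSign C i ≠ A.toSign D i) := by
        rw [hi]; simpa using hj
      by_contra h1
      exact this (Finset.mem_filter.2 ⟨Finset.mem_univ _, fun h => h1 h.symm⟩)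
  · rintro ⟨i, hi⟩
    refine ⟨i, ?_⟩
    ext j
    rw [Finset.mem_filter, Finset.mem_singleton, hi]
    unfold flip
    by_cases hj : j = i
    · subst hj
      rw [Function.update_self]
      simp
    · rw [Function.update_of_ne hj]
      simp [hj]

theorem ex_not_vertexTransitive (k : ℕ) : ¬ VertexTransitive (ex k).topeGraph := by
  intro hvt
  let σA : Fin 4 ⊕ Fin k → Bool := fun _ => true
  let σB : Fin 4 ⊕ Fin k → Bool := Sum.elim ![true, false, false, false] fun _ => true
  have hA : (ex k).Realizable σA := by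
    rw [ex_realizable]; simp [Bad, σA]
  have hB : (ex k).Realizable σB := by
    rw [ex_realizable]; simp [Bad, σB]
  obtain ⟨CA, hCA⟩ := (ex k).exists_chamber hA
  obtain ⟨CB, hCB⟩ := (ex k).exists_chamber hB
  obtain ⟨f, hf⟩ := hvt CA CB
  have e := f.mapNeighborSet CA
  rw [hf] at e
  -- the neighbours of `CA`
  have h1 : ∀ D : (ex k).topeGraph.neighborSet CA,
      ∃ i : {i : Fin 4 ⊕ Fin k // i ≠ Sum.inl 3}, (ex k).toSign D.1 = flip σA i.1 := by
    rintro ⟨D, hD⟩
    obtain ⟨i, hi⟩ := (adj_iff (ex k) CA D).1 hD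
    rw [hCA] at hi
    refine ⟨⟨i, ?_⟩, hi⟩
    rintro rfl
    have hr := (ex k).realizable_toSign D
    rw [hi, ex_realizable] at hr
    apply hr
    left
    refine ⟨?_, ?_, ?_, ?_⟩
    · show flip σA (Sum.inl 3) (Sum.inl 0) = true
      unfold flip; rw [Function.update_of_ne (by simp)]
    · show flip σA (Sum.inl 3) (Sum.inl 1) = true
      unfold flip; rw [Function.update_of_ne (by simp)]
    · show flip σA (Sum.inl 3) (Sum.inl 2) = true
      unfold flip; rw [Function.update_of_ne (by simp)]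
    · show flip σA (Sum.inl 3) (Sum.inl 3) = false
      unfold flip; rw [Function.update_self]; rfl
  choose φ hφ using h1
  have hφinj : Function.Injective φ := by
    intro D D' h
    apply Subtype.ext
    apply (ex k).toSign_injective
    rw [hφ D, hφ D', h]
  -- the neighbours of `CB`
  have h2 : ∀ i : Fin 4 ⊕ Fin k, ∃ D : (ex k).topeGraph.neighborSet CB,
      (ex k).toSign D.1 = flip σB i := by
    intro i
    have hr : (ex k).Realizable (flip σB i) := by
      rw [ex_realizable]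
      rcases i with i | j
      · fin_cases i <;> simp [flip, σB, Bad, Function.update_apply] <;>
          (intro h; exact absurd (Sum.inl.inj h) (by decide))
      · simp [flip, σB, Bad]
    obtain ⟨D, hD⟩ := (ex k).exists_chamber hr
    exact ⟨⟨D, (adj_iff (ex k) CB D).2 ⟨i, by rw [hCB]; exact hD⟩⟩, hD⟩
  choose ψ hψ using h2
  have hψinj : Function.Injective ψ := by
    intro i j h
    have h3 := hψ i
    rw [h, hψ j] at h3
    by_contra hne
    have h4 := congrFun h3 i
    unfold flip at h4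
    rw [Function.update_of_ne hne, Function.update_self] at h4
    cases h5 : σB i <;> rw [h5] at h4 <;> exact absurd h4 (by decide)
  have c := Nat.card_le_card_of_injective (fun i => φ (e.symm (ψ i)))
    (fun i j h => hψinj (e.symm.injective (hφinj h)))
  rw [Nat.card_eq_fintype_card, Nat.card_eq_fintype_card, Fintype.card_subtype_compl] at c
  simp at c

end Q138.TopeMag
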