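import Mathlib

set_option autoImplicit false

/-!
Automata in which no short word merges three states: pairs of small weight and maximum
half-integral independent vectors (with values `0, 1, 2`) of the graph of these pairs.
-/

namespace Q138.Triple

variable {V : Type}

/-- The action of a word; the first letter of the list acts first. -/
def act : List (V → V) → V → V
  | [], x => x
  | f :: w, x => act w (f x)

/-- The letters of `w` belong to the automaton `Ω`. -/
def IsWord (Ω : Set (V → V)) (w : List (V → V)) : Prop := ∀ f ∈ w, f ∈ Ω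

/-- `{x, y}` is a pair of weight at most `j`. -/
def Pr (Ω : Set (V → V)) (j : ℕ) (x y : V) : Prop :=
  x ≠ y ∧ ∃ w, IsWord Ω w ∧ w.length ≤ j ∧ act w x = act w y

/-- There is no triple of weight at most `K`. -/
def NoTriple (Ω : Set (V → V)) (K : ℕ) : Prop :=
  ∀ x y z : V, x ≠ y → x ≠ z → y ≠ z → ∀ w, IsWord Ω w → w.length ≤ K →
    act w x = act w y → act w x = act w z → False

variable {Ω : Set (V → V)}

theorem isWord_cons {f : V → V} {w : List (V → V)} (hf : f ∈ Ω) (hw : IsWord Ω w) :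
    IsWord Ω (f :: w) := by
  intro g hg
  rcases List.mem_cons.1 hg with h | h
  · rw [h]; exact hf
  · exact hw g h

theorem Pr.symm {j : ℕ} {x y : V} (h : Pr Ω j x y) : Pr Ω j y x := by
  obtain ⟨h1, w, h2, h3, h4⟩ := h
  exact ⟨h1.symm, w, h2, h3, h4.symm⟩

theorem Pr.mono {j k : ℕ} (hjk : j ≤ k) {x y : V} (h : Pr Ω j x y) : Pr Ω k x y := by
  obtain ⟨h1, w, h2, h3, h4⟩ := h
  exact ⟨h1, w, h2, h3.trans hjk, h4⟩

/-- feasible vectors -/
def Feas (Ω : Set (V → V)) (j : ℕ) (z : V → ℕ) : Prop :=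
  (∀ x, z x ≤ 2) ∧ ∀ x y, Pr Ω j x y → z x + z y ≤ 2

theorem Feas.anti {j k : ℕ} (hjk : j ≤ k) {z : V → ℕ} (h : Feas Ω k z) : Feas Ω j z :=
  ⟨h.1, fun x y hxy => h.2 x y (hxy.mono hjk)⟩

theorem feas_one (j : ℕ) : Feas Ω j (fun _ => 1) := ⟨fun _ => one_le_two, fun _ _ _ => le_refl _⟩

variable [Fintype V]

/-- the total of a vector -/
def total (z : V → ℕ) : ℕ := ∑ x, z x

theorem total_le {j : ℕ} {z : V → ℕ} (h : Feas Ω j z) : total z ≤ 2 * Fintype.card V := by
  unfold total
  calc ∑ x, z x ≤ ∑ _x : V, 2 := Finset.sum_le_sum fun x _ => h.1 x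
    _ = 2 * Fintype.card V := by rw [Finset.sum_const, Finset.card_univ, smul_eq_mul, mul_comm]

/-- the maximum total of a feasible vector -/
noncomputable def al (Ω : Set (V → V)) (j : ℕ) : ℕ := sSup {t | ∃ z, Feas Ω j z ∧ total z = t}

theorem al_bdd (j : ℕ) : BddAbove {t | ∃ z, Feas Ω j z ∧ total z = t} :=
  ⟨2 * Fintype.card V, by rintro t ⟨z, hz, rfl⟩; exact total_le hz⟩

theorem le_al {j : ℕ} {z : V → ℕ} (h : Feas Ω j z) : total z ≤ al Ω j :=
  le_csSup (al_bdd (Ω := Ω) j) ⟨z, h, rfl⟩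

theorem exists_max (Ω : Set (V → V)) (j : ℕ) : ∃ z, Feas Ω j z ∧ total z = al Ω j :=
  Nat.sSup_mem (s := {t | ∃ z, Feas Ω j z ∧ total z = t}) ⟨_, _, feas_one j, rfl⟩ (al_bdd j)

theorem al_anti {j k : ℕ} (h : j ≤ k) : al Ω k ≤ al Ω j := by
  obtain ⟨z, h1, h2⟩ := exists_max Ω k
  rw [← h2]
  exact le_al (h1.anti h)

theorem card_le_al (Ω : Set (V → V)) (j : ℕ) : Fintype.card V ≤ al Ω j := by
  have := le_al (feas_one (V := V) (Ω := Ω) j)
  simpa [total] using this

/-- maximizers -/
def Mx (Ω : Set (V → V)) (j : ℕ) (z : V → ℕ) : Prop := Feas Ω j z ∧ total z = al Ω j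

theorem Mx.anti {j k : ℕ} (hjk : j ≤ k) (ha : al Ω j = al Ω k) {z : V → ℕ} (h : Mx Ω k z) :
    Mx Ω j z := ⟨h.1.anti hjk, h.2.trans ha.symm⟩

/-! #### push forward -/

section Push

variable [DecidableEq V]

/-- push forward of a vector under a letter -/
def push (f : V → V) (z : V → ℕ) (p : V) : ℕ := ∑ x with f x = p, z x

theorem total_push (f : V → V) (z : V → ℕ) : total (push f z) = total z := by
  unfold total push
  exact Finset.sum_fiberwise (s := Finset.univ) (g := f) (f := z)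

omit [Fintype V] in
theorem sum_le_two {z : V → ℕ} (T : Finset V) (h1 : ∀ x ∈ T, z x ≤ 2)
    (h2 : ∀ x ∈ T, ∀ y ∈ T, x ≠ y → z x + z y ≤ 2) (h3 : T.card ≤ 2) : ∑ x ∈ T, z x ≤ 2 := by
  interval_cases h : T.card
  · rw [Finset.card_eq_zero.1 h]; simp
  · obtain ⟨x, rfl⟩ := Finset.card_eq_one.1 h
    rw [Finset.sum_singleton]
    exact h1 x (Finset.mem_singleton_self x)
  · obtain ⟨x, y, hxy, rfl⟩ := Finset.card_eq_two.1 h
    rw [Finset.sum_pair hxy]
    exact h2 x (by simp) y (by simp) hxy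

theorem push_feas {K j : ℕ} (hK : NoTriple Ω K) (hj : j + 1 ≤ K) {f : V → V} (hf : f ∈ Ω)
    {z : V → ℕ} (hz : Feas Ω (j + 1) z) : Feas Ω j (push f z) := by
  constructor
  · intro p
    unfold push
    have hw : IsWord Ω [f] := isWord_cons hf (fun g hg => absurd hg List.not_mem_nil)
    apply sum_le_two
    · intro x _; exact hz.1 x
    · intro x hx y hy hxy
      rw [Finset.mem_filter] at hx hy
      apply hz.2 x y
      refine ⟨hxy, [f], hw, by simp, ?_⟩
      show f x = f y
      rw [hx.2, hy.2]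
    · by_contra hcon
      push Not at hcon
      obtain ⟨a, ha, b, hb, c, hc, hab, hac, hbc⟩ := Finset.two_lt_card.1 hcon
      rw [Finset.mem_filter] at ha hb hc
      refine hK a b c hab hac hbc [f] hw (by simp; omega) ?_ ?_
      · show f a = f b
        rw [ha.2, hb.2]
      · show f a = f c
        rw [ha.2, hc.2]
  · intro p q hpq
    obtain ⟨hne, w, hw, hl, hact⟩ := hpq
    have hw' : IsWord Ω (f :: w) := isWord_cons hf hw
    unfold push
    have hdisj : Disjoint (Finset.univ.filter fun x => f x = p)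
        (Finset.univ.filter fun x => f x = q) := by
      rw [Finset.disjoint_filter]
      intro x _ h1 h2
      exact hne (h1.symm.trans h2)
    rw [← Finset.sum_union hdisj]
    have key : ∀ x ∈ (Finset.univ.filter fun x => f x = p) ∪
        (Finset.univ.filter fun x => f x = q), act (f :: w) x = act w p := by
      intro x hx
      rw [Finset.mem_union, Finset.mem_filter, Finset.mem_filter] at hx
      show act w (f x) = act w p
      rcases hx with ⟨_, h⟩ | ⟨_, h⟩
      · rw [h]
      · rw [h, ← hact]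
    apply sum_le_two
    · intro x _; exact hz.1 x
    · intro x hx y hy hxy
      apply hz.2 x y
      refine ⟨hxy, f :: w, hw', by simp; omega, ?_⟩
      rw [key x hx, key y hy]
    · by_contra hcon
      push Not at hcon
      obtain ⟨a, ha, b, hb, c, hc, hab, hac, hbc⟩ := Finset.two_lt_card.1 hcon
      refine hK a b c hab hac hbc (f :: w) hw' (by simp; omega) ?_ ?_
      · rw [key a ha, key b hb]
      · rw [key a ha, key c hc]

theorem push_max {K j : ℕ} (hK : NoTriple Ω K) (hj : j + 1 ≤ K) (ha : al Ω j = al Ω (j + 1))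
    {f : V → V} (hf : f ∈ Ω) {z : V → ℕ} (hz : Mx Ω (j + 1) z) : Mx Ω j (push f z) :=
  ⟨push_feas hK hj hf hz.1, by rw [total_push, hz.2, ha]⟩

end Push

/-! #### lattice operations -/

/-- indicator -/
noncomputable def ind (p : Prop) : ℕ := open Classical in if p then 1 else 0

theorem ind_le (p : Prop) : ind p ≤ 1 := by
  unfold ind; split_ifs <;> omega

theorem ind_true {p : Prop} (h : p) : ind p = 1 := if_pos h
theorem ind_false {p : Prop} (h : ¬ p) : ind p = 0 := if_neg h

/-- a pair of sets without pairs of weight at most `j` between them -/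
def Cross (Ω : Set (V → V)) (j : ℕ) (A B : Finset V) : Prop :=
  ∀ p ∈ A, ∀ q ∈ B, ¬ Pr Ω j p q

/-- vector of a pair of sets -/
noncomputable def vec (A B : Finset V) (p : V) : ℕ := ind (p ∈ A) + ind (p ∈ B)

omit [Fintype V] in
theorem vec_feas {j : ℕ} {A B : Finset V} (h : Cross Ω j A B) : Feas Ω j (vec A B) := by
  constructor
  · intro p
    have h1 := ind_le (p ∈ A)
    have h2 := ind_le (p ∈ B)
    unfold vec; omega
  · intro p q hpq
    have h1 : ind (p ∈ A) + ind (q ∈ B) ≤ 1 := by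
      by_cases hp : p ∈ A
      · have : q ∉ B := fun hq => h p hp q hq hpq
        rw [ind_true hp, ind_false this]
      · rw [ind_false hp]
        have := ind_le (q ∈ B)
        omega
    have h2 : ind (q ∈ A) + ind (p ∈ B) ≤ 1 := by
      by_cases hp : q ∈ A
      · have : p ∉ B := fun hq => h q hp p hq hpq.symm
        rw [ind_true hp, ind_false this]
      · rw [ind_false hp]
        have := ind_le (p ∈ B)
        omega
    unfold vec; omega

theorem sum_ind (A : Finset V) : ∑ p, ind (p ∈ A) = A.card := by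
  classical
  have : ∀ p, ind (p ∈ A) = if p ∈ A then 1 else 0 := by
    intro p
    by_cases h : p ∈ A
    · rw [ind_true h, if_pos h]
    · rw [ind_false h, if_neg h]
  simp only [this]
  rw [Finset.sum_ite_mem, Finset.univ_inter, Finset.sum_const, smul_eq_mul, mul_one]

theorem total_vec (A B : Finset V) : total (vec A B) = A.card + B.card := by
  unfold total vec
  rw [Finset.sum_add_distrib, sum_ind, sum_ind]

/-- support of a vector -/
def pos (z : V → ℕ) : Finset V := Finset.univ.filter fun p => 1 ≤ z p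

/-- the set where a vector is two -/
def two (z : V → ℕ) : Finset V := Finset.univ.filter fun p => z p = 2

theorem mem_pos {z : V → ℕ} {p : V} : p ∈ pos z ↔ 1 ≤ z p := by simp [pos]

theorem mem_two {z : V → ℕ} {p : V} : p ∈ two z ↔ z p = 2 := by simp [two]

theorem cross_of_feas {j : ℕ} {z : V → ℕ} (h : Feas Ω j z) : Cross Ω j (pos z) (two z) := by
  intro p hp q hq hpq
  rw [mem_pos] at hp
  rw [mem_two] at hq
  have := h.2 p q hpq
  omega

theorem vec_pos_two {j : ℕ} {z : V → ℕ} (h : Feas Ω j z) : vec (pos z) (two z) = z := by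
  funext p
  unfold vec
  have := h.1 p
  interval_cases hz : z p
  · rw [ind_false, ind_false]
    · rw [mem_two]; omega
    · rw [mem_pos]; omega
  · rw [ind_true, ind_false]
    · rw [mem_two]; omega
    · rw [mem_pos]; omega
  · rw [ind_true, ind_true]
    · rw [mem_two]; omega
    · rw [mem_pos]; omega

theorem card_pos_two {j : ℕ} {z : V → ℕ} (h : Feas Ω j z) :
    (pos z).card + (two z).card = total z := by
  rw [← total_vec, vec_pos_two h]

/-- maximum pairs of sets -/
def MP (Ω : Set (V → V)) (j : ℕ) (A B : Finset V) : Prop :=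
  Cross Ω j A B ∧ A.card + B.card = al Ω j

theorem mp_of_mx {j : ℕ} {z : V → ℕ} (h : Mx Ω j z) : MP Ω j (pos z) (two z) :=
  ⟨cross_of_feas h.1, (card_pos_two h.1).trans h.2⟩

theorem mx_of_mp {j : ℕ} {A B : Finset V} (h : MP Ω j A B) : Mx Ω j (vec A B) :=
  ⟨vec_feas h.1, (total_vec A B).trans h.2⟩

theorem cross_card_le {j : ℕ} {A B : Finset V} (h : Cross Ω j A B) : A.card + B.card ≤ al Ω j := by
  rw [← total_vec]
  exact le_al (vec_feas h)

theorem MP.meet [DecidableEq V] {j : ℕ} {A B A' B' : Finset V} (h : MP Ω j A B)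
    (h' : MP Ω j A' B') : MP Ω j (A ∩ A') (B ∪ B') ∧ MP Ω j (A ∪ A') (B ∩ B') := by
  have c1 : Cross Ω j (A ∩ A') (B ∪ B') := by
    intro p hp q hq hpq
    rw [Finset.mem_inter] at hp
    rcases Finset.mem_union.1 hq with hq | hq
    · exact h.1 p hp.1 q hq hpq
    · exact h'.1 p hp.2 q hq hpq
  have c2 : Cross Ω j (A ∪ A') (B ∩ B') := by
    intro p hp q hq hpq
    rw [Finset.mem_inter] at hq
    rcases Finset.mem_union.1 hp with hp | hp
    · exact h.1 p hp q hq.1 hpq
    · exact h'.1 p hp q hq.2 hpq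
  have l1 := cross_card_le c1
  have l2 := cross_card_le c2
  have e1 := Finset.card_union_add_card_inter A A'
  have e2 := Finset.card_union_add_card_inter B B'
  have e3 := h.2
  have e4 := h'.2
  exact ⟨⟨c1, by omega⟩, ⟨c2, by omega⟩⟩

/-! #### the rigid part -/

open Classical in
/-- vertices on which all maximizers are one -/
noncomputable def HH (Ω : Set (V → V)) (j : ℕ) : Finset V :=
  Finset.univ.filter fun p => ∀ z, Mx Ω j z → z p = 1

open Classical in
/-- vertices on which some maximizer is two -/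
noncomputable def LL (Ω : Set (V → V)) (j : ℕ) : Finset V :=
  Finset.univ.filter fun p => ∃ z, Mx Ω j z ∧ z p = 2

open Classical in
/-- vertices on which all maximizers are positive -/
noncomputable def AA (Ω : Set (V → V)) (j : ℕ) : Finset V :=
  Finset.univ.filter fun p => ∀ z, Mx Ω j z → 1 ≤ z p

theorem mem_HH {j : ℕ} {p : V} : p ∈ HH Ω j ↔ ∀ z, Mx Ω j z → z p = 1 := by
  classical
  simp [HH]

theorem mem_LL {j : ℕ} {p : V} : p ∈ LL Ω j ↔ ∃ z, Mx Ω j z ∧ z p = 2 := by
  classical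
  simp [LL]

theorem mem_AA {j : ℕ} {p : V} : p ∈ AA Ω j ↔ ∀ z, Mx Ω j z → 1 ≤ z p := by
  classical
  simp [AA]

theorem extreme (Ω : Set (V → V)) (j : ℕ) : (AA Ω j).card + (LL Ω j).card = al Ω j := by
  classical
  -- pairs between the extreme ones
  let Q : Set ℕ := {t | ∃ A B, MP Ω j A B ∧ AA Ω j ⊆ A ∧ B ⊆ LL Ω j ∧ B.card = t}
  have hsub : ∀ z, Mx Ω j z → AA Ω j ⊆ pos z ∧ two z ⊆ LL Ω j := by
    intro z hz
    refine ⟨fun p hp => mem_pos.2 (mem_AA.1 hp z hz), fun p hp => mem_LL.2 ⟨z, hz, mem_two.1 hp⟩⟩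
  have hne : Q.Nonempty := by
    obtain ⟨z, h1, h2⟩ := exists_max Ω j
    have hz : Mx Ω j z := ⟨h1, h2⟩
    exact ⟨_, _, _, mp_of_mx hz, (hsub z hz).1, (hsub z hz).2, rfl⟩
  have hbdd : BddAbove Q := by
    refine ⟨Fintype.card V, ?_⟩
    rintro t ⟨A, B, -, -, -, rfl⟩
    exact Finset.card_le_univ B
  obtain ⟨A, B, hAB, hA, hB, hcard⟩ := Nat.sSup_mem hne hbdd
  have key : ∀ z, Mx Ω j z → A ⊆ pos z ∧ two z ⊆ B := by
    intro z hz
    have hm := (MP.meet hAB (mp_of_mx hz)).1
    have hle : (B ∪ two z).card ≤ B.card := by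
      rw [hcard]
      exact le_csSup hbdd ⟨_, _, hm, Finset.subset_inter hA (hsub z hz).1,
        Finset.union_subset hB (hsub z hz).2, rfl⟩
    have e1 : B = B ∪ two z := Finset.eq_of_subset_of_card_le Finset.subset_union_left hle
    have e2 : (A ∩ pos z).card = A.card := by
      have h1 := hm.2
      have h2 := hAB.2
      rw [← e1] at h1
      omega
    have e3 : A ∩ pos z = A := Finset.eq_of_subset_of_card_le Finset.inter_subset_left e2.ge
    constructor
    · rw [← e3]; exact Finset.inter_subset_right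
    · rw [e1]; exact Finset.subset_union_right
  have hA' : A = AA Ω j := by
    apply Finset.Subset.antisymm _ hA
    intro p hp
    exact mem_AA.2 fun z hz => mem_pos.1 ((key z hz).1 hp)
  have hB' : B = LL Ω j := by
    apply Finset.Subset.antisymm hB
    intro p hp
    obtain ⟨z, hz, hzp⟩ := mem_LL.1 hp
    exact (key z hz).2 (mem_two.2 hzp)
  rw [← hA', ← hB']
  exact hAB.2

theorem card_compl_HH [DecidableEq V] (Ω : Set (V → V)) (j : ℕ) :
    (HH Ω j)ᶜ.card ≤ 2 * (LL Ω j).card := by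
  have h1 : (HH Ω j)ᶜ ⊆ (AA Ω j)ᶜ ∪ LL Ω j := by
    intro p hp
    rw [Finset.mem_compl, mem_HH] at hp
    push Not at hp
    obtain ⟨z, hz, hzp⟩ := hp
    rw [Finset.mem_union, Finset.mem_compl, mem_AA, mem_LL]
    have := hz.1.1 p
    by_cases h0 : z p = 0
    · left
      intro h
      have := h z hz
      omega
    · right
      exact ⟨z, hz, by omega⟩
  have h2 := Finset.card_le_card h1
  have h3 := Finset.card_union_le (AA Ω j)ᶜ (LL Ω j)
  have h4 := extreme Ω j
  have h5 := card_le_al Ω j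
  have h6 := Finset.card_compl_add_card (AA Ω j)
  omega

theorem al_le (Ω : Set (V → V)) (j : ℕ) : al Ω j ≤ Fintype.card V + (LL Ω j).card := by
  have h4 := extreme Ω j
  have h6 := Finset.card_le_univ (AA Ω j)
  omega

theorem HH_mono {j : ℕ} (ha : al Ω j = al Ω (j + 1)) : HH Ω j ⊆ HH Ω (j + 1) := by
  intro p hp
  rw [mem_HH] at hp ⊢
  intro z hz
  exact hp z (hz.anti (Nat.le_succ j) ha)

/-- each rigid vertex has exactly one rigid preimage -/
theorem preimage_HH [DecidableEq V] {K j : ℕ} (hK : NoTriple Ω K) (hj : j + 1 ≤ K)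
    (ha : al Ω j = al Ω (j + 1)) {f : V → V} (hf : f ∈ Ω) {p : V} (hp : p ∈ HH Ω j) :
    ∃ x, f x = p ∧ x ∈ HH Ω (j + 1) ∧ ∀ y, f y = p → y ∈ HH Ω (j + 1) → y = x := by
  classical
  have hsum : ∀ z, Mx Ω (j + 1) z → ∑ x with f x = p, z x = 1 := fun z hz =>
    mem_HH.1 hp _ (push_max hK hj ha hf hz)
  obtain ⟨z₀, h1, h2⟩ := exists_max Ω (j + 1)
  have hz₀ : Mx Ω (j + 1) z₀ := ⟨h1, h2⟩
  -- uniqueness
  have huniq : ∀ x y, f x = p → x ∈ HH Ω (j + 1) → f y = p → y ∈ HH Ω (j + 1) → y = x := by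
    intro x y hx hxH hy hyH
    by_contra hne
    have h3 := hsum z₀ hz₀
    have h4 : ∑ u ∈ {x, y}, z₀ u ≤ ∑ u with f u = p, z₀ u := by
      apply Finset.sum_le_sum_of_subset
      intro u hu
      rw [Finset.mem_insert, Finset.mem_singleton] at hu
      rw [Finset.mem_filter]
      rcases hu with rfl | rfl
      · exact ⟨Finset.mem_univ _, hx⟩
      · exact ⟨Finset.mem_univ _, hy⟩
    rw [Finset.sum_pair (Ne.symm hne), mem_HH.1 hxH z₀ hz₀, mem_HH.1 hyH z₀ hz₀, h3] at h4
    omega
  -- existence: otherwise two maximizers have different supports in the fibre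
  have hex : ∃ x, f x = p ∧ x ∈ HH Ω (j + 1) := by
    -- the vertex of the fibre in the support of `z₀`
    have hone : ∀ z, Mx Ω (j + 1) z → ∃ x, f x = p ∧ z x = 1 ∧ ∀ y, f y = p → y ≠ x → z y = 0 := by
      intro z hz
      have h3 := hsum z hz
      have h4 : ∃ x ∈ Finset.univ.filter fun x => f x = p, z x ≠ 0 := by
        by_contra hcon
        push Not at hcon
        rw [Finset.sum_eq_zero hcon] at h3
        omega
      obtain ⟨x, hx, hx0⟩ := h4
      have hx' := (Finset.mem_filter.1 hx).2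
      have h5 := Finset.add_sum_erase _ z hx
      rw [h3] at h5
      refine ⟨x, hx', by omega, ?_⟩
      intro y hy hyx
      have h6 : z y ≤ ∑ u ∈ (Finset.univ.filter fun x => f x = p).erase x, z u := by
        apply Finset.single_le_sum (fun _ _ => Nat.zero_le _)
        rw [Finset.mem_erase, Finset.mem_filter]
        exact ⟨hyx, Finset.mem_univ _, hy⟩
      omega
    obtain ⟨x, hx, hx1, hx2⟩ := hone z₀ hz₀
    refine ⟨x, hx, mem_HH.2 fun z hz => ?_⟩
    obtain ⟨y, hy, hy1, hy2⟩ := hone z hz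
    by_cases hyx : x = y
    · rw [hyx]; exact hy1
    · exfalso
      have hm := mx_of_mp (MP.meet (mp_of_mx hz₀) (mp_of_mx hz)).2
      have h3 := hsum _ hm
      have h4 : ∑ u ∈ {x, y}, vec (pos z₀ ∪ pos z) (two z₀ ∩ two z) u ≤
          ∑ u with f u = p, vec (pos z₀ ∪ pos z) (two z₀ ∩ two z) u := by
        apply Finset.sum_le_sum_of_subset
        intro u hu
        rw [Finset.mem_insert, Finset.mem_singleton] at hu
        rw [Finset.mem_filter]
        rcases hu with rfl | rfl
        · exact ⟨Finset.mem_univ _, hx⟩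
        · exact ⟨Finset.mem_univ _, hy⟩
      rw [Finset.sum_pair hyx, h3] at h4
      have h5 : 1 ≤ vec (pos z₀ ∪ pos z) (two z₀ ∩ two z) x := by
        unfold vec
        rw [ind_true]
        · omega
        · rw [Finset.mem_union, mem_pos]; left; omega
      have h6 : 1 ≤ vec (pos z₀ ∪ pos z) (two z₀ ∩ two z) y := by
        unfold vec
        rw [ind_true]
        · omega
        · rw [Finset.mem_union, mem_pos, mem_pos]; right; omega
      omega
  obtain ⟨x, hx, hxH⟩ := hex
  exact ⟨x, hx, hxH, fun y hy hyH => huniq x y hx hxH hy hyH⟩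

/-- if the rigid part does not grow, then every letter permutes it -/
theorem stable [DecidableEq V] {K j : ℕ} (hK : NoTriple Ω K) (hj : j + 1 ≤ K)
    (ha : al Ω j = al Ω (j + 1)) (hH : HH Ω (j + 1) = HH Ω j) {f : V → V} (hf : f ∈ Ω) :
    (∀ x ∈ HH Ω j, f x ∈ HH Ω j) ∧ ∀ x ∈ HH Ω j, ∀ y ∈ HH Ω j, f x = f y → x = y := by
  classical
  have key : ∀ p : {p // p ∈ HH Ω j}, ∃ x : {p // p ∈ HH Ω j}, f x.1 = p.1 ∧
      ∀ y, f y = p.1 → y ∈ HH Ω j → y = x.1 := by
    intro p
    obtain ⟨x, h1, h2, h3⟩ := preimage_HH hK hj ha hf p.2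
    rw [hH] at h2 h3
    exact ⟨⟨x, h2⟩, h1, h3⟩
  choose g hg1 hg2 using key
  have hinj : Function.Injective g := by
    intro p q h
    apply Subtype.ext
    rw [← hg1 p, ← hg1 q, h]
  have hsurj : Function.Surjective g := Finite.surjective_of_injective hinj
  have h1 : ∀ x ∈ HH Ω j, f x ∈ HH Ω j := by
    intro x hx
    obtain ⟨p, hp⟩ := hsurj ⟨x, hx⟩
    have := hg1 p
    rw [hp] at this
    rw [this]
    exact p.2
  refine ⟨h1, ?_⟩
  intro x hx y hy hxy
  have e1 := hg2 ⟨f x, h1 x hx⟩ x rfl hx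
  have e2 := hg2 ⟨f x, h1 x hx⟩ y hxy.symm hy
  rw [e1, e2]

theorem word_injective {j : ℕ}
    (h : ∀ f ∈ Ω, (∀ x ∈ HH Ω j, f x ∈ HH Ω j) ∧
      ∀ x ∈ HH Ω j, ∀ y ∈ HH Ω j, f x = f y → x = y) :
    ∀ w, IsWord Ω w → ∀ x ∈ HH Ω j, ∀ y ∈ HH Ω j, act w x = act w y → x = y := by
  intro w
  induction w with
  | nil => intro _ x _ y _ hxy; exact hxy
  | cons f w ih =>
    intro hw x hx y hy hxy
    have hf : f ∈ Ω := hw f List.mem_cons_self
    have hw' : IsWord Ω w := fun g hg => hw g (List.mem_cons_of_mem _ hg)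
    exact (h f hf).2 x hx y hy (ih hw' _ ((h f hf).1 x hx) _ ((h f hf).1 y hy) hxy)

/-- the rigid part grows in every step in which the maximum does not change, as long as it
contains a pair of finite weight -/
theorem HH_lt [DecidableEq V] {K j : ℕ} (hK : NoTriple Ω K) (hj : j + 1 ≤ K)
    (ha : al Ω j = al Ω (j + 1)) (hedge : ∃ x ∈ HH Ω j, ∃ y ∈ HH Ω j, Pr Ω j x y) :
    (HH Ω j).card < (HH Ω (j + 1)).card := by
  apply Finset.card_lt_card
  refine ⟨HH_mono ha, fun hsub => ?_⟩
  have hH : HH Ω (j + 1) = HH Ω j := Finset.Subset.antisymm hsub (HH_mono ha)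
  obtain ⟨x, hx, y, hy, hxy, w, hw, -, hact⟩ := hedge
  exact hxy (word_injective (fun f hf => stable hK hj ha hH hf) w hw x hx y hy hact)

end Q138.Triple
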