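import Pool.Agent.Q138.TripleCore

set_option autoImplicit false

/-!
Counting pairs of small weight: an upper bound for the least weight of a triple.
-/

namespace Q138.Triple

variable {V : Type} {Ω : Set (V → V)}

/-- pairs of weight exactly `i` -/
def Ex (Ω : Set (V → V)) (i : ℕ) (x y : V) : Prop := Pr Ω i x y ∧ ¬ Pr Ω (i - 1) x y

theorem isWord_tail {f : V → V} {w : List (V → V)} (hw : IsWord Ω (f :: w)) :
    f ∈ Ω ∧ IsWord Ω w :=
  ⟨hw f List.mem_cons_self, fun g hg => hw g (List.mem_cons_of_mem _ hg)⟩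

theorem ex_of_triple {K : ℕ} (hK : NoTriple Ω K) (hK1 : 1 ≤ K)
    (h : ∃ x y z : V, x ≠ y ∧ x ≠ z ∧ y ≠ z ∧ ∃ w, IsWord Ω w ∧ w.length = K + 1 ∧
      act w x = act w y ∧ act w x = act w z) : ∃ p q, Ex Ω K p q := by
  obtain ⟨x, y, z, hxy, hxz, hyz, w, hw, hl, h1, h2⟩ := h
  cases w with
  | nil => simp at hl
  | cons f w =>
    obtain ⟨hf, hw'⟩ := isWord_tail hw
    rw [List.length_cons] at hl
    have hl' : w.length = K := by omega
    change act w (f x) = act w (f y) at h1
    change act w (f x) = act w (f z) at h2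
    have hsingle : IsWord Ω [f] := isWord_cons hf (fun g hg => absurd hg List.not_mem_nil)
    -- the key step, for a pair of distinct images
    have main : ∀ p q, p ≠ q → act w p = act w q →
        (∀ u, act u p = act u q → act u (f x) = act u (f y) ∧ act u (f x) = act u (f z)) →
        ∃ p q, Ex Ω K p q := by
      intro p q hpq hact hall
      refine ⟨p, q, ⟨hpq, w, hw', hl'.le, hact⟩, ?_⟩
      rintro ⟨-, u, hu, hul, huact⟩
      obtain ⟨h3, h4⟩ := hall u huact
      exact hK x y z hxy hxz hyz (f :: u) (isWord_cons hf hu) (by rw [List.length_cons]; omega)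
        h3 h4
    by_cases e1 : f x = f y
    · by_cases e2 : f x = f z
      · exact absurd (hK x y z hxy hxz hyz [f] hsingle (by simpa using hK1) e1 e2) id
      · exact main (f x) (f z) e2 h2 fun u hu => ⟨by rw [e1], hu⟩
    · by_cases e2 : f x = f z
      · exact main (f x) (f y) e1 h1 fun u hu => ⟨hu, by rw [e2]⟩
      · by_cases e3 : f y = f z
        · exact main (f x) (f y) e1 h1 fun u hu => ⟨hu, by rw [← e3]; exact hu⟩
        · exact absurd (hK (f x) (f y) (f z) e1 e2 e3 w hw' hl'.le h1 h2) id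

theorem ex_pred {i : ℕ} (hi : 1 ≤ i) (h : ∃ p q, Ex Ω (i + 1) p q) : ∃ p q, Ex Ω i p q := by
  obtain ⟨p, q, ⟨hpq, w, hw, hl, hact⟩, hn⟩ := h
  rw [Nat.add_sub_cancel] at hn
  cases w with
  | nil => exact absurd hact hpq
  | cons f w =>
    obtain ⟨hf, hw'⟩ := isWord_tail hw
    have hsingle : IsWord Ω [f] := isWord_cons hf (fun g hg => absurd hg List.not_mem_nil)
    rw [List.length_cons] at hl
    change act w (f p) = act w (f q) at hact
    refine ⟨f p, f q, ⟨?_, w, hw', by omega, hact⟩, ?_⟩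
    · intro h
      exact hn ⟨hpq, [f], hsingle, by simpa using hi, h⟩
    · rintro ⟨-, u, hu, hul, huact⟩
      exact hn ⟨hpq, f :: u, isWord_cons hf hu, by rw [List.length_cons]; omega, huact⟩

theorem ex_all {K : ℕ} (hK : NoTriple Ω K)
    (h : ∃ x y z : V, x ≠ y ∧ x ≠ z ∧ y ≠ z ∧ ∃ w, IsWord Ω w ∧ w.length = K + 1 ∧
      act w x = act w y ∧ act w x = act w z) :
    ∀ i, 1 ≤ i → i ≤ K → ∃ p q, Ex Ω i p q := by
  have key : ∀ d i, 1 ≤ i → i + d = K → ∃ p q, Ex Ω i p q := by
    intro d
    induction d with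
    | zero =>
      intro i hi hid
      rw [Nat.add_zero] at hid
      rw [hid]
      exact ex_of_triple hK (by omega) h
    | succ d ih =>
      intro i hi hid
      exact ex_pred hi (ih (i + 1) (by omega) (by omega))
  intro i h1 h2
  exact key (K - i) i h1 (by omega)

variable [Fintype V]

open Classical in
/-- ordered pairs of weight at most `j` -/
noncomputable def EE (Ω : Set (V → V)) (j : ℕ) : Finset (V × V) :=
  Finset.univ.filter fun p => Pr Ω j p.1 p.2

theorem mem_EE {j : ℕ} {p : V × V} : p ∈ EE Ω j ↔ Pr Ω j p.1 p.2 := by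
  classical
  simp [EE]

theorem card_EE {K : ℕ} (h : ∀ i, 1 ≤ i → i ≤ K → ∃ p q, Ex Ω i p q) :
    ∀ j, j ≤ K → 2 * j ≤ (EE Ω j).card := by
  classical
  intro j
  induction j with
  | zero => intro _; simp
  | succ j ih =>
    intro hj
    obtain ⟨p, q, h1, h2⟩ := h (j + 1) (by omega) hj
    rw [Nat.add_sub_cancel] at h2
    have hpq : p ≠ q := h1.1
    have hsub : EE Ω j ∪ {(p, q), (q, p)} ⊆ EE Ω (j + 1) := by
      intro e he
      rw [Finset.mem_union, Finset.mem_insert, Finset.mem_singleton] at he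
      rw [mem_EE]
      rcases he with he | he | he
      · exact (mem_EE.1 he).mono (Nat.le_succ j)
      · rw [he]; exact h1
      · rw [he]; exact h1.symm
    have hdisj : Disjoint (EE Ω j) {(p, q), (q, p)} := by
      rw [Finset.disjoint_right]
      intro e he
      rw [Finset.mem_insert, Finset.mem_singleton] at he
      rw [mem_EE]
      rcases he with he | he
      · rw [he]; exact h2
      · rw [he]; exact fun h => h2 h.symm
    have hc2 : ({(p, q), (q, p)} : Finset (V × V)).card = 2 := by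
      apply Finset.card_pair
      intro h
      exact hpq (congrArg Prod.fst h)
    have := Finset.card_le_card hsub
    rw [Finset.card_union_of_disjoint hdisj, hc2] at this
    have := ih (by omega)
    omega

/-! #### dense pair graphs -/

theorem two_small {j : ℕ} (hd : 15 * Fintype.card V ^ 2 ≤ 16 * (EE Ω j).card) {z : V → ℕ}
    (hz : Feas Ω j z) : 4 * (two z).card ≤ Fintype.card V := by
  classical
  have hdisj : Disjoint (EE Ω j) (two z ×ˢ two z) := by
    rw [Finset.disjoint_right]
    rintro ⟨p, q⟩ he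
    rw [Finset.mem_product, mem_two, mem_two] at he
    rw [mem_EE]
    intro h
    have h1 := hz.2 p q h
    have h2 : z p = 2 := he.1
    have h3 : z q = 2 := he.2
    omega
  have h1 := Finset.card_le_univ (EE Ω j ∪ two z ×ˢ two z)
  rw [Finset.card_union_of_disjoint hdisj, Finset.card_product, Fintype.card_prod] at h1
  by_contra hcon
  push Not at hcon
  nlinarith

theorem LL_small {j : ℕ} (hd : 15 * Fintype.card V ^ 2 ≤ 16 * (EE Ω j).card) :
    12 * (LL Ω j).card ≤ Fintype.card V := by
  classical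
  -- non-neighbours
  let N : V → Finset V := fun p => Finset.univ.filter fun q => ¬ Pr Ω j p q
  have hN : ∀ p ∈ LL Ω j, 3 * Fintype.card V ≤ 4 * (N p).card := by
    intro p hp
    obtain ⟨z, hz, hzp⟩ := mem_LL.1 hp
    have h1 : pos z ⊆ N p := by
      intro q hq
      rw [mem_pos] at hq
      refine Finset.mem_filter.2 ⟨Finset.mem_univ _, fun h => ?_⟩
      have := hz.1.2 p q h
      omega
    have h2 := Finset.card_le_card h1
    have h3 := card_pos_two hz.1
    have h4 := card_le_al Ω j
    have h5 := two_small hd hz.1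
    have h6 := hz.2
    omega
  -- the pairs that are not of small weight
  have hdisj : Disjoint (EE Ω j) ((LL Ω j).sigma N |>.map
      ⟨fun p => (p.1, p.2), fun p q h => by
        obtain ⟨a, b⟩ := p; obtain ⟨c, d⟩ := q
        simp only [Prod.mk.injEq] at h
        obtain ⟨rfl, rfl⟩ := h
        rfl⟩) := by
    rw [Finset.disjoint_right]
    rintro ⟨p, q⟩ he
    rw [Finset.mem_map] at he
    obtain ⟨⟨a, b⟩, hab, heq⟩ := he
    rw [Finset.mem_sigma] at hab
    have h1 : ¬ Pr Ω j a b := (Finset.mem_filter.1 hab.2).2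
    have h2 : (a, b) = (p, q) := heq
    rw [mem_EE]
    rw [Prod.mk.injEq] at h2
    rw [← h2.1, ← h2.2]
    exact h1
  have h1 := Finset.card_le_univ (EE Ω j ∪ ((LL Ω j).sigma N |>.map
      ⟨fun p => (p.1, p.2), fun p q h => by
        obtain ⟨a, b⟩ := p; obtain ⟨c, d⟩ := q
        simp only [Prod.mk.injEq] at h
        obtain ⟨rfl, rfl⟩ := h
        rfl⟩))
  rw [Finset.card_union_of_disjoint hdisj, Finset.card_map, Finset.card_sigma,
    Fintype.card_prod] at h1
  have h2 : (LL Ω j).card * (3 * Fintype.card V) ≤ 4 * ∑ p ∈ LL Ω j, (N p).card := by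
    rw [Finset.mul_sum, ← smul_eq_mul, ← Finset.sum_const]
    exact Finset.sum_le_sum hN
  rcases Nat.eq_zero_or_pos (Fintype.card V) with h0 | h0
  · have := Finset.card_le_univ (LL Ω j)
    omega
  · by_contra hcon
    push Not at hcon
    nlinarith

theorem exists_edge {j : ℕ} (hd : 15 * Fintype.card V ^ 2 ≤ 16 * (EE Ω j).card)
    (h0 : 0 < Fintype.card V) : ∃ x ∈ HH Ω j, ∃ y ∈ HH Ω j, Pr Ω j x y := by
  classical
  by_contra hcon
  push Not at hcon
  have hsub : EE Ω j ⊆ ((HH Ω j)ᶜ ×ˢ Finset.univ) ∪ (Finset.univ ×ˢ (HH Ω j)ᶜ) := by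
    rintro ⟨p, q⟩ he
    rw [mem_EE] at he
    rw [Finset.mem_union, Finset.mem_product, Finset.mem_product, Finset.mem_compl,
      Finset.mem_compl]
    by_contra h
    push Not at h
    have hp : p ∈ HH Ω j := by
      by_contra hp
      exact h.1 hp (Finset.mem_univ _)
    have hq : q ∈ HH Ω j := h.2 (Finset.mem_univ _)
    exact hcon p hp q hq he
  have h1 := Finset.card_le_card hsub
  have h2 := Finset.card_union_le ((HH Ω j)ᶜ ×ˢ Finset.univ) (Finset.univ ×ˢ (HH Ω j)ᶜ)
  rw [Finset.card_product, Finset.card_product, Finset.card_univ] at h2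
  have h3 := card_compl_HH Ω j
  have h4 := LL_small hd
  have h5 : 6 * ((HH Ω j)ᶜ).card ≤ Fintype.card V := by omega
  nlinarith

theorem main_bound {m : ℕ} (hn : 152 ≤ Fintype.card V) (hK : NoTriple Ω m)
    (h : ∃ x y z : V, x ≠ y ∧ x ≠ z ∧ y ≠ z ∧ ∃ w, IsWord Ω w ∧ w.length = m + 1 ∧
      act w x = act w y ∧ act w x = act w z) : 64 * (m + 1) ≤ 31 * Fintype.card V ^ 2 := by
  classical
  by_contra hcon
  push Not at hcon
  set n := Fintype.card V with hndef
  have hE := card_EE (ex_all hK h)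
  set J := (15 * n ^ 2 + 31) / 32 with hJ
  have hJ1 : 15 * n ^ 2 ≤ 32 * J := by omega
  have hJ2 : 32 * J ≤ 15 * n ^ 2 + 31 := by omega
  have hdense : ∀ j, J ≤ j → j ≤ m → 15 * Fintype.card V ^ 2 ≤ 16 * (EE Ω j).card := by
    intro j h1 h2
    have := hE j h2
    rw [← hndef]
    omega
  -- the potential
  let F : ℕ → ℕ × ℕ := fun j => (al Ω j - n, ((HH Ω j)ᶜ).card)
  have hlt : ∀ j, J ≤ j → j + 1 ≤ m → al Ω j = al Ω (j + 1) →
      ((HH Ω (j + 1))ᶜ).card < ((HH Ω j)ᶜ).card := by
    intro j h1 h2 h3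
    have h4 := HH_lt hK h2 h3 (exists_edge (hdense j h1 (by omega)) (by omega))
    have h5 := Finset.card_compl_add_card (HH Ω (j + 1))
    have h6 := Finset.card_compl_add_card (HH Ω j)
    omega
  -- lexicographic decrease
  have hlex : ∀ d j, J ≤ j → j + d + 1 ≤ m → al Ω j = al Ω (j + d + 1) →
      ((HH Ω (j + d + 1))ᶜ).card < ((HH Ω j)ᶜ).card := by
    intro d
    induction d with
    | zero => intro j h1 h2 h3; exact hlt j h1 h2 h3
    | succ d ih =>
      intro j h1 h2 h3
      have h4 : al Ω (j + d + 1) ≤ al Ω j := al_anti (by omega)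
      have h5 : al Ω (j + (d + 1) + 1) ≤ al Ω (j + d + 1) := al_anti (by omega)
      have h6 := ih j h1 (by omega) (by omega)
      have h7 := hlt (j + d + 1) (by omega) (by omega) (by
        rw [show j + d + 1 + 1 = j + (d + 1) + 1 from by omega]; omega)
      rw [show j + d + 1 + 1 = j + (d + 1) + 1 from by omega] at h7
      omega
  have hmaps : ∀ j ∈ Finset.Icc J m, F j ∈ Finset.range (n / 12 + 1) ×ˢ
      Finset.range (n / 6 + 1) := by
    intro j hj
    rw [Finset.mem_Icc] at hj
    have h1 := hdense j hj.1 hj.2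
    have h2 := LL_small h1
    have h3 := card_compl_HH Ω j
    have h4 := al_le Ω j
    rw [Finset.mem_product, Finset.mem_range, Finset.mem_range]
    constructor
    · show al Ω j - n < n / 12 + 1
      omega
    · show ((HH Ω j)ᶜ).card < n / 6 + 1
      omega
  have hinj : Set.InjOn F (Finset.Icc J m : Finset ℕ) := by
    have key : ∀ i j, J ≤ i → i < j → j ≤ m → F i ≠ F j := by
      intro i j h1 h2 h3 heq
      obtain ⟨d, rfl⟩ : ∃ d, j = i + d + 1 := ⟨j - i - 1, by omega⟩
      have e1 : al Ω i - n = al Ω (i + d + 1) - n := congrArg Prod.fst heq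
      have e2 : ((HH Ω i)ᶜ).card = ((HH Ω (i + d + 1))ᶜ).card := congrArg Prod.snd heq
      have h4 := card_le_al Ω i
      have h5 := card_le_al Ω (i + d + 1)
      have := hlex d i h1 h3 (by omega)
      omega
    intro i hi j hj hij
    rw [Finset.mem_coe, Finset.mem_Icc] at hi hj
    rcases lt_trichotomy i j with h | h | h
    · exact absurd hij (key i j hi.1 h hj.2)
    · exact h
    · exact absurd hij.symm (key j i hj.1 h hi.2)
  have hcard := Finset.card_le_card_of_injOn F hmaps hinj
  rw [Nat.card_Icc, Finset.card_product, Finset.card_range, Finset.card_range] at hcard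
  have h7 : 72 * ((n / 12 + 1) * (n / 6 + 1)) ≤ (n + 12) * (n + 6) := by
    have a1 : 12 * (n / 12 + 1) ≤ n + 12 := by omega
    have a2 : 6 * (n / 6 + 1) ≤ n + 6 := by omega
    calc 72 * ((n / 12 + 1) * (n / 6 + 1)) = (12 * (n / 12 + 1)) * (6 * (n / 6 + 1)) := by ring
      _ ≤ (n + 12) * (n + 6) := Nat.mul_le_mul a1 a2
  have h8 : 72 * (m + 1 - J) ≤ (n + 12) * (n + 6) := le_trans (Nat.mul_le_mul_left 72 hcard) h7
  have h9 : n ^ 2 ≤ 64 * (m + 1 - J) + 61 := by omega
  nlinarith

end Q138.Triple
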