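import Mathlib

set_option autoImplicit false

/-!
Tropical rank and dimension of finitely generated tropical semimodules of real functions.
-/

namespace Q138.TropRank

/-- The finite-valued elements of the tropical semimodule generated by the functions
`g 0, …, g (l - 1)`: the functions `x ↦ min_{j ∈ J} (g j x + c j)`, where `J` is a set of indices
(coefficients `∞` are given to the indices outside `J`). -/
def Mem {Y : Type} {l : ℕ} (g : Fin l → Y → ℝ) (f : Y → ℝ) : Prop :=
  ∃ (J : Finset (Fin l)) (c : Fin l → ℝ), J.Nonempty ∧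
    ∀ x, IsLeast ((fun j => g j x + c j) '' (J : Set (Fin l))) (f x)

/-- Tropical dependence of `f 0, …, f (r - 1)`: for some real `c 0, …, c (r - 1)` and all `x`, the
minimum of the `f i x + c i` is attained at least twice. -/
def TropDep {Y : Type} {r : ℕ} (f : Fin r → Y → ℝ) : Prop :=
  ∃ c : Fin r → ℝ, ∀ x, ∃ i j, i ≠ j ∧ f i x + c i = f j x + c j ∧
    ∀ k, f i x + c i ≤ f k x + c k

/-- The tropical rank: the largest number of tropically independent (finite-valued) elements,
or `⊤` if there is no largest number. -/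
noncomputable def troprank {Y : Type} {l : ℕ} (g : Fin l → Y → ℝ) : ℕ∞ :=
  ⨆ r ∈ {r : ℕ | ∃ f : Fin r → Y → ℝ, Function.Injective f ∧ (∀ i, Mem g (f i)) ∧ ¬ TropDep f},
    (r : ℕ∞)

/-- The fibre over `f` of the map `Ψ` from `ℝ^l` to the functions on `Y`,
`Ψ c = min_j (g j + c j)`. -/
def fibre {Y : Type} {l : ℕ} (g : Fin l → Y → ℝ) (f : Y → ℝ) : Set (Fin l → ℝ) :=
  {c | ∀ x, IsLeast (Set.range fun j => g j x + c j) (f x)}

/-- The dimension of a finite union of polyhedra: the largest dimension of a nonempty convex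
subset. -/
noncomputable def polyDim {l : ℕ} (S : Set (Fin l → ℝ)) : ℕ :=
  sSup {n | ∃ C ⊆ S, C.Nonempty ∧ Convex ℝ C ∧ n = Module.finrank ℝ (vectorSpan ℝ C)}

/-- `dim M = max_f (l - dim Ψ⁻¹(f))`, where `f` runs over the functions with nonempty fibre. -/
noncomputable def mdim {Y : Type} {l : ℕ} (g : Fin l → Y → ℝ) : ℕ :=
  sSup {n | ∃ f, (fibre g f).Nonempty ∧ n = l - polyDim (fibre g f)}

variable {Y : Type} {l : ℕ}

theorem polyDim_bdd (S : Set (Fin l → ℝ)) :
    BddAbove {n | ∃ C ⊆ S, C.Nonempty ∧ Convex ℝ C ∧ n = Module.finrank ℝ (vectorSpan ℝ C)} := by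
  refine ⟨l, ?_⟩
  rintro _ ⟨C, _, _, _, rfl⟩
  have := Submodule.finrank_le (vectorSpan ℝ C)
  simpa using this

theorem mdim_bdd (g : Fin l → Y → ℝ) :
    BddAbove {n | ∃ f, (fibre g f).Nonempty ∧ n = l - polyDim (fibre g f)} := by
  refine ⟨l, ?_⟩
  rintro _ ⟨f, _, rfl⟩
  exact Nat.sub_le _ _

/-! ### lower bound for the tropical rank -/

theorem le_troprank {g : Fin l → Y → ℝ} {r : ℕ} (f : Fin r → Y → ℝ) (h1 : Function.Injective f)
    (h2 : ∀ i, Mem g (f i)) (h3 : ¬ TropDep f) : (r : ℕ∞) ≤ troprank g :=
  le_iSup₂_of_le (f := fun (r : ℕ) (_ : r ∈ {r : ℕ | ∃ f : Fin r → Y → ℝ, Function.Injective f ∧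
    (∀ i, Mem g (f i)) ∧ ¬ TropDep f}) => (r : ℕ∞)) r ⟨f, h1, h2, h3⟩ le_rfl

/-- a family in which each function is the unique minimizer somewhere is independent -/
theorem indep_of_unique {r : ℕ} (f : Fin r → Y → ℝ) (c : Fin r → ℝ) (x : Fin r → Y)
    (h : ∀ k i, i ≠ k → f k (x k) + c k < f i (x k) + c i) [Nonempty Y] : ¬ TropDep f := by
  rintro ⟨d, hd⟩
  rcases Nat.eq_zero_or_pos r with rfl | hr
  · obtain ⟨i, _⟩ := hd (Classical.arbitrary Y)
    exact i.elim0
  · have : Nonempty (Fin r) := ⟨⟨0, hr⟩⟩
    obtain ⟨k, hk⟩ := Finite.exists_min fun i => d i - c i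
    have key : ∀ i, i ≠ k → f k (x k) + d k < f i (x k) + d i := by
      intro i hi
      have := h k i hi
      have := hk i
      linarith
    obtain ⟨i, j, hij, h1, h2⟩ := hd (x k)
    by_cases hi : i = k
    · subst hi
      have := key j (Ne.symm hij)
      linarith
    · have := key i hi
      have := h2 k
      linarith

theorem mdim_le_troprank (g : Fin l → Y → ℝ) : (mdim g : ℕ∞) ≤ troprank g := by
  classical
  by_cases hne : {n | ∃ f, (fibre g f).Nonempty ∧ n = l - polyDim (fibre g f)}.Nonempty
  swap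
  · rw [Set.not_nonempty_iff_eq_empty] at hne
    unfold mdim
    rw [hne, csSup_empty]
    simp
  · obtain ⟨f, ⟨c, hc⟩, hn⟩ := Nat.sSup_mem hne (mdim_bdd g)
    change mdim g = _ at hn
    by_cases hY : Nonempty Y
    swap
    · -- no points
      have h1 : fibre g f = Set.univ := by
        rw [Set.eq_univ_iff_forall]
        intro c x
        exact absurd ⟨x⟩ hY
      have h2 : l ≤ polyDim (fibre g f) := by
        apply le_csSup (polyDim_bdd _)
        refine ⟨Set.univ, by rw [h1], Set.univ_nonempty, convex_univ, ?_⟩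
        rw [← direction_affineSpan, AffineSubspace.span_univ, AffineSubspace.direction_top]
        simp
      rw [hn, Nat.sub_eq_zero_of_le h2]
      simp
    · let m : Fin l → ℝ := fun j => ⨆ x, (f x - g j x)
      have hbd : ∀ j, BddAbove (Set.range fun x => f x - g j x) := by
        intro j
        refine ⟨c j, ?_⟩
        rintro _ ⟨x, rfl⟩
        have := (hc x).2 ⟨j, rfl⟩
        dsimp only at this ⊢
        linarith
      have hm1 : ∀ j x, f x - g j x ≤ m j := fun j x => le_ciSup (hbd j) x
      have hm2 : ∀ j, m j ≤ c j := by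
        intro j
        refine ciSup_le fun x => ?_
        have := (hc x).2 ⟨j, rfl⟩
        dsimp only at this
        linarith
      let cov : Finset (Finset (Fin l)) :=
        Finset.univ.filter fun J => ∀ x, ∃ j ∈ J, g j x + m j = f x
      have hcov : Finset.univ ∈ cov := by
        rw [Finset.mem_filter]
        refine ⟨Finset.mem_univ _, fun x => ?_⟩
        obtain ⟨j, hj⟩ := (hc x).1
        refine ⟨j, Finset.mem_univ _, ?_⟩
        dsimp only at hj
        have h1 := hm1 j x
        have h2 := hm2 j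
        linarith
      obtain ⟨J, hJ, hJmin⟩ := Finset.exists_min_image cov Finset.card ⟨_, hcov⟩
      rw [Finset.mem_filter] at hJ
      have hJ' := hJ.2
      -- the dimension of the fibre
      have hdim : l - J.card ≤ polyDim (fibre g f) := by
        have hC : {c : Fin l → ℝ | (∀ j ∈ J, c j = m j) ∧ ∀ j, m j ≤ c j} ⊆ fibre g f := by
          rintro c ⟨h1, h2⟩ x
          obtain ⟨j, hj, hjx⟩ := hJ' x
          refine ⟨⟨j, ?_⟩, ?_⟩
          · dsimp only
            rw [h1 j hj, hjx]
          · rintro _ ⟨i, rfl⟩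
            have := hm1 i x
            have := h2 i
            dsimp only
            linarith
        refine le_trans ?_ (le_csSup (polyDim_bdd _)
          ⟨_, hC, ⟨m, fun _ _ => rfl, fun _ => le_rfl⟩, ?_, rfl⟩)
        · -- the unit vectors
          have hlin : LinearIndependent ℝ (fun j : {j // j ∉ J} =>
              Pi.basisFun ℝ (Fin l) (j : Fin l)) :=
            (Pi.basisFun ℝ (Fin l)).linearIndependent.comp _ Subtype.val_injective
          have h1 := finrank_span_eq_card hlin
          have h2 : Fintype.card {j // j ∉ J} = l - J.card := by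
            rw [Fintype.card_subtype_compl]
            simp
          rw [← h2, ← h1]
          apply Submodule.finrank_mono
          rw [Submodule.span_le]
          rintro _ ⟨j, rfl⟩
          have h3 : Pi.basisFun ℝ (Fin l) (j : Fin l) =
              (m + Pi.basisFun ℝ (Fin l) (j : Fin l)) -ᵥ m := by
            rw [vsub_eq_sub, add_sub_cancel_left]
          show Pi.basisFun ℝ (Fin l) (j : Fin l) ∈ _
          rw [h3]
          apply vsub_mem_vectorSpan
          · refine ⟨fun i hi => ?_, fun i => ?_⟩
            · have : i ≠ (j : Fin l) := fun h => j.2 (h ▸ hi)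
              simp [this]
            · rw [Pi.add_apply, Pi.basisFun_apply, Pi.single_apply]
              split_ifs <;> linarith
          · exact ⟨fun _ _ => rfl, fun _ => le_rfl⟩
        · intro a ha b hb s t hs ht hst
          refine ⟨fun j hj => ?_, fun j => ?_⟩
          · rw [Pi.add_apply, Pi.smul_apply, Pi.smul_apply, ha.1 j hj, hb.1 j hj, ← add_smul, hst,
              one_smul]
          · rw [Pi.add_apply, Pi.smul_apply, Pi.smul_apply, smul_eq_mul, smul_eq_mul]
            have h1 := mul_le_mul_of_nonneg_left (ha.2 j) hs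
            have h2 := mul_le_mul_of_nonneg_left (hb.2 j) ht
            have : m j = s * m j + t * m j := by rw [← add_mul, hst, one_mul]
            linarith
      -- the generators in `J` are independent
      have hess : ∀ j : J, ∃ x, ∀ i ∈ J, i ≠ j → f x < g i x + m i := by
        intro j
        by_contra hcon
        push Not at hcon
        have h1 : J.erase j ∈ cov := by
          rw [Finset.mem_filter]
          refine ⟨Finset.mem_univ _, fun x => ?_⟩
          obtain ⟨i, hi, hij, hle⟩ := hcon x
          refine ⟨i, Finset.mem_erase.2 ⟨hij, hi⟩, ?_⟩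
          have := hm1 i x
          linarith
        have h2 := hJmin _ h1
        rw [Finset.card_erase_of_mem j.2] at h2
        have := Finset.card_pos.2 ⟨_, j.2⟩
        omega
      choose x hx using hess
      have hxj : ∀ j : J, f (x j) = g j (x j) + m j := by
        intro j
        obtain ⟨i, hi, hix⟩ := hJ' (x j)
        by_cases hij : i = j
        · rw [← hij, hix]
        · have := hx j i hi hij
          linarith
      let e : Fin J.card ≃ J := J.equivFin.symm
      have hu : ∀ k i : Fin J.card, i ≠ k →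
          g (e k) (x (e k)) + m (e k) < g (e i) (x (e k)) + m (e i) := by
        intro k i hik
        rw [← hxj (e k)]
        refine hx (e k) (e i) (e i).2 ?_
        intro h
        exact hik (e.injective (Subtype.ext h))
      have hind := indep_of_unique (fun k : Fin J.card => g (e k)) (fun k => m (e k))
        (fun k => x (e k)) hu
      have hle := le_troprank (g := g) (fun k : Fin J.card => g (e k)) (by
        intro k i hki
        by_contra hne
        have h1 := hu k i (Ne.symm hne)
        have h2 := hu i k hne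
        have h3 : ∀ y, g (e k) y = g (e i) y := fun y => congrFun hki y
        have h4 := h3 (x (e k))
        have h5 := h3 (x (e i))
        linarith) (fun k => ⟨{(e k : Fin l)}, 0, Finset.singleton_nonempty _, fun y => by
          simp⟩) hind
      refine le_trans ?_ hle
      rw [hn]
      have : l - polyDim (fibre g f) ≤ J.card := by omega
      exact_mod_cast this

/-! ### an additive eigenvector -/

section Eigen

variable {r : ℕ}

/-- Abstract form: a map `T` on `ℝ^r` that is additively homogeneous, nonexpansive for the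
supremum norm, with `T_i(v) ≤ B + v_j` for `j ≠ i` and `T_i(v) ≥ - B + v_j` for some `j ≠ i`, has an
additive eigenvector. -/
theorem eigen (hr : 2 ≤ r) (T : (Fin r → ℝ) → (Fin r → ℝ)) (B : ℝ) (hB : 0 ≤ B)
    (hom : ∀ v (t : ℝ), T (fun i => v i + t) = fun i => T v i + t)
    (lip : ∀ v w, dist (T v) (T w) ≤ dist v w)
    (hup : ∀ v i j, j ≠ i → T v i ≤ B + v j)
    (hlo : ∀ v i, ∃ j, j ≠ i ∧ -B + v j ≤ T v i) :
    ∃ (v : Fin r → ℝ) (s : ℝ), ∀ i, T v i = v i + s := by
  let i0 : Fin r := ⟨0, by omega⟩
  have hne : Nonempty (Fin r) := ⟨i0⟩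
  -- discounted fixed points
  have key : ∀ a : ℝ, 0 ≤ a → a < 1 → ∃ (v : Fin r → ℝ) (s : ℝ), (∀ i, |v i| ≤ 2 * B) ∧
      |s| ≤ B ∧ ∀ i, T (fun j => a * v j) i = v i + s := by
    intro a ha0 ha1
    have hcon : ContractingWith ⟨a, ha0⟩ (fun u : Fin r → ℝ => T (fun j => a * u j)) := by
      refine ⟨by exact_mod_cast ha1, LipschitzWith.of_dist_le_mul fun u w => ?_⟩
      refine (lip _ _).trans ?_
      have h1 : (fun j => a * u j) = a • u := rfl
      have h2 : (fun j => a * w j) = a • w := rfl
      rw [h1, h2, dist_smul₀, Real.norm_of_nonneg ha0]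
      rfl
    obtain ⟨u, hu⟩ : ∃ u, T (fun j => a * u j) = u :=
      ⟨hcon.fixedPoint, hcon.fixedPoint_isFixedPt⟩
    have hU : ∀ i j, j ≠ i → u i ≤ B + a * u j := by
      intro i j hij
      have := hup (fun j => a * u j) i j hij
      rwa [hu] at this
    have hL : ∀ i, ∃ j, j ≠ i ∧ -B + a * u j ≤ u i := by
      intro i
      have := hlo (fun j => a * u j) i
      rwa [hu] at this
    have hmin : ∀ i, -B ≤ (1 - a) * u i := by
      obtain ⟨k, hk⟩ := Finite.exists_min u
      obtain ⟨j, _, hj⟩ := hL k
      intro i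
      have h1 := mul_le_mul_of_nonneg_left (hk j) ha0
      have h2 := mul_le_mul_of_nonneg_left (hk i) (by linarith : 0 ≤ 1 - a)
      linarith
    have hmax : ∀ i, (1 - a) * u i ≤ B := by
      obtain ⟨k, hk⟩ := Finite.exists_max u
      obtain ⟨j, hj⟩ : ∃ j : Fin r, j ≠ k := by
        by_cases h : k = i0
        · refine ⟨⟨1, by omega⟩, ?_⟩
          rw [h]
          intro h1
          exact one_ne_zero (congrArg Fin.val h1)
        · exact ⟨i0, Ne.symm h⟩
      intro i
      have h1 := mul_le_mul_of_nonneg_left (hk j) ha0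
      have h2 := mul_le_mul_of_nonneg_left (hk i) (by linarith : 0 ≤ 1 - a)
      have h3 := hU k j hj
      linarith
    have hdiff : ∀ i j, u i - u j ≤ 2 * B := by
      intro i j
      by_cases hij : j = i
      · rw [hij, sub_self]; positivity
      · have h1 := hU i j hij
        have h2 := hmin j
        linarith
    refine ⟨fun i => u i - u i0, (1 - a) * u i0, fun i => ?_, ?_, fun i => ?_⟩
    · rw [abs_le]
      have := hdiff i i0
      have := hdiff i0 i
      constructor <;> linarith
    · rw [abs_le]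
      exact ⟨hmin i0, hmax i0⟩
    · have h1 : (fun j => a * (u j - u i0)) = fun j => (fun j => a * u j) j + (-(a * u i0)) := by
        funext j
        ring
      rw [h1, hom, hu]
      ring
  have ha : ∀ n : ℕ, 0 ≤ 1 - 1 / ((n : ℝ) + 1) ∧ 1 - 1 / ((n : ℝ) + 1) < 1 := by
    intro n
    have h1 : 0 < 1 / ((n : ℝ) + 1) := by positivity
    have h2 : 1 / ((n : ℝ) + 1) ≤ 1 := by
      rw [div_le_one (by positivity)]
      have : (0 : ℝ) ≤ n := Nat.cast_nonneg n
      linarith
    constructor <;> linarith
  choose v s hv hs hT using fun n : ℕ => key _ (ha n).1 (ha n).2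
  have hbdd : Bornology.IsBounded (Metric.closedBall (0 : (Fin r → ℝ) × ℝ) (2 * B)) :=
    Metric.isBounded_closedBall
  obtain ⟨⟨v0, s0⟩, -, φ, hφ, hlim⟩ := tendsto_subseq_of_bounded hbdd
    (x := fun n => (v n, s n)) (fun n => by
      rw [Metric.mem_closedBall, dist_zero_right, Prod.norm_def, max_le_iff]
      refine ⟨?_, ?_⟩
      · rw [pi_norm_le_iff_of_nonneg (by positivity)]
        exact fun i => hv n i
      · have := hs n
        rw [Real.norm_eq_abs]
        linarith)
  have hv0 : Filter.Tendsto (fun n => v (φ n)) Filter.atTop (nhds v0) :=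
    (continuous_fst.tendsto _).comp hlim
  have hs0 : Filter.Tendsto (fun n => s (φ n)) Filter.atTop (nhds s0) :=
    (continuous_snd.tendsto _).comp hlim
  have ha0 : Filter.Tendsto (fun n : ℕ => 1 - 1 / ((φ n : ℝ) + 1)) Filter.atTop (nhds 1) := by
    have h1 := (tendsto_one_div_add_atTop_nhds_zero_nat (𝕜 := ℝ)).comp hφ.tendsto_atTop
    have h2 := h1.const_sub 1
    rw [sub_zero] at h2
    exact h2
  have hTc : Continuous T := (LipschitzWith.of_dist_le_mul (K := 1) fun x y => by
    simpa using lip x y).continuous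
  have h1 : Filter.Tendsto (fun n => (1 - 1 / ((φ n : ℝ) + 1)) • v (φ n)) Filter.atTop
      (nhds ((1 : ℝ) • v0)) := ha0.smul hv0
  rw [one_smul] at h1
  have h2 := (hTc.tendsto v0).comp h1
  refine ⟨v0, s0, fun i => ?_⟩
  have h3 := tendsto_pi_nhds.1 h2 i
  have h4 : Filter.Tendsto (fun n => v (φ n) i + s (φ n)) Filter.atTop (nhds (v0 i + s0)) :=
    (tendsto_pi_nhds.1 hv0 i).add hs0
  refine tendsto_nhds_unique h3 (h4.congr fun n => ?_)
  exact (hT (φ n) i).symm

/-- bounded tropically independent families have a point of view in which every member is the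
unique minimizer somewhere -/
theorem exists_unique_min [Nonempty Y] (f : Fin r → Y → ℝ) (B : ℝ)
    (hB : ∀ i j x, f i x - f j x ≤ B) (h : ¬ TropDep f) :
    ∃ (c : Fin r → ℝ) (x : Fin r → Y), ∀ k i, i ≠ k → f k (x k) + c k < f i (x k) + c i := by
  rcases Nat.lt_or_ge r 2 with hr | hr
  · refine ⟨0, fun _ => Classical.arbitrary Y, fun k i hik => ?_⟩
    exfalso
    apply hik
    apply Fin.ext
    omega
  · have hB0 : 0 ≤ B := by
      have := hB ⟨0, by omega⟩ ⟨0, by omega⟩ (Classical.arbitrary Y)
      simpa using this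
    have hne : ∀ i : Fin r, (Finset.univ.erase i).Nonempty := by
      intro i
      rw [← Finset.card_pos, Finset.card_erase_of_mem (Finset.mem_univ _), Finset.card_univ,
        Fintype.card_fin]
      omega
    let hh : Fin r → (Fin r → ℝ) → Y → ℝ := fun i v x =>
      (Finset.univ.erase i).inf' (hne i) fun j => f j x - f i x + v j
    have hh_le : ∀ i v x j, j ≠ i → hh i v x ≤ f j x - f i x + v j := by
      intro i v x j hj
      exact Finset.inf'_le (fun j => f j x - f i x + v j)
        (Finset.mem_erase.2 ⟨hj, Finset.mem_univ _⟩)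
    have hh_ex : ∀ i v x, ∃ j, j ≠ i ∧ hh i v x = f j x - f i x + v j := by
      intro i v x
      obtain ⟨j, hj, h1⟩ := Finset.exists_mem_eq_inf' (hne i) fun j => f j x - f i x + v j
      exact ⟨j, (Finset.mem_erase.1 hj).1, h1⟩
    let T : (Fin r → ℝ) → (Fin r → ℝ) := fun v i => ⨆ x, hh i v x
    have hbdd : ∀ i v, BddAbove (Set.range fun x => hh i v x) := by
      intro i v
      obtain ⟨j, hj⟩ := hne i
      rw [Finset.mem_erase] at hj
      refine ⟨B + v j, ?_⟩
      rintro _ ⟨x, rfl⟩
      have h1 := hh_le i v x j hj.1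
      have h2 := hB j i x
      dsimp only
      linarith
    have hTle : ∀ i v x, hh i v x ≤ T v i := fun i v x => le_ciSup (hbdd i v) x
    obtain ⟨v, s, hv⟩ := eigen hr T B hB0 (by
      intro v t
      funext i
      have h1 : ∀ x, hh i (fun i => v i + t) x = hh i v x + t := by
        intro x
        apply le_antisymm
        · obtain ⟨j, hj, h2⟩ := hh_ex i v x
          have := hh_le i (fun i => v i + t) x j hj
          linarith
        · obtain ⟨j, hj, h2⟩ := hh_ex i (fun i => v i + t) x
          have := hh_le i v x j hj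
          linarith
      show ⨆ x, hh i (fun i => v i + t) x = (⨆ x, hh i v x) + t
      simp only [h1]
      rw [ciSup_add (hbdd i v)]) (by
      intro v w
      rw [dist_pi_le_iff dist_nonneg]
      intro i
      have h1 : ∀ v w : Fin r → ℝ, T v i ≤ T w i + dist v w := by
        intro v w
        refine ciSup_le fun x => ?_
        obtain ⟨j, hj, h2⟩ := hh_ex i w x
        have h3 := hh_le i v x j hj
        have h4 := hTle i w x
        have h5 : v j - w j ≤ dist v w := (le_abs_self _).trans (by
          rw [← Real.dist_eq]; exact dist_le_pi_dist v w j)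
        linarith
      rw [Real.dist_eq, abs_le]
      have h2 := h1 v w
      have h3 := h1 w v
      rw [dist_comm w v] at h3
      constructor <;> linarith) (by
      intro v i j hj
      refine ciSup_le fun x => ?_
      have h1 := hh_le i v x j hj
      have h2 := hB j i x
      linarith) (by
      intro v i
      obtain ⟨j, hj, h1⟩ := hh_ex i v (Classical.arbitrary Y)
      refine ⟨j, hj, ?_⟩
      have h2 := hTle i v (Classical.arbitrary Y)
      have h3 := hB i j (Classical.arbitrary Y)
      linarith)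
    by_cases hs : 0 < s
    · -- every function is somewhere the unique minimizer
      have h1 : ∀ i, ∃ x, v i < hh i v x := by
        intro i
        have h2 : v i < ⨆ x, hh i v x := by
          have := hv i
          change (⨆ x, hh i v x) = _ at this
          linarith
        exact exists_lt_of_lt_ciSup h2
      choose x hx using h1
      refine ⟨v, x, fun k i hik => ?_⟩
      have h2 := hh_le k v (x k) i hik
      have h3 := hx k
      linarith
    · exfalso
      apply h
      refine ⟨v, fun x => ?_⟩
      have : Nonempty (Fin r) := ⟨⟨0, by omega⟩⟩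
      obtain ⟨i, hi⟩ := Finite.exists_min fun i => f i x + v i
      obtain ⟨j, hj, h1⟩ := hh_ex i v x
      have h2 := hTle i v x
      have h3 := hv i
      have h4 := hi j
      refine ⟨i, j, Ne.symm hj, ?_, hi⟩
      linarith

end Eigen

/-! ### upper bound for the tropical rank -/

/-- with bounded differences every finite-valued element has a nonempty fibre -/
theorem fibre_nonempty (g : Fin l → Y → ℝ) (B : ℝ) (hB : ∀ i j x, g i x - g j x ≤ B) {f : Y → ℝ} (hf : Mem g f) : (fibre g f).Nonempty := by
  classical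
  obtain ⟨J, c, ⟨j0, hj0⟩, hJ⟩ := hf
  refine ⟨fun j => if j ∈ J then c j else B + c j0, fun x => ⟨?_, ?_⟩⟩
  · obtain ⟨j, hj, h1⟩ := (hJ x).1
    refine ⟨j, ?_⟩
    dsimp only
    rw [if_pos (by exact hj)]
    exact h1
  · rintro _ ⟨j, rfl⟩
    dsimp only
    split_ifs with h
    · exact (hJ x).2 ⟨j, h, rfl⟩
    · have h1 := (hJ x).2 ⟨j0, hj0, rfl⟩
      have h2 := hB j0 j x
      dsimp only at h1
      linarith

theorem polyDim_le {r : ℕ} (g : Fin l → Y → ℝ) (f : Y → ℝ) (x : Fin r → Y)
    (hgen : ∀ k k' j, k ≠ k' → f (x k) - g j (x k) ≠ f (x k') - g j (x k')) :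
    polyDim (fibre g f) ≤ l - r := by
  classical
  unfold polyDim
  by_cases hne : {n | ∃ C ⊆ fibre g f, C.Nonempty ∧ Convex ℝ C ∧
    n = Module.finrank ℝ (vectorSpan ℝ C)}.Nonempty
  swap
  · rw [Set.not_nonempty_iff_eq_empty] at hne
    rw [hne, csSup_empty]
    exact Nat.zero_le _
  refine csSup_le hne ?_
  rintro _ ⟨C, hC, ⟨c0, hc0⟩, hconv, rfl⟩
  -- for each `k` there is a coordinate that is constant on `C`
  have key : ∀ k : Fin r, ∃ j, ∀ c ∈ C, c j = f (x k) - g j (x k) := by
    intro k
    by_contra hcon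
    push Not at hcon
    have hge : ∀ c ∈ C, ∀ j, f (x k) - g j (x k) ≤ c j := by
      intro c hc j
      have := (hC hc (x k)).2 ⟨j, rfl⟩
      dsimp only at this
      linarith
    choose cc hcc hcc' using hcon
    have hl : 0 < l := by
      rcases Nat.eq_zero_or_pos l with h | h
      · subst h
        obtain ⟨j, _⟩ := (hC hc0 (x k)).1
        exact j.elim0
      · exact h
    have hl' : (0 : ℝ) < l := by exact_mod_cast hl
    have hav : (∑ j : Fin l, (1 / (l : ℝ)) • cc j) ∈ C := by
      refine hconv.sum_mem (fun _ _ => by positivity) ?_ fun j _ => hcc j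
      rw [Finset.sum_const, Finset.card_univ, Fintype.card_fin, nsmul_eq_mul]
      field_simp
    obtain ⟨j, hj⟩ := (hC hav (x k)).1
    dsimp only at hj
    rw [Finset.sum_apply] at hj
    have h1 : f (x k) - g j (x k) < ∑ i : Fin l, ((1 / (l : ℝ)) • cc i) j := by
      have h2 : f (x k) - g j (x k) = ∑ i : Fin l, (1 / (l : ℝ)) * (f (x k) - g j (x k)) := by
        rw [Finset.sum_const, Finset.card_univ, Fintype.card_fin, nsmul_eq_mul]
        field_simp
      rw [h2]
      refine Finset.sum_lt_sum (fun i _ => ?_) ⟨j, Finset.mem_univ _, ?_⟩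
      · rw [Pi.smul_apply, smul_eq_mul]
        exact mul_le_mul_of_nonneg_left (hge _ (hcc i) j) (by positivity)
      · rw [Pi.smul_apply, smul_eq_mul]
        refine mul_lt_mul_of_pos_left ?_ (by positivity)
        exact lt_of_le_of_ne (hge _ (hcc j) j) (Ne.symm (hcc' j))
    linarith
  choose jj hjj using key
  have hinj : Function.Injective jj := by
    intro k k' h
    by_contra hne
    have h1 := hjj k c0 hc0
    have h2 := hjj k' c0 hc0
    rw [← h] at h2
    exact hgen k k' (jj k) hne (by rw [← h1, ← h2])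
  let F : (Fin l → ℝ) →ₗ[ℝ] (Fin r → ℝ) := LinearMap.funLeft ℝ ℝ jj
  have hF : Function.Surjective F := LinearMap.funLeft_surjective_of_injective ℝ ℝ jj hinj
  have h1 := LinearMap.finrank_range_add_finrank_ker F
  rw [LinearMap.range_eq_top.2 hF, finrank_top, Module.finrank_fin_fun,
    Module.finrank_fin_fun] at h1
  have h2 : vectorSpan ℝ C ≤ LinearMap.ker F := by
    unfold vectorSpan
    rw [Submodule.span_le]
    rintro _ ⟨a, ha, b, hb, rfl⟩
    rw [SetLike.mem_coe, LinearMap.mem_ker]
    funext k
    show (a - b) (jj k) = 0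
    rw [Pi.sub_apply, hjj k a ha, hjj k b hb, sub_self]
  have h3 := Submodule.finrank_mono h2
  omega

theorem troprank_le (g : Fin l → Y → ℝ) (B : ℝ) (hB : ∀ i j x, g i x - g j x ≤ B)
    {r : ℕ} (F : Fin r → Y → ℝ) (hF : ∀ i, Mem g (F i)) (hind : ¬ TropDep F) :
    r ≤ mdim g := by
  classical
  rcases Nat.eq_zero_or_pos r with rfl | hr
  · exact Nat.zero_le _
  have hY : Nonempty Y := by
    by_contra hY
    exact hind ⟨0, fun x => absurd ⟨x⟩ hY⟩
  have hne : Nonempty (Fin r) := ⟨⟨0, hr⟩⟩
  choose b hb using fun i => fibre_nonempty g B hB (hF i)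
  have hble : ∀ i j x, F i x ≤ g j x + b i j := fun i j x => (hb i x).2 ⟨j, rfl⟩
  have hbex : ∀ i x, ∃ j, F i x = g j x + b i j := by
    intro i x
    obtain ⟨j, hj⟩ := (hb i x).1
    exact ⟨j, hj.symm⟩
  -- bounded differences of the `F i`
  have hl : Nonempty (Fin l) := by
    obtain ⟨j, _⟩ := hbex ⟨0, hr⟩ (Classical.arbitrary Y)
    exact ⟨j⟩
  obtain ⟨B', hB'⟩ : ∃ B', ∀ i j x, F i x - F j x ≤ B' := by
    obtain ⟨p, hp⟩ := Finite.exists_max fun p : Fin r × Fin r × Fin l =>
      b p.1 p.2.2 - b p.2.1 p.2.2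
    refine ⟨b p.1 p.2.2 - b p.2.1 p.2.2, fun i j x => ?_⟩
    obtain ⟨k, hk⟩ := hbex j x
    have h1 := hble i k x
    have h2 := hp (i, j, k)
    dsimp only at h2
    linarith
  obtain ⟨lam, x, hx⟩ := exists_unique_min F B' hB' hind
  -- the coefficients of the minimum
  obtain ⟨c, hcle, hcex⟩ : ∃ c : Fin l → ℝ, (∀ i j, c j ≤ b i j + lam i) ∧
      ∀ j, ∃ i, c j = b i j + lam i := by
    refine ⟨fun j => Finset.univ.inf' ⟨⟨0, hr⟩, Finset.mem_univ _⟩ fun i => b i j + lam i,
      fun i j => ?_, fun j => ?_⟩
    · exact Finset.inf'_le _ (Finset.mem_univ i)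
    · obtain ⟨i, _, h⟩ := Finset.exists_mem_eq_inf' (⟨⟨0, hr⟩, Finset.mem_univ _⟩ :
        (Finset.univ : Finset (Fin r)).Nonempty) fun i => b i j + lam i
      exact ⟨i, h⟩
  -- the values
  let A : Fin r → ℝ := fun k => F k (x k) + lam k
  have hA : ∀ k i, A k ≤ F i (x k) + lam i := by
    intro k i
    by_cases h : i = k
    · rw [h]
    · exact (hx k i h).le
  have hAle : ∀ k j, A k ≤ g j (x k) + c j := by
    intro k j
    obtain ⟨i, hi⟩ := hcex j
    have h1 := hA k i
    have h2 := hble i j (x k)
    linarith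
  choose jj hjj using fun k => hbex k (x k)
  have hcj : ∀ k, c (jj k) = b k (jj k) + lam k := by
    intro k
    have h1 := hcle k (jj k)
    have h2 := hAle k (jj k)
    have h3 := hjj k
    apply le_antisymm h1
    show _ ≤ _
    change F k (x k) + lam k ≤ _ at h2
    linarith
  have hAeq : ∀ k, g (jj k) (x k) + c (jj k) = A k := by
    intro k
    rw [hcj]
    show _ = F k (x k) + lam k
    rw [hjj k]
    ring
  have hgt : ∀ k k', k' ≠ k → A k < g (jj k') (x k) + c (jj k') := by
    intro k k' h
    have h1 := hx k k' h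
    have h2 := hble k' (jj k') (x k)
    rw [hcj]
    show F k (x k) + lam k < _
    linarith
  have hjinj : Function.Injective jj := by
    intro k k' h
    by_contra hne
    have h1 := hgt k k' (Ne.symm hne)
    rw [← h, hAeq] at h1
    exact lt_irrefl _ h1
  -- the gap
  obtain ⟨δ, hδ, hgap⟩ : ∃ δ > 0, ∀ k k', k' ≠ k → A k + δ ≤ g (jj k') (x k) + c (jj k') := by
    by_cases hP : (Finset.univ.filter fun p : Fin r × Fin r => p.2 ≠ p.1).Nonempty
    · obtain ⟨p, hp, hpm⟩ := Finset.exists_min_image _
        (fun p : Fin r × Fin r => g (jj p.2) (x p.1) + c (jj p.2) - A p.1) hP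
      rw [Finset.mem_filter] at hp
      refine ⟨g (jj p.2) (x p.1) + c (jj p.2) - A p.1, ?_, fun k k' h => ?_⟩
      · have := hgt p.1 p.2 hp.2
        linarith
      · have := hpm (k, k') (Finset.mem_filter.2 ⟨Finset.mem_univ _, h⟩)
        dsimp only at this
        linarith
    · refine ⟨1, one_pos, fun k k' h => ?_⟩
      exact absurd ⟨(k, k'), Finset.mem_filter.2 ⟨Finset.mem_univ _, h⟩⟩ hP
  -- a generic small parameter
  have hr' : (0 : ℝ) < r + 1 := by positivity
  let bad : Finset ℝ := Finset.univ.image fun p : Fin r × Fin r × Fin l =>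
    ((A p.1 - g p.2.2 (x p.1)) - (A p.2.1 - g p.2.2 (x p.2.1))) / ((p.1 : ℝ) - p.2.1)
  obtain ⟨t, ht, htb⟩ := (Set.Ioo_infinite (show (0 : ℝ) < δ / (r + 1) by
    exact div_pos hδ hr')).exists_notMem_finset bad
  have ht0 : 0 < t := ht.1
  have ht1 : t * (r + 1) < δ := by
    have := ht.2
    rwa [lt_div_iff₀ hr'] at this
  let ε : Fin r → ℝ := fun k => t * ((k : ℝ) + 1)
  have hε0 : ∀ k, 0 < ε k := fun k => by
    show 0 < t * ((k : ℝ) + 1)
    positivity
  have hε1 : ∀ k, ε k < δ := by
    intro k
    refine lt_of_le_of_lt ?_ ht1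
    apply mul_le_mul_of_nonneg_left _ ht0.le
    have : ((k : ℕ) : ℝ) ≤ r := by exact_mod_cast k.2.le
    linarith
  -- the modified coefficients
  let c' : Fin l → ℝ := fun j => if h : ∃ k, jj k = j then c j - ε h.choose else c j
  have hc'1 : ∀ k, c' (jj k) = c (jj k) - ε k := by
    intro k
    have h : ∃ k', jj k' = jj k := ⟨k, rfl⟩
    show (if h : ∃ k', jj k' = jj k then c (jj k) - ε h.choose else c (jj k)) = _
    rw [dif_pos h, hjinj h.choose_spec]
  have hc'2 : ∀ j, (∀ k, jj k ≠ j) → c' j = c j := by
    intro j hj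
    have h : ¬ ∃ k', jj k' = j := fun ⟨k, hk⟩ => hj k hk
    exact dif_neg h
  -- the new function
  obtain ⟨f', hf'⟩ : ∃ f' : Y → ℝ, ∀ y, IsLeast (Set.range fun j => g j y + c' j) (f' y) := by
    have : ∀ y, ∃ v, IsLeast (Set.range fun j => g j y + c' j) v := by
      intro y
      obtain ⟨j, hj⟩ := Finite.exists_min fun j => g j y + c' j
      refine ⟨_, ⟨j, rfl⟩, ?_⟩
      rintro _ ⟨i, rfl⟩
      exact hj i
    choose f' hf' using this
    exact ⟨f', hf'⟩
  have hval : ∀ k, f' (x k) = A k - ε k := by
    intro k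
    apply le_antisymm
    · have := (hf' (x k)).2 ⟨jj k, rfl⟩
      dsimp only at this
      rw [hc'1] at this
      have := hAeq k
      linarith
    · obtain ⟨j, hj⟩ := (hf' (x k)).1
      dsimp only at hj
      rw [← hj]
      by_cases h : ∃ k', jj k' = j
      · obtain ⟨k', rfl⟩ := h
        rw [hc'1]
        by_cases hkk : k' = k
        · subst hkk
          have := hAeq k'
          linarith
        · have h1 := hgap k k' hkk
          have h2 := hε1 k'
          have h3 := hε0 k
          linarith
      · rw [hc'2 j fun k' hk' => h ⟨k', hk'⟩]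
        have h1 := hAle k j
        have h3 := hε0 k
        linarith
  have hpd := polyDim_le g f' x (by
    intro k k' j hkk h
    apply htb
    rw [Finset.mem_image]
    refine ⟨(k, k', j), Finset.mem_univ _, ?_⟩
    rw [hval, hval] at h
    have h1 : ((k : ℝ) - (k' : ℝ)) ≠ 0 := by
      rw [sub_ne_zero]
      intro h2
      apply hkk
      apply Fin.ext
      exact_mod_cast h2
    dsimp only
    rw [div_eq_iff h1]
    change A k - t * ((k : ℝ) + 1) - g j (x k) = A k' - t * ((k' : ℝ) + 1) - g j (x k') at h
    linarith)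
  have hrl : r ≤ l := by
    have := Fintype.card_le_of_injective jj hjinj
    simpa using this
  refine le_trans ?_ (le_csSup (mdim_bdd g) ⟨f', ⟨c', hf'⟩, rfl⟩)
  omega

/-- Equality for bounded differences. -/
theorem troprank_eq (g : Fin l → Y → ℝ) (B : ℝ) (hB : ∀ i j x, g i x - g j x ≤ B) :
    troprank g = mdim g := by
  apply le_antisymm
  · unfold troprank
    refine iSup₂_le ?_
    rintro r ⟨F, -, h2, h3⟩
    exact_mod_cast troprank_le g B hB F h2 h3
  · exact mdim_le_troprank g

/-- Infinite tropical rank for unbounded differences. -/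
theorem troprank_top (g : Fin l → Y → ℝ) (h : ¬ ∃ B : ℝ, ∀ i j x, g i x - g j x ≤ B) :
    troprank g = ⊤ := by
  have h1 : ∃ i j, ∀ B : ℝ, ∃ x, B < g i x - g j x := by
    by_contra hcon
    push Not at hcon
    choose B hB using hcon
    apply h
    by_cases hl : Nonempty (Fin l)
    · obtain ⟨p, hp⟩ := Finite.exists_max fun p : Fin l × Fin l => B p.1 p.2
      refine ⟨B p.1 p.2, fun i j x => (hB i j x).trans (hp (i, j))⟩
    · exact ⟨0, fun i => absurd ⟨i⟩ hl⟩
  obtain ⟨i, j, hij⟩ := h1
  have hY : Nonempty Y := (hij 0).nonempty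
  rw [ENat.eq_top_iff_forall_ge]
  intro m
  -- the family: `g j` and the functions `g i + t`
  let f : Fin (m + 1) → Y → ℝ := fun k => if k = 0 then g j else fun x => g i x + (k : ℕ)
  have hf0 : f 0 = g j := if_pos rfl
  have hfk : ∀ k, k ≠ 0 → f k = fun x => g i x + (k : ℕ) := fun k hk => if_neg hk
  have hinj : Function.Injective f := by
    have key : ∀ k, k ≠ 0 → f 0 ≠ f k := by
      intro k hk h1
      rw [hf0, hfk k hk] at h1
      obtain ⟨x, hx⟩ := hij 0
      have h2 := congrFun h1 x
      have : (0 : ℝ) ≤ (k : ℕ) := Nat.cast_nonneg _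
      linarith
    intro k k' h1
    by_cases hk : k = 0
    · subst hk
      by_contra hne
      exact key k' (Ne.symm hne) h1
    · by_cases hk' : k' = 0
      · subst hk'
        exact absurd h1.symm (key k hk)
      · rw [hfk k hk, hfk k' hk'] at h1
        have h2 := congrFun h1 (Classical.arbitrary Y)
        apply Fin.ext
        have h3 : ((k : ℕ) : ℝ) = (k' : ℕ) := by linarith
        exact_mod_cast h3
  have hmem : ∀ k, Mem g (f k) := by
    intro k
    by_cases hk : k = 0
    · subst hk
      rw [hf0]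
      exact ⟨{j}, 0, Finset.singleton_nonempty _, fun x => by simp⟩
    · rw [hfk k hk]
      exact ⟨{i}, fun _ => (k : ℕ), Finset.singleton_nonempty _, fun x => by simp⟩
  have hind : ¬ TropDep f := by
    rintro ⟨c, hc⟩
    obtain ⟨M, hM⟩ : ∃ M : ℝ, ∀ k, c 0 - c k ≤ M := by
      obtain ⟨p, hp⟩ := Finite.exists_max fun k => c 0 - c k
      exact ⟨_, hp⟩
    obtain ⟨x, hx⟩ := hij M
    have hlt : ∀ k, k ≠ 0 → f 0 x + c 0 < f k x + c k := by
      intro k hk
      rw [hf0, hfk k hk]
      have h1 := hM k
      have : (0 : ℝ) ≤ (k : ℕ) := Nat.cast_nonneg _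
      linarith
    obtain ⟨a, b, hab, h1, h2⟩ := hc x
    by_cases ha : a = 0
    · subst ha
      have := hlt b (Ne.symm hab)
      linarith
    · have := hlt a ha
      have := h2 0
      linarith
  refine le_trans ?_ (le_troprank f hinj hmem hind)
  exact_mod_cast Nat.le_succ m

end Q138.TropRank
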